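import Pool.Agent.Work.MP_91e6de_nt.BL.Stmts

/-! Bundle of small proof modules (one section per former module). -/

section

set_option autoImplicit false

namespace Pool.Agent.Work.MP_91e6de_nt.BL

open MvPolynomial Height Height.AdmissibleAbsValues Filter Topology

namespace AuxIt

variable {K : Type} [Field K]

theorem it_add (f : Fin 2 → Pol K) (m : ℕ) :
    ∀ n i, it f (n + m) i = aeval (it f m) (it f n i)
  | 0, i => by
    rw [Nat.zero_add]
    show it f m i = aeval (it f m) (X i)
    rw [aeval_X]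
  | n + 1, i => by
    rw [show n + 1 + m = (n + m) + 1 by omega]
    show aeval (it f (n + m)) (f i) = aeval (it f m) (aeval (it f n) (f i))
    have h : (aeval (it f (n + m)) : Pol K →ₐ[K] Pol K) =
        (aeval (it f m) : Pol K →ₐ[K] Pol K).comp (aeval (it f n)) := by
      apply algHom_ext
      intro j
      rw [aeval_X, AlgHom.comp_apply, aeval_X]
      exact it_add f m n j
    rw [h]
    rfl

theorem eval_orb (f : Fin 2 → Pol K) (P : Fin 2 → K) (n : ℕ) :
    ∀ m i, eval (orb f P n) (it f m i) = orb f P (n + m) i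
  | 0, i => by
    show eval (orb f P n) (X i) = orb f P n i
    rw [eval_X]
  | m + 1, i => by
    show eval (orb f P n) (aeval (it f m) (f i)) = eval (orb f P (n + m)) (f i)
    have h : (eval (orb f P n)).comp
        (RingHomClass.toRingHom (aeval (it f m) : Pol K →ₐ[K] Pol K)) =
        eval (orb f P (n + m)) := by
      apply ringHom_ext
      · intro c
        simp
      · intro j
        simp only [RingHom.comp_apply, RingHom.coe_coe, aeval_X, eval_X]
        exact eval_orb f P n m j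
    have h2 := congrArg (fun φ : Pol K →+* K => φ (f i)) h
    simpa using h2

end AuxIt

theorem pr_It : S_It := fun _ _ f => ⟨fun n m i => AuxIt.it_add f m n i,
  fun P n m i => AuxIt.eval_orb f P n m i⟩

end Pool.Agent.Work.MP_91e6de_nt.BL

end

section

set_option autoImplicit false

/-!
# MP_91e6de_nt, block BL: the height inequality along the orbit
-/

namespace Pool.Agent.Work.MP_91e6de_nt.BL

open MvPolynomial Height Height.AdmissibleAbsValues Filter Topology

namespace AuxKey

theorem orb_orb {K : Type} [Field K] (f : Fin 2 → Pol K) (P : Fin 2 → K) (n m : ℕ) :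
    orb f (orb f P n) m = orb f P (n + m) := by
  induction m with
  | zero => rfl
  | succ m ih =>
    have h : orb f P (n + (m + 1)) = fun i => eval (orb f P (n + m)) (f i) := rfl
    rw [h, ← ih]
    rfl

end AuxKey

open AuxKey in
theorem pr_Key (h1 : S_Key1) (h2 : S_Int) (h3 : S_Sel) (h4 : S_H1) : S_Key := by
  intro K _ _ f d hd hdg hB P
  obtain ⟨T, hTa, hTn⟩ := h2 K f P
  obtain ⟨Q, q, j, hcop, hdec⟩ := hB (T.card + 1)
  obtain ⟨κ, hκ, hsel⟩ := h3 K T (T.card + 1) Q q (Nat.lt_succ_self _) (fun i => (hdec i).hom) hcop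
  have hd0 : (0 : ℝ) < d := by
    have : 0 < d := by omega
    exact_mod_cast this
  have hd1 : (1 : ℝ) ≤ d := by
    have : 1 ≤ d := by omega
    exact_mod_cast this
  set m₀ : ℕ := Finset.univ.sup j with hm₀
  refine ⟨1 / (8 * ((d : ℝ) ^ m₀) ^ 2), m₀, by positivity, ?_⟩
  intro m hm
  have hj : ∀ i, j i ≤ m₀ := fun i => Finset.le_sup (f := j) (Finset.mem_univ i)
  have hk := fun i => h1 K f d (Q i) (q i) (j i) m hd hdg (hdec i) ((hj i).trans hm) T κ hTa hκ
  choose R C hR hRC using hk
  refine ⟨∏ i, R i, ∑ i, |C i|, Finset.prod_ne_zero_iff.2 fun i _ => hR i, ?_⟩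
  intro n hn
  rw [map_prod, Finset.prod_ne_zero_iff] at hn
  obtain ⟨i, hi⟩ := hsel (orb f P n)
  have key := hRC i (orb f P n) (fun v hv hvT => ⟨fun l => hTn v hv hvT n l, fun l => by
    rw [orb_orb]; exact hTn v hv hvT (n + m) l⟩) hi (hn i (Finset.mem_univ i))
  rw [orb_orb] at key
  have hC : C i ≤ ∑ i, |C i| :=
    (le_abs_self _).trans (Finset.single_le_sum (f := fun i => |C i|) (fun l _ => abs_nonneg _)
      (Finset.mem_univ i))
  have hP0 : 0 ≤ hP (orb f P n) := (h4 K (orb f P n)).1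
  have hcoef : 1 / (8 * ((d : ℝ) ^ m₀) ^ 2) ≤ (q i : ℝ) / (8 * ((d : ℝ) ^ j i) ^ 2) := by
    have e1 : (1 : ℝ) ≤ q i := by exact_mod_cast (hdec i).q1
    have e2 : (d : ℝ) ^ j i ≤ (d : ℝ) ^ m₀ := pow_le_pow_right₀ hd1 (hj i)
    have e3 : (0 : ℝ) < (d : ℝ) ^ j i := by positivity
    have e4 : 8 * ((d : ℝ) ^ j i) ^ 2 ≤ 8 * ((d : ℝ) ^ m₀) ^ 2 := by
      have := pow_le_pow_left₀ e3.le e2 2
      linarith
    calc 1 / (8 * ((d : ℝ) ^ m₀) ^ 2) ≤ 1 / (8 * ((d : ℝ) ^ j i) ^ 2) :=
          one_div_le_one_div_of_le (by positivity) e4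
      _ ≤ (q i : ℝ) / (8 * ((d : ℝ) ^ j i) ^ 2) :=
          div_le_div_of_nonneg_right e1 (by positivity)
  have hfin : 1 / (8 * ((d : ℝ) ^ m₀) ^ 2) * (d : ℝ) ^ m * hP (orb f P n) ≤
      (q i : ℝ) / (8 * ((d : ℝ) ^ j i) ^ 2) * (d : ℝ) ^ m * hP (orb f P n) :=
    mul_le_mul_of_nonneg_right (mul_le_mul_of_nonneg_right hcoef (by positivity)) hP0
  linarith

end Pool.Agent.Work.MP_91e6de_nt.BL

end

section

set_option autoImplicit false

/-!
# MP_91e6de_nt, block BL: the height inequality for one form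
-/

namespace Pool.Agent.Work.MP_91e6de_nt.BL

open MvPolynomial Height Height.AdmissibleAbsValues Filter Topology

namespace AuxKey1

variable {K : Type} [Field K]

theorem one_le_nn (v : AbsoluteValue K ℝ) (P : Fin 2 → K) : 1 ≤ nn v P := le_max_right _ _

theorem le_nn (v : AbsoluteValue K ℝ) (P : Fin 2 → K) (i : Fin 2) : v (P i) ≤ nn v P := by
  fin_cases i
  · exact (le_max_left _ _).trans (le_max_left _ _)
  · exact (le_max_right _ _).trans (le_max_left _ _)

theorem nn_eq_one (v : AbsoluteValue K ℝ) (P : Fin 2 → K) (h : ∀ i, v (P i) ≤ 1) :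
    nn v P = 1 := by
  unfold nn
  exact max_eq_right (max_le (h 0) (h 1))

end AuxKey1

open AuxKey1 in
theorem pr_Key1 (h1 : S_AuxF) (h2 : S_Loc) (h3 : S_PFH) (h4 : S_IntR) (h5 : S_It) : S_Key1 := by
  intro K _ _ f d Q q j m hd hdg hDec hjm T κ hT hκ
  classical
  obtain ⟨R, a, i, i', c, hR, ha, heq⟩ := h1 K f d Q q j m hd hdg hDec hjm
  set s : ℕ := 32 * (d ^ j) ^ 2 * d ^ m + 4 * q * d ^ m with hsdef
  set s' : ℕ := 32 * q * (d ^ j) ^ 2 * d ^ m with hs'def
  set t : ℕ := 32 * q * (d ^ j) ^ 2 with htdef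
  have hqs : q * s = s' + 4 * q ^ 2 * d ^ m := by
    rw [hsdef, hs'def]
    ring
  have hs' : s' ≤ q * s := by
    rw [hqs]
    exact Nat.le_add_right _ _
  have hw : q * s - s' = 4 * q ^ 2 * d ^ m := by
    rw [hqs]
    exact Nat.add_sub_cancel_left _ _
  choose Bf hBf1 hBf using fun v : AbsoluteValue K ℝ =>
    h2 K v Q R (it f m i' + C c) (it f m i) a q s s' t κ hκ ha hs' heq
  obtain ⟨TR, hTR⟩ := h4 K R
  have hBv0 : ∀ v : AbsoluteValue K ℝ, 0 ≤ Bf v * (1 + v c) ^ t := by
    intro v
    have h6 := hBf1 v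
    have h7 := v.nonneg c
    positivity
  set B : ℝ := 1 + ∑ v ∈ T ∪ TR, Bf v * (1 + v c) ^ t with hB
  have hB1 : 1 ≤ B := by
    have := Finset.sum_nonneg fun v (_ : v ∈ T ∪ TR) => hBv0 v
    linarith
  obtain ⟨C₁, hC₁⟩ := h3 K (T ∪ TR) B (q * s - s') t hB1
  refine ⟨R, C₁ / t, hR, fun P hint hlow hRP => ?_⟩
  have horb : ∀ k : Fin 2, eval P (it f m k) = orb f P m k := by
    intro k
    have h6 := (h5 K f).2 P 0 m k
    rw [Nat.zero_add] at h6
    exact h6
  -- the hypothesis on the size of `Q` at all places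
  have hall : ∀ v, IsPl v → κ * nn v P ^ q ≤ v (eval P Q) ∨ nn v P = 1 := by
    intro v hv
    by_cases hvT : v ∈ T
    · exact hlow v hvT
    · rcases hv with hv | hv
      · exact absurd (hT v hv) hvT
      · exact Or.inr (nn_eq_one v P (hint v hv hvT).1)
  have hM : ∀ v : AbsoluteValue K ℝ,
      max 1 (max (v (eval P (it f m i' + C c))) (v (eval P (it f m i)))) ≤
        (1 + v c) * nn v (orb f P m) := by
    intro v
    have hn := one_le_nn v (orb f P m)
    have hc := v.nonneg c
    refine max_le ?_ (max_le ?_ ?_)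
    · nlinarith
    · rw [eval_add, eval_C, horb]
      refine (v.add_le _ _).trans ?_
      have := le_nn v (orb f P m) i'
      nlinarith
    · rw [horb]
      have := le_nn v (orb f P m) i
      nlinarith
  have hloc : ∀ v, IsPl v → v (eval P R) * nn v P ^ (q * s - s') ≤
      Bf v * (1 + v c) ^ t * nn v (orb f P m) ^ t := by
    intro v hv
    refine (hBf v P (hall v hv)).trans ?_
    rw [mul_assoc, ← mul_pow]
    have h6 := hBf1 v
    apply mul_le_mul_of_nonneg_left _ (by linarith)
    exact pow_le_pow_left₀ (le_trans zero_le_one (le_max_left _ _)) (hM v) t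
  have hout : ∀ v ∈ nonarchAbsVal (K := K), v ∉ T ∪ TR →
      v (eval P R) * nn v P ^ (q * s - s') ≤ nn v (orb f P m) ^ t := by
    intro v hv hvT
    rw [Finset.mem_union, not_or] at hvT
    have h6 := hint v hv hvT.1
    have h7 := hTR v hv hvT.2 P
    rw [nn_eq_one v P h6.1, one_pow] at h7
    rw [nn_eq_one v P h6.1, nn_eq_one v _ h6.2, one_pow, one_pow, mul_one]
    exact h7
  have hfin := hC₁ (eval P R) P (orb f P m) hRP (by
    intro v hv
    have hpos : 0 ≤ nn v (orb f P m) ^ t := by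
      have := one_le_nn v (orb f P m)
      positivity
    by_cases hvT : v ∈ T ∪ TR
    · refine (hloc v hv).trans ?_
      apply mul_le_mul_of_nonneg_right _ hpos
      have := Finset.single_le_sum (fun v _ => hBv0 v) hvT
      linarith
    · have hvn : v ∈ nonarchAbsVal (K := K) := by
        rcases hv with hv | hv
        · exact absurd (Finset.mem_union_left _ (hT v hv)) hvT
        · exact hv
      refine (hout v hvn hvT).trans ?_
      exact le_mul_of_one_le_left hpos hB1) hout
  rw [hw] at hfin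
  have hq : (0 : ℝ) < q := by exact_mod_cast hDec.q1
  have hd0 : (0 : ℝ) < d := by
    have : 0 < d := by omega
    exact_mod_cast this
  have ht : (t : ℝ) = 32 * q * ((d : ℝ) ^ j) ^ 2 := by
    rw [htdef]
    push_cast
    ring
  have ht0 : (0 : ℝ) < t := by
    rw [ht]
    positivity
  have hcast : ((4 * q ^ 2 * d ^ m : ℕ) : ℝ) = t * ((q : ℝ) / (8 * ((d : ℝ) ^ j) ^ 2) *
      (d : ℝ) ^ m) := by
    rw [ht]
    push_cast
    field_simp
    ring
  rw [hcast] at hfin
  have hC : (C₁ : ℝ) = t * (C₁ / t) := by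
    field_simp
  rw [hC, mul_assoc, ← mul_add] at hfin
  exact le_of_mul_le_mul_left hfin ht0

end Pool.Agent.Work.MP_91e6de_nt.BL

end

section

set_option autoImplicit false

/-!
# MP_91e6de_nt, block BL: the local inequality from the auxiliary polynomial
-/

namespace Pool.Agent.Work.MP_91e6de_nt.BL

open MvPolynomial Height Height.AdmissibleAbsValues Filter Topology

namespace AuxLoc

theorem nn_ge {K : Type} [Field K] (v : AbsoluteValue K ℝ) (P : Fin 2 → K) : 1 ≤ nn v P :=
  le_max_right _ _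

theorem sum_le {K : Type} [Field K] (v : AbsoluteValue K ℝ) (n : ℕ) (f : ℕ → K) :
    v (∑ k ∈ Finset.range n, f k) ≤ ∑ k ∈ Finset.range n, v (f k) := by
  induction n with
  | zero => simp
  | succ n ih =>
    rw [Finset.sum_range_succ, Finset.sum_range_succ]
    exact (v.add_le _ _).trans (by linarith)

end AuxLoc

open AuxLoc in
theorem pr_Loc (h : S_Bd) : S_Loc := by
  intro K _ v Q R G₁ G₂ a q s s' t κ hκ ha hs hQ
  choose Ba hBa1 hBa using fun k => h K v (a k)
  obtain ⟨BR, hBR1, hBR⟩ := h K v R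
  set S : ℝ := ∑ k ∈ Finset.range (t + 1), Ba k with hS
  have hS0 : 0 ≤ S := Finset.sum_nonneg fun k _ => by linarith [hBa1 k]
  refine ⟨max BR (S / κ ^ s), hBR1.trans (le_max_left _ _), ?_⟩
  intro P hP
  set n := nn v P with hn
  have hn1 : 1 ≤ n := nn_ge v P
  have hn0 : 0 < n := by linarith
  set M : ℝ := max 1 (max (v (eval P G₁)) (v (eval P G₂))) with hM
  have hM1 : 1 ≤ M := le_max_left _ _
  have hMt : 1 ≤ M ^ t := one_le_pow₀ hM1
  have hM0 : 0 ≤ M ^ t := by linarith
  rcases hP with hP | hP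
  · have h1 : κ ^ s * n ^ (q * s) * v (eval P R) ≤ S * n ^ s' * M ^ t := by
      calc κ ^ s * n ^ (q * s) * v (eval P R) = (κ * n ^ q) ^ s * v (eval P R) := by
            rw [mul_pow, ← pow_mul]
        _ ≤ v (eval P Q) ^ s * v (eval P R) := by
            apply mul_le_mul_of_nonneg_right _ (v.nonneg _)
            exact pow_le_pow_left₀ (by positivity) hP s
        _ = v (eval P (Q ^ s * R)) := by
            rw [map_mul, map_pow, map_mul, map_pow]
        _ = v (∑ k ∈ Finset.range (t + 1),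
              eval P (a k) * eval P G₁ ^ (t - k) * eval P G₂ ^ k) := by
            rw [hQ, map_sum]
            simp only [map_mul, map_pow]
        _ ≤ ∑ k ∈ Finset.range (t + 1),
              v (eval P (a k) * eval P G₁ ^ (t - k) * eval P G₂ ^ k) := sum_le v _ _
        _ ≤ ∑ k ∈ Finset.range (t + 1), Ba k * (n ^ s' * M ^ t) := by
            refine Finset.sum_le_sum fun k hk => ?_
            rw [Finset.mem_range] at hk
            rw [map_mul, map_mul, map_pow, map_pow]
            have e : M ^ t = M ^ (t - k) * M ^ k := by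
              rw [← pow_add]
              congr 1
              omega
            have h2 : v (eval P (a k)) ≤ Ba k * n ^ s' := by
              refine (hBa k P).trans ?_
              apply mul_le_mul_of_nonneg_left _ (by linarith [hBa1 k])
              exact pow_le_pow_right₀ hn1 (ha k)
            have h3 : v (eval P G₁) ^ (t - k) ≤ M ^ (t - k) :=
              pow_le_pow_left₀ (v.nonneg _) ((le_max_left _ _).trans (le_max_right _ _)) _
            have h4 : v (eval P G₂) ^ k ≤ M ^ k :=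
              pow_le_pow_left₀ (v.nonneg _) ((le_max_right _ _).trans (le_max_right _ _)) _
            have hB0 : 0 ≤ Ba k * n ^ s' := mul_nonneg (by linarith [hBa1 k]) (by positivity)
            calc v (eval P (a k)) * v (eval P G₁) ^ (t - k) * v (eval P G₂) ^ k
                ≤ (Ba k * n ^ s') * M ^ (t - k) * M ^ k := by
                  apply mul_le_mul _ h4 (pow_nonneg (v.nonneg _) _)
                    (mul_nonneg hB0 (by positivity))
                  exact mul_le_mul h2 h3 (pow_nonneg (v.nonneg _) _) hB0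
              _ = Ba k * (n ^ s' * M ^ t) := by rw [e]; ring
        _ = S * n ^ s' * M ^ t := by rw [← Finset.sum_mul, hS]; ring
    have e2 : n ^ (q * s) = n ^ (q * s - s') * n ^ s' := by
      rw [← pow_add]
      congr 1
      omega
    rw [e2] at h1
    have h5 : κ ^ s * (v (eval P R) * n ^ (q * s - s')) * n ^ s' ≤ (S * M ^ t) * n ^ s' := by
      calc κ ^ s * (v (eval P R) * n ^ (q * s - s')) * n ^ s'
          = κ ^ s * (n ^ (q * s - s') * n ^ s') * v (eval P R) := by ring
        _ ≤ S * n ^ s' * M ^ t := h1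
        _ = _ := by ring
    have h6 := le_of_mul_le_mul_right h5 (by positivity)
    have h7 : v (eval P R) * n ^ (q * s - s') ≤ S / κ ^ s * M ^ t := by
      rw [div_mul_eq_mul_div, le_div_iff₀ (by positivity)]
      linarith
    exact h7.trans (mul_le_mul_of_nonneg_right (le_max_right _ _) hM0)
  · have h1 := hBR P
    rw [← hn, hP, one_pow, mul_one] at h1
    rw [hP, one_pow, mul_one]
    calc v (eval P R) ≤ BR * 1 := by linarith
      _ ≤ max BR (S / κ ^ s) * M ^ t := by
          apply mul_le_mul (le_max_left _ _) hMt zero_le_one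
          exact le_trans (by linarith) (le_max_left _ _)

end Pool.Agent.Work.MP_91e6de_nt.BL

end

section

set_option autoImplicit false

namespace Pool.Agent.Work.MP_91e6de_nt.BL

open MvPolynomial Height Height.AdmissibleAbsValues Filter Topology

namespace AuxLow

variable {K : Type} [Field K]

lemma eval_aeval' (g : Fin 2 → Pol K) (x : Fin 2 → K) (p : Pol K) :
    eval x (aeval g p : Pol K) = eval (fun i => eval x (g i)) p := by
  induction p using MvPolynomial.induction_on with
  | C a => simp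
  | add p q hp hq => rw [map_add, map_add, map_add, hp, hq]
  | mul_X p i hp => rw [map_mul, map_mul, map_mul, hp, aeval_X, eval_X]

lemma step [NumberField K] (h1 : S_Rel) (h2 : S_Root) (h3 : S_HtC) (f : Fin 2 → Pol K)
    (P : Fin 2 → K) (hdom : ∀ Φ : Pol K, (aeval f Φ : Pol K) = 0 → Φ = 0)
    (hinj : Function.Injective (orb f P)) (i : Fin 2) :
    ∃ (e : ℕ) (C : ℝ), ∀ᶠ n in atTop,
      logHeight₁ (orb f P n i) ≤ e * hP (orb f P (n + 1)) + C := by
  obtain ⟨k, c, hrel, hfin⟩ := h1 K f hdom i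
  obtain ⟨C1, hC1⟩ := h2 K k
  obtain ⟨C2, hC2⟩ := h3 K k (Finset.univ.sup fun l => (c l).totalDegree) c
    (fun l => Finset.le_sup (f := fun l => (c l).totalDegree) (Finset.mem_univ l))
  refine ⟨Finset.univ.sup fun l => (c l).totalDegree, C2 + C1, ?_⟩
  have hinj' : Function.Injective fun n => orb f P (n + 1) := fun a b hab => by
    have := hinj hab
    omega
  have hpre : Set.Finite ((fun n => orb f P (n + 1)) ⁻¹' {p : Fin 2 → K | ∀ l, eval p (c l) = 0}) :=
    hfin.preimage hinj'.injOn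
  have hev : ∀ᶠ n in atTop,
      n ∉ ((fun n => orb f P (n + 1)) ⁻¹' {p : Fin 2 → K | ∀ l, eval p (c l) = 0}) := by
    rw [← Nat.cofinite_eq_atTop]
    exact hpre.eventually_cofinite_notMem
  filter_upwards [hev] with n hn
  have hne : (fun l => eval (orb f P (n + 1)) (c l)) ≠ 0 := by
    intro h0
    exact hn fun l => congrFun h0 l
  have hroot : ∑ l : Fin (k + 1), eval (orb f P (n + 1)) (c l) * (orb f P n i) ^ (l : ℕ) = 0 := by
    have := congrArg (eval (orb f P n)) hrel
    rw [map_sum, map_zero] at this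
    rw [← this]
    refine Finset.sum_congr rfl fun l _ => ?_
    rw [map_mul, map_pow, eval_X, eval_aeval']
    rfl
  have a1 := hC1 _ _ hne hroot
  have a2 := hC2 (orb f P (n + 1))
  linarith

end AuxLow

open AuxLow in
theorem pr_Low (h1 : S_Rel) (h2 : S_Root) (h3 : S_HtC) (h4 : S_Inj) (h5 : S_Dom) (h6 : S_H1) :
    S_Low := by
  intro K _ _ f P hd
  have hdom := h5 K f P hd
  have hinj := h4 K f P hd
  obtain ⟨e0, C0, h0⟩ := step h1 h2 h3 f P hdom hinj 0
  obtain ⟨e1, C1, h1'⟩ := step h1 h2 h3 f P hdom hinj 1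
  have hE : (0 : ℝ) < (e0 : ℝ) + e1 + 1 := by positivity
  refine ⟨1 / ((e0 : ℝ) + e1 + 1), 1 / ((e0 : ℝ) + e1 + 1) * (C0 + C1), by positivity, ?_⟩
  filter_upwards [h0, h1'] with n hn0 hn1
  have hH0 := (h6 K (orb f P (n + 1))).1
  have hHn := (h6 K (orb f P n)).2.1
  set H := hP (orb f P (n + 1))
  have hbd : hP (orb f P n) ≤ ((e0 : ℝ) + e1) * H + (C0 + C1) := by linarith
  calc 1 / ((e0 : ℝ) + e1 + 1) * hP (orb f P n)
      ≤ 1 / ((e0 : ℝ) + e1 + 1) * (((e0 : ℝ) + e1) * H + (C0 + C1)) :=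
        mul_le_mul_of_nonneg_left hbd (by positivity)
    _ ≤ 1 / ((e0 : ℝ) + e1 + 1) * (((e0 : ℝ) + e1 + 1) * H + (C0 + C1)) := by
        refine mul_le_mul_of_nonneg_left ?_ (by positivity)
        linarith
    _ = H + 1 / ((e0 : ℝ) + e1 + 1) * (C0 + C1) := by
        field_simp

end Pool.Agent.Work.MP_91e6de_nt.BL

end

section

set_option autoImplicit false

/-!
# MP_91e6de_nt, block BL, item Main: the theorem with the hypothesis `Bases`
-/

namespace Pool.Agent.Work.MP_91e6de_nt.BL

open MvPolynomial Height Height.AdmissibleAbsValues Filter Topology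

namespace AuxMain

theorem deg_le {K : Type} [Field K] (f : Fin 2 → Pol K) (d : ℕ) (h : ∀ n, dg f n = d ^ n)
    (i : Fin 2) : (f i).totalDegree ≤ d := by
  have h1 : it f 1 i = f i := by
    change aeval (fun i : Fin 2 => (X i : Pol K)) (f i) = f i
    exact aeval_X_left_apply (f i)
  have h2 : (it f 1 i).totalDegree ≤ dg f 1 := by
    unfold dg
    fin_cases i
    · exact le_max_left _ _
    · exact le_max_right _ _
  rw [h1, h 1, pow_one] at h2
  exact h2

end AuxMain

theorem pr_Main (h1 : S_Key) (h2 : S_Up) (h3 : S_Nor) (h4 : S_Low) (h5 : S_Vis) (h6 : S_Lim)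
    (h7 : S_Inj) (h8 : S_H1) : S_Main := by
  intro K _ _ f d P hd hdg hB hP'
  have hN : (0 : ℝ) < Module.finrank ℚ K := by exact_mod_cast Module.finrank_pos
  set N : ℝ := ((Module.finrank ℚ K : ℕ) : ℝ) with hNd
  obtain ⟨Cu, hu⟩ := h2 K f d (AuxMain.deg_le f d hdg)
  obtain ⟨c, Cl, hc, hl⟩ := h4 K f P hP'
  obtain ⟨δ, m₀, hδ, hkey⟩ := h1 K f d hd hdg hB P
  have hinj := h7 K f P hP'
  have hnor := h3 K (orb f P) hinj
  refine h6 (fun n => hP (orb f P n) / N) d c δ (max (Cu / N) (Cl / N)) m₀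
    (by exact_mod_cast (show 1 < d by omega)) hc hδ (fun n => ?_) (hnor.atTop_div_const hN)
    (fun n => ?_) ?_ ?_
  · exact div_nonneg (h8 K (orb f P n)).1 hN.le
  · have e := hu (orb f P n)
    have e' : hP (orb f P (n + 1)) ≤ d * hP (orb f P n) + Cu := e
    calc hP (orb f P (n + 1)) / N ≤ (d * hP (orb f P n) + Cu) / N :=
          div_le_div_of_nonneg_right e' hN.le
      _ = d * (hP (orb f P n) / N) + Cu / N := by ring
      _ ≤ _ := by linarith [le_max_left (Cu / N) (Cl / N)]
  · filter_upwards [hl] with n hn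
    calc c * (hP (orb f P n) / N) = (c * hP (orb f P n)) / N := by ring
      _ ≤ (hP (orb f P (n + 1)) + Cl) / N := div_le_div_of_nonneg_right hn hN.le
      _ = hP (orb f P (n + 1)) / N + Cl / N := by ring
      _ ≤ _ := by linarith [le_max_right (Cu / N) (Cl / N)]
  · intro m hm
    obtain ⟨Z, C, hZ, hC⟩ := hkey m hm
    refine ⟨{n | eval (orb f P n) Z = 0}, C / N, h5 K f P hP' Z hZ, fun n hn => ?_⟩
    have e := hC n hn
    calc δ * (d : ℝ) ^ m * (hP (orb f P n) / N) = (δ * (d : ℝ) ^ m * hP (orb f P n)) / N := by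
          ring
      _ ≤ (hP (orb f P (n + m)) + C) / N := div_le_div_of_nonneg_right e hN.le
      _ = _ := by ring

end Pool.Agent.Work.MP_91e6de_nt.BL

end

section

set_option autoImplicit false

/-!
# Two coprime forms are not both small
-/

namespace Pool.Agent.Work.MP_91e6de_nt.BL

open MvPolynomial Height Height.AdmissibleAbsValues Filter Topology

namespace AuxNear

theorem one_le_nn {K : Type} [Field K] (v : AbsoluteValue K ℝ) (P : Fin 2 → K) : 1 ≤ nn v P :=
  le_max_right _ _

theorem bd (h : S_Bd) {K : Type} [Field K] (v : AbsoluteValue K ℝ) {A : Pol K} {n : ℕ}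
    (hA : A.IsHomogeneous n) :
    ∃ B : ℝ, 1 ≤ B ∧ ∀ P : Fin 2 → K, v (eval P A) ≤ B * nn v P ^ n := by
  obtain ⟨B, hB, h1⟩ := h K v A
  refine ⟨B, hB, fun P => (h1 P).trans ?_⟩
  exact mul_le_mul_of_nonneg_left (pow_le_pow_right₀ (one_le_nn v P) hA.totalDegree_le)
    (by linarith)

theorem step (h : S_Bd) {K : Type} [Field K] (v : AbsoluteValue K ℝ) {Q Q' : Pol K} {q q' L : ℕ}
    (hq : q ≤ L) (hq' : q' ≤ L) (i : Fin 2) {A B : Pol K} (hA : A.IsHomogeneous (L - q))
    (hB : B.IsHomogeneous (L - q')) (hX : (X i : Pol K) ^ L = A * Q + B * Q') :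
    ∃ C : ℝ, 1 ≤ C ∧ ∀ P : Fin 2 → K, nn v P = v (P i) →
      ∀ κ : ℝ, 0 < κ → κ * (2 * C) ≤ 1 →
      κ * nn v P ^ q ≤ v (eval P Q) ∨ κ * nn v P ^ q' ≤ v (eval P Q') := by
  obtain ⟨b1, hb1, h1⟩ := bd h v hA
  obtain ⟨b2, hb2, h2⟩ := bd h v hB
  refine ⟨b1 + b2, by linarith, fun P hP κ hκ hκ2 => ?_⟩
  by_contra hcon
  rw [not_or, not_le, not_le] at hcon
  obtain ⟨c1, c2⟩ := hcon
  have hM := one_le_nn v P
  have e1 : nn v P ^ L ≤ v (eval P A) * v (eval P Q) + v (eval P B) * v (eval P Q') := by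
    have h3 : eval P ((X i : Pol K) ^ L) = eval P (A * Q + B * Q') := by rw [hX]
    rw [map_pow, eval_X, map_add, map_mul, map_mul] at h3
    rw [hP, ← map_pow v, h3]
    refine (v.add_le _ _).trans ?_
    rw [map_mul v, map_mul v]
  have e2 : v (eval P A) * v (eval P Q) ≤ b1 * nn v P ^ (L - q) * (κ * nn v P ^ q) :=
    mul_le_mul (h1 P) c1.le (v.nonneg _) (by positivity)
  have e3 : v (eval P B) * v (eval P Q') ≤ b2 * nn v P ^ (L - q') * (κ * nn v P ^ q') :=
    mul_le_mul (h2 P) c2.le (v.nonneg _) (by positivity)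
  have e4 : nn v P ^ (L - q) * nn v P ^ q = nn v P ^ L := by
    rw [← pow_add, Nat.sub_add_cancel hq]
  have e5 : nn v P ^ (L - q') * nn v P ^ q' = nn v P ^ L := by
    rw [← pow_add, Nat.sub_add_cancel hq']
  have e6 : nn v P ^ L ≤ κ * (b1 + b2) * nn v P ^ L := by
    calc nn v P ^ L ≤ _ := e1
      _ ≤ b1 * nn v P ^ (L - q) * (κ * nn v P ^ q) +
          b2 * nn v P ^ (L - q') * (κ * nn v P ^ q') := add_le_add e2 e3
      _ = κ * b1 * (nn v P ^ (L - q) * nn v P ^ q) +
          κ * b2 * (nn v P ^ (L - q') * nn v P ^ q') := by ring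
      _ = κ * (b1 + b2) * nn v P ^ L := by rw [e4, e5]; ring
  have e7 : 0 < nn v P ^ L := by positivity
  have e8 : 1 ≤ κ * (b1 + b2) := by
    by_contra h9
    rw [not_le] at h9
    nlinarith
  nlinarith

theorem nn_eq {K : Type} [Field K] (v : AbsoluteValue K ℝ) (P : Fin 2 → K) (h : nn v P ≠ 1) :
    ∃ i : Fin 2, nn v P = v (P i) := by
  unfold nn at h ⊢
  rcases max_choice (max (v (P 0)) (v (P 1))) 1 with h1 | h1
  · rcases max_choice (v (P 0)) (v (P 1)) with h2 | h2
    · exact ⟨0, by rw [h1, h2]⟩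
    · exact ⟨1, by rw [h1, h2]⟩
  · exact absurd h1 h

end AuxNear

theorem pr_Near (h : S_Bd) : S_Near := by
  intro K _ v Q Q' q q' _ _ hcop
  obtain ⟨L, hq, hq', hL⟩ := hcop
  have key : ∀ i : Fin 2, ∃ C : ℝ, 1 ≤ C ∧ ∀ P : Fin 2 → K, nn v P = v (P i) →
      ∀ κ : ℝ, 0 < κ → κ * (2 * C) ≤ 1 →
      κ * nn v P ^ q ≤ v (eval P Q) ∨ κ * nn v P ^ q' ≤ v (eval P Q') := by
    intro i
    obtain ⟨A, B, hA, hB, hX⟩ := hL i
    exact AuxNear.step h v hq hq' i hA hB hX
  choose C hC1 hC2 using key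
  have hpos : 0 < 2 * (C 0 + C 1) := by
    have := hC1 0
    have := hC1 1
    linarith
  refine ⟨1 / (2 * (C 0 + C 1)), by positivity, fun P => ?_⟩
  by_cases h1 : nn v P = 1
  · exact Or.inr (Or.inr h1)
  · obtain ⟨i, hi⟩ := AuxNear.nn_eq v P h1
    have hle : C i ≤ C 0 + C 1 := by
      have h0 := hC1 0
      have h2 := hC1 1
      fin_cases i
      · show C 0 ≤ _
        linarith
      · show C 1 ≤ _
        linarith
    have h3 : 1 / (2 * (C 0 + C 1)) * (2 * C i) ≤ 1 := by
      rw [one_div, inv_mul_le_iff₀ hpos]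
      linarith
    rcases hC2 i P hi _ (by positivity) h3 with h4 | h4
    · exact Or.inl h4
    · exact Or.inr (Or.inl h4)

end Pool.Agent.Work.MP_91e6de_nt.BL

end

section

set_option autoImplicit false

/-!
# MP_91e6de_nt, block BL: Northcott
-/

namespace Pool.Agent.Work.MP_91e6de_nt.BL

open MvPolynomial Height Height.AdmissibleAbsValues Filter Topology

namespace AuxNor

theorem fin (h : S_H1) (K : Type) [Field K] [NumberField K] (B : ℝ) :
    {P : Fin 2 → K | hP P ≤ B}.Finite := by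
  have h1 : {P : Fin 2 → K | ∀ i, P i ∈ {x : K | logHeight₁ x ≤ B}}.Finite :=
    Set.Finite.pi' fun _ => NumberField.finite_setOfPred_logHeight₁_le K B
  refine h1.subset ?_
  intro P hPB i
  have hPB' : hP P ≤ B := hPB
  obtain ⟨_, _, h3, h4⟩ := h K P
  fin_cases i
  · exact h3.trans hPB'
  · exact h4.trans hPB'

end AuxNor

theorem pr_Nor (h : S_H1) : S_Nor := by
  intro K _ _ P hinj
  rw [← Nat.cofinite_eq_atTop, tendsto_atTop]
  intro b
  rw [eventually_cofinite]
  refine ((AuxNor.fin h K b).preimage hinj.injOn).subset ?_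
  intro n hn
  exact (not_le.1 hn).le

end Pool.Agent.Work.MP_91e6de_nt.BL

end

section

set_option autoImplicit false

/-!
# MP_91e6de_nt, block BL: the numerical inequality
-/

namespace Pool.Agent.Work.MP_91e6de_nt.BL

open MvPolynomial Height Height.AdmissibleAbsValues Filter Topology

namespace AuxNum

lemma sum1 (M : ℕ) : 2 * ∑ r ∈ Finset.range M, (M - r) = M * (M + 1) := by
  induction M with
  | zero => simp
  | succ M ih =>
    rw [Finset.sum_range_succ']
    have h : ∀ r ∈ Finset.range M, (M + 1 - (r + 1)) = M - r := fun r _ => by omega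
    rw [Finset.sum_congr rfl h, mul_add, ih]
    simp only [Nat.sub_zero]
    ring

lemma sum2 (M s : ℕ) (h : M ≤ s) : 2 * ∑ r ∈ Finset.range s, (M - r) = M * (M + 1) := by
  induction s, h using Nat.le_induction with
  | base => exact sum1 M
  | succ s hs ih =>
    rw [Finset.sum_range_succ, mul_add, ih]
    have : M - s = 0 := by omega
    rw [this, mul_zero, add_zero]

/-- the sum without subtraction -/
lemma sum3 {q d' M L s : ℕ} (hd : 1 ≤ d') (hL : L = d' * M) (hMs : M ≤ s)
    (hr : ∀ r, r < s → q * r + (M - r) ≤ 2 * L + 1) :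
    2 * ∑ r ∈ Finset.range s, q * (min (d' * M) ((d' - 1) * M + r) + L + 1 - q * r) +
      q * (M * (M + 1)) + q * (q * (s * (s - 1))) = 2 * (s * (q * (2 * L + 1))) := by
  have h1 : ∀ r ∈ Finset.range s, q * (min (d' * M) ((d' - 1) * M + r) + L + 1 - q * r) +
      q * (M - r) + q * (q * r) = q * (2 * L + 1) := by
    intro r hr'
    have h2 := hr r (Finset.mem_range.1 hr')
    have h3 : (d' - 1) * M + M = d' * M := by
      obtain ⟨c, rfl⟩ : ∃ c, d' = c + 1 := ⟨d' - 1, by omega⟩
      rw [Nat.add_sub_cancel]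
      ring
    have h4 : min (d' * M) ((d' - 1) * M + r) + (M - r) = L := by
      rw [hL]
      rcases le_total r M with h5 | h5
      · rw [min_eq_right (by omega)]
        omega
      · rw [min_eq_left (by omega)]
        omega
    rw [← mul_add, ← mul_add]
    congr 1
    omega
  have h5 := Finset.sum_congr rfl h1
  rw [Finset.sum_add_distrib, Finset.sum_add_distrib, ← Finset.mul_sum (f := fun r => M - r),
    ← Finset.mul_sum (f := fun r => q * r), ← Finset.mul_sum (f := fun r => r),
    Finset.sum_const, Finset.card_range, smul_eq_mul] at h5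
  have h6 := sum2 M s hMs
  have h7 := Finset.sum_range_id_mul_two s
  rw [← h5, ← h6, ← h7]
  ring

end AuxNum

theorem pr_Num : S_Num := by
  intro q d' e t D s hq hqd he ht hD hs
  obtain ⟨M, hM⟩ : ∃ M, M = t * e := ⟨_, rfl⟩
  obtain ⟨L, hL⟩ : ∃ L, L = t * D := ⟨_, rfl⟩
  have hLM : L = d' * M := by rw [hL, hM, hD]; ring
  have hd : 1 ≤ d' := hq.trans hqd
  have hqs : q * s = L + 4 * q ^ 2 * D := by rw [hs, hL, ht]; ring
  have h4 : 4 * q ^ 2 * D ≤ L := by
    rw [hL, ht]
    apply Nat.mul_le_mul_right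
    have h5 : q * q ≤ q * d' ^ 2 := by
      apply Nat.mul_le_mul_left
      calc q ≤ d' := hqd
        _ ≤ d' ^ 2 := Nat.le_self_pow (by norm_num) d'
    nlinarith
  have hMs : M ≤ s := by
    have h5 : q * M ≤ q * s := by
      calc q * M ≤ d' * M := Nat.mul_le_mul_right _ hqd
        _ = L := hLM.symm
        _ ≤ q * s := by rw [hqs]; exact Nat.le_add_right _ _
    exact Nat.le_of_mul_le_mul_left h5 (by omega)
  have hr : ∀ r, r < s → q * r + (M - r) ≤ 2 * L + 1 := by
    intro r hr
    rcases le_total r M with h5 | h5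
    · have h6 : r ≤ q * r := Nat.le_mul_of_pos_left _ (by omega)
      have h7 : q * r + (M - r) ≤ q * M := by
        obtain ⟨c, hc⟩ := Nat.exists_eq_add_of_le h5
        rw [hc, Nat.add_sub_cancel_left, mul_add]
        have : c ≤ q * c := Nat.le_mul_of_pos_left _ (by omega)
        omega
      have h8 : q * M ≤ d' * M := Nat.mul_le_mul_right _ hqd
      rw [← hLM] at h8
      omega
    · have h6 : M - r = 0 := by omega
      have h7 : q * r ≤ q * s := Nat.mul_le_mul_left _ hr.le
      rw [h6]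
      omega
  have h := AuxNum.sum3 hd hLM hMs hr
  rw [← hM, ← hL]
  obtain ⟨W, hW⟩ : ∃ W, W = ∑ r ∈ Finset.range s,
    q * (min (d' * M) ((d' - 1) * M + r) + L + 1 - q * r) := ⟨_, rfl⟩
  rw [← hW] at h ⊢
  have ht1 : 1 ≤ t := by
    rw [ht]
    exact Nat.succ_le_of_lt (by positivity)
  have hDL : D ≤ L := by
    rw [hL]
    exact Nat.le_mul_of_pos_left _ (by omega)
  have hs1 : 1 ≤ s := by
    have : 1 ≤ M := by
      rw [hM]
      exact Nat.succ_le_of_lt (by positivity)
    omega
  obtain ⟨K, hK⟩ := Nat.exists_eq_add_of_le hDL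
  have hK' : L - D = K := by omega
  rw [hK']
  zify [hs1] at h ⊢
  zify at hqs hK hL hM ht hD hq hd he
  have e1 : (q : ℤ) * (q * (s * (s - 1))) = (q * s) * (q * s) - q * (q * s) := by ring
  have e2 : 2 * ((s : ℤ) * (q * (2 * L + 1))) = 2 * (q * s) * (2 * L + 1) := by ring
  rw [e1, e2, hqs] at h
  have hKe : (K : ℤ) = L - D := by linarith
  rw [hKe]
  have e3 : ((t : ℤ) + 1) * ((L + 1) * (L + 2)) - t * ((L - D + 1) * (L - D + 2)) =
      (L + 1) * (L + 2) + L * (2 * L + 3 - D) := by
    rw [hL]; ring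
  have hqn : (0 : ℤ) ≤ q := by positivity
  have hdn : (0 : ℤ) ≤ d' := by positivity
  have hen : (0 : ℤ) ≤ e := by positivity
  have one : ∀ (x : ℤ) (k : ℕ), 1 ≤ x → 1 ≤ x ^ k := fun x k hx => one_le_pow₀ hx
  have m1 : (q : ℤ) * d' ^ 4 * e ^ 2 ≤ q ^ 3 * d' ^ 4 * e ^ 2 := by
    calc (q : ℤ) * d' ^ 4 * e ^ 2 ≤ (q : ℤ) * d' ^ 4 * e ^ 2 * (q ^ 2) :=
          le_mul_of_one_le_right (by positivity) (one _ _ hq)
      _ = _ := by ring
  have m2 : (q : ℤ) ^ 2 * d' ^ 3 * e ≤ q ^ 3 * d' ^ 4 * e ^ 2 := by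
    calc (q : ℤ) ^ 2 * d' ^ 3 * e ≤ (q : ℤ) ^ 2 * d' ^ 3 * e * (q * d' * e) := by
          apply le_mul_of_one_le_right (by positivity)
          have h5 : (1 : ℤ) ≤ q * d' := one_le_mul_of_one_le_of_one_le hq hd
          exact one_le_mul_of_one_le_of_one_le h5 he
      _ = _ := by ring
  have m3 : (q : ℤ) ^ 2 * d' * e ≤ q ^ 3 * d' ^ 4 * e ^ 2 := by
    calc (q : ℤ) ^ 2 * d' * e ≤ (q : ℤ) ^ 2 * d' * e * (q * d' ^ 3 * e) := by
          apply le_mul_of_one_le_right (by positivity)
          have h5 : (1 : ℤ) ≤ q * d' ^ 3 := one_le_mul_of_one_le_of_one_le hq (one _ _ hd)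
          exact one_le_mul_of_one_le_of_one_le h5 he
      _ = _ := by ring
  have m4 : (q : ℤ) ^ 3 * d' * e ≤ q ^ 3 * d' ^ 4 * e ^ 2 := by
    calc (q : ℤ) ^ 3 * d' * e ≤ (q : ℤ) ^ 3 * d' * e * (d' ^ 3 * e) := by
          apply le_mul_of_one_le_right (by positivity)
          exact one_le_mul_of_one_le_of_one_le (one _ _ hd) he
      _ = _ := by ring
  have m5 : 0 ≤ (q : ℤ) ^ 3 * d' ^ 4 * e ^ 2 := by positivity
  have m6 : 0 ≤ (q : ℤ) ^ 4 * d' ^ 2 * e ^ 2 := by positivity
  have m7 : 0 ≤ (q : ℤ) ^ 2 * d' ^ 2 * e := by positivity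
  have m8 : 0 ≤ (q : ℤ) * d' ^ 3 * e := by positivity
  have key : (2 : ℤ) * (L + 4 * q ^ 2 * D) * (2 * L + 1) - q * (M * (M + 1)) -
      ((L + 4 * q ^ 2 * D) * (L + 4 * q ^ 2 * D) - q * (L + 4 * q ^ 2 * D)) <
      (L + 1) * (L + 2) + L * (2 * L + 3 - D) := by
    have e4 : (L + 1 : ℤ) * (L + 2) + L * (2 * L + 3 - D) -
        (2 * (L + 4 * q ^ 2 * D) * (2 * L + 1) - q * (M * (M + 1)) -
          ((L + 4 * q ^ 2 * D) * (L + 4 * q ^ 2 * D) - q * (L + 4 * q ^ 2 * D))) =
        768 * (q ^ 3 * d' ^ 4 * e ^ 2) - 32 * (q * d' ^ 4 * e ^ 2) + 16 * (q ^ 4 * d' ^ 2 * e ^ 2)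
        + 128 * (q * d' ^ 3 * e) - 32 * (q ^ 2 * d' ^ 3 * e) + 32 * (q ^ 2 * d' ^ 2 * e)
        - 8 * (q ^ 2 * d' * e) - 4 * (q ^ 3 * d' * e) + 2 := by
      rw [hL, hM, hD, ht]
      ring
    linarith
  linarith

end Pool.Agent.Work.MP_91e6de_nt.BL

end

section

set_option autoImplicit false

/-!
# MP_91e6de_nt, block BL: item PFH (product formula)
-/

namespace Pool.Agent.Work.MP_91e6de_nt.BL

open MvPolynomial Height Height.AdmissibleAbsValues Filter Topology

namespace AuxPFH

variable {K : Type} [Field K]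

lemma one_le_nn (v : AbsoluteValue K ℝ) (P : Fin 2 → K) : 1 ≤ nn v P := le_max_right _ _

lemma nn_pos (v : AbsoluteValue K ℝ) (P : Fin 2 → K) : 0 < nn v P :=
  lt_of_lt_of_le one_pos (one_le_nn v P)

lemma sup_eq (v : AbsoluteValue K ℝ) (P : Fin 2 → K) :
    (⨆ i, v ((![P 0, P 1, 1] : Fin 3 → K) i)) = nn v P := by
  have hb : BddAbove (Set.range fun i => v ((![P 0, P 1, 1] : Fin 3 → K) i)) :=
    (Set.finite_range _).bddAbove
  apply le_antisymm
  · refine ciSup_le fun i => ?_
    fin_cases i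
    · exact (le_max_left _ _).trans (le_max_left _ _)
    · exact (le_max_right _ _).trans (le_max_left _ _)
    · show v (1 : K) ≤ nn v P
      rw [v.map_one]
      exact one_le_nn v P
  · refine max_le (max_le ?_ ?_) ?_
    · exact le_ciSup hb 0
    · exact le_ciSup hb 1
    · have := le_ciSup hb 2
      have h2 : v ((![P 0, P 1, 1] : Fin 3 → K) 2) = 1 := v.map_one
      rw [h2] at this
      exact this

variable [NumberField K]

lemma mulHeight_nn (P : Fin 2 → K) : mulHeight ![P 0, P 1, 1] =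
    (archAbsVal.map (fun v : AbsoluteValue K ℝ => nn v P)).prod *
      ∏ᶠ v : nonarchAbsVal (K := K), nn v.val P := by
  have h0 : (![P 0, P 1, 1] : Fin 3 → K) ≠ 0 := by
    intro h
    have := congrFun h 2
    exact one_ne_zero this
  rw [mulHeight_eq h0]
  simp only [sup_eq]

lemma fin_gt (x : K) : {v : nonarchAbsVal (K := K) | 1 < v.val x}.Finite := by
  by_cases hx : x = 0
  · subst hx
    convert Set.finite_empty
    ext v
    simp
  · refine (hasFiniteMulSupport (K := K) hx).subset ?_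
    intro v hv
    rw [Function.mem_mulSupport]
    exact (ne_of_gt hv)

lemma fin_nn (P : Fin 2 → K) :
    (Function.mulSupport fun v : nonarchAbsVal (K := K) => nn v.val P).Finite := by
  refine ((fin_gt (P 0)).union (fin_gt (P 1))).subset ?_
  intro v hv
  rw [Function.mem_mulSupport] at hv
  by_contra hc
  rw [Set.mem_union, not_or] at hc
  have h1 : v.val (P 0) ≤ 1 := not_lt.1 hc.1
  have h2 : v.val (P 1) ≤ 1 := not_lt.1 hc.2
  exact hv (max_eq_right (max_le h1 h2))

end AuxPFH

open AuxPFH in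
theorem pr_PFH : S_PFH := by
  classical
  intro K _ _ T B w t hB
  refine ⟨Real.log B * ((archAbsVal (K := K)).card + T.card), ?_⟩
  intro a P P' ha h1 h2
  have hB0 : 0 < B := lt_of_lt_of_le one_pos hB
  have hfa : (Function.mulSupport (fun v : nonarchAbsVal (K := K) => v.val a)).Finite :=
    hasFiniteMulSupport ha
  set S : Finset (nonarchAbsVal (K := K)) := hfa.toFinset ∪ (fin_nn P).toFinset ∪
    (fin_nn P').toFinset with hS
  have e1 : ∏ᶠ v : nonarchAbsVal (K := K), v.val a = ∏ v ∈ S, v.val a := by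
    apply finprod_eq_prod_of_mulSupport_subset
    intro v hv
    rw [hS]
    simp only [Finset.coe_union, Set.Finite.coe_toFinset, Set.mem_union]
    exact Or.inl (Or.inl hv)
  have e2 : ∏ᶠ v : nonarchAbsVal (K := K), nn v.val P = ∏ v ∈ S, nn v.val P := by
    apply finprod_eq_prod_of_mulSupport_subset
    intro v hv
    rw [hS]
    simp only [Finset.coe_union, Set.Finite.coe_toFinset, Set.mem_union]
    exact Or.inl (Or.inr hv)
  have e3 : ∏ᶠ v : nonarchAbsVal (K := K), nn v.val P' = ∏ v ∈ S, nn v.val P' := by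
    apply finprod_eq_prod_of_mulSupport_subset
    intro v hv
    rw [hS]
    simp only [Finset.coe_union, Set.Finite.coe_toFinset, Set.mem_union]
    exact Or.inr hv
  have hpf := product_formula (K := K) ha
  rw [e1] at hpf
  set A := archAbsVal (K := K) with hA
  -- archimedean part
  have f1 : (A.map (fun v : AbsoluteValue K ℝ => v a)).prod *
      (A.map (fun v : AbsoluteValue K ℝ => nn v P)).prod ^ w ≤
      B ^ A.card * (A.map (fun v : AbsoluteValue K ℝ => nn v P')).prod ^ t := by
    rw [← Multiset.prod_map_pow, ← Multiset.prod_map_pow, ← Multiset.prod_map_mul]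
    have h3 : B ^ A.card = (A.map (fun _ : AbsoluteValue K ℝ => B)).prod := by
      rw [Multiset.map_const', Multiset.prod_replicate]
    rw [h3, ← Multiset.prod_map_mul]
    apply Multiset.prod_map_le_prod_map₀
    · intro v _
      exact mul_nonneg (v.nonneg _) (pow_nonneg (nn_pos v P).le _)
    · intro v hv
      exact h1 v (Or.inl hv)
  -- nonarchimedean part
  have f2 : (∏ v ∈ S, v.val a) * (∏ v ∈ S, nn v.val P) ^ w ≤
      B ^ T.card * (∏ v ∈ S, nn v.val P') ^ t := by
    rw [← Finset.prod_pow, ← Finset.prod_pow, ← Finset.prod_mul_distrib]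
    have h3 : ∏ v ∈ S, v.val a * nn v.val P ^ w ≤
        ∏ v ∈ S, (if v.val ∈ T then B else 1) * nn v.val P' ^ t := by
      apply Finset.prod_le_prod
      · intro v _
        exact mul_nonneg (v.val.nonneg _) (pow_nonneg (nn_pos v.val P).le _)
      · intro v _
        split_ifs with hv
        · exact h1 v.val (Or.inr v.2)
        · rw [one_mul]
          exact h2 v.val v.2 hv
    refine h3.trans ?_
    rw [Finset.prod_mul_distrib]
    have h4 : ∏ v ∈ S, (if v.val ∈ T then B else 1) ≤ B ^ T.card := by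
      rw [Finset.prod_ite, Finset.prod_const, Finset.prod_const_one, mul_one]
      apply pow_le_pow_right₀ hB
      apply Finset.card_le_card_of_injOn (fun v : nonarchAbsVal (K := K) => v.val)
      · intro v hv
        exact (Finset.mem_filter.1 (Finset.mem_coe.1 hv)).2
      · intro v _ v' _ h
        exact Subtype.ext h
    exact mul_le_mul_of_nonneg_right h4
      (Finset.prod_nonneg fun v _ => pow_nonneg (nn_pos v.val P').le _)
  -- combination
  have p0 : 0 < (A.map (fun v : AbsoluteValue K ℝ => nn v P)).prod := by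
    apply Multiset.prod_pos
    intro x hx
    obtain ⟨v, -, rfl⟩ := Multiset.mem_map.1 hx
    exact nn_pos v P
  have p1 : 0 < (A.map (fun v : AbsoluteValue K ℝ => nn v P')).prod := by
    apply Multiset.prod_pos
    intro x hx
    obtain ⟨v, -, rfl⟩ := Multiset.mem_map.1 hx
    exact nn_pos v P'
  have p2 : 0 < ∏ v ∈ S, nn v.val P := Finset.prod_pos fun v _ => nn_pos v.val P
  have p3 : 0 < ∏ v ∈ S, nn v.val P' := Finset.prod_pos fun v _ => nn_pos v.val P'
  have p4 : 0 ≤ ∏ v ∈ S, v.val a := Finset.prod_nonneg fun v _ => v.val.nonneg _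
  have key : mulHeight ![P 0, P 1, 1] ^ w ≤
      B ^ (A.card + T.card) * mulHeight ![P' 0, P' 1, 1] ^ t := by
    rw [mulHeight_nn, mulHeight_nn, e2, e3, mul_pow, mul_pow, pow_add]
    calc (A.map (fun v : AbsoluteValue K ℝ => nn v P)).prod ^ w * (∏ v ∈ S, nn v.val P) ^ w
        = ((A.map (fun v : AbsoluteValue K ℝ => v a)).prod * ∏ v ∈ S, v.val a) *
          ((A.map (fun v : AbsoluteValue K ℝ => nn v P)).prod ^ w *
            (∏ v ∈ S, nn v.val P) ^ w) := by rw [hpf, one_mul]
      _ = ((A.map (fun v : AbsoluteValue K ℝ => v a)).prod *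
          (A.map (fun v : AbsoluteValue K ℝ => nn v P)).prod ^ w) *
          ((∏ v ∈ S, v.val a) * (∏ v ∈ S, nn v.val P) ^ w) := by ring
      _ ≤ (B ^ A.card * (A.map (fun v : AbsoluteValue K ℝ => nn v P')).prod ^ t) *
          (B ^ T.card * (∏ v ∈ S, nn v.val P') ^ t) :=
          mul_le_mul f1 f2 (mul_nonneg p4 (by positivity)) (by positivity)
      _ = _ := by ring
  have q1 := mulHeight_pos (![P 0, P 1, 1] : Fin 3 → K)
  have q2 := mulHeight_pos (![P' 0, P' 1, 1] : Fin 3 → K)
  have h5 := Real.log_le_log (by positivity) key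
  rw [Real.log_pow, Real.log_mul (by positivity) (by positivity), Real.log_pow, Real.log_pow] at h5
  unfold hP logHeight
  push_cast at h5
  linarith

end Pool.Agent.Work.MP_91e6de_nt.BL

end

section

set_option autoImplicit false

/-! # MP_91e6de_nt, block BL: the coordinates are algebraic over the coordinates of `f` -/

namespace Pool.Agent.Work.MP_91e6de_nt.BL

open MvPolynomial

theorem pr_Rel (h1 : S_Rel0) (h2 : S_RelF) : S_Rel := by
  intro K _ _ f hf i
  obtain ⟨k, c, hc, hsum⟩ := h1 K f i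
  obtain ⟨inst⟩ : Nonempty (NormalizedGCDMonoid (Pol K)) := inferInstance
  obtain ⟨c', hc', hg⟩ := Finset.extract_gcd c (s := Finset.univ) Finset.univ_nonempty
  have hc1 : ∀ l, c l = Finset.univ.gcd c * c' l := fun l => hc' l (Finset.mem_univ l)
  have hg0 : Finset.univ.gcd c ≠ 0 := by
    intro h0
    apply hc
    funext l
    rw [hc1 l, h0, zero_mul]
    rfl
  have hf0 : (aeval f (Finset.univ.gcd c) : Pol K) ≠ 0 := fun h0 => hg0 (hf _ h0)
  refine ⟨k, c', ?_, h2 K k c' ?_ ?_⟩
  · have h3 : (aeval f (Finset.univ.gcd c) : Pol K) *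
        ∑ l, (aeval f (c' l) : Pol K) * X i ^ (l : ℕ) = 0 := by
      rw [← hsum, Finset.mul_sum]
      refine Finset.sum_congr rfl fun l _ => ?_
      rw [← mul_assoc, ← map_mul, ← hc1 l]
    exact (mul_eq_zero.1 h3).resolve_left hf0
  · intro h0
    rw [h0] at hg
    have h3 : Finset.univ.gcd (0 : Fin (k + 1) → Pol K) = 0 :=
      Finset.gcd_eq_zero_iff.2 fun l _ => rfl
    rw [h3] at hg
    exact zero_ne_one hg
  · intro g hgd
    have h3 : g ∣ Finset.univ.gcd c' := Finset.dvd_gcd fun l _ => hgd l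
    rw [hg] at h3
    exact isUnit_of_dvd_one h3

end Pool.Agent.Work.MP_91e6de_nt.BL

end

section

set_option autoImplicit false

namespace Pool.Agent.Work.MP_91e6de_nt.BL

open MvPolynomial Height Height.AdmissibleAbsValues Filter Topology

namespace AuxRel0

variable {K : Type} [Field K]

lemma deg_aeval (f : Fin 2 → Pol K) (d : ℕ) (hd : ∀ i, (f i).totalDegree ≤ d) (p : Pol K) :
    (aeval f p : Pol K).totalDegree ≤ d * p.totalDegree := by
  rw [aeval_def, eval₂_eq]
  refine (totalDegree_finsetSum _ _).trans (Finset.sup_le fun m hm => ?_)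
  refine (totalDegree_mul _ _).trans ?_
  rw [algebraMap_eq, totalDegree_C, zero_add]
  refine (totalDegree_finsetProd _ _).trans ?_
  calc ∑ i ∈ m.support, (f i ^ m i).totalDegree ≤ ∑ i ∈ m.support, d * m i := by
        refine Finset.sum_le_sum fun i _ => ?_
        refine (totalDegree_pow _ _).trans ?_
        rw [mul_comm]
        exact Nat.mul_le_mul_right _ (hd i)
    _ = d * ∑ i ∈ m.support, m i := by rw [Finset.mul_sum]
    _ ≤ d * p.totalDegree := Nat.mul_le_mul_left _ (le_totalDegree hm)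

end AuxRel0

open AuxRel0 in
theorem pr_Rel0 (h : S_dim) : S_Rel0 := by
  intro K _ f i
  obtain ⟨d, hd1, hd⟩ : ∃ d : ℕ, 1 ≤ d ∧ ∀ i, (f i).totalDegree ≤ d := by
    refine ⟨max (max (f 0).totalDegree (f 1).totalDegree) 1, le_max_right _ _, ?_⟩
    rw [Fin.forall_fin_two]
    exact ⟨le_max_of_le_left (le_max_left _ _), le_max_of_le_left (le_max_right _ _)⟩
  set k : ℕ := 4 * d ^ 2 with hk
  refine ⟨k, ?_⟩
  have hfin1 : FiniteDimensional K (AA K k) := (h K k).1
  have hfin2 : FiniteDimensional K (AA K (k + d * k)) := (h K (k + d * k)).1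
  have hmem : ∀ c : Fin (k + 1) → AA K k,
      ∑ l : Fin (k + 1), (aeval f (c l : Pol K) : Pol K) * X i ^ (l : ℕ) ∈ AA K (k + d * k) := by
    intro c
    refine Submodule.sum_mem _ fun l _ => ?_
    rw [mem_restrictTotalDegree]
    refine (totalDegree_mul _ _).trans ?_
    rw [add_comm]
    refine add_le_add ?_ ?_
    · rw [totalDegree_X_pow]
      omega
    · refine (deg_aeval f d hd _).trans (Nat.mul_le_mul_left _ ?_)
      exact (mem_restrictTotalDegree _ _ _).1 (c l).2
  let Λ : (Fin (k + 1) → AA K k) →ₗ[K] AA K (k + d * k) :=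
    { toFun := fun c => ⟨_, hmem c⟩
      map_add' := by
        intro a b
        apply Subtype.ext
        simp only [Pi.add_apply, Submodule.coe_add, map_add, add_mul, Finset.sum_add_distrib]
      map_smul' := by
        intro x a
        apply Subtype.ext
        simp only [Pi.smul_apply, Submodule.coe_smul, map_smul, RingHom.id_apply,
          Finset.smul_sum, smul_mul_assoc] }
  have hlt : Module.finrank K (AA K (k + d * k)) < Module.finrank K (Fin (k + 1) → AA K k) := by
    rw [Module.finrank_pi_fintype]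
    simp only [Finset.sum_const, Finset.card_univ, Fintype.card_fin, smul_eq_mul]
    have h1 := (h K k).2
    have h2 := (h K (k + d * k)).2
    have h3 : (k + d * k + 1) * (k + d * k + 2) < (k + 1) * ((k + 1) * (k + 2)) := by
      have h4 : k + d * k + 1 ≤ (d + 1) * (k + 1) := by nlinarith
      have h5 : k + d * k + 2 ≤ (d + 1) * (k + 2) := by nlinarith
      have h6 : (d + 1) * (d + 1) < k + 1 := by
        rw [hk]
        nlinarith
      calc (k + d * k + 1) * (k + d * k + 2) ≤ ((d + 1) * (k + 1)) * ((d + 1) * (k + 2)) :=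
            Nat.mul_le_mul h4 h5
        _ = ((d + 1) * (d + 1)) * ((k + 1) * (k + 2)) := by ring
        _ < (k + 1) * ((k + 1) * (k + 2)) :=
            Nat.mul_lt_mul_of_pos_right h6 (by positivity)
    have h7 : 2 * Module.finrank K (AA K (k + d * k)) <
        2 * ((k + 1) * Module.finrank K (AA K k)) := by
      calc 2 * Module.finrank K (AA K (k + d * k)) = (k + d * k + 1) * (k + d * k + 2) := h2
        _ < (k + 1) * ((k + 1) * (k + 2)) := h3
        _ = (k + 1) * (2 * Module.finrank K (AA K k)) := by rw [h1]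
        _ = _ := by ring
    omega
  have hker : LinearMap.ker Λ ≠ ⊥ := Λ.ker_ne_bot_of_finrank_lt hlt
  obtain ⟨c, hc, hc0⟩ := Submodule.exists_mem_ne_zero_of_ne_bot hker
  refine ⟨fun l => (c l : Pol K), ?_, ?_⟩
  · intro h0
    apply hc0
    funext l
    apply Subtype.ext
    exact congrFun h0 l
  · have := congrArg Subtype.val (LinearMap.mem_ker.1 hc)
    exact this

end Pool.Agent.Work.MP_91e6de_nt.BL

end

section

/-!
# Item RelF: polynomials without common factor have finitely many common zeros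
-/

set_option autoImplicit false

namespace Pool.Agent.Work.MP_91e6de_nt.BL

open MvPolynomial Height Height.AdmissibleAbsValues Filter Topology

namespace AuxRelF

theorem main (h : S_Bez) (K : Type) [Field K] (k : ℕ) (c : Fin (k + 1) → Pol K)
    (hc : ∀ g : Pol K, (∀ l, g ∣ c l) → IsUnit g) (a : Pol K) : a ≠ 0 →
    Set.Finite {p : Fin 2 → K | eval p a = 0 ∧ ∀ l, eval p (c l) = 0} := by
  induction a using WfDvdMonoid.induction_on_irreducible with
  | zero => exact fun h => absurd rfl h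
  | unit u hu =>
    intro _
    refine Set.Finite.subset Set.finite_empty ?_
    rintro p ⟨hp, _⟩
    have h1 : IsUnit (eval p u) := hu.map (eval p)
    exact absurd hp h1.ne_zero
  | mul a i ha hi ih =>
    intro _
    obtain ⟨l, hl⟩ : ∃ l, ¬ i ∣ c l := by
      by_contra hcon
      push Not at hcon
      exact hi.not_isUnit (hc i hcon)
    refine Set.Finite.subset ((h K i (c l) hi hl).union (ih ha)) ?_
    rintro p ⟨hp, hp2⟩
    rw [map_mul] at hp
    rcases mul_eq_zero.1 hp with h1 | h1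
    · exact Or.inl ⟨h1, hp2 l⟩
    · exact Or.inr ⟨h1, hp2⟩

end AuxRelF

theorem pr_RelF (h : S_Bez) : S_RelF := by
  intro K _ k c hc0 hc
  obtain ⟨l0, hl0⟩ := Function.ne_iff.1 hc0
  refine Set.Finite.subset (AuxRelF.main h K k c hc (c l0) hl0) ?_
  intro p hp
  exact ⟨hp l0, hp⟩

end Pool.Agent.Work.MP_91e6de_nt.BL

end

section

set_option autoImplicit false

namespace Pool.Agent.Work.MP_91e6de_nt.BL

open MvPolynomial Height Height.AdmissibleAbsValues Filter Topology

namespace AuxRoot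

variable {K : Type} [Field K] [NumberField K]

lemma fin_supp {ι : Type} [Finite ι] {x : ι → K} (hx : x ≠ 0) :
    (fun v : nonarchAbsVal (K := K) ↦ ⨆ i, v.val (x i)).HasFiniteMulSupport := by
  have : Nonempty {j // x j ≠ 0} := nonempty_subtype.mpr <| Function.ne_iff.mp hx
  suffices (fun v : nonarchAbsVal (K := K) ↦
      ⨆ i : {j // x j ≠ 0}, v.val (x i)).HasFiniteMulSupport by
    have heq : (fun v : nonarchAbsVal (K := K) ↦ ⨆ i, v.val (x i)) =
        (fun v : nonarchAbsVal (K := K) ↦ ⨆ i : {j // x j ≠ 0}, v.val (x i)) := by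
      funext v
      obtain ⟨i, hi⟩ : ∃ j, x j ≠ 0 := Function.ne_iff.mp hx
      have : Nonempty ι := .intro i
      refine le_antisymm (ciSup_le fun j ↦ ?_)
        (ciSup_le fun ⟨j, hj⟩ ↦ Finite.le_ciSup_of_le j le_rfl)
      rcases eq_or_ne (x j) 0 with h | h
      · rw [h, v.val.map_zero]
        exact Real.iSup_nonneg' ⟨⟨i, hi⟩, v.val.nonneg ..⟩
      · exact Finite.le_ciSup_of_le ⟨j, h⟩ le_rfl
    rw [heq]
    exact this
  fun_prop (disch := grind)

lemma mul_le {ι ι' : Type} [Finite ι] [Finite ι'] [Nonempty ι] (y : ι → K) (z : ι' → K)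
    (hy : y ≠ 0) (hz : z ≠ 0) (B : ℝ) (hB : 1 ≤ B)
    (h1 : ∀ v ∈ archAbsVal (K := K), ∀ i, v (y i) ≤ B * ⨆ j, v (z j))
    (h2 : ∀ v ∈ nonarchAbsVal (K := K), ∀ i, v (y i) ≤ ⨆ j, v (z j)) :
    mulHeight y ≤ B ^ (archAbsVal (K := K)).card * mulHeight z := by
  rw [mulHeight_eq hy, mulHeight_eq hz, ← mul_assoc]
  have hA : (archAbsVal.map fun v : AbsoluteValue K ℝ ↦ ⨆ i, v (y i)).prod ≤
      B ^ (archAbsVal (K := K)).card *
        (archAbsVal.map fun v : AbsoluteValue K ℝ ↦ ⨆ i, v (z i)).prod := by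
    have h3 : B ^ (archAbsVal (K := K)).card *
        (archAbsVal.map fun v : AbsoluteValue K ℝ ↦ ⨆ i, v (z i)).prod =
        (archAbsVal.map fun v : AbsoluteValue K ℝ ↦ B * ⨆ i, v (z i)).prod := by
      rw [Multiset.prod_map_mul, Multiset.map_const', Multiset.prod_replicate]
    rw [h3]
    exact Multiset.prod_map_le_prod_map₀ _ _
      (fun v _ ↦ Real.iSup_nonneg_of_nonnegHomClass v _) fun v hv ↦ ciSup_le (h1 v hv)
  refine mul_le_mul hA ?_ ?_ ?_
  · exact finprod_le_finprod (fin_supp hy)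
      (fun v ↦ Real.iSup_nonneg_of_nonnegHomClass v.val _)
      (fin_supp hz) fun v ↦ ciSup_le (h2 v.val v.2)
  · exact finprod_nonneg fun v ↦ Real.iSup_nonneg_of_nonnegHomClass v.val _
  · have : (0:ℝ) ≤ (archAbsVal.map fun v : AbsoluteValue K ℝ ↦ ⨆ i, v (z i)).prod :=
      Multiset.prod_map_nonneg fun v _ ↦ Real.iSup_nonneg_of_nonnegHomClass v _
    positivity

omit [NumberField K] in
lemma sum_le_nonarch {ι : Type} (v : AbsoluteValue K ℝ) (hv : IsNonarchimedean v)
    (s : Finset ι) (g : ι → K) (M : ℝ) (hM : 0 ≤ M) (h : ∀ i ∈ s, v (g i) ≤ M) :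
    v (∑ i ∈ s, g i) ≤ M := by
  classical
  induction s using Finset.induction_on with
  | empty => simpa using hM
  | insert a s ha ih =>
    rw [Finset.sum_insert ha]
    refine (hv _ _).trans (max_le (h a (Finset.mem_insert_self _ _)) (ih fun i hi => ?_))
    exact h i (Finset.mem_insert_of_mem hi)

end AuxRoot

open AuxRoot in
theorem pr_Root : S_Root := by
  intro K _ _ k
  refine ⟨Real.log ((k + 1 : ℝ) ^ (archAbsVal (K := K)).card), ?_⟩
  intro c x hc hsum
  have hBpos : (0:ℝ) < (k + 1 : ℝ) ^ (archAbsVal (K := K)).card := by positivity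
  -- the largest index
  obtain ⟨l, hl, hlmax⟩ : ∃ l : Fin (k + 1), c l ≠ 0 ∧ ∀ i, l < i → c i = 0 := by
    classical
    have hne : (Finset.univ.filter fun i => c i ≠ 0).Nonempty := by
      obtain ⟨i, hi⟩ := Function.ne_iff.1 hc
      exact ⟨i, by simpa using hi⟩
    refine ⟨Finset.max' _ hne, ?_, ?_⟩
    · have := Finset.max'_mem _ hne
      simpa using this
    · intro i hi
      by_contra hci
      have := Finset.le_max' (Finset.univ.filter fun i => c i ≠ 0) i (by simpa using hci)
      exact absurd hi (not_lt.2 this)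
  have hsplit : c l * x ^ (l : ℕ) = - ∑ i ∈ Finset.univ.filter (fun i => i < l), c i * x ^ (i : ℕ) := by
    classical
    rw [eq_neg_iff_add_eq_zero, ← hsum]
    have h1 : ∑ i : Fin (k + 1), c i * x ^ (i : ℕ) =
        ∑ i ∈ insert l (Finset.univ.filter (fun i => i < l)), c i * x ^ (i : ℕ) := by
      symm
      apply Finset.sum_subset (Finset.subset_univ _)
      intro i _ hi
      rw [Finset.mem_insert, Finset.mem_filter] at hi
      push Not at hi
      have : l < i := lt_of_le_of_ne (hi.2 (Finset.mem_univ _)) (Ne.symm hi.1)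
      rw [hlmax i this, zero_mul]
    rw [h1, Finset.sum_insert (by simp)]
  have key : ∀ (v : AbsoluteValue K ℝ) (M : ℝ), (∀ i, v (c i) ≤ M) → 1 < v x →
      (l : ℕ) ≠ 0 ∧ ∀ i < l, v (c i * x ^ (i : ℕ)) ≤ M * v x ^ ((l : ℕ) - 1) := by
    intro v M hM hvx
    have hM0 : 0 ≤ M := (v.nonneg _).trans (hM 0)
    constructor
    · intro h0
      rw [h0] at hsplit
      have hempty : Finset.univ.filter (fun i : Fin (k + 1) => i < l) = ∅ := by
        apply Finset.filter_eq_empty_iff.2
        intro i _ hi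
        have : (i : ℕ) < l := hi
        omega
      rw [hempty] at hsplit
      simp at hsplit
      exact hl hsplit
    · intro i hi
      have hi' : (i : ℕ) < l := hi
      rw [map_mul, map_pow]
      exact mul_le_mul (hM i) (pow_le_pow_right₀ hvx.le (by omega)) (by positivity) hM0
  have fin : ∀ (v : AbsoluteValue K ℝ) (A : ℝ), 1 < v x → (l : ℕ) ≠ 0 →
      v (c l * x ^ (l : ℕ)) ≤ A * v x ^ ((l : ℕ) - 1) → v (c l * x) ≤ A := by
    intro v A hvx hl0 h
    have hpos : 0 < v x ^ ((l : ℕ) - 1) := by positivity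
    have : v (c l * x) * v x ^ ((l : ℕ) - 1) = v (c l * x ^ (l : ℕ)) := by
      rw [← map_pow, ← map_mul, mul_assoc, ← pow_succ', Nat.sub_add_cancel (Nat.pos_of_ne_zero hl0)]
    rw [← this] at h
    exact le_of_mul_le_mul_right h hpos
  have hle : ∀ (v : AbsoluteValue K ℝ) i, v (c i) ≤ ⨆ j, v (c j) := fun v i =>
    Finite.le_ciSup_of_le i le_rfl
  have hmul : mulHeight₁ x ≤ (k + 1 : ℝ) ^ (archAbsVal (K := K)).card * mulHeight c := by
    rw [mulHeight₁_eq_mulHeight, ← mulHeight_smul_eq_mulHeight ![x, 1] hl]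
    have hk1 : (1 : ℝ) ≤ (k + 1 : ℝ) := by
      have : (0 : ℝ) ≤ k := Nat.cast_nonneg k
      linarith
    refine mul_le (c l • ![x, 1]) c ?_ hc (k + 1 : ℝ) hk1 ?_ ?_
    · intro h
      have := congrFun h 1
      simp at this
      exact hl this
    · intro v hv
      have hM := hle v
      have hM0 : 0 ≤ ⨆ j, v (c j) := (v.nonneg _).trans (hM 0)
      rw [Fin.forall_fin_two]
      constructor
      · simp only [Pi.smul_apply, Matrix.cons_val_zero, smul_eq_mul]
        rcases le_or_gt (v x) 1 with hx | hx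
        · rw [map_mul]
          calc v (c l) * v x ≤ (⨆ j, v (c j)) * 1 :=
                mul_le_mul (hM l) hx (v.nonneg _) hM0
            _ = 1 * ⨆ j, v (c j) := by ring
            _ ≤ _ := mul_le_mul_of_nonneg_right hk1 hM0
        · obtain ⟨hl0, hk⟩ := key v _ hM hx
          refine fin v _ hx hl0 ?_
          rw [hsplit, map_neg_eq_map]
          refine (v.sum_le _ _).trans ?_
          refine (Finset.sum_le_sum fun i hi => hk i (Finset.mem_filter.1 hi).2).trans ?_
          rw [Finset.sum_const, nsmul_eq_mul, mul_assoc]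
          refine mul_le_mul_of_nonneg_right ?_ (by positivity)
          have : (Finset.univ.filter (fun i : Fin (k + 1) => i < l)).card ≤ k + 1 := by
            refine (Finset.card_le_univ _).trans ?_
            simp
          exact_mod_cast this
      · simp only [Pi.smul_apply, Matrix.cons_val_one, Matrix.cons_val_fin_one, smul_eq_mul, mul_one]
        calc v (c l) ≤ 1 * ⨆ j, v (c j) := by rw [one_mul]; exact hM l
          _ ≤ _ := mul_le_mul_of_nonneg_right hk1 hM0
    · intro v hv
      have hM := hle v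
      have hM0 : 0 ≤ ⨆ j, v (c j) := (v.nonneg _).trans (hM 0)
      rw [Fin.forall_fin_two]
      constructor
      · simp only [Pi.smul_apply, Matrix.cons_val_zero, smul_eq_mul]
        rcases le_or_gt (v x) 1 with hx | hx
        · rw [map_mul]
          calc v (c l) * v x ≤ (⨆ j, v (c j)) * 1 :=
                mul_le_mul (hM l) hx (v.nonneg _) hM0
            _ = _ := by ring
        · obtain ⟨hl0, hk⟩ := key v _ hM hx
          refine fin v _ hx hl0 ?_
          rw [hsplit, map_neg_eq_map]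
          exact sum_le_nonarch v (isNonarchimedean v hv) _ _ _ (by positivity)
            fun i hi => hk i (Finset.mem_filter.1 hi).2
      · simp only [Pi.smul_apply, Matrix.cons_val_one, Matrix.cons_val_fin_one, smul_eq_mul, mul_one]
        exact hM l
  rw [logHeight₁_eq_log_mulHeight₁, logHeight_eq_log_mulHeight, add_comm,
    ← Real.log_mul hBpos.ne' (mulHeight_ne_zero c)]
  exact Real.log_le_log (mulHeight₁_pos x) hmul

end Pool.Agent.Work.MP_91e6de_nt.BL

end

section

set_option autoImplicit false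

/-!
# MP_91e6de_nt, block BL, item Sel: one of many pairwise coprime forms is not small
-/

namespace Pool.Agent.Work.MP_91e6de_nt.BL

open MvPolynomial Height Height.AdmissibleAbsValues Filter Topology

namespace AuxSel

/-- a positive lower bound for finitely many positive numbers -/
theorem pos_min {ι : Type} (s : Finset ι) (g : ι → ℝ) (h : ∀ x ∈ s, 0 < g x) :
    ∃ κ : ℝ, 0 < κ ∧ ∀ x ∈ s, κ ≤ g x := by
  classical
  induction s using Finset.induction_on with
  | empty => exact ⟨1, one_pos, fun x hx => absurd hx (Finset.notMem_empty x)⟩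
  | insert a s _ ih =>
    obtain ⟨κ, h1, h2⟩ := ih fun x hx => h x (Finset.mem_insert_of_mem hx)
    refine ⟨min κ (g a), lt_min h1 (h a (Finset.mem_insert_self a s)), fun x hx => ?_⟩
    rcases Finset.mem_insert.1 hx with rfl | hx
    · exact min_le_right _ _
    · exact (min_le_left _ _).trans (h2 x hx)

end AuxSel

theorem pr_Sel (h : S_Near) : S_Sel := by
  classical
  intro K _ T r Q q hT hQ hC
  have h1 : ∀ (v : AbsoluteValue K ℝ) (i i' : Fin r), ∃ κ : ℝ, 0 < κ ∧ (i ≠ i' →
      ∀ P : Fin 2 → K, κ * nn v P ^ q i ≤ v (eval P (Q i)) ∨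
        κ * nn v P ^ q i' ≤ v (eval P (Q i')) ∨ nn v P = 1) := by
    intro v i i'
    by_cases hi : i = i'
    · exact ⟨1, one_pos, fun h => absurd hi h⟩
    · obtain ⟨κ, h2, h3⟩ := h K v (Q i) (Q i') (q i) (q i') (hQ i) (hQ i') (hC i i' hi)
      exact ⟨κ, h2, fun _ => h3⟩
  choose κ hκ0 hκ using h1
  obtain ⟨κ₀, hpos, hmin⟩ := AuxSel.pos_min (T ×ˢ ((Finset.univ : Finset (Fin r)) ×ˢ
    (Finset.univ : Finset (Fin r)))) (fun x => κ x.1 x.2.1 x.2.2) (fun x _ => hκ0 _ _ _)
  have hmin' : ∀ v ∈ T, ∀ i i', κ₀ ≤ κ v i i' := fun v hv i i' =>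
    hmin (v, i, i') (Finset.mem_product.2 ⟨hv, Finset.mem_product.2
      ⟨Finset.mem_univ _, Finset.mem_univ _⟩⟩)
  refine ⟨κ₀, hpos, fun P => ?_⟩
  by_contra hcon
  push Not at hcon
  choose v hv hv1 hv2 using hcon
  obtain ⟨i, -, i', -, hne, heq⟩ := Finset.exists_ne_map_eq_of_card_lt_of_maps_to
    (s := (Finset.univ : Finset (Fin r))) (t := T) (f := v)
    (by rw [Finset.card_univ, Fintype.card_fin]; exact hT) (fun i _ => hv i)
  have hnn : 0 ≤ nn (v i) P := le_trans zero_le_one (le_max_right _ _)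
  rcases hκ (v i) i i' hne P with h2 | h2 | h2
  · have h3 := mul_le_mul_of_nonneg_right (hmin' (v i) (hv i) i i') (pow_nonneg hnn (q i))
    exact absurd (h3.trans h2) (not_le.2 (hv1 i))
  · have h3 := mul_le_mul_of_nonneg_right (hmin' (v i) (hv i) i i') (pow_nonneg hnn (q i'))
    have h4 := hv1 i'
    rw [← heq] at h4
    exact absurd (h3.trans h2) (not_le.2 h4)
  · exact hv2 i h2

end Pool.Agent.Work.MP_91e6de_nt.BL

end

section

set_option autoImplicit false

/-! # MP_91e6de_nt, block BL: upper bound for the height of the image -/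

namespace Pool.Agent.Work.MP_91e6de_nt.BL

open MvPolynomial Height Height.AdmissibleAbsValues Filter Topology

namespace AuxUp

lemma one_le_nn {K : Type} [Field K] (v : AbsoluteValue K ℝ) (P : Fin 2 → K) : 1 ≤ nn v P :=
  le_max_right _ _

/-- from bounds for the two coordinates to a bound for `nn` -/
lemma nn_le {K : Type} [Field K] (v : AbsoluteValue K ℝ) (f : Fin 2 → Pol K) (d : ℕ) (B : ℝ)
    (hB : 1 ≤ B) (hd : ∀ i, (f i).totalDegree ≤ d) (P : Fin 2 → K)
    (h : ∀ i, v (eval P (f i)) ≤ B * nn v P ^ (f i).totalDegree) :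
    nn v (fun i => eval P (f i)) ≤ B * nn v P ^ d := by
  have h1 := one_le_nn v P
  have h0 : 0 ≤ B := by linarith
  have h2 : ∀ i, v (eval P (f i)) ≤ B * nn v P ^ d := fun i =>
    (h i).trans (mul_le_mul_of_nonneg_left (pow_le_pow_right₀ h1 (hd i)) h0)
  have h3 : 1 ≤ nn v P ^ d := one_le_pow₀ h1
  unfold nn at *
  refine max_le (max_le (h2 0) (h2 1)) ?_
  nlinarith

end AuxUp

open AuxUp in
theorem pr_Up (h1 : S_Bd) (h2 : S_IntR) (h3 : S_PFH) : S_Up := by
  classical
  intro K _ _ f d hd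
  obtain ⟨T0, hT0⟩ := h2 K (f 0)
  obtain ⟨T1, hT1⟩ := h2 K (f 1)
  have hb : ∀ (v : AbsoluteValue K ℝ) (i : Fin 2), ∃ B : ℝ, 1 ≤ B ∧
      ∀ P : Fin 2 → K, v (eval P (f i)) ≤ B * nn v P ^ (f i).totalDegree := fun v i => h1 K v (f i)
  choose b hb1 hb2 using hb
  set S : Finset (AbsoluteValue K ℝ) := (archAbsVal (K := K)).toFinset ∪ (T0 ∪ T1) with hS
  set B : ℝ := 1 + ∑ v ∈ S, (b v 0 + b v 1) with hB
  have hbpos : ∀ v i, 0 ≤ b v i := fun v i => zero_le_one.trans (hb1 v i)
  have hBS : ∀ v ∈ S, ∀ i, b v i ≤ B := by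
    intro v hv i
    have h4 : b v 0 + b v 1 ≤ ∑ v ∈ S, (b v 0 + b v 1) :=
      Finset.single_le_sum (f := fun v => b v 0 + b v 1)
        (fun v _ => add_nonneg (hbpos v 0) (hbpos v 1)) hv
    have h5 := hbpos v 0
    have h6 := hbpos v 1
    fin_cases i
    · show b v 0 ≤ B
      linarith
    · show b v 1 ≤ B
      linarith
  have hB1 : 1 ≤ B := by
    have : 0 ≤ ∑ v ∈ S, (b v 0 + b v 1) :=
      Finset.sum_nonneg fun v _ => add_nonneg (hbpos v 0) (hbpos v 1)
    linarith
  -- the places outside the finite set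
  have hout : ∀ v ∈ nonarchAbsVal (K := K), v ∉ T0 ∪ T1 → ∀ P : Fin 2 → K,
      nn v (fun i => eval P (f i)) ≤ nn v P ^ d := by
    intro v hv hvT P
    rw [Finset.mem_union, not_or] at hvT
    have h4 := nn_le v f d 1 le_rfl hd P (fun i => ?_)
    · rwa [one_mul] at h4
    · rw [one_mul]
      fin_cases i
      · exact hT0 v hv hvT.1 P
      · exact hT1 v hv hvT.2 P
  obtain ⟨C, hC⟩ := h3 K (T0 ∪ T1) B 1 d hB1
  refine ⟨C, fun P => ?_⟩
  have h4 := hC 1 (fun i => eval P (f i)) P one_ne_zero ?_ ?_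
  · simpa using h4
  · intro v hv
    rw [map_one, one_mul, pow_one]
    by_cases hvS : v ∈ S
    · refine nn_le v f d B hB1 hd P (fun i => (hb2 v i P).trans ?_)
      exact mul_le_mul_of_nonneg_right (hBS v hvS i)
        (pow_nonneg (zero_le_one.trans (one_le_nn v P)) _)
    · have h5 : v ∉ (archAbsVal (K := K)).toFinset ∧ v ∉ T0 ∪ T1 := by
        rw [hS, Finset.mem_union, not_or] at hvS
        exact hvS
      rcases hv with hv | hv
      · exact absurd (Multiset.mem_toFinset.2 hv) h5.1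
      · refine (hout v hv h5.2 P).trans ?_
        exact le_mul_of_one_le_left (pow_nonneg (zero_le_one.trans (one_le_nn v P)) _) hB1
  · intro v hv hvT
    rw [map_one, one_mul, pow_one]
    exact hout v hv hvT P

end Pool.Agent.Work.MP_91e6de_nt.BL

end
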