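import Pool.Agent.Work.MP_91e6de_nt.BL.Stmts
import Pool.Agent.Work.MP_91e6de_nt.DM.I_Bez

/-! Bundle of small proof modules (one section per former module). -/

section

set_option autoImplicit false

/-!
# MP_91e6de_nt, block BL: visits of curves
-/

namespace Pool.Agent.Work.MP_91e6de_nt.BL

open MvPolynomial Height Height.AdmissibleAbsValues Filter Topology

theorem pr_Vis (h1 : S_VisI) (h2 : S_Gap) : S_Vis := by
  obtain ⟨_, hU, hS, h0⟩ := h2
  intro K _ f P hD Z
  induction Z using WfDvdMonoid.induction_on_irreducible with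
  | zero =>
    intro h
    exact absurd rfl h
  | unit u hu =>
    intro _
    refine hS _ _ ?_ h0
    intro n hn
    have hn' : eval (orb f P n) u = 0 := hn
    have h3 : IsUnit (eval (orb f P n) u) := hu.map (eval (orb f P n))
    rw [hn'] at h3
    exact absurd h3 not_isUnit_zero
  | mul a i ha hi ih =>
    intro _
    refine hS _ _ ?_ (hU _ _ (h1 K f P hD i hi) (ih ha))
    intro n hn
    have hn' : eval (orb f P n) (i * a) = 0 := hn
    rw [map_mul] at hn'
    exact mul_eq_zero.1 hn'

end Pool.Agent.Work.MP_91e6de_nt.BL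

end

section

set_option autoImplicit false

namespace Pool.Agent.Work.MP_91e6de_nt.BL

open MvPolynomial Height Height.AdmissibleAbsValues Filter Topology

namespace AuxVisI

variable {K : Type} [Field K]

lemma eval_aeval' (g : Fin 2 → Pol K) (x : Fin 2 → K) (p : Pol K) :
    eval x (aeval g p : Pol K) = eval (fun i => eval x (g i)) p := by
  induction p using MvPolynomial.induction_on with
  | C a => simp
  | add p q hp hq => rw [map_add, map_add, map_add, hp, hq]
  | mul_X p i hp => rw [map_mul, map_mul, map_mul, hp, aeval_X, eval_X]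

lemma D_succ (f : Fin 2 → Pol K) (P : Fin 2 → K)
    (hdom : ∀ Φ : Pol K, (aeval f Φ : Pol K) = 0 → Φ = 0) (k m : ℕ)
    (hD : ∀ R : Pol K, (∀ i, eval (orb f P (m + i * k)) R = 0) → R = 0) :
    ∀ R : Pol K, (∀ i, eval (orb f P (m + 1 + i * k)) R = 0) → R = 0 := by
  intro R hR
  refine hdom R (hD _ fun i => ?_)
  rw [eval_aeval']
  have := hR i
  rw [show m + 1 + i * k = (m + i * k) + 1 by ring] at this
  exact this

lemma D_add (f : Fin 2 → Pol K) (P : Fin 2 → K)
    (hdom : ∀ Φ : Pol K, (aeval f Φ : Pol K) = 0 → Φ = 0) (k m j : ℕ)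
    (hD : ∀ R : Pol K, (∀ i, eval (orb f P (m + i * k)) R = 0) → R = 0) :
    ∀ R : Pol K, (∀ i, eval (orb f P (m + j + i * k)) R = 0) → R = 0 := by
  induction j with
  | zero => exact hD
  | succ j ih => exact D_succ f P hdom k (m + j) ih

end AuxVisI

open AuxVisI in
theorem pr_VisI (h1 : S_Gap) (h2 : S_Bez) (h3 : S_Inj) (h4 : S_Dom) (h5 : S_It) : S_VisI := by
  intro K _ f P hP Z hZ
  by_contra hd
  obtain ⟨k, hk, hinf⟩ := h1.1 _ hd
  have hdom := h4 K f P hP
  have hinj := h3 K f P hP
  have hW : ∀ n, eval (orb f P n) (aeval (it f k) Z : Pol K) = eval (orb f P (n + k)) Z := by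
    intro n
    rw [eval_aeval']
    congr 1
    congr 1
    funext i
    exact (h5 K f).2 P n k i
  have hZW : Z ∣ (aeval (it f k) Z : Pol K) := by
    by_contra hnd
    have hfin := h2 K Z _ hZ hnd
    refine (Set.infinite_of_injOn_mapsTo (f := orb f P) (hinj.injOn) ?_ hinf) hfin
    intro n hn
    exact ⟨hn.1, by rw [hW]; exact hn.2⟩
  have hstep : ∀ n, eval (orb f P n) Z = 0 → eval (orb f P (n + k)) Z = 0 := by
    intro n hn
    rw [← hW]
    obtain ⟨U, hU⟩ := hZW
    rw [hU, map_mul, hn, zero_mul]
  obtain ⟨n0, hn0, -⟩ := hinf.nonempty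
  have hall : ∀ i, eval (orb f P (n0 + i * k)) Z = 0 := by
    intro i
    induction i with
    | zero => simpa using hn0
    | succ i ih =>
      have := hstep _ ih
      rwa [show n0 + i * k + k = n0 + (i + 1) * k by ring] at this
  have hex : ∃ r < k, ∀ R : Pol K, (∀ i, eval (orb f P (n0 + r + i * k)) R = 0) → R = 0 := by
    by_contra hne
    push Not at hne
    choose! R hR using hne
    have hprod : (∏ r ∈ Finset.range k, R r) *
        ∏ n ∈ Finset.range n0, (X 0 - C (orb f P n 0) : Pol K) = 0 := by
      apply hP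
      intro n
      rw [map_mul]
      rcases lt_or_ge n n0 with hn | hn
      · rw [map_prod (eval (orb f P n)) _ (Finset.range n0),
          Finset.prod_eq_zero (Finset.mem_range.2 hn), mul_zero]
        simp
      · rw [map_prod (eval (orb f P n)) _ (Finset.range k),
          Finset.prod_eq_zero (i := (n - n0) % k)
            (Finset.mem_range.2 (Nat.mod_lt _ (by omega))), zero_mul]
        have h := (hR ((n - n0) % k) (Nat.mod_lt _ (by omega))).1 ((n - n0) / k)
        have h' : n0 + (n - n0) % k + (n - n0) / k * k = n := by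
          have := Nat.mod_add_div (n - n0) k
          rw [Nat.mul_comm] at this
          omega
        rwa [h'] at h
    rcases mul_eq_zero.1 hprod with h | h
    · rw [Finset.prod_eq_zero_iff] at h
      obtain ⟨r, hr, h0⟩ := h
      exact (hR r (Finset.mem_range.1 hr)).2 h0
    · rw [Finset.prod_eq_zero_iff] at h
      obtain ⟨n, -, h0⟩ := h
      have := congrArg (coeff (Finsupp.single 0 1)) h0
      simp only [coeff_sub, coeff_X, coeff_C, coeff_zero] at this
      rw [if_pos trivial, if_neg (by
        intro h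
        have := DFunLike.congr_fun h 0
        simp at this)] at this
      simp at this
  obtain ⟨r, hr, hD⟩ := hex
  have hDk := D_add f P hdom k (n0 + r) (k - r) hD Z (by
    intro i
    have := hall (i + 1)
    rwa [show n0 + (i + 1) * k = n0 + r + (k - r) + i * k by
      have : (i + 1) * k = i * k + k := by ring
      omega] at this)
  exact hZ.ne_zero hDk

end Pool.Agent.Work.MP_91e6de_nt.BL

end

section

set_option autoImplicit false

/-!
# The dimension of the space of polynomials of degree at most `m` in two variables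
-/

namespace Pool.Agent.Work.MP_91e6de_nt.BL

open MvPolynomial Height Height.AdmissibleAbsValues Filter Topology

namespace Auxdim

/-- the exponents of total degree at most `m` -/
def st (m : ℕ) : Set (Fin 2 →₀ ℕ) := {n | (n.sum fun _ e => e) ≤ m}

theorem sum_eq (n : Fin 2 →₀ ℕ) : (n.sum fun _ e => e) = n 0 + n 1 := by
  rw [Finsupp.sum_fintype _ _ (fun _ => rfl), Fin.sum_univ_two]

/-- counting the exponents -/
noncomputable def eqv (m : ℕ) : st m ≃ (Σ k : Fin (m + 1), Fin ((k : ℕ) + 1)) where
  toFun n := ⟨⟨n.1 0 + n.1 1, Nat.lt_succ_of_le (by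
    have := n.2
    change (n.1.sum fun _ e => e) ≤ m at this
    rwa [sum_eq] at this)⟩, ⟨n.1 0, Nat.lt_succ_of_le (Nat.le_add_right _ _)⟩⟩
  invFun x := ⟨Finsupp.single 0 (x.2 : ℕ) + Finsupp.single 1 ((x.1 : ℕ) - (x.2 : ℕ)), by
    change (Finsupp.sum _ fun _ e => e) ≤ m
    rw [sum_eq]
    have h1 := x.1.2
    have h2 := x.2.2
    simp
    omega⟩
  left_inv n := by
    apply Subtype.ext
    ext i
    fin_cases i <;> simp
  right_inv x := by
    obtain ⟨⟨k, hk⟩, ⟨a, ha⟩⟩ := x
    have ha' : a ≤ k := Nat.lt_succ_iff.1 ha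
    have h1 : a + (k - a) = k := Nat.add_sub_cancel' ha'
    apply Sigma.ext
    · apply Fin.ext
      simp [h1]
    · simp only [Finsupp.add_apply, Finsupp.single_apply]
      refine (Fin.heq_ext_iff ?_).2 ?_
      · simp [h1]
      · simp

theorem card_sigma (m : ℕ) :
    2 * Fintype.card (Σ k : Fin (m + 1), Fin ((k : ℕ) + 1)) = (m + 1) * (m + 2) := by
  rw [Fintype.card_sigma]
  simp only [Fintype.card_fin]
  rw [Fin.sum_univ_eq_sum_range (fun k => k + 1) (m + 1)]
  induction m with
  | zero => simp
  | succ m ih =>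
    rw [Finset.sum_range_succ, mul_add, ih]
    ring

end Auxdim

theorem pr_dim : S_dim := by
  intro K _ m
  have b := basisRestrictSupport K (Auxdim.st m)
  have hb : AA K m = restrictSupport K (Auxdim.st m) := rfl
  have b' := b.reindex (Auxdim.eqv m)
  rw [hb]
  refine ⟨b'.finiteDimensional_of_finite, ?_⟩
  rw [Module.finrank_eq_card_basis b']
  exact Auxdim.card_sigma m

end Pool.Agent.Work.MP_91e6de_nt.BL

end

section

set_option autoImplicit false

/-!
# MP_91e6de_nt, block BL: Bezout, qualitative
-/

namespace Pool.Agent.Work.MP_91e6de_nt.BL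

open MvPolynomial Height Height.AdmissibleAbsValues Filter Topology

theorem pr_Bez : S_Bez := by
  intro K _ E A hE hEA
  have hrel : IsRelPrime E A := hE.isRelPrime_iff_not_dvd.2 hEA
  by_contra hinf
  obtain ⟨Z, hZ, hcard⟩ := (show Set.Infinite {P : Fin 2 → K | eval P E = 0 ∧ eval P A = 0} from
    hinf).exists_subset_card_eq (E.totalDegree * A.totalDegree + 1)
  have h := DM.BezAuxK.main E A hrel hE.ne_zero Z (fun z hz => hZ hz)
  omega

end Pool.Agent.Work.MP_91e6de_nt.BL

end
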