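import Pool.Agent.Work.MP_91e6de_nt.BM.Stmts

/-! Bundle of small proof modules (one section per former module). -/

section

set_option autoImplicit false

/-!
# MP_91e6de_nt, block BM, item DimI: elements of `EE 1 F N s'` modulo an irreducible polynomial
-/

namespace Pool.Agent.Work.MP_91e6de_nt.BM

open MvPolynomial Height Height.AdmissibleAbsValues Filter Topology
open Pool.Agent.Work.MP_91e6de_nt.BL

namespace AuxDimI

variable {K : Type} [Field K]

lemma Ii_comm (u w : Pol K) : Ii u w = Ii w u := by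
  unfold Ii
  rw [Set.pair_comm]

lemma Ii_one (h4 : S_Add) (w : Pol K) : Ii (1 : Pol K) w = 0 := by
  have := h4 K 1 1 w (by rw [one_mul]; exact isRelPrime_one_left)
  rw [one_mul] at this
  omega

lemma Ii_pow (h4 : S_Add) (l G : Pol K) (h : IsRelPrime l G) (k : ℕ) :
    Ii (l ^ k) G = k * Ii l G := by
  induction k with
  | zero => simp [Ii_one h4]
  | succ k ih =>
    rw [pow_succ, h4 K (l ^ k) l G (by
      rw [← pow_succ]
      exact h.pow_left), ih]
    ring

lemma eval_aeval (φ : K →+* ℂ) (z : Fin 2 → ℂ) (u : Fin 2 → Pol K) (p : Pol K) :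
    eval₂ φ z (aeval u p : Pol K) = eval₂ φ (ce φ u z) p := by
  induction p using MvPolynomial.induction_on with
  | C a => simp [MvPolynomial.algebraMap_eq]
  | add p q hp hq => rw [map_add, eval₂_add, eval₂_add, hp, hq]
  | mul_X p i hp => rw [map_mul, eval₂_mul, eval₂_mul, hp, aeval_X, eval₂_X]; rfl

lemma cn_one (z : Fin 2 → ℂ) : 1 ≤ cn z := le_max_right _ _

/-- an asymptotic comparison -/
lemma cmp {a b C ρ : ℝ} (h : ∀ t : ℂ, ρ ≤ ‖t‖ → a * Real.log ‖t‖ ≤ b * Real.log ‖t‖ + C) :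
    a ≤ b := by
  by_contra hab
  push Not at hab
  have h1 : 0 < a - b := by linarith
  obtain ⟨x, hx⟩ : ∃ x : ℝ, max ρ 1 ≤ x ∧ (|C| + 1) / (a - b) ≤ Real.log x := by
    have := (Real.tendsto_log_atTop.eventually_ge_atTop ((|C| + 1) / (a - b))).and
      (eventually_ge_atTop (max ρ 1))
    obtain ⟨x, hx1, hx2⟩ := this.exists
    exact ⟨x, hx2, hx1⟩
  have hx0 : 0 ≤ x := le_trans (le_trans zero_le_one (le_max_right _ _)) hx.1
  have h2 := h (x : ℂ) (by
    rw [Complex.norm_real, Real.norm_eq_abs, abs_of_nonneg hx0]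
    exact (le_max_left _ _).trans hx.1)
  rw [Complex.norm_real, Real.norm_eq_abs, abs_of_nonneg hx0] at h2
  have h3 : |C| + 1 ≤ (a - b) * Real.log x := by
    rw [div_le_iff₀ h1] at hx
    linarith [hx.2]
  have h4 := le_abs_self C
  nlinarith

lemma sum_log_le {ι : Type} (s : Multiset ι) (f g : ι → ℝ) (h : ∀ z ∈ s, f z ≤ g z) :
    (s.map f).sum ≤ (s.map g).sum := Multiset.sum_map_le_sum_map f g h

/-- the intersection number with the linear form -/
lemma Ii_lin (φ : K →+* ℂ) (G l : Pol K) (Z : ℂ → Multiset (Fin 2 → ℂ)) (hZ : Crv φ G Z)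
    (hl : IsRelPrime G l) (hlt : ∀ t, ∀ z ∈ Z t, eval₂ φ z l = t) :
    Ii G l = G.totalDegree := by
  obtain ⟨C, ρ, hρ, h⟩ := hZ.poi l hl
  have key : ∀ t : ℂ, ρ ≤ ‖t‖ →
      |(G.totalDegree : ℝ) * Real.log ‖t‖ - Ii G l * Real.log ‖t‖| ≤ C := by
    intro t ht
    have h1 := (h t ht).2
    have h2 : ((Z t).map (fun z => Real.log ‖eval₂ φ z l‖)).sum =
        (G.totalDegree : ℝ) * Real.log ‖t‖ := by
      rw [Multiset.map_congr rfl (fun z hz => by rw [hlt t z hz]), Multiset.map_const',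
        Multiset.sum_replicate, hZ.card t, nsmul_eq_mul]
    rw [h2] at h1
    exact h1
  have e1 : ((Ii G l : ℕ) : ℝ) ≤ G.totalDegree := cmp (C := C) (ρ := ρ) (fun t ht => by
    have := (abs_le.1 (key t ht)).1
    linarith)
  have e2 : ((G.totalDegree : ℕ) : ℝ) ≤ Ii G l := cmp (C := C) (ρ := ρ) (fun t ht => by
    have := (abs_le.1 (key t ht)).2
    linarith)
  exact_mod_cast le_antisymm e1 e2

/-- the values of the elements of `EE 1 F N s'` -/
lemma val_le (h3 : S_Up1) (φ : K →+* ℂ) (u : Fin 2 → Pol K) (Ψ : Pol K) (e N s' : ℕ)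
    (he : Ψ.totalDegree ≤ e) (T : Pol K) (hT : T ∈ EE 1 (aeval u Ψ) N s') :
    ∃ B : ℝ, 1 ≤ B ∧ ∀ z : Fin 2 → ℂ,
      ‖eval₂ φ z T‖ ≤ B * cn z ^ s' * cn (ce φ u z) ^ (e * N) := by
  obtain ⟨a, ha, rfl⟩ := hT
  choose B hB1 hB using fun T => h3 K φ T
  refine ⟨1 + ∑ c ∈ Finset.range (N + 1), B (a c) * B Ψ ^ N, ?_, ?_⟩
  · have : 0 ≤ ∑ c ∈ Finset.range (N + 1), B (a c) * B Ψ ^ N :=
      Finset.sum_nonneg fun c _ => mul_nonneg (zero_le_one.trans (hB1 _))
        (pow_nonneg (zero_le_one.trans (hB1 _)) _)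
    linarith
  intro z
  have h1 := cn_one z
  have h2 := cn_one (ce φ u z)
  have hX : 0 ≤ cn z ^ s' * cn (ce φ u z) ^ (e * N) := by positivity
  have key : ∀ c ∈ Finset.range (N + 1),
      ‖eval₂ φ z (a c * 1 ^ (N - c) * (aeval u Ψ : Pol K) ^ c)‖ ≤
        B (a c) * B Ψ ^ N * (cn z ^ s' * cn (ce φ u z) ^ (e * N)) := by
    intro c hc
    rw [Finset.mem_range] at hc
    rw [eval₂_mul, eval₂_mul, eval₂_pow, eval₂_pow, eval₂_one, one_pow, mul_one, norm_mul,
      norm_pow, eval_aeval]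
    have e1 : ‖eval₂ φ z (a c)‖ ≤ B (a c) * cn z ^ s' :=
      (hB (a c) z).trans (mul_le_mul_of_nonneg_left (pow_le_pow_right₀ h1 (ha c))
        (zero_le_one.trans (hB1 _)))
    have e2 : ‖eval₂ φ (ce φ u z) Ψ‖ ≤ B Ψ * cn (ce φ u z) ^ e :=
      (hB Ψ (ce φ u z)).trans (mul_le_mul_of_nonneg_left (pow_le_pow_right₀ h2 he)
        (zero_le_one.trans (hB1 _)))
    have e3 : 1 ≤ B Ψ * cn (ce φ u z) ^ e :=
      one_le_mul_of_one_le_of_one_le (hB1 _) (one_le_pow₀ h2)
    have e4 : ‖eval₂ φ (ce φ u z) Ψ‖ ^ c ≤ (B Ψ * cn (ce φ u z) ^ e) ^ N :=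
      (pow_le_pow_left₀ (norm_nonneg _) e2 c).trans (pow_le_pow_right₀ e3 (by omega))
    calc ‖eval₂ φ z (a c)‖ * ‖eval₂ φ (ce φ u z) Ψ‖ ^ c
        ≤ (B (a c) * cn z ^ s') * (B Ψ * cn (ce φ u z) ^ e) ^ N := by
          refine mul_le_mul e1 e4 (pow_nonneg (norm_nonneg _) _) ?_
          have := hB1 (a c)
          positivity
      _ = B (a c) * B Ψ ^ N * (cn z ^ s' * cn (ce φ u z) ^ (e * N)) := by
          rw [mul_pow, ← pow_mul]
          ring
  have e5 : eval₂ φ z (∑ c ∈ Finset.range (N + 1), a c * 1 ^ (N - c) * (aeval u Ψ : Pol K) ^ c)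
      = ∑ c ∈ Finset.range (N + 1), eval₂ φ z (a c * 1 ^ (N - c) * (aeval u Ψ : Pol K) ^ c) := by
    rw [← coe_eval₂Hom, map_sum]
  rw [e5]
  calc ‖∑ c ∈ Finset.range (N + 1), eval₂ φ z (a c * 1 ^ (N - c) * (aeval u Ψ : Pol K) ^ c)‖
      ≤ ∑ c ∈ Finset.range (N + 1), B (a c) * B Ψ ^ N *
          (cn z ^ s' * cn (ce φ u z) ^ (e * N)) := norm_sum_le_of_le _ key
    _ = (∑ c ∈ Finset.range (N + 1), B (a c) * B Ψ ^ N) *
          (cn z ^ s' * cn (ce φ u z) ^ (e * N)) := by rw [Finset.sum_mul]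
    _ ≤ (1 + ∑ c ∈ Finset.range (N + 1), B (a c) * B Ψ ^ N) *
          (cn z ^ s' * cn (ce φ u z) ^ (e * N)) := by
        refine mul_le_mul_of_nonneg_right ?_ hX
        linarith
    _ = _ := by ring

/-- upper bound for the intersection number -/
lemma Ii_le (h2 : S_Jn) (h3 : S_Up1) (φ : K →+* ℂ) (G : Pol K) (u : Fin 2 → Pol K)
    (M e : ℕ) (Ψ : Pol K) (Z : ℂ → Multiset (Fin 2 → ℂ)) (hZ : Crv φ G Z) (𝒜 : Finset K)
    (h𝒜 : 2 * G.totalDegree < 𝒜.card)
    (hb : ∀ a ∈ 𝒜, IsRelPrime G (la a u) ∧ Ii G (la a u) ≤ M)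
    (he : Ψ.totalDegree ≤ e) (N s' : ℕ) (T : Pol K) (hT : T ∈ EE 1 (aeval u Ψ) N s')
    (hGT : IsRelPrime G T) : Ii G T ≤ N * e * M + s' * G.totalDegree := by
  obtain ⟨B, hB1, hB⟩ := val_le h3 φ u Ψ e N s' he T hT
  obtain ⟨C, ρ, hρ, hC⟩ := h2 K φ G Z M u 𝒜 hZ h𝒜 hb
  obtain ⟨C1, ρ1, hρ1, hP⟩ := hZ.poi T hGT
  obtain ⟨C2, hC2, hbd⟩ := hZ.bd
  set q := G.totalDegree with hq
  have key : ((Ii G T : ℕ) : ℝ) ≤ (N * e * M + s' * q : ℝ) := by
    refine cmp (ρ := max ρ ρ1) (C := C1 + q * Real.log B + s' * (q * Real.log C2) +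
      (e * N : ℝ) * C) ?_
    intro t ht
    have ht0 : ρ ≤ ‖t‖ := (le_max_left _ _).trans ht
    have ht1 : ρ1 ≤ ‖t‖ := (le_max_right _ _).trans ht
    have ht2 : (1 : ℝ) ≤ ‖t‖ := hρ.trans ht0
    obtain ⟨p1, p2⟩ := hP t ht1
    have p3 := hC t ht0
    have p4 : ((Z t).map (fun z => Real.log ‖eval₂ φ z T‖)).sum ≤
        ((Z t).map (fun z => Real.log B + s' * Real.log (cn z) +
          (e * N : ℝ) * Real.log (cn (ce φ u z)))).sum := by
      refine sum_log_le _ _ _ fun z hz => ?_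
      have c1 := cn_one z
      have c2 := cn_one (ce φ u z)
      have c3 : 0 < ‖eval₂ φ z T‖ := norm_pos_iff.2 (p1 z hz)
      have c4 := Real.log_le_log c3 (hB z)
      rw [Real.log_mul (by positivity) (by positivity), Real.log_mul (by positivity)
        (by positivity), Real.log_pow, Real.log_pow] at c4
      push_cast at c4
      exact c4
    have p5 : ((Z t).map (fun z => Real.log B + s' * Real.log (cn z) +
          (e * N : ℝ) * Real.log (cn (ce φ u z)))).sum =
        q * Real.log B + s' * ((Z t).map (fun z => Real.log (cn z))).sum +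
          (e * N : ℝ) * ((Z t).map (fun z => Real.log (cn (ce φ u z)))).sum := by
      rw [Multiset.sum_map_add, Multiset.sum_map_add, Multiset.sum_map_mul_left,
        Multiset.sum_map_mul_left, Multiset.map_const', Multiset.sum_replicate, hZ.card t,
        nsmul_eq_mul]
    have p6 : ((Z t).map (fun z => Real.log (cn z))).sum ≤
        q * (Real.log C2 + Real.log ‖t‖) := by
      have : ((Z t).map (fun z => Real.log (cn z))).sum ≤
          ((Z t).map (fun _ => Real.log C2 + Real.log ‖t‖)).sum := by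
        refine sum_log_le _ _ _ fun z hz => ?_
        have c1 := cn_one z
        have c5 := (hbd t z hz).1
        rw [max_eq_left ht2] at c5
        rw [← Real.log_mul (by positivity) (by positivity)]
        exact Real.log_le_log (by positivity) c5
      refine this.trans (le_of_eq ?_)
      rw [Multiset.map_const', Multiset.sum_replicate, hZ.card t, nsmul_eq_mul]
    have p7 := (abs_le.1 p2).1
    have p8 : (s' : ℝ) * ((Z t).map (fun z => Real.log (cn z))).sum ≤
        s' * (q * (Real.log C2 + Real.log ‖t‖)) := mul_le_mul_of_nonneg_left p6 (by positivity)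
    have p9 : (e * N : ℝ) * ((Z t).map (fun z => Real.log (cn (ce φ u z)))).sum ≤
        (e * N : ℝ) * (M * Real.log ‖t‖ + C) := mul_le_mul_of_nonneg_left p3 (by positivity)
    rw [p5] at p4
    nlinarith
  exact_mod_cast key

end AuxDimI

open AuxDimI in
theorem pr_DimI (h1 : S_Crv) (h2 : S_Jn) (h3 : S_Up1) (h4 : S_Add) (h5 : S_Fd) : S_DimI := by
  intro K _ φ G u M e Ψ hG hE he N s' W _ hW
  obtain ⟨E, hE⟩ := hE
  obtain ⟨Z, hZ⟩ := h1 K φ G hG.ne_zero
  obtain ⟨l, hl, hlt⟩ := hZ.lin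
  have hq : 1 ≤ G.totalDegree := by
    by_contra h
    have h0 : G.totalDegree = 0 := by omega
    rw [totalDegree_eq_zero_iff_eq_C] at h0
    have hc : coeff 0 G ≠ 0 := by
      intro hc
      rw [hc, C_0] at h0
      exact hG.ne_zero h0
    apply hG.not_isUnit
    rw [h0]
    exact (isUnit_iff_ne_zero.2 hc).map C
  have hIl := Ii_lin φ G l Z hZ hl hlt
  set q := G.totalDegree with hqdef
  set k := (N * e * M + s' * q) / q + 1 with hk
  have hk1 : N * e * M + s' * q < k * q := by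
    have := Nat.div_add_mod (N * e * M + s' * q) q
    have h2 := Nat.mod_lt (N * e * M + s' * q) (show q > 0 by omega)
    rw [hk]
    nlinarith
  have hk2 : k * q ≤ N * e * M + s' * q + q := by
    have := Nat.div_mul_le_self (N * e * M + s' * q) q
    rw [hk, add_mul, one_mul]
    omega
  have hlk : IsRelPrime G (l ^ k) := hl.pow_right
  have hIk : Ii G (l ^ k) = k * q := by
    rw [Ii_comm, Ii_pow h4 l G hl.symm, Ii_comm, hIl]
  have : CharZero K := by
    refine ⟨fun a b hab => ?_⟩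
    have : φ (a : K) = φ (b : K) := by rw [hab]
    simpa using this
  obtain ⟨𝒜, h𝒜1, h𝒜2⟩ : ∃ 𝒜 : Finset K, 2 * q < 𝒜.card ∧ ∀ a ∈ 𝒜, a ∉ E := by
    have hinf : ((E : Set K)ᶜ).Infinite := E.finite_toSet.infinite_compl
    obtain ⟨𝒜, h1, h2⟩ := hinf.exists_subset_card_eq (2 * q + 1)
    exact ⟨𝒜, by omega, fun a ha => by simpa using h1 ha⟩
  have claim : ∀ T ∈ W, T ∈ Ideal.span {G, l ^ k} → G ∣ T := by
    intro T hTW hT
    by_contra hGT
    have hrel : IsRelPrime G T := hG.isRelPrime_iff_not_dvd.2 hGT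
    obtain ⟨S, T', hST⟩ := Ideal.mem_span_pair.1 hT
    have hspan : Ideal.span {G, T} = Ideal.span {G, l ^ k * T'} := by
      apply le_antisymm
      · rw [Ideal.span_le]
        rintro x (rfl | rfl)
        · exact Ideal.subset_span (by simp)
        · rw [← hST]
          refine Ideal.add_mem _ (Ideal.mul_mem_left _ _ (Ideal.subset_span (by simp))) ?_
          rw [mul_comm]
          exact Ideal.subset_span (by simp)
      · rw [Ideal.span_le]
        rintro x (rfl | rfl)
        · exact Ideal.subset_span (by simp)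
        · have : l ^ k * T' = T - S * G := by rw [← hST]; ring
          rw [this]
          exact Ideal.sub_mem _ (Ideal.subset_span (by simp))
            (Ideal.mul_mem_left _ _ (Ideal.subset_span (by simp)))
    have hrel2 : IsRelPrime (l ^ k * T') G := by
      intro d hd1 hd2
      refine hrel hd2 ?_
      rw [← hST]
      refine dvd_add (hd2.mul_left _) ?_
      rw [mul_comm]
      exact hd1
    have e1 : Ii G T = k * q + Ii T' G := by
      unfold Ii
      rw [hspan]
      change Ii G (l ^ k * T') = _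
      rw [Ii_comm, h4 K _ _ _ hrel2, Ii_comm (l ^ k), hIk]
      rfl
    have e2 := Ii_le h2 h3 φ G u M e Ψ Z hZ 𝒜 h𝒜1 (fun a ha => hE a (h𝒜2 a ha)) he N s' T
      (hW hTW) hrel
    rw [← hqdef] at e2
    omega
  have := h5 K G (l ^ k) hlk
  let I : Ideal (Pol K) := Ideal.span {G, l ^ k}
  let π : Pol K →ₗ[K] (Pol K ⧸ I) := (Ideal.Quotient.mkₐ K I).toLinearMap
  let g : W →ₗ[K] (Pol K ⧸ I) := π.comp W.subtype
  have r1 := LinearMap.finrank_range_add_finrank_ker g
  have r2 : Module.finrank K (LinearMap.range g) ≤ k * q := by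
    rw [← hIk]
    exact Submodule.finrank_le _
  have r3 : Module.finrank K (LinearMap.ker g) ≤
      Module.finrank K (W ⊓ II G 1 : Submodule K (Pol K)) := by
    rw [← Submodule.finrank_map_subtype_eq W (LinearMap.ker g)]
    refine Submodule.finrank_mono ?_
    rintro x ⟨y, hy, rfl⟩
    refine ⟨y.2, ?_⟩
    change G ^ 1 ∣ (y : Pol K)
    rw [pow_one]
    refine claim y y.2 ?_
    have hy' : g y = 0 := hy
    exact Ideal.Quotient.eq_zero_iff_mem.1 hy'
  omega

end Pool.Agent.Work.MP_91e6de_nt.BM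

end

section

set_option autoImplicit false

namespace Pool.Agent.Work.MP_91e6de_nt.BM

open MvPolynomial Height Height.AdmissibleAbsValues Filter Topology
open Pool.Agent.Work.MP_91e6de_nt.BL

namespace AuxDimQ

lemma mem_II {K : Type} [Field K] (Q T : Pol K) : T ∈ II Q 1 ↔ Q ∣ T := by
  change Q ^ 1 ∣ T ↔ Q ∣ T
  rw [pow_one]

end AuxDimQ

open AuxDimQ in
theorem pr_DimQ (h1 : S_DimI) (h2 : S_Gen) (h3 : S_Add) : S_DimQ := by
  classical
  intro K _ φ Q u M e Ψ hQ hsq hgen hΨ N s' W hW hWE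
  have : CharZero K := φ.charZero
  have : Infinite K := CharZero.infinite K
  revert hQ hsq hgen M W
  induction Q using WfDvdMonoid.induction_on_irreducible with
  | zero =>
    intro M hQ
    exact absurd rfl hQ
  | unit Q hu =>
    intro M _ _ _ W hW hWE
    have e1 : W ⊓ II Q 1 = W := by
      refine le_antisymm inf_le_left (le_inf le_rfl fun T _ => ?_)
      rw [mem_II]
      exact hu.dvd
    rw [e1]
    exact Nat.le_add_right _ _
  | mul a i ha hi ih =>
    intro M hQ hsq hgen W hW hWE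
    have hi0 : i ≠ 0 := hi.ne_zero
    have hsa : Squarefree a := hsq.squarefree_of_dvd (Dvd.intro_left i rfl)
    have hcop : IsRelPrime i a := by
      rw [squarefree_mul_iff] at hsq
      exact hsq.1
    obtain ⟨ρi, -, Ei, hEi⟩ := h2 K φ i u hi0
    obtain ⟨ρa, -, Ea, hEa⟩ := h2 K φ a u ha
    obtain ⟨E, hE⟩ := hgen
    obtain ⟨b, hb⟩ := Infinite.exists_notMem_finset (E ∪ Ei ∪ Ea)
    rw [Finset.mem_union, Finset.mem_union, not_or, not_or] at hb
    have k1 := hE b hb.1.1
    have k2 := hEi b hb.1.2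
    have k3 := hEa b hb.2
    have k4 := h3 K i a (la b u) k1.1
    have hM : ρi + ρa ≤ M := by
      have := k1.2
      rw [k4, k2.2, k3.2] at this
      exact this
    have l1 := ih ρa ha hsa ⟨Ea, fun b hb => ⟨(hEa b hb).1, (hEa b hb).2.le⟩⟩ W hW hWE
    have hW' : FiniteDimensional K (W ⊓ II a 1 : Submodule K (Pol K)) :=
      Submodule.finiteDimensional_of_le inf_le_left
    have l2 := h1 K φ i u ρi e Ψ hi ⟨Ei, fun b hb => ⟨(hEi b hb).1, (hEi b hb).2.le⟩⟩ hΨ N s'
      (W ⊓ II a 1) hW' (inf_le_left.trans hWE)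
    have e1 : W ⊓ II a 1 ⊓ II i 1 = W ⊓ II (i * a) 1 := by
      ext T
      simp only [Submodule.mem_inf, mem_II]
      constructor
      · rintro ⟨⟨h, h'⟩, h''⟩
        exact ⟨h, hcop.mul_dvd h'' h'⟩
      · rintro ⟨h, h'⟩
        exact ⟨⟨h, (Dvd.intro_left i rfl).trans h'⟩, (Dvd.intro a rfl).trans h'⟩
    rw [e1] at l2
    have hdeg : (i * a).totalDegree = i.totalDegree + a.totalDegree :=
      totalDegree_mul_of_isDomain hi0 ha
    rw [hdeg]
    have hN : N * e * ρi + N * e * ρa ≤ N * e * M := by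
      rw [← mul_add]
      exact Nat.mul_le_mul_left _ hM
    rw [mul_add]
    omega

end Pool.Agent.Work.MP_91e6de_nt.BM

end

section

set_option autoImplicit false

/-!
# MP_91e6de_nt, block BM: item DivL (divisibility by linear polynomials)
-/

namespace Pool.Agent.Work.MP_91e6de_nt.BM

open MvPolynomial Height Height.AdmissibleAbsValues Filter Topology
open Pool.Agent.Work.MP_91e6de_nt.BL

namespace AuxDivL

variable {K : Type} [Field K]

theorem la_X (c : K) : la c (fun i => (X i : Pol K)) = X 0 + C c * X 1 + C (c ^ 2) := rfl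

theorem deg (c : K) : (la c (fun i => (X i : Pol K))).totalDegree = 1 := by
  rw [la_X]
  apply le_antisymm
  · refine (totalDegree_add _ _).trans (max_le ((totalDegree_add _ _).trans (max_le ?_ ?_)) ?_)
    · rw [totalDegree_X]
    · refine (totalDegree_mul _ _).trans ?_
      rw [totalDegree_C, totalDegree_X]
    · rw [totalDegree_C]
      exact Nat.zero_le _
  · have h : coeff (Finsupp.single 0 1) (X 0 + C c * X 1 + C (c ^ 2) : Pol K) ≠ 0 := by
      rw [coeff_add, coeff_add, coeff_C_mul, coeff_X, coeff_X, coeff_C]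
      have h1 : Finsupp.single (1 : Fin 2) 1 ≠ Finsupp.single (0 : Fin 2) 1 := by
        intro h
        have := DFunLike.congr_fun h 1
        simp at this
      have h2 : (0 : Fin 2 →₀ ℕ) ≠ Finsupp.single (0 : Fin 2) 1 := by
        intro h
        have := DFunLike.congr_fun h 0
        simp at this
      rw [if_pos rfl, if_neg h1, if_neg h2]
      simp
    have := le_totalDegree (mem_support_iff.2 h)
    simpa using this

theorem ne (c : K) : la c (fun i => (X i : Pol K)) ≠ 0 := by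
  intro h
  have := deg c
  rw [h] at this
  simp at this

theorem irr (c : K) : Irreducible (la c (fun i => (X i : Pol K))) := by
  have hun : ∀ p : Pol K, p ≠ 0 → p.totalDegree = 0 → IsUnit p := by
    intro p hp h
    have h1 := totalDegree_eq_zero_iff_eq_C.1 h
    rw [h1]
    apply IsUnit.map
    rw [isUnit_iff_ne_zero]
    intro h0
    apply hp
    rw [h1, h0, map_zero]
  refine ⟨?_, ?_⟩
  · intro hu
    have h1 := deg c
    obtain ⟨w, hw⟩ := hu.exists_right_inv
    have h3 : la c (fun i => (X i : Pol K)) ≠ 0 := ne c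
    have h4 : w ≠ 0 := by
      rintro rfl
      rw [mul_zero] at hw
      exact zero_ne_one hw
    have h2 := totalDegree_mul_of_isDomain h3 h4
    rw [hw, totalDegree_one] at h2
    omega
  · intro a b hab
    have h3 : a ≠ 0 := by
      rintro rfl
      rw [zero_mul] at hab
      exact ne c hab
    have h4 : b ≠ 0 := by
      rintro rfl
      rw [mul_zero] at hab
      exact ne c hab
    have h2 := totalDegree_mul_of_isDomain h3 h4
    rw [← hab, deg] at h2
    rcases Nat.eq_zero_or_pos a.totalDegree with h | h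
    · exact Or.inl (hun a h3 h)
    · exact Or.inr (hun b h4 (by omega))

theorem rel (c c' : K) (h : c ≠ c') :
    IsRelPrime (la c (fun i => (X i : Pol K))) (la c' (fun i => (X i : Pol K))) := by
  rw [(irr c).isRelPrime_iff_not_dvd]
  rintro ⟨w, hw⟩
  have h1 := congrArg (eval ![-(c * (1 - c - c')) - c ^ 2, 1 - c - c']) hw
  rw [la_X, la_X, map_mul] at h1
  simp only [map_add, map_mul, eval_X, eval_C, Matrix.cons_val_zero, Matrix.cons_val_one] at h1
  apply h
  linear_combination -h1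

end AuxDivL

theorem pr_DivL : S_DivL := by
  classical
  intro K _ W B 𝒜 hW hB hcard
  have hGr := pr_Gr pr_dim
  have key : ∀ 𝒜 : Finset K, ∃ W' ≤ W, Module.finrank K W ≤
      Module.finrank K W' + 𝒜.card * (B + 1) ∧
      ∀ T ∈ W', ∀ c ∈ 𝒜, la c (fun i => (X i : Pol K)) ∣ T := by
    intro 𝒜
    induction 𝒜 using Finset.induction_on with
    | empty => exact ⟨W, le_rfl, by simp, fun T _ c hc => by simp at hc⟩
    | insert c 𝒜 hc ih =>
      obtain ⟨W', hW', hr, hd⟩ := ih
      have : FiniteDimensional K W' := Submodule.finiteDimensional_of_le hW'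
      have h1 := hGr K (la c (fun i => (X i : Pol K))) 1 0 B W' this (AuxDivL.ne c)
        (AuxDivL.deg c) le_rfl (fun T hT => ⟨T, hB T (hW' hT), by simp⟩)
      have h2 : W' ⊓ II (la c (fun i => (X i : Pol K))) 0 = W' := by
        rw [inf_eq_left]
        intro T _
        show _ ^ 0 ∣ T
        rw [pow_zero]
        exact one_dvd _
      rw [h2, Nat.zero_add] at h1
      refine ⟨W' ⊓ II (la c (fun i => (X i : Pol K))) 1, inf_le_left.trans hW', ?_, ?_⟩
      · rw [Finset.card_insert_of_notMem hc, add_mul]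
        rw [mul_zero, Nat.sub_zero, one_mul] at h1
        omega
      · intro T hT c' hc'
        rcases Finset.mem_insert.1 hc' with rfl | hc'
        · have h3 : la c' (fun i => (X i : Pol K)) ^ 1 ∣ T := hT.2
          rwa [pow_one] at h3
        · exact hd T hT.1 c' hc'
  obtain ⟨W', hW', hr, hd⟩ := key 𝒜
  have hpos : 0 < Module.finrank K W' := by omega
  have hne : W' ≠ ⊥ := by
    rintro rfl
    rw [finrank_bot] at hpos
    exact lt_irrefl _ hpos
  obtain ⟨T, hT, hT0⟩ := Submodule.exists_mem_ne_zero_of_ne_bot hne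
  have hdv : (∏ c ∈ 𝒜, la c (fun i => (X i : Pol K))) ∣ T :=
    Finset.prod_dvd_of_isRelPrime (fun c _ c' _ h => AuxDivL.rel c c' h)
      (fun c hc => hd T hT c hc)
  obtain ⟨R, hR⟩ := hdv
  refine ⟨R, ?_, ?_⟩
  · rintro rfl
    rw [mul_zero] at hR
    exact hT0 hR
  · rw [← hR]
    exact hW' hT

end Pool.Agent.Work.MP_91e6de_nt.BM

end

section

set_option autoImplicit false

namespace Pool.Agent.Work.MP_91e6de_nt.BM

open MvPolynomial Height Height.AdmissibleAbsValues Filter Topology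
open Pool.Agent.Work.MP_91e6de_nt.BL

namespace AuxDivQ

theorem mem_inf {K : Type} [Field K] (Q : Pol K) (𝒜 : Finset K) (T : Pol K)
    (hT : T ∈ 𝒜.inf (fun c => II (Q + C c) 1)) : ∀ c ∈ 𝒜, Q + C c ∣ T := by
  intro c hc
  have h1 : 𝒜.inf (fun c => II (Q + C c) 1) ≤ II (Q + C c) 1 := Finset.inf_le hc
  have h2 : (Q + C c) ^ 1 ∣ T := h1 hT
  rwa [pow_one] at h2

theorem td {K : Type} [Field K] (Q : Pol K) (c : K) (h : 1 ≤ Q.totalDegree) :
    (Q + C c).totalDegree = Q.totalDegree := by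
  apply totalDegree_add_eq_left_of_totalDegree_lt
  rw [totalDegree_C]
  omega

theorem main (h : S_DimQ) (K : Type) [Field K] (φ : K →+* ℂ) (Q : Pol K) (u : Fin 2 → Pol K)
    (M e : ℕ) (Ψ : Pol K) (𝒜 : Finset K) (hQ : 1 ≤ Q.totalDegree)
    (hsq : ∀ c ∈ 𝒜, Squarefree (Q + C c))
    (hint : ∀ c ∈ 𝒜, ∃ E : Finset K, ∀ b, b ∉ E → IsRelPrime (Q + C c) (la b u) ∧
      Ii (Q + C c) (la b u) ≤ M)
    (hΨ : Ψ.totalDegree ≤ e) (N s' : ℕ) (W : Submodule K (Pol K)) (hfd : FiniteDimensional K W)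
    (hW : W ≤ EE 1 (aeval u Ψ) N s') :
    Module.finrank K W ≤
      Module.finrank K (W ⊓ 𝒜.inf (fun c => II (Q + C c) 1) : Submodule K (Pol K)) +
      𝒜.card * (N * e * M + s' * Q.totalDegree + Q.totalDegree) := by
  classical
  induction 𝒜 using Finset.induction_on with
  | empty => rw [Finset.inf_empty, inf_top_eq]; omega
  | insert c 𝒜 hc ih =>
    have ih' := ih (fun x hx => hsq x (Finset.mem_insert_of_mem hx))
      (fun x hx => hint x (Finset.mem_insert_of_mem hx))
    have hfd' : FiniteDimensional K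
        (W ⊓ 𝒜.inf (fun c => II (Q + C c) 1) : Submodule K (Pol K)) :=
      Submodule.finiteDimensional_of_le inf_le_left
    have hne : Q + C c ≠ 0 := by
      intro h0
      have := td Q c hQ
      rw [h0, totalDegree_zero] at this
      omega
    have h1 := h K φ (Q + C c) u M e Ψ hne (hsq c (Finset.mem_insert_self _ _))
      (hint c (Finset.mem_insert_self _ _)) hΨ N s' _ hfd' (inf_le_left.trans hW)
    rw [td Q c hQ] at h1
    rw [Finset.card_insert_of_notMem hc, Finset.inf_insert, inf_comm (II (Q + C c) 1), ← inf_assoc]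
    nlinarith [h1, ih']

end AuxDivQ

theorem pr_DivQ (h : S_DimQ) : S_DivQ := by
  intro K _ φ Q u M e Ψ 𝒜 hQ hsq hint hΨ N s' W hfd hW hlt
  have h1 := AuxDivQ.main h K φ Q u M e Ψ 𝒜 hQ hsq hint hΨ N s' W hfd hW
  have h2 : (W ⊓ 𝒜.inf (fun c => II (Q + C c) 1) : Submodule K (Pol K)) ≠ ⊥ := by
    intro h0
    rw [h0, finrank_bot] at h1
    omega
  obtain ⟨T, hT, hT0⟩ := Submodule.exists_mem_ne_zero_of_ne_bot h2
  have h3 := AuxDivQ.mem_inf Q 𝒜 T hT.2
  have h4 : (∏ c ∈ 𝒜, (Q + C c)) ∣ T := by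
    apply Finset.prod_dvd_of_coprime _ h3
    intro a _ b _ hab
    have hab' : a - b ≠ 0 := sub_ne_zero.2 hab
    refine ⟨C (a - b)⁻¹, - C (a - b)⁻¹, ?_⟩
    have : (C (a - b)⁻¹ : Pol K) * C (a - b) = 1 := by
      rw [← C_mul, inv_mul_cancel₀ hab', C_1]
    rw [C_sub] at this
    linear_combination this
  obtain ⟨R, rfl⟩ := h4
  exact ⟨R, right_ne_zero_of_mul hT0, hT.1⟩

end Pool.Agent.Work.MP_91e6de_nt.BM

end

section

set_option autoImplicit false

namespace Pool.Agent.Work.MP_91e6de_nt.BM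

open MvPolynomial Height Height.AdmissibleAbsValues Filter Topology
open Pool.Agent.Work.MP_91e6de_nt.BL
open scoped nonZeroDivisors

namespace AuxFib

/-- a homomorphism to the complex numbers extends along an integral injective extension -/
lemma ext (A B : Type) [CommRing A] [CommRing B] [Algebra A B] [Algebra.IsIntegral A B]
    (hinj : Function.Injective (algebraMap A B)) (ψ : A →+* ℂ) :
    ∃ θ : B →+* ℂ, θ.comp (algebraMap A B) = ψ := by
  have hp : (RingHom.ker ψ).IsPrime := RingHom.ker_isPrime ψ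
  obtain ⟨Q, -, hQ, hQc⟩ := Ideal.exists_ideal_over_prime_of_isIntegral (RingHom.ker ψ)
    (⊥ : Ideal B) (by
      intro x hx
      have : algebraMap A B x = 0 := by simpa [Ideal.mem_comap] using hx
      have h0 : x = 0 := hinj (by rw [this, map_zero])
      rw [h0]
      exact Ideal.zero_mem _)
  have hP : (Q.comap (algebraMap A B)).IsPrime := Ideal.comap_isPrime _ _
  let ψ' : A ⧸ Q.comap (algebraMap A B) →+* ℂ :=
    Ideal.Quotient.lift _ ψ (fun a ha => by
      rw [hQc] at ha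
      exact ha)
  have hψ' : Function.Injective ψ' := by
    rw [injective_iff_map_eq_zero]
    intro a ha
    obtain ⟨a, rfl⟩ := Ideal.Quotient.mk_surjective a
    rw [Ideal.Quotient.eq_zero_iff_mem, hQc]
    simpa [ψ', RingHom.mem_ker] using ha
  let _ : Algebra (A ⧸ Q.comap (algebraMap A B)) ℂ := ψ'.toAlgebra
  have h1 : Module.IsTorsionFree (A ⧸ Q.comap (algebraMap A B)) ℂ := by
    rw [Module.isTorsionFree_iff_algebraMap_injective]
    exact hψ'
  have h2 : Module.IsTorsionFree (A ⧸ Q.comap (algebraMap A B)) (B ⧸ Q) := by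
    rw [Module.isTorsionFree_iff_algebraMap_injective]
    exact Ideal.algebraMap_quotient_injective
  have h3 : Algebra.IsIntegral (A ⧸ Q.comap (algebraMap A B)) (B ⧸ Q) := inferInstance
  have h4 : Algebra.IsAlgebraic (A ⧸ Q.comap (algebraMap A B)) (B ⧸ Q) := inferInstance
  let g : B ⧸ Q →ₐ[A ⧸ Q.comap (algebraMap A B)] ℂ := IsAlgClosed.lift
  refine ⟨g.toRingHom.comp (Ideal.Quotient.mk Q), ?_⟩
  ext a
  have hc := g.commutes (Ideal.Quotient.mk _ a)
  have hd : algebraMap (A ⧸ Q.comap (algebraMap A B)) ℂ (Ideal.Quotient.mk _ a) = ψ a := by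
    show ψ' (Ideal.Quotient.mk _ a) = ψ a
    simp [ψ']
  rw [hd] at hc
  simpa using hc

attribute [local instance] FractionRing.liftAlgebra FractionRing.isScalarTower_liftAlgebra

lemma main (A B : Type) [CommRing A] [IsDomain A] [IsIntegrallyClosed A]
    [CommRing B] [IsDomain B] [IsIntegrallyClosed B] [CharZero A] [Algebra A B]
    [Module.Finite A B] [Module.IsTorsionFree A B] : ∃ n : ℕ, 1 ≤ n ∧ ∀ ψ : A →+* ℂ,
    ∃ χ : Fin n → (B →+* ℂ), (∀ i, (χ i).comp (algebraMap A B) = ψ) ∧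
      ∀ u : B, ψ (Algebra.intNorm A B u) = ∏ i, χ i u := by
  have : IsIntegralClosure B A (FractionRing B) :=
    IsIntegralClosure.of_isIntegrallyClosed _ _ _
  have : Algebra.IsAlgebraic (FractionRing A) (FractionRing B) :=
    isAlgebraic_of_isFractionRing A B ..
  have : IsLocalization (Algebra.algebraMapSubmonoid B A⁰) (FractionRing B) :=
    IsIntegralClosure.isLocalization _ (FractionRing A) _ _
  have : FiniteDimensional (FractionRing A) (FractionRing B) := .of_isLocalization A B A⁰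
  have hc0 : CharZero (FractionRing A) := by
    refine charZero_of_injective_algebraMap (R := A) (IsFractionRing.injective A (FractionRing A))
  have : Algebra.IsSeparable (FractionRing A) (FractionRing B) := inferInstance
  let Ω := AlgebraicClosure (FractionRing A)
  let S := FractionRing B →ₐ[FractionRing A] Ω
  have hcard : Fintype.card S = Module.finrank (FractionRing A) (FractionRing B) :=
    AlgHom.card (FractionRing A) (FractionRing B) Ω
  have hpos : 1 ≤ Fintype.card S := by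
    rw [hcard]
    exact Module.finrank_pos
  refine ⟨Fintype.card S, hpos, fun ψ => ?_⟩
  have hinjΩ : Function.Injective (algebraMap A Ω) := by
    rw [IsScalarTower.algebraMap_eq A (FractionRing A) Ω]
    exact (algebraMap (FractionRing A) Ω).injective.comp
      (IsFractionRing.injective A (FractionRing A))
  have hinj : Function.Injective (algebraMap A (integralClosure A Ω)) := by
    intro x y h
    apply hinjΩ
    have := congrArg (Subtype.val) h
    simpa using this
  obtain ⟨θ, hθ⟩ := ext A (integralClosure A Ω) hinj ψ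
  have hint : ∀ (σ : S) (b : B), σ (algebraMap B (FractionRing B) b) ∈ integralClosure A Ω := by
    intro σ b
    have hb : IsIntegral A b := IsIntegral.of_finite A b
    exact ((hb.algebraMap (B := FractionRing B)).map (σ.restrictScalars A))
  let r : S → (B →ₐ[A] integralClosure A Ω) := fun σ =>
    ((σ.restrictScalars A).comp (IsScalarTower.toAlgHom A B (FractionRing B))).codRestrict
      (integralClosure A Ω) (hint σ)
  let e : Fin (Fintype.card S) ≃ S := (Fintype.equivFin S).symm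
  refine ⟨fun i => θ.comp (r (e i)).toRingHom, fun i => ?_, fun u => ?_⟩
  · rw [← hθ]
    ext a
    simp
  · have h1 : algebraMap A (integralClosure A Ω) (Algebra.intNorm A B u) = ∏ σ : S, r σ u := by
      apply Subtype.val_injective
      have hn := Algebra.norm_eq_prod_embeddings (K := FractionRing A) (L := FractionRing B) Ω
        (algebraMap B (FractionRing B) u)
      rw [← Algebra.algebraMap_intNorm_fractionRing] at hn
      have hl : ((algebraMap A (integralClosure A Ω) (Algebra.intNorm A B u) :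
          integralClosure A Ω) : Ω) =
          algebraMap (FractionRing A) Ω (algebraMap A (FractionRing A) (Algebra.intNorm A B u)) := by
        rw [← IsScalarTower.algebraMap_apply A (FractionRing A) Ω]
        rfl
      show ((algebraMap A (integralClosure A Ω) (Algebra.intNorm A B u) :
          integralClosure A Ω) : Ω) = ((∏ σ : S, r σ u : integralClosure A Ω) : Ω)
      rw [hl, hn]
      push_cast
      rfl
    have h2 : ψ (Algebra.intNorm A B u) =
        θ (algebraMap A (integralClosure A Ω) (Algebra.intNorm A B u)) := by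
      rw [← hθ]
      rfl
    rw [h2, h1, map_prod]
    rw [← Equiv.prod_comp e]
    rfl

end AuxFib

theorem pr_Fib : S_Fib := by
  intro A B _ _ _ _ _ _ _ _ _ _
  exact AuxFib.main A B

end Pool.Agent.Work.MP_91e6de_nt.BM

end

section

set_option autoImplicit false

/-!
# MP_91e6de_nt, block BM: item IndU (independent products)
-/

namespace Pool.Agent.Work.MP_91e6de_nt.BM

open MvPolynomial Height Height.AdmissibleAbsValues Filter Topology
open Pool.Agent.Work.MP_91e6de_nt.BL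

namespace AuxIndU

variable {K : Type} [Field K]

/-- one variable -/
theorem lemB (u F : Pol K) (hr : IsRelPrime u F) (n : ℕ) (e : Fin n → Pol K)
    (he : ∀ c : Fin n → K, (∑ r, c r • e r) ∈ Ideal.span {u, F} → c = 0) :
    ∀ (N : ℕ) (c : Fin N → Fin n → K), u ∣ ∑ k, (∑ r, c k r • e r) * F ^ (k : ℕ) → c = 0 := by
  intro N
  induction N with
  | zero =>
    intro c _
    funext k
    exact k.elim0
  | succ N ih =>
    intro c hc
    rw [Fin.sum_univ_succ] at hc
    have e1 : ∑ k : Fin N, (∑ r, c k.succ r • e r) * F ^ ((k.succ : Fin (N + 1)) : ℕ) =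
        F * ∑ k : Fin N, (∑ r, c k.succ r • e r) * F ^ (k : ℕ) := by
      rw [Finset.mul_sum]
      refine Finset.sum_congr rfl fun k _ => ?_
      rw [Fin.val_succ]
      ring
    rw [e1, Fin.val_zero, pow_zero, mul_one] at hc
    have h0 : c 0 = 0 := by
      apply he
      obtain ⟨w, hw⟩ := hc
      rw [Ideal.mem_span_pair]
      refine ⟨w, -∑ k : Fin N, (∑ r, c k.succ r • e r) * F ^ (k : ℕ), ?_⟩
      linear_combination -hw
    have h1 : ∑ r, c 0 r • e r = 0 := by
      rw [h0]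
      simp
    rw [h1, zero_add] at hc
    have h2 := ih (fun k => c k.succ) (hr.dvd_of_dvd_mul_left hc)
    funext k
    refine Fin.cases ?_ (fun k => ?_) k
    · exact h0
    · exact congrFun h2 k

/-- two variables -/
theorem lemA (u F : Pol K) (hr : IsRelPrime u F) (hu : u ≠ 0) (n : ℕ) (e : Fin n → Pol K)
    (he : ∀ c : Fin n → K, (∑ r, c r • e r) ∈ Ideal.span {u, F} → c = 0) (N : ℕ) :
    ∀ (s : ℕ) (c : Fin s → Fin N → Fin n → K),
      ∑ l, ∑ k, (∑ r, c l k r • e r) * u ^ (l : ℕ) * F ^ (k : ℕ) = 0 → c = 0 := by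
  intro s
  induction s with
  | zero =>
    intro c _
    funext k
    exact k.elim0
  | succ s ih =>
    intro c hc
    rw [Fin.sum_univ_succ] at hc
    have e1 : ∑ l : Fin s, ∑ k, (∑ r, c l.succ k r • e r) * u ^ ((l.succ : Fin (s + 1)) : ℕ) *
        F ^ (k : ℕ) = u * ∑ l : Fin s, ∑ k, (∑ r, c l.succ k r • e r) * u ^ (l : ℕ) *
        F ^ (k : ℕ) := by
      rw [Finset.mul_sum]
      refine Finset.sum_congr rfl fun l _ => ?_
      rw [Finset.mul_sum]
      refine Finset.sum_congr rfl fun k _ => ?_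
      rw [Fin.val_succ]
      ring
    have e2 : ∑ k, (∑ r, c 0 k r • e r) * u ^ ((0 : Fin (s + 1)) : ℕ) * F ^ (k : ℕ) =
        ∑ k, (∑ r, c 0 k r • e r) * F ^ (k : ℕ) := by
      refine Finset.sum_congr rfl fun k _ => ?_
      rw [Fin.val_zero, pow_zero, mul_one]
    rw [e1, e2] at hc
    have h0 : c 0 = 0 := by
      apply lemB u F hr n e he N (c 0)
      refine ⟨-∑ l : Fin s, ∑ k, (∑ r, c l.succ k r • e r) * u ^ (l : ℕ) * F ^ (k : ℕ), ?_⟩
      linear_combination hc
    have h1 : ∑ k, (∑ r, c 0 k r • e r) * F ^ (k : ℕ) = 0 := by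
      rw [h0]
      simp
    rw [h1, zero_add] at hc
    have h2 := ih (fun l => c l.succ) ((mul_eq_zero.1 hc).resolve_left hu)
    funext k
    refine Fin.cases ?_ (fun k => ?_) k
    · exact h0
    · exact congrFun h2 k

end AuxIndU

theorem pr_IndU (h : S_Fd) : S_IndU := by
  classical
  intro K _ u F hr
  have hfin := h K u F hr
  by_cases hI : Ii u F = 0
  · refine ⟨0, fun N s' => ⟨⊥, inferInstance, ?_, ?_⟩⟩
    · rw [hI, mul_zero]
      exact Nat.zero_le _
    · intro T hT
      rw [Submodule.mem_bot] at hT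
      refine ⟨0, fun l k => by simp, ?_⟩
      rw [hT]
      simp
  have hu : u ≠ 0 := by
    rintro rfl
    apply hI
    have hF : IsUnit F := isRelPrime_zero_left.1 hr
    have htop : Ideal.span {(0 : Pol K), F} = ⊤ := by
      rw [Ideal.eq_top_iff_one, Ideal.mem_span_pair]
      obtain ⟨w, hw⟩ := hF.exists_left_inv
      exact ⟨0, w, by rw [hw]; ring⟩
    unfold Ii
    have : Subsingleton (Pol K ⧸ Ideal.span {(0 : Pol K), F}) :=
      Ideal.Quotient.subsingleton_iff.2 htop
    exact Module.finrank_zero_of_subsingleton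
  set n := Ii u F with hn
  let b : Module.Basis (Fin n) K (Pol K ⧸ Ideal.span {u, F}) := Module.finBasis K _
  have hsur : ∀ r, ∃ p : Pol K, Ideal.Quotient.mk (Ideal.span {u, F}) p = b r := fun r =>
    Ideal.Quotient.mk_surjective (b r)
  choose e he using hsur
  have hE : ∀ c : Fin n → K, (∑ r, c r • e r) ∈ Ideal.span {u, F} → c = 0 := by
    intro c hc
    have h1 := Ideal.Quotient.eq_zero_iff_mem.2 hc
    have h2 : Ideal.Quotient.mk (Ideal.span {u, F}) (∑ r, c r • e r) = ∑ r, c r • b r := by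
      rw [map_sum]
      refine Finset.sum_congr rfl fun r _ => ?_
      rw [← he r]
      rfl
    rw [h2] at h1
    funext r
    exact Fintype.linearIndependent_iff.1 b.linearIndependent c h1 r
  refine ⟨Finset.univ.sup (fun r => (e r).totalDegree), fun N s' => ?_⟩
  let Φ : (Fin (s' + 1) → Fin (N + 1) → Fin n → K) →ₗ[K] Pol K := {
    toFun := fun c => ∑ l, ∑ k, (∑ r, c l k r • e r) * u ^ (l : ℕ) * F ^ (k : ℕ)
    map_add' := by
      intro c c'
      simp only [Pi.add_apply, add_smul, Finset.sum_add_distrib, add_mul]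
    map_smul' := by
      intro x c
      simp only [Pi.smul_apply, smul_eq_mul, mul_smul, RingHom.id_apply, Finset.smul_sum,
        Finset.sum_mul, smul_mul_assoc] }
  have hΦ : Function.Injective Φ := by
    rw [injective_iff_map_eq_zero]
    intro c hc
    exact AuxIndU.lemA u F hr hu n e hE (N + 1) (s' + 1) c hc
  refine ⟨LinearMap.range Φ, inferInstance, ?_, ?_⟩
  · rw [LinearMap.finrank_range_of_inj hΦ]
    simp only [Module.finrank_pi_fintype, Module.finrank_self, Finset.sum_const,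
      Finset.card_univ, Fintype.card_fin, smul_eq_mul, mul_one]
    apply le_of_eq
    ring
  · rintro _ ⟨c, rfl⟩
    refine ⟨fun l k => if h : l < s' + 1 ∧ k < N + 1 then
      ∑ r, c ⟨l, h.1⟩ ⟨k, h.2⟩ r • e r else 0, ?_, ?_⟩
    · intro l k
      beta_reduce
      split_ifs with h
      · refine (totalDegree_finsetSum _ _).trans (Finset.sup_le fun r _ => ?_)
        exact (totalDegree_smul_le _ _).trans
          (Finset.le_sup (f := fun r => (e r).totalDegree) (Finset.mem_univ r))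
      · simp
    · show ∑ l, ∑ k, (∑ r, c l k r • e r) * u ^ (l : ℕ) * F ^ (k : ℕ) = _
      rw [Finset.sum_range]
      refine Finset.sum_congr rfl fun l _ => ?_
      rw [Finset.sum_range]
      refine Finset.sum_congr rfl fun k _ => ?_
      beta_reduce
      rw [dif_pos (show (l : ℕ) < s' + 1 ∧ (k : ℕ) < N + 1 from ⟨l.2, k.2⟩)]

end Pool.Agent.Work.MP_91e6de_nt.BM

end

section

set_option autoImplicit false

/-!
# MP_91e6de_nt, block BM: invariance under the shear
-/

namespace Pool.Agent.Work.MP_91e6de_nt.BM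

open MvPolynomial Height Height.AdmissibleAbsValues Filter Topology
open Pool.Agent.Work.MP_91e6de_nt.BL

namespace AuxInv

variable {K : Type} [Field K]

theorem sh_X0 (τ : K) : sh τ (X 0) = X 0 + C τ * X 1 := by
  unfold sh
  rw [aeval_X]
  rfl

theorem sh_X1 (τ : K) : sh τ (X 1) = X 1 := by
  unfold sh
  rw [aeval_X]
  rfl

theorem sh_C (τ a : K) : sh τ (C a) = C a := (sh τ).commutes a

theorem comp_eq (τ : K) : (sh (-τ)).comp (sh τ) = AlgHom.id K (Pol K) := by
  apply MvPolynomial.algHom_ext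
  intro i
  rw [AlgHom.comp_apply, AlgHom.id_apply]
  fin_cases i
  · show sh (-τ) (sh τ (X 0)) = X 0
    rw [sh_X0, map_add, map_mul, sh_C, sh_X0, sh_X1, C_neg]
    ring
  · show sh (-τ) (sh τ (X 1)) = X 1
    rw [sh_X1, sh_X1]

theorem sh_sh (τ : K) (u : Pol K) : sh (-τ) (sh τ u) = u :=
  DFunLike.congr_fun (comp_eq τ) u

theorem sh_sh' (τ : K) (u : Pol K) : sh τ (sh (-τ) u) = u := by
  have h := sh_sh (-τ) u
  rwa [neg_neg] at h

/-- the shear as an automorphism -/
noncomputable def shE (τ : K) : Pol K ≃ₐ[K] Pol K :=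
  AlgEquiv.ofAlgHom (sh τ) (sh (-τ))
    (by
      have h := comp_eq (-τ)
      rwa [neg_neg] at h)
    (comp_eq τ)

theorem shE_apply (τ : K) (u : Pol K) : shE τ u = sh τ u := rfl

theorem deg_gen (τ : K) (i : Fin 2) :
    ((![X 0 + C τ * X 1, X 1] : Fin 2 → Pol K) i).totalDegree ≤ 1 := by
  fin_cases i
  · show (X 0 + C τ * X 1 : Pol K).totalDegree ≤ 1
    refine (totalDegree_add _ _).trans (max_le ?_ ?_)
    · rw [totalDegree_X]
    · refine (totalDegree_mul _ _).trans ?_
      rw [totalDegree_C, totalDegree_X]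
  · show (X 1 : Pol K).totalDegree ≤ 1
    rw [totalDegree_X]

theorem deg_le (τ : K) (u : Pol K) : (sh τ u).totalDegree ≤ u.totalDegree := by
  unfold sh
  rw [aeval_def, eval₂_eq']
  refine totalDegree_finsetSum_le ?_
  intro d hd
  refine (totalDegree_mul _ _).trans ?_
  have h1 : (algebraMap K (Pol K) (coeff d u)).totalDegree = 0 := totalDegree_C _
  rw [h1, zero_add]
  have h2 : (∏ i : Fin 2, ((![X 0 + C τ * X 1, X 1] : Fin 2 → Pol K) i) ^ d i).totalDegree
      ≤ ∑ i : Fin 2, d i := by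
    refine (totalDegree_finsetProd _ _).trans ?_
    refine Finset.sum_le_sum ?_
    intro i _
    refine (totalDegree_pow _ _).trans ?_
    calc d i * ((![X 0 + C τ * X 1, X 1] : Fin 2 → Pol K) i).totalDegree
        ≤ d i * 1 := Nat.mul_le_mul_left _ (deg_gen τ i)
      _ = d i := mul_one _
  refine h2.trans ?_
  have h3 := le_totalDegree hd
  rwa [Finsupp.sum_fintype _ _ (fun _ => rfl)] at h3

theorem deg_eq (τ : K) (u : Pol K) : (sh τ u).totalDegree = u.totalDegree := by
  apply le_antisymm (deg_le τ u)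
  have h := deg_le (-τ) (sh τ u)
  rwa [sh_sh] at h

theorem rp (τ : K) (u w : Pol K) (h : IsRelPrime (sh τ u) (sh τ w)) : IsRelPrime u w := by
  intro d hu hw
  have h1 : IsUnit (sh τ d) := h (map_dvd (sh τ) hu) (map_dvd (sh τ) hw)
  have h2 := h1.map (sh (-τ))
  rwa [sh_sh] at h2

theorem rp_iff (τ : K) (u w : Pol K) : IsRelPrime (sh τ u) (sh τ w) ↔ IsRelPrime u w := by
  refine ⟨rp τ u w, fun h => rp (-τ) _ _ ?_⟩
  rw [sh_sh, sh_sh]
  exact h

theorem Ii_eq (τ : K) (u w : Pol K) : Ii (sh τ u) (sh τ w) = Ii u w := by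
  unfold Ii
  have hI : Ideal.span {sh τ u, sh τ w} = (Ideal.span {u, w}).map (shE τ : Pol K →+* Pol K) := by
    rw [Ideal.map_span, Set.image_pair]
    rfl
  exact (Ideal.quotientEquivAlg (Ideal.span {u, w}) (Ideal.span {sh τ u, sh τ w})
    (shE τ) hI).toLinearEquiv.finrank_eq.symm

theorem eval_eq (τ : K) (φ : K →+* ℂ) (z : Fin 2 → ℂ) (u : Pol K) :
    eval₂ φ z (sh τ u) = eval₂ φ ![z 0 + φ τ * z 1, z 1] u := by
  induction u using MvPolynomial.induction_on with
  | C a => rw [sh_C, eval₂_C, eval₂_C]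
  | add p q hp hq => rw [map_add, eval₂_add, eval₂_add, hp, hq]
  | mul_X p i hp =>
    rw [map_mul, eval₂_mul, eval₂_mul, hp, eval₂_X]
    congr 1
    fin_cases i
    · show eval₂ φ z (sh τ (X 0)) = z 0 + φ τ * z 1
      rw [sh_X0, eval₂_add, eval₂_mul, eval₂_X, eval₂_C, eval₂_X]
    · show eval₂ φ z (sh τ (X 1)) = z 1
      rw [sh_X1, eval₂_X]

end AuxInv

theorem pr_Inv : S_Inv := by
  intro K _ τ
  exact ⟨AuxInv.sh_sh τ, AuxInv.deg_eq τ, AuxInv.rp_iff τ, AuxInv.Ii_eq τ, AuxInv.eval_eq τ⟩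

end Pool.Agent.Work.MP_91e6de_nt.BM

end

section

set_option autoImplicit false

namespace Pool.Agent.Work.MP_91e6de_nt.BM

open MvPolynomial Height Height.AdmissibleAbsValues Filter Topology
open Pool.Agent.Work.MP_91e6de_nt.BL

namespace AuxJn

theorem one_le_cn (z : Fin 2 → ℂ) : 1 ≤ cn z := le_max_right _ _

theorem eval_la {K : Type} [Field K] (φ : K →+* ℂ) (a : K) (u : Fin 2 → Pol K)
    (z : Fin 2 → ℂ) :
    eval₂ φ z (la a u) = ∑ i : Fin 3, (![ce φ u z 0, ce φ u z 1, 1] : Fin 3 → ℂ) i *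
      φ a ^ (i : ℕ) := by
  rw [Fin.sum_univ_three]
  simp only [la, eval₂_add, eval₂_mul, eval₂_C, map_pow, ce]
  simp
  ring

theorem exists_good {K : Type} [Field K] (𝒜 : Finset K) (S : Multiset (Fin 2 → ℂ))
    (B : (Fin 2 → ℂ) → Finset K) (hB : ∀ z, (B z).card ≤ 2)
    (hc : 2 * Multiset.card S < 𝒜.card) : ∃ a ∈ 𝒜, ∀ z ∈ S, a ∉ B z := by
  classical
  by_contra hcon
  push Not at hcon
  have hsub : 𝒜 ⊆ S.toFinset.biUnion B := by
    intro a ha
    obtain ⟨z, hz, hza⟩ := hcon a ha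
    exact Finset.mem_biUnion.2 ⟨z, Multiset.mem_toFinset.2 hz, hza⟩
  have h1 := Finset.card_le_card hsub
  have h2 : (S.toFinset.biUnion B).card ≤ ∑ z ∈ S.toFinset, (B z).card :=
    Finset.card_biUnion_le
  have h3 : ∑ z ∈ S.toFinset, (B z).card ≤ ∑ _z ∈ S.toFinset, 2 :=
    Finset.sum_le_sum (fun z _ => hB z)
  have h4 : S.toFinset.card ≤ Multiset.card S := Multiset.toFinset_card_le S
  simp only [Finset.sum_const, smul_eq_mul] at h3
  omega

theorem sum_le {S : Multiset (Fin 2 → ℂ)} {f g : (Fin 2 → ℂ) → ℝ} {c : ℝ}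
    (h : ∀ z ∈ S, f z ≤ g z + c) :
    (S.map f).sum ≤ (S.map g).sum + Multiset.card S * c := by
  have h1 : (S.map f).sum ≤ (S.map (fun z => g z + c)).sum := Multiset.sum_map_le_sum_map f _ h
  rw [Multiset.sum_map_add, Multiset.map_const', Multiset.sum_replicate, nsmul_eq_mul] at h1
  exact h1

end AuxJn

open AuxJn in
/-- growth of a pair of polynomials on a curve -/
theorem pr_Jn (h : S_VanC) : S_Jn := by
  classical
  intro K _ φ G Z M u 𝒜 hZ hcard hA
  obtain ⟨κ, hκ, hV⟩ := h K φ 𝒜 2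
  choose B hB1 hB2 hB3 using hV
  -- constants for the members of 𝒜
  have hpoi : ∀ a : K, ∃ C ρ : ℝ, a ∈ 𝒜 → (1 ≤ ρ ∧ ∀ t : ℂ, ρ ≤ ‖t‖ →
      (∀ z ∈ Z t, eval₂ φ z (la a u) ≠ 0) ∧
      |((Z t).map (fun z => Real.log ‖eval₂ φ z (la a u)‖)).sum -
        Ii G (la a u) * Real.log ‖t‖| ≤ C) := by
    intro a
    by_cases ha : a ∈ 𝒜
    · obtain ⟨C, ρ, h1, h2⟩ := hZ.poi (la a u) (hA a ha).1
      exact ⟨C, ρ, fun _ => ⟨h1, h2⟩⟩
    · exact ⟨0, 0, fun h => absurd h ha⟩
  choose Cf ρf hf using hpoi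
  refine ⟨(∑ a ∈ 𝒜, |Cf a|) + G.totalDegree * |Real.log κ|, 1 + ∑ a ∈ 𝒜, |ρf a|, ?_, ?_⟩
  · have := Finset.sum_nonneg (fun a (_ : a ∈ 𝒜) => abs_nonneg (ρf a))
    linarith
  intro t ht
  have hlogt : 0 ≤ Real.log ‖t‖ := by
    apply Real.log_nonneg
    have := Finset.sum_nonneg (fun a (_ : a ∈ 𝒜) => abs_nonneg (ρf a))
    linarith
  obtain ⟨a, ha, hgood⟩ := exists_good 𝒜 (Z t)
    (fun z => B ![ce φ u z 0, ce φ u z 1, 1]) (fun z => hB2 _) (by rw [hZ.card t]; exact hcard)
  have hρa : ρf a ≤ ‖t‖ := by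
    have h1 : |ρf a| ≤ ∑ a ∈ 𝒜, |ρf a| :=
      Finset.single_le_sum (f := fun a => |ρf a|) (fun _ _ => abs_nonneg _) ha
    have h2 := le_abs_self (ρf a)
    linarith
  obtain ⟨hne, habs⟩ := (hf a ha).2 t hρa
  have hCa : Cf a ≤ ∑ a ∈ 𝒜, |Cf a| := by
    have h1 : |Cf a| ≤ ∑ a ∈ 𝒜, |Cf a| :=
      Finset.single_le_sum (f := fun a => |Cf a|) (fun _ _ => abs_nonneg _) ha
    have h2 := le_abs_self (Cf a)
    linarith
  have hpt : ∀ z ∈ Z t, Real.log (cn (ce φ u z)) ≤
      Real.log ‖eval₂ φ z (la a u)‖ + |Real.log κ| := by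
    intro z hz
    have h1 := hB3 ![ce φ u z 0, ce φ u z 1, 1] a ha (hgood z hz)
    rw [← eval_la] at h1
    have h2 : κ * cn (ce φ u z) ≤ ‖eval₂ φ z (la a u)‖ := by
      have e0 := h1 0
      have e1 := h1 1
      have e2 := h1 2
      simp only [Matrix.cons_val_zero, Matrix.cons_val_one, Matrix.cons_val] at e0 e1 e2
      rw [norm_one] at e2
      unfold cn
      rcases max_cases (max ‖ce φ u z 0‖ ‖ce φ u z 1‖) 1 with hh | hh
      · rcases max_cases ‖ce φ u z 0‖ ‖ce φ u z 1‖ with hk | hk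
        · rw [hh.1, hk.1]; exact e0
        · rw [hh.1, hk.1]; exact e1
      · rw [hh.1]; exact e2
    have hc : 0 < cn (ce φ u z) := lt_of_lt_of_le one_pos (one_le_cn _)
    have h3 := Real.log_le_log (mul_pos hκ hc) h2
    rw [Real.log_mul hκ.ne' hc.ne'] at h3
    have h4 := neg_abs_le (Real.log κ)
    linarith
  have hs := sum_le hpt
  rw [hZ.card t] at hs
  have h5 := (abs_le.1 habs).2
  have h6 : (Ii G (la a u) : ℝ) * Real.log ‖t‖ ≤ M * Real.log ‖t‖ := by
    apply mul_le_mul_of_nonneg_right _ hlogt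
    exact_mod_cast (hA a ha).2
  linarith

end Pool.Agent.Work.MP_91e6de_nt.BM

end

section

set_option autoImplicit false

/-!
# MP_91e6de_nt, block BM: the height inequality
-/

namespace Pool.Agent.Work.MP_91e6de_nt.BM

open MvPolynomial Height Height.AdmissibleAbsValues Filter Topology
open Pool.Agent.Work.MP_91e6de_nt.BL

namespace AuxKey2

theorem orb_orb {K : Type} [Field K] (f : Fin 2 → Pol K) (P : Fin 2 → K) (n m : ℕ) :
    orb f (orb f P n) m = orb f P (n + m) := by
  induction m with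
  | zero => rfl
  | succ m ih =>
    have h : orb f P (n + (m + 1)) = fun i => eval (orb f P (n + m)) (f i) := rfl
    rw [h, ← ih]
    rfl

/-- at most one constant makes `Q + C c` vanish -/
theorem exists_exc {K : Type} [Field K] (Q : Pol K) :
    ∃ E : Finset K, ∀ c, c ∉ E → Q + C c ≠ 0 := by
  by_cases h : ∃ c₀ : K, Q + C c₀ = 0
  · obtain ⟨c₀, h0⟩ := h
    refine ⟨{c₀}, fun c hc h1 => hc ?_⟩
    rw [Finset.mem_singleton]
    have : (C c : Pol K) = C c₀ := by
      have h2 := h1.trans h0.symm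
      exact add_left_cancel h2
    exact C_injective (Fin 2) K this
  · exact ⟨∅, fun c _ h1 => h ⟨c, h1⟩⟩

/-- the arithmetic at the end -/
theorem arith (H Hm A ε D J s M C₁ S : ℝ) (hJ : 0 < J) (hD : 0 < D) (hA : 0 < A)
    (hs : s * ε = 1 / (2 * J)) (hSM : S = (M + 1) / J)
    (h : (S - (s - 1) * ε) * H ≤ (M / J + ε) * H + A * Hm / D + C₁) :
    1 / (2 * J * A) * D * H ≤ Hm + C₁ * D / A := by
  have h1 : 1 / (2 * J) * H ≤ A * Hm / D + C₁ := by
    have e1 : (M + 1) / J = M / J + 1 / J := by ring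
    have e2 : 1 / J = 1 / (2 * J) + 1 / (2 * J) := by
      field_simp
      norm_num
    have e3 : (S - (s - 1) * ε) * H - (M / J + ε) * H = 1 / (2 * J) * H := by
      rw [hSM, e1]
      have : (M / J + 1 / J - (s - 1) * ε) * H - (M / J + ε) * H = (1 / J - s * ε) * H := by ring
      rw [this, hs, e2]
      ring
    linarith
  have h2 : (1 / (2 * J) * H) * (D / A) ≤ (A * Hm / D + C₁) * (D / A) :=
    mul_le_mul_of_nonneg_right h1 (by positivity)
  have e4 : (1 / (2 * J) * H) * (D / A) = 1 / (2 * J * A) * D * H := by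
    field_simp
  have e5 : (A * Hm / D + C₁) * (D / A) = Hm + C₁ * D / A := by
    field_simp
  rw [e4, e5] at h2
  exact h2

end AuxKey2

open AuxKey2 in
theorem pr_Key2 (h1 : S_Mu) (h2 : S_A1) (h3 : S_A2) (h4 : S_SelW) (h5 : S_PFS) (h6 : S_Str) :
    S_Key2 := by
  intro K _ _ φ f d v P hd hdg hdet hW
  obtain ⟨T, hTa, hTn⟩ := pr_Int pr_IntR K f P
  obtain ⟨k, hk⟩ : ∃ k : ℕ, T.card < 2 ^ (k + 1) := ⟨T.card,
    lt_of_lt_of_le Nat.lt_two_pow_self (Nat.pow_le_pow_right (by norm_num) (Nat.le_succ _))⟩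
  obtain ⟨μ, hμ⟩ := h1 K φ f d (by omega) hdg
  obtain ⟨𝒮, κ, hκ, hsel⟩ := h4 K f v k T hdet hk
  obtain ⟨C5, hC5⟩ := h5 K T κ k hκ hTa
  have hd0 : (0 : ℝ) < d := by
    have : 0 < d := by omega
    exact_mod_cast this
  set Sm := ∑ i ∈ Finset.range (k + 1), μ i * d ^ (k + 1 - i) with hSm
  have hstr := fun (w : ℕ → Fin 2) => h6 K φ f d μ v k w (by omega) hdg hμ (hW k w)
  have hS1 : 1 ≤ Sm := by
    obtain ⟨E, hE⟩ := exists_exc (Qw f v k (fun _ => 0) 0 0)
    obtain ⟨c', hc'⟩ := Infinite.exists_notMem_finset E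
    obtain ⟨E', hE'⟩ := hstr (fun _ => 0) 0 0 c' (hE c' hc')
    obtain ⟨b, hb⟩ := Infinite.exists_notMem_finset E'
    have := (hE' b hb).2
    omega
  have hx : ∀ x : (ℕ → Fin 2) × K × K, ∃ E : Finset K, ∀ c, c ∉ E → ∃ E' : Finset K,
      ∀ b, b ∉ E' → IsRelPrime (Qw f v k x.1 x.2.1 x.2.2 + C c) (la b (it f (k + 1))) ∧
        Ii (Qw f v k x.1 x.2.1 x.2.2 + C c) (la b (it f (k + 1))) ≤ Sm - 1 := by
    intro x
    obtain ⟨E, hE⟩ := exists_exc (Qw f v k x.1 x.2.1 x.2.2)
    refine ⟨E, fun c hc => ?_⟩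
    obtain ⟨E', hE'⟩ := hstr x.1 x.2.1 x.2.2 c (hE c hc)
    refine ⟨E', fun b hb => ⟨(hE' b hb).1, ?_⟩⟩
    have := (hE' b hb).2
    omega
  set ε : ℝ := 1 / (2 * (k + 2) * (d : ℝ) ^ (k + 1)) with hεdef
  have hε : 0 < ε := by positivity
  have hA1 := fun x : (ℕ → Fin 2) × K × K =>
    h2 K f d hd hdg (Qw f v k x.1 x.2.1 x.2.2) (Sm - 1) (k + 1) (hx x) ε T hε hTa
  choose A1 hA10 hA1' using hA1
  have hA2 := fun i => h3 K f d μ hd hdg hμ i ε T hε hTa
  choose A2 hA20 hA2' using hA2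
  set A : ℝ := ∑ x ∈ 𝒮, A1 x + ∑ i ∈ Finset.range (k + 1), A2 i + 1 with hA
  have hS0 : 0 ≤ ∑ x ∈ 𝒮, A1 x := Finset.sum_nonneg fun x _ => hA10 x
  have hR0 : 0 ≤ ∑ i ∈ Finset.range (k + 1), A2 i := Finset.sum_nonneg fun i _ => hA20 i
  have hApos : 0 < A := by positivity
  refine ⟨1 / (2 * (d : ℝ) ^ (k + 1) * A), k + 1, by positivity, ?_⟩
  intro m hm
  have hB1 := fun x => hA1' x m hm
  choose Z1 C1 hZ1 hB1' using hB1
  have hB2 : ∀ i, ∃ (Z : Pol K) (C : ℝ), Z ≠ 0 ∧ (i ≤ k → ∀ P : Fin 2 → K, SI T P →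
      eval P Z ≠ 0 → ((μ i : ℝ) / (d : ℝ) ^ i - ε) * hP P ≤
        hP (orb f P i) + A2 i * hP (orb f P m) / (d : ℝ) ^ m + C) := by
    intro i
    by_cases hi : i ≤ k
    · obtain ⟨Z, C, hZ, hZC⟩ := hA2' i m (by omega)
      exact ⟨Z, C, hZ, fun _ => hZC⟩
    · exact ⟨1, 0, one_ne_zero, fun h => absurd h hi⟩
  choose Z2 C2 hZ2 hB2' using hB2
  refine ⟨(∏ x ∈ 𝒮, Z1 x) * ∏ i ∈ Finset.range (k + 1), Z2 i,
    (∑ x ∈ 𝒮, |C1 x| + C5 + ∑ i ∈ Finset.range (k + 1), C2 i) * (d : ℝ) ^ m / A,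
    mul_ne_zero (Finset.prod_ne_zero_iff.2 fun x _ => hZ1 x)
      (Finset.prod_ne_zero_iff.2 fun i _ => hZ2 i), ?_⟩
  intro n hn
  rw [map_mul, map_prod, map_prod] at hn
  have hn1 := Finset.prod_ne_zero_iff.1 (left_ne_zero_of_mul hn)
  have hn2 := Finset.prod_ne_zero_iff.1 (right_ne_zero_of_mul hn)
  have hSI : ∀ n, SI T (orb f P n) := fun n v hv hvT i => hTn v hv hvT n i
  obtain ⟨x, hxS, hxx⟩ := hsel (orb f P n)
  have k1 := hC5 (fun i => orb f (orb f P n) i) _ hxx (fun i _ => by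
    show SI T (orb f (orb f P n) i)
    rw [orb_orb]
    exact hSI _)
  have k2 := hB1' x (orb f P n) (hSI n) (hn1 x hxS)
  have k3 : ∑ i ∈ Finset.range (k + 1), ((μ i : ℝ) / (d : ℝ) ^ i - ε) * hP (orb f P n) ≤
      ∑ i ∈ Finset.range (k + 1), (hP (orb f (orb f P n) i) +
        A2 i * hP (orb f (orb f P n) m) / (d : ℝ) ^ m + C2 i) :=
    Finset.sum_le_sum fun i hi => hB2' i (Nat.lt_succ_iff.1 (Finset.mem_range.1 hi))
      (orb f P n) (hSI n) (hn2 i hi)
  rw [orb_orb] at k2
  simp only [orb_orb f P n m] at k3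
  rw [Finset.sum_add_distrib, Finset.sum_add_distrib] at k3
  have hHm : 0 ≤ hP (orb f P (n + m)) := (pr_H1 K (orb f P (n + m))).1
  have hC1 : C1 x ≤ ∑ x ∈ 𝒮, |C1 x| :=
    (le_abs_self _).trans (Finset.single_le_sum (f := fun x => |C1 x|) (fun l _ => abs_nonneg _)
      hxS)
  have hA1x : A1 x ≤ ∑ x ∈ 𝒮, A1 x :=
    Finset.single_le_sum (f := A1) (fun l _ => hA10 l) hxS
  refine arith (hP (orb f P n)) (hP (orb f P (n + m))) A ε ((d : ℝ) ^ m) ((d : ℝ) ^ (k + 1))
    (k + 2) ((Sm - 1 : ℕ) : ℝ) _ (∑ i ∈ Finset.range (k + 1), (μ i : ℝ) / (d : ℝ) ^ i)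
    (by positivity) (by positivity) hApos ?_ ?_ ?_
  · rw [hεdef]
    field_simp
  · have e1 : ((Sm - 1 : ℕ) : ℝ) + 1 = (Sm : ℝ) := by
      rw [Nat.cast_sub hS1]
      push_cast
      ring
    rw [e1, hSm, eq_div_iff (by positivity)]
    push_cast
    rw [Finset.sum_mul]
    refine Finset.sum_congr rfl fun i hi => ?_
    have hi' : i ≤ k + 1 := by
      have := Finset.mem_range.1 hi
      omega
    have e2 : (d : ℝ) ^ (k + 1) = (d : ℝ) ^ i * (d : ℝ) ^ (k + 1 - i) := by
      rw [← pow_add, Nat.add_sub_cancel' hi']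
    rw [e2]
    field_simp
  · have e3 : ∑ i ∈ Finset.range (k + 1), ((μ i : ℝ) / (d : ℝ) ^ i - ε) * hP (orb f P n) =
        ((∑ i ∈ Finset.range (k + 1), (μ i : ℝ) / (d : ℝ) ^ i) - ((k : ℝ) + 2 - 1) * ε) *
          hP (orb f P n) := by
      rw [← Finset.sum_mul, Finset.sum_sub_distrib, Finset.sum_const, Finset.card_range,
        nsmul_eq_mul]
      push_cast
      ring
    rw [e3] at k3
    have e4 : ∑ i ∈ Finset.range (k + 1), A2 i * hP (orb f P (n + m)) / (d : ℝ) ^ m =
        (∑ i ∈ Finset.range (k + 1), A2 i) * hP (orb f P (n + m)) / (d : ℝ) ^ m := by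
      rw [Finset.sum_mul, Finset.sum_div]
    rw [e4] at k3
    have e5 : A1 x * hP (orb f P (n + m)) / (d : ℝ) ^ m +
        (∑ i ∈ Finset.range (k + 1), A2 i) * hP (orb f P (n + m)) / (d : ℝ) ^ m ≤
        A * hP (orb f P (n + m)) / (d : ℝ) ^ m := by
      rw [← add_div, ← add_mul]
      refine div_le_div_of_nonneg_right (mul_le_mul_of_nonneg_right ?_ hHm) (by positivity)
      rw [hA]
      linarith
    linarith

end Pool.Agent.Work.MP_91e6de_nt.BM

end

section

set_option autoImplicit false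

namespace Pool.Agent.Work.MP_91e6de_nt.BM

open MvPolynomial Height Height.AdmissibleAbsValues Filter Topology
open Pool.Agent.Work.MP_91e6de_nt.BL

namespace AuxKeyIt

/-- iterated lower bound -/
theorem low_iter (h : ℕ → ℝ) (c C : ℝ) (n₀ : ℕ) (hc : 0 < c) (hc1 : c ≤ 1) (hC : 0 ≤ C)
    (hl : ∀ n, n₀ ≤ n → c * h n ≤ h (n + 1) + C) :
    ∀ r n, n₀ ≤ n → c ^ r * h n ≤ h (n + r) + r * C
  | 0, n, _ => by simp
  | r + 1, n, hn => by
    have h1 := low_iter h c C n₀ hc hc1 hC hl r n hn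
    have h2 := hl (n + r) (by omega)
    have h3 : c * (c ^ r * h n) ≤ c * (h (n + r) + r * C) := mul_le_mul_of_nonneg_left h1 hc.le
    have h4 : c * (r * C) ≤ r * C := by
      have : 0 ≤ (r : ℝ) * C := by positivity
      nlinarith
    rw [pow_succ', mul_assoc, ← add_assoc]
    push_cast
    nlinarith

end AuxKeyIt

theorem pr_KeyIt (h : S_ItIt) : S_KeyIt := by
  classical
  intro K _ _ f d j P hd hdg hj hden hkey
  obtain ⟨c₀, C₀, hc₀, hlow⟩ := all_Low K f P hden
  rw [eventually_atTop] at hlow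
  obtain ⟨n₀, hlow⟩ := hlow
  have hpos : ∀ Q : Fin 2 → K, 0 ≤ hP Q := fun Q => (pr_H1 K Q).1
  set hh : ℕ → ℝ := fun n => hP (orb f P n) with hhdef
  set c : ℝ := min c₀ 1 with hcdef
  have hc : 0 < c := lt_min hc₀ one_pos
  have hc1 : c ≤ 1 := min_le_right _ _
  set C1 : ℝ := max C₀ 0 with hC1def
  have hC1 : 0 ≤ C1 := le_max_right _ _
  have hl : ∀ n, n₀ ≤ n → c * hh n ≤ hh (n + 1) + C1 := by
    intro n hn
    have h1 := hlow n hn
    have h2 : c * hh n ≤ c₀ * hh n := mul_le_mul_of_nonneg_right (min_le_left _ _) (hpos _)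
    have h3 : C₀ ≤ C1 := le_max_left _ _
    have h4 : hh n = hP (orb f P n) := rfl
    have h5 : hh (n + 1) = hP (orb f P (n + 1)) := rfl
    linarith
  have hiter := AuxKeyIt.low_iter hh c C1 n₀ hc hc1 hC1 hl
  have hd0 : (0 : ℝ) < d := by
    have : 0 < d := by omega
    exact_mod_cast this
  have hd1 : (1 : ℝ) ≤ d := by
    have : 1 ≤ d := by omega
    exact_mod_cast this
  -- the data for the residues
  choose δ m₀ hδ hk using hkey
  have hsh : ∀ r n, orb f (orb f P r) n = orb f P (r + n) := by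
    intro r n
    induction n with
    | zero => rfl
    | succ n ih =>
      funext i
      show eval (orb f (orb f P r) n) (f i) = eval (orb f P (r + n)) (f i)
      rw [ih]
  -- minimum of δ
  have hjne : (Finset.range j).Nonempty := ⟨0, Finset.mem_range.2 (by omega)⟩
  obtain ⟨δm, hδm, hδle⟩ : ∃ δm : ℝ, 0 < δm ∧ ∀ r < j, δm ≤ δ r := by
    refine ⟨(Finset.range j).inf' hjne δ, ?_, ?_⟩
    · rw [Finset.lt_inf'_iff]
      intro r _
      exact hδ r
    · intro r hr
      exact Finset.inf'_le _ (Finset.mem_range.2 hr)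
  obtain ⟨mm, hmm⟩ : ∃ mm : ℕ, ∀ r < j, m₀ r ≤ mm := by
    refine ⟨(Finset.range j).sup m₀, ?_⟩
    intro r hr
    exact Finset.le_sup (f := m₀) (Finset.mem_range.2 hr)
  refine ⟨δm * c ^ j / d ^ j, j * (mm + 1), by positivity, ?_⟩
  intro m hm
  -- decompose
  set m' := m / j with hm'
  set r' := m % j with hr'
  have hmd : m = j * m' + r' := (Nat.div_add_mod m j).symm
  have hr'j : r' < j := Nat.mod_lt _ (by omega)
  have hm'm : mm ≤ m' := by
    have : mm + 1 ≤ m / j := by
      rw [Nat.le_div_iff_mul_le (by omega)]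
      calc (mm + 1) * j = j * (mm + 1) := by ring
        _ ≤ m := hm
    omega
  have hk' : ∀ r : ℕ, ∃ (Z : Pol K) (C : ℝ), Z ≠ 0 ∧ (r < j → ∀ n, eval (orb f P (r + j * n)) Z ≠ 0 →
      δm * ((d : ℝ) ^ j) ^ m' * hh (r + j * n) ≤ hh (r + j * n + j * m') + C) := by
    intro r
    by_cases hr : r < j
    · obtain ⟨Z, C, hZ, hZC⟩ := hk r m' ((hmm r hr).trans hm'm)
      refine ⟨Z, C, hZ, fun _ n hn => ?_⟩
      have h1 := hZC n
      rw [(h K f j n).2, (h K f j (n + m')).2, hsh, hsh] at h1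
      have h2 := h1 hn
      have h3 : r + j * (n + m') = r + j * n + j * m' := by ring
      rw [h3] at h2
      push_cast at h2
      refine le_trans ?_ h2
      have h4 : δm * ((d : ℝ) ^ j) ^ m' ≤ δ r * ((d : ℝ) ^ j) ^ m' :=
        mul_le_mul_of_nonneg_right (hδle r hr) (by positivity)
      exact mul_le_mul_of_nonneg_right h4 (hpos _)
    · exact ⟨1, 0, one_ne_zero, fun h => absurd h hr⟩
  choose Z C hZ hZC using hk'
  -- constants
  set CC : ℝ := ∑ r ∈ Finset.range j, |C r| with hCC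
  have hCle : ∀ r < j, C r ≤ CC := by
    intro r hr
    refine (le_abs_self _).trans ?_
    exact Finset.single_le_sum (f := fun r => |C r|) (fun _ _ => abs_nonneg _)
      (Finset.mem_range.2 hr)
  set SS : ℝ := ∑ n ∈ Finset.range n₀, hh n with hSS
  have hSSle : ∀ n < n₀, hh n ≤ SS := by
    intro n hn
    exact Finset.single_le_sum (f := hh) (fun _ _ => hpos _) (Finset.mem_range.2 hn)
  have hSS0 : 0 ≤ SS := Finset.sum_nonneg fun _ _ => hpos _
  have hCC0 : 0 ≤ CC := Finset.sum_nonneg fun _ _ => abs_nonneg _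
  refine ⟨∏ r ∈ Finset.range j, Z r,
    δm * c ^ j / d ^ j * (d : ℝ) ^ m * SS + (CC + r' * C1), ?_, ?_⟩
  · exact Finset.prod_ne_zero_iff.2 fun r _ => hZ r
  · intro n hn
    have hδ0 : 0 ≤ δm * c ^ j / d ^ j * (d : ℝ) ^ m := by positivity
    by_cases hnn : n < n₀
    · have h1 : δm * c ^ j / d ^ j * (d : ℝ) ^ m * hh n ≤
          δm * c ^ j / d ^ j * (d : ℝ) ^ m * SS := mul_le_mul_of_nonneg_left (hSSle n hnn) hδ0
      have h2 : 0 ≤ hP (orb f P (n + m)) := hpos _
      have h3 : 0 ≤ (r' : ℝ) * C1 := by positivity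
      show δm * c ^ j / d ^ j * (d : ℝ) ^ m * hh n ≤ _
      linarith
    · push Not at hnn
      set r := n % j with hr
      set q := n / j with hq
      have hnd : n = r + j * q := (Nat.mod_add_div n j).symm
      have hrj : r < j := Nat.mod_lt _ (by omega)
      have hne : eval (orb f P (r + j * q)) (Z r) ≠ 0 := by
        rw [← hnd]
        rw [map_prod, Finset.prod_ne_zero_iff] at hn
        exact hn r (Finset.mem_range.2 hrj)
      have h1 := hZC r hrj q hne
      rw [← hnd] at h1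
      have h2 := hiter r' (n + j * m') (by omega)
      have h3 : n + j * m' + r' = n + m := by omega
      rw [h3] at h2
      have h4 : c ^ r' * (δm * ((d : ℝ) ^ j) ^ m' * hh n) ≤ c ^ r' * (hh (n + j * m') + C r) :=
        mul_le_mul_of_nonneg_left h1 (by positivity)
      have h5 : c ^ r' * C r ≤ CC := by
        have : c ^ r' * |C r| ≤ 1 * |C r| :=
          mul_le_mul_of_nonneg_right (pow_le_one₀ hc.le hc1) (abs_nonneg _)
        have h6 : c ^ r' * C r ≤ c ^ r' * |C r| :=
          mul_le_mul_of_nonneg_left (le_abs_self _) (by positivity)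
        have h7 : |C r| ≤ CC := Finset.single_le_sum (f := fun r => |C r|)
          (fun _ _ => abs_nonneg _) (Finset.mem_range.2 hrj)
        linarith
      have h8 : δm * c ^ j / d ^ j * (d : ℝ) ^ m * hh n ≤
          c ^ r' * (δm * ((d : ℝ) ^ j) ^ m' * hh n) := by
        have h9 : δm * c ^ j / d ^ j * (d : ℝ) ^ m ≤ c ^ r' * (δm * ((d : ℝ) ^ j) ^ m') := by
          rw [div_mul_eq_mul_div, div_le_iff₀ (by positivity)]
          have e1 : (d : ℝ) ^ m = ((d : ℝ) ^ j) ^ m' * (d : ℝ) ^ r' := by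
            rw [hmd, pow_add, pow_mul]
          rw [e1]
          have e2 : c ^ j ≤ c ^ r' := pow_le_pow_of_le_one hc.le hc1 hr'j.le
          have e3 : (d : ℝ) ^ r' ≤ (d : ℝ) ^ j := pow_le_pow_right₀ hd1 hr'j.le
          have e4 : c ^ j * (d : ℝ) ^ r' ≤ c ^ r' * (d : ℝ) ^ j :=
            mul_le_mul e2 e3 (by positivity) (by positivity)
          calc δm * c ^ j * (((d : ℝ) ^ j) ^ m' * (d : ℝ) ^ r')
              = δm * ((d : ℝ) ^ j) ^ m' * (c ^ j * (d : ℝ) ^ r') := by ring
            _ ≤ δm * ((d : ℝ) ^ j) ^ m' * (c ^ r' * (d : ℝ) ^ j) :=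
              mul_le_mul_of_nonneg_left e4 (by positivity)
            _ = c ^ r' * (δm * ((d : ℝ) ^ j) ^ m') * (d : ℝ) ^ j := by ring
        have := mul_le_mul_of_nonneg_right h9 (hpos (orb f P n))
        calc δm * c ^ j / d ^ j * (d : ℝ) ^ m * hh n
            ≤ c ^ r' * (δm * ((d : ℝ) ^ j) ^ m') * hh n := this
          _ = _ := by ring
      have h10 : 0 ≤ δm * c ^ j / d ^ j * (d : ℝ) ^ m * SS := mul_nonneg hδ0 hSS0
      show δm * c ^ j / d ^ j * (d : ℝ) ^ m * hh n ≤ hh (n + m) + _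
      have h11 : c ^ r' * (hh (n + j * m') + C r) =
        c ^ r' * hh (n + j * m') + c ^ r' * C r := by ring
      linarith

end Pool.Agent.Work.MP_91e6de_nt.BM

end

section

set_option autoImplicit false

/-!
# MP_91e6de_nt, block BM: item LocD (local inequality)
-/

namespace Pool.Agent.Work.MP_91e6de_nt.BM

open MvPolynomial Height Height.AdmissibleAbsValues Filter Topology
open Pool.Agent.Work.MP_91e6de_nt.BL

theorem pr_LocD : S_LocD := by
  intro K _ v D R u F a C₀ s' N ha hDR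
  choose B hB1 hB using fun l k => pr_Bd K v (a l k)
  have hs : 0 ≤ ∑ l ∈ Finset.range (s' + 1), ∑ k ∈ Finset.range (N + 1), B l k :=
    Finset.sum_nonneg fun l _ => Finset.sum_nonneg fun k _ => zero_le_one.trans (hB1 l k)
  refine ⟨1 + ∑ l ∈ Finset.range (s' + 1), ∑ k ∈ Finset.range (N + 1), B l k, by linarith, ?_⟩
  intro P
  have hn1 : 1 ≤ nn v P := le_max_right _ _
  have hn0 : 0 ≤ nn v P := zero_le_one.trans hn1
  set U := max 1 (v (eval P u)) with hU
  set G := max 1 (v (eval P F)) with hG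
  have hU1 : 1 ≤ U := le_max_left _ _
  have hG1 : 1 ≤ G := le_max_left _ _
  have hU0 : 0 ≤ U := zero_le_one.trans hU1
  have hG0 : 0 ≤ G := zero_le_one.trans hG1
  have e : v (eval P D) * v (eval P R) = v (∑ l ∈ Finset.range (s' + 1),
      ∑ k ∈ Finset.range (N + 1), eval P (a l k) * eval P u ^ l * eval P F ^ k) := by
    rw [← map_mul, ← map_mul (eval P), hDR, map_sum]
    congr 1
    refine Finset.sum_congr rfl fun l _ => ?_
    rw [map_sum]
    refine Finset.sum_congr rfl fun k _ => ?_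
    rw [map_mul, map_mul, map_pow, map_pow]
  rw [e]
  have h1 : v (∑ l ∈ Finset.range (s' + 1),
      ∑ k ∈ Finset.range (N + 1), eval P (a l k) * eval P u ^ l * eval P F ^ k) ≤
      ∑ l ∈ Finset.range (s' + 1), ∑ k ∈ Finset.range (N + 1),
        B l k * (nn v P ^ C₀ * U ^ s' * G ^ N) := by
    refine (v.sum_le _ _).trans (Finset.sum_le_sum fun l hl => ?_)
    refine (v.sum_le _ _).trans (Finset.sum_le_sum fun k hk => ?_)
    rw [Finset.mem_range] at hl hk
    rw [map_mul, map_mul, map_pow, map_pow]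
    have a1 : v (eval P (a l k)) ≤ B l k * nn v P ^ C₀ :=
      (hB l k P).trans (mul_le_mul_of_nonneg_left (pow_le_pow_right₀ hn1 (ha l k))
        (zero_le_one.trans (hB1 l k)))
    have a2 : v (eval P u) ^ l ≤ U ^ s' :=
      (pow_le_pow_left₀ (v.nonneg _) (le_max_right _ _) _).trans
        (pow_le_pow_right₀ hU1 (by omega))
    have a3 : v (eval P F) ^ k ≤ G ^ N :=
      (pow_le_pow_left₀ (v.nonneg _) (le_max_right _ _) _).trans
        (pow_le_pow_right₀ hG1 (by omega))
    have a4 : v (eval P (a l k)) * v (eval P u) ^ l ≤ B l k * nn v P ^ C₀ * U ^ s' :=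
      mul_le_mul a1 a2 (pow_nonneg (v.nonneg _) _)
        (mul_nonneg (zero_le_one.trans (hB1 l k)) (pow_nonneg hn0 _))
    have a5 : v (eval P (a l k)) * v (eval P u) ^ l * v (eval P F) ^ k ≤
        B l k * nn v P ^ C₀ * U ^ s' * G ^ N :=
      mul_le_mul a4 a3 (pow_nonneg (v.nonneg _) _)
        (mul_nonneg (mul_nonneg (zero_le_one.trans (hB1 l k)) (pow_nonneg hn0 _))
          (pow_nonneg hU0 _))
    refine a5.trans (le_of_eq ?_)
    ring
  refine h1.trans ?_
  have e2 : ∑ l ∈ Finset.range (s' + 1), ∑ k ∈ Finset.range (N + 1),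
        B l k * (nn v P ^ C₀ * U ^ s' * G ^ N) =
      (∑ l ∈ Finset.range (s' + 1), ∑ k ∈ Finset.range (N + 1), B l k) *
        (nn v P ^ C₀ * U ^ s' * G ^ N) := by
    rw [Finset.sum_mul]
    exact Finset.sum_congr rfl fun l _ => (Finset.sum_mul _ _ _).symm
  rw [e2]
  have hpos : 0 ≤ nn v P ^ C₀ * U ^ s' * G ^ N := by positivity
  nlinarith

end Pool.Agent.Work.MP_91e6de_nt.BM

end

section

set_option autoImplicit false

namespace Pool.Agent.Work.MP_91e6de_nt.BM

open MvPolynomial Height Height.AdmissibleAbsValues Filter Topology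
open Pool.Agent.Work.MP_91e6de_nt.BL

namespace AuxMain3

theorem pos_of_base {K : Type} [Field K] (f : Fin 2 → Pol K) (d : ℕ) (v : Fin 2 → K)
    (hv : v ≠ 0) (j : ℕ)
    (h : ∀ i, eval v (homogeneousComponent (d ^ j) (it f j i)) = 0) : 1 ≤ j := by
  rcases Nat.eq_zero_or_pos j with rfl | h1
  · exfalso
    apply hv
    funext i
    have h2 := h i
    rw [pow_zero] at h2
    have h3 : homogeneousComponent 1 (it f 0 i) = it f 0 i := by
      have : (it f 0 i).IsHomogeneous 1 := isHomogeneous_X K i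
      rw [homogeneousComponent_of_mem this]
      simp
    rw [h3] at h2
    have h4 : eval v (it f 0 i) = v i := by
      show eval v (X i) = v i
      simp
    rw [h4] at h2
    simpa using h2
  · exact h1

end AuxMain3

theorem pr_Main3 (h1 : S_BaseUp) (h2 : S_FnIt) (h3 : S_ItIt) (h4 : S_WordF) (h5 : S_Key2)
    (h6 : S_KeyIt) (h7 : S_MainC) : S_Main3 := by
  intro K _ _ f d v P hd hdg hfn hdet hbase hdense
  have hinj := pr_Dom K f P hdense
  have hv : ∀ l, v l ≠ 0 := by
    intro l hl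
    apply hdet
    fin_cases l
    · have e0 : v 0 = 0 := hl
      simp [e0]
    · have e0 : v 1 = 0 := hl
      simp [e0]
  choose j hj using hbase
  set J := max (j 0) (j 1) with hJ
  have hjl : ∀ l, j l ≤ J := by
    intro l
    fin_cases l
    · exact le_max_left _ _
    · exact le_max_right _ _
  have hJ1 : 1 ≤ J := le_trans (AuxMain3.pos_of_base f d (v 0) (hv 0) (j 0) (hj 0)) (hjl 0)
  have hB : ∀ l i, eval (v l) (homogeneousComponent (d ^ J) (it f J i)) = 0 := fun l i =>
    h1 K f d (v l) (j l) J (by omega) hdg (hjl l) (hj l) i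
  have hF := h2 K f hfn hinj J
  have hD : 2 ≤ d ^ J := by
    calc 2 ≤ d := hd
      _ = d ^ 1 := (pow_one d).symm
      _ ≤ d ^ J := Nat.pow_le_pow_right (by omega) hJ1
  have hdgF : ∀ n, dg (it f J) n = (d ^ J) ^ n := by
    intro n
    have : dg (it f J) n = dg f (J * n) := by
      unfold dg
      rw [(h3 K f J n).1]
    rw [this, hdg, pow_mul]
  let φ : K →+* ℂ := Classical.arbitrary (K →+* ℂ)
  have hW := h4 K φ (it f J) (d ^ J) v hD hdgF hF.1 hF.2 hv hB
  have hK : ∀ r, KeyC (it f J) (d ^ J) (orb f P r) := fun r =>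
    h5 K φ (it f J) (d ^ J) v (orb f P r) hD hdgF hdet hW
  exact h7 K f d P hd hdg hdense (h6 K f d J P hd hdg hJ1 hdense hK)

end Pool.Agent.Work.MP_91e6de_nt.BM

end

section

set_option autoImplicit false

/-!
# MP_91e6de_nt, block BM, item MainC: the height inequality is sufficient
-/

namespace Pool.Agent.Work.MP_91e6de_nt.BM

open MvPolynomial Height Height.AdmissibleAbsValues Filter Topology
open Pool.Agent.Work.MP_91e6de_nt.BL

namespace AuxMainC

theorem deg_le {K : Type} [Field K] (f : Fin 2 → Pol K) (d : ℕ) (h : ∀ n, dg f n = d ^ n)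
    (i : Fin 2) : (f i).totalDegree ≤ d := by
  have h1 : it f 1 i = f i := by
    change aeval (fun i : Fin 2 => (X i : Pol K)) (f i) = f i
    exact aeval_X_left_apply (f i)
  have h2 : (it f 1 i).totalDegree ≤ dg f 1 := by
    unfold dg
    fin_cases i
    · exact le_max_left _ _
    · exact le_max_right _ _
  rw [h1, h 1, pow_one] at h2
  exact h2

end AuxMainC

theorem pr_MainC : S_MainC := by
  intro K _ _ f d P hd hdg hP' hK
  have hN : (0 : ℝ) < Module.finrank ℚ K := by exact_mod_cast Module.finrank_pos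
  set N : ℝ := ((Module.finrank ℚ K : ℕ) : ℝ) with hNd
  obtain ⟨Cu, hu⟩ := all_Up K f d (AuxMainC.deg_le f d hdg)
  obtain ⟨c, Cl, hc, hl⟩ := all_Low K f P hP'
  obtain ⟨δ, m₀, hδ, hkey⟩ := hK
  have hinj := pr_Inj K f P hP'
  have hnor := (pr_Nor pr_H1) K (orb f P) hinj
  refine pr_Lim (fun n => hP (orb f P n) / N) d c δ (max (Cu / N) (Cl / N)) m₀
    (by exact_mod_cast (show 1 < d by omega)) hc hδ (fun n => ?_) (hnor.atTop_div_const hN)
    (fun n => ?_) ?_ ?_
  · exact div_nonneg (pr_H1 K (orb f P n)).1 hN.le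
  · have e := hu (orb f P n)
    have e' : hP (orb f P (n + 1)) ≤ d * hP (orb f P n) + Cu := e
    calc hP (orb f P (n + 1)) / N ≤ (d * hP (orb f P n) + Cu) / N :=
          div_le_div_of_nonneg_right e' hN.le
      _ = d * (hP (orb f P n) / N) + Cu / N := by ring
      _ ≤ _ := by linarith [le_max_left (Cu / N) (Cl / N)]
  · filter_upwards [hl] with n hn
    calc c * (hP (orb f P n) / N) = (c * hP (orb f P n)) / N := by ring
      _ ≤ (hP (orb f P (n + 1)) + Cl) / N := div_le_div_of_nonneg_right hn hN.le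
      _ = hP (orb f P (n + 1)) / N + Cl / N := by ring
      _ ≤ _ := by linarith [le_max_right (Cu / N) (Cl / N)]
  · intro m hm
    obtain ⟨Z, C, hZ, hC⟩ := hkey m hm
    refine ⟨{n | eval (orb f P n) Z = 0}, C / N, all_Vis K f P hP' Z hZ, fun n hn => ?_⟩
    have e := hC n hn
    calc δ * (d : ℝ) ^ m * (hP (orb f P n) / N) = (δ * (d : ℝ) ^ m * hP (orb f P n)) / N := by
          ring
      _ ≤ (hP (orb f P (n + m)) + C) / N := div_le_div_of_nonneg_right e hN.le
      _ = _ := by ring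

end Pool.Agent.Work.MP_91e6de_nt.BM

end
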