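import Pool.Agent.Work.MP_91e6de_nt.BM.Stmts

/-! Bundle of small proof modules (one section per former module). -/

section

set_option autoImplicit false

namespace Pool.Agent.Work.MP_91e6de_nt.BM

open MvPolynomial Height Height.AdmissibleAbsValues Filter Topology
open Pool.Agent.Work.MP_91e6de_nt.BL

namespace AuxMu

variable {K : Type} [Field K]

lemma deg_aeval (f : Fin 2 → Pol K) (d : ℕ) (hd : ∀ i, (f i).totalDegree ≤ d) (p : Pol K) :
    (aeval f p : Pol K).totalDegree ≤ p.totalDegree * d := by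
  classical
  rw [aeval_def, eval₂_eq']
  refine totalDegree_finsetSum_le ?_
  intro s hs
  refine (totalDegree_mul _ _).trans ?_
  have h1 : (algebraMap K (Pol K) (coeff s p)).totalDegree = 0 := by
    rw [algebraMap_eq, totalDegree_C]
  rw [h1, zero_add]
  refine (totalDegree_finsetProd _ _).trans ?_
  have h2 : ∀ i ∈ (Finset.univ : Finset (Fin 2)), (f i ^ s i).totalDegree ≤ s i * d := by
    intro i _
    exact (totalDegree_pow _ _).trans (Nat.mul_le_mul_left _ (hd i))
  refine (Finset.sum_le_sum h2).trans ?_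
  rw [← Finset.sum_mul]
  refine Nat.mul_le_mul_right _ ?_
  have h3 := le_totalDegree hs
  rw [Finsupp.sum_fintype _ _ (fun _ => rfl)] at h3
  exact h3

lemma main (h2 : S_Mu1) (φ : K →+* ℂ) (f : Fin 2 → Pol K) (d : ℕ) (hd : 1 ≤ d)
    (hf : ∀ n, dg f n = d ^ n) (μ : ℕ) (i : ℕ) (E : Finset K)
    (hE : ∀ a, a ∉ E → la a (it f i) ≠ 0 ∧ ∃ E' : Finset K, ∀ b, b ∉ E' →
      IsRelPrime (la a (it f i)) (la b (it f i)) ∧ Ii (la a (it f i)) (la b (it f i)) = μ)
    (j : ℕ) (hij : i ≤ j) :
    ∃ E : Finset K, ∀ a, a ∉ E →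
    (∃ E' : Finset K, ∀ b, b ∉ E' → IsRelPrime (la a (it f i)) (la b (it f j)) ∧
      Ii (la a (it f i)) (la b (it f j)) = μ * d ^ (j - i)) ∧
    ∀ k : Fin 2, (it f j k).totalDegree = d ^ j →
      ∃ E' : Finset K, ∀ b, b ∉ E' → IsRelPrime (la a (it f i)) (la b ![it f j k, 0]) ∧
        Ii (la a (it f i)) (la b ![it f j k, 0]) = μ * d ^ (j - i) := by
  classical
  have hcomp : ∀ k, aeval (it f i) (it f (j - i) k) = it f j k := by
    intro k
    have := (pr_It K f).1 (j - i) i k
    rw [Nat.sub_add_cancel hij] at this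
    exact this.symm
  have hdeg : ∀ n k, (it f n k).totalDegree ≤ d ^ n := by
    intro n k
    have := hf n
    unfold dg at this
    fin_cases k
    · exact (le_max_left _ _).trans this.le
    · exact (le_max_right _ _).trans this.le
  have hex : ∀ n, ∃ k, (it f n k).totalDegree = d ^ n := by
    intro n
    have := hf n
    unfold dg at this
    rcases max_choice (it f n 0).totalDegree (it f n 1).totalDegree with h | h
    · exact ⟨0, h ▸ this⟩
    · exact ⟨1, h ▸ this⟩
  obtain ⟨E₁, hE₁⟩ := h2 K φ (it f i) (it f (j - i)) μ (d ^ (j - i)) E hE (hdeg _) (hex _)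
  have hk : ∀ k : Fin 2, ∃ E₂ : Finset K, ∀ a, a ∉ E₂ → (it f j k).totalDegree = d ^ j →
      ∃ E' : Finset K, ∀ b, b ∉ E' → IsRelPrime (la a (it f i)) (la b ![it f j k, 0]) ∧
        Ii (la a (it f i)) (la b ![it f j k, 0]) = μ * d ^ (j - i) := by
    intro k
    by_cases hkd : (it f j k).totalDegree = d ^ j
    · have h3 : (it f (j - i) k).totalDegree = d ^ (j - i) := by
        refine le_antisymm (hdeg _ _) ?_
        have h4 := deg_aeval (it f i) (d ^ i) (hdeg i) (it f (j - i) k)
        rw [hcomp, hkd] at h4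
        have h5 : d ^ j = d ^ (j - i) * d ^ i := by
          rw [← pow_add, Nat.sub_add_cancel hij]
        rw [h5] at h4
        exact Nat.le_of_mul_le_mul_right h4 (pow_pos (by omega) _)
      obtain ⟨E₂, hE₂⟩ := h2 K φ (it f i) ![it f (j - i) k, 0] μ (d ^ (j - i)) E hE
        (by
          intro l
          fin_cases l
          · exact hdeg _ _
          · simp)
        ⟨0, h3⟩
      refine ⟨E₂, fun a ha _ => ?_⟩
      obtain ⟨E', hE'⟩ := hE₂ a ha
      refine ⟨E', fun b hb => ?_⟩
      have h6 : (fun l => aeval (it f i) ((![it f (j - i) k, 0] : Fin 2 → Pol K) l)) =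
          ![it f j k, 0] := by
        funext l
        fin_cases l
        · exact hcomp k
        · simp
      have h7 := hE' b hb
      rw [h6] at h7
      exact h7
    · exact ⟨∅, fun _ _ h => absurd h hkd⟩
  choose E₂ hE₂ using hk
  refine ⟨E₁ ∪ (E₂ 0 ∪ E₂ 1), fun a ha => ?_⟩
  simp only [Finset.mem_union, not_or] at ha
  obtain ⟨ha1, ha2, ha3⟩ := ha
  refine ⟨?_, ?_⟩
  · obtain ⟨E', hE'⟩ := hE₁ a ha1
    refine ⟨E', fun b hb => ?_⟩
    have h6 : (fun l => aeval (it f i) (it f (j - i) l)) = it f j := funext hcomp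
    have h7 := hE' b hb
    rw [h6] at h7
    exact h7
  · intro k hk
    fin_cases k
    · exact hE₂ 0 a ha2 hk
    · exact hE₂ 1 a ha3 hk

end AuxMu

theorem pr_Mu (h1 : S_Mu0) (h2 : S_Mu1) : S_Mu := by
  intro K _ φ f d hd hf
  have h := fun i => h1 K φ (it f i)
  choose μ E hE using h
  exact ⟨μ, fun i j hij => AuxMu.main h2 φ f d hd hf (μ i) i (E i) (hE i) j hij⟩

end Pool.Agent.Work.MP_91e6de_nt.BM

end

section

set_option autoImplicit false

namespace Pool.Agent.Work.MP_91e6de_nt.BM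

open MvPolynomial Height Height.AdmissibleAbsValues Filter Topology
open Pool.Agent.Work.MP_91e6de_nt.BL

namespace AuxMu0

variable {K : Type} [Field K]

lemma la_zero_finite (u : Fin 2 → Pol K) : ∃ E : Finset K, ∀ a, a ∉ E → la a u ≠ 0 := by
  classical
  set p : Polynomial K := Polynomial.X ^ 2 + Polynomial.C (coeff 0 (u 1)) * Polynomial.X +
    Polynomial.C (coeff 0 (u 0)) with hp
  have hp0 : p ≠ 0 := by
    intro h
    have h2 : p.coeff 2 = 1 := by
      rw [hp]
      simp
    rw [h] at h2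
    simp at h2
  refine ⟨p.roots.toFinset, fun a ha h => ha ?_⟩
  rw [Multiset.mem_toFinset, Polynomial.mem_roots hp0, Polynomial.IsRoot.def]
  have h1 := congrArg (coeff (0 : Fin 2 →₀ ℕ)) h
  simp only [la, coeff_add, coeff_C_mul, coeff_zero_C, coeff_zero] at h1
  rw [hp]
  simp only [Polynomial.eval_add, Polynomial.eval_mul, Polynomial.eval_pow, Polynomial.eval_X,
    Polynomial.eval_C]
  linear_combination h1

lemma la_deg (u : Fin 2 → Pol K) (a : K) :
    (la a u).totalDegree ≤ max (u 0).totalDegree (u 1).totalDegree := by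
  unfold la
  refine (totalDegree_add _ _).trans (max_le ((totalDegree_add _ _).trans (max_le ?_ ?_)) ?_)
  · exact le_max_left _ _
  · refine (totalDegree_mul _ _).trans ?_
    rw [totalDegree_C, zero_add]
    exact le_max_right _ _
  · rw [totalDegree_C]
    exact Nat.zero_le _

lemma Ii_comm (u w : Pol K) : Ii u w = Ii w u := by
  unfold Ii
  rw [Set.pair_comm]

end AuxMu0

open AuxMu0 in
theorem pr_Mu0 (h1 : S_Gen) (h2 : S_Bz) (_h3 : S_CopU) : S_Mu0 := by
  classical
  intro K _ φ u
  have : CharZero K := φ.charZero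
  obtain ⟨E0, hE0⟩ := la_zero_finite u
  set D := max (u 0).totalDegree (u 1).totalDegree with hD
  let P : ℕ → Prop := fun m => ∃ a, a ∉ E0 ∧ ∃ E' : Finset K, ∀ b, b ∉ E' →
    IsRelPrime (la a u) (la b u) ∧ Ii (la a u) (la b u) = m
  have hbd : ∀ m, P m → m ≤ D * D := by
    rintro m ⟨a, ha, E', hE'⟩
    obtain ⟨b, hb⟩ := Infinite.exists_notMem_finset E'
    obtain ⟨hb1, hb2⟩ := hE' b hb
    rw [← hb2]
    exact (h2 K φ _ _ (hE0 a ha) hb1).trans (Nat.mul_le_mul (la_deg u a) (la_deg u b))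
  have hex : ∃ m, P m := by
    obtain ⟨a, ha⟩ := Infinite.exists_notMem_finset E0
    obtain ⟨ρ, _, E, hE⟩ := h1 K φ (la a u) u (hE0 a ha)
    exact ⟨ρ, a, ha, E, hE⟩
  obtain ⟨m0, hm0⟩ := hex
  have hμ := Nat.findGreatest_spec (P := P) (hbd m0 hm0) hm0
  have hmax : ∀ m, P m → m ≤ Nat.findGreatest P (D * D) := fun m hm =>
    Nat.le_findGreatest (hbd m hm) hm
  set μ := Nat.findGreatest P (D * D) with hμd
  obtain ⟨a0, ha0, E0', hE0'⟩ := hμ
  refine ⟨μ, E0 ∪ E0', fun a ha => ?_⟩
  rw [Finset.mem_union, not_or] at ha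
  refine ⟨hE0 a ha.1, ?_⟩
  obtain ⟨ρ, hρ, E, hE⟩ := h1 K φ (la a u) u (hE0 a ha.1)
  obtain ⟨hc, he⟩ := hE0' a ha.2
  have e1 : μ ≤ ρ := by
    have := hρ a0 hc.symm
    rwa [Ii_comm, he] at this
  have e2 : ρ ≤ μ := hmax ρ ⟨a, ha.1, E, hE⟩
  have e3 : ρ = μ := le_antisymm e2 e1
  exact ⟨E, fun b hb => by rw [← e3]; exact hE b hb⟩

end Pool.Agent.Work.MP_91e6de_nt.BM

end

section

set_option autoImplicit false

namespace Pool.Agent.Work.MP_91e6de_nt.BM

open MvPolynomial Height Height.AdmissibleAbsValues Filter Topology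
open Pool.Agent.Work.MP_91e6de_nt.BL

namespace AuxMu1

variable {K : Type} [Field K]

theorem one_le_cn (z : Fin 2 → ℂ) : 1 ≤ cn z := le_max_right _ _

theorem norm_le_cn (z : Fin 2 → ℂ) (k : Fin 2) : ‖z k‖ ≤ cn z := by
  fin_cases k
  · exact (le_max_left _ _).trans (le_max_left _ _)
  · exact (le_max_right _ _).trans (le_max_left _ _)

theorem cn_le {z : Fin 2 → ℂ} {B : ℝ} (h : ∀ k, ‖z k‖ ≤ B) (h1 : 1 ≤ B) : cn z ≤ B :=
  max_le (max_le (h 0) (h 1)) h1

theorem eval₂_la (φ : K →+* ℂ) (a : K) (u : Fin 2 → Pol K) (z : Fin 2 → ℂ) :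
    eval₂ φ z (la a u) = ce φ u z 0 + φ a * ce φ u z 1 + φ a ^ 2 := by
  unfold la ce
  simp [eval₂_add, eval₂_mul, eval₂_C]

theorem eval₂_aeval (φ : K →+* ℂ) (u : Fin 2 → Pol K) (z : Fin 2 → ℂ) (p : Pol K) :
    eval₂ φ z (aeval u p) = eval₂ φ (fun i => eval₂ φ z (u i)) p := by
  induction p using MvPolynomial.induction_on with
  | C c => rw [aeval_C, algebraMap_eq, eval₂_C, eval₂_C]
  | add p q hp hq => simp only [map_add, eval₂_add, hp, hq]
  | mul_X p n hp => simp only [map_mul, aeval_X, eval₂_mul, eval₂_X, hp]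

theorem eval_hom {H : Pol K} {e : ℕ} (hH : H.IsHomogeneous e) (c : K) (x : Fin 2 → K) :
    eval (fun i => c * x i) H = c ^ e * eval x H := by
  rw [eval_eq', eval_eq', Finset.mul_sum]
  refine Finset.sum_congr rfl fun d hd => ?_
  have h1 : d.degree = e := by
    by_contra h
    exact (mem_support_iff.1 hd) (hH.coeff_eq_zero h)
  have h2 : d 0 + d 1 = e := by
    rw [← h1, Finsupp.degree_eq_sum]
    exact (Fin.sum_univ_two _).symm
  rw [Fin.prod_univ_two, Fin.prod_univ_two, ← h2]
  ring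

theorem ce_comp (φ : K →+* ℂ) (u g : Fin 2 → Pol K) (z : Fin 2 → ℂ) :
    ce φ (fun k => aeval u (g k)) z = ce φ g (ce φ u z) := by
  funext k
  exact eval₂_aeval φ u z (g k)

theorem norm_la_le (φ : K →+* ℂ) (b : K) (u : Fin 2 → Pol K) (z : Fin 2 → ℂ) :
    ‖eval₂ φ z (la b u)‖ ≤ (1 + ‖φ b‖ + ‖φ b‖ ^ 2) * cn (ce φ u z) := by
  rw [eval₂_la]
  have h0 := norm_le_cn (ce φ u z) 0
  have h1 := norm_le_cn (ce φ u z) 1
  have h2 := one_le_cn (ce φ u z)
  calc ‖ce φ u z 0 + φ b * ce φ u z 1 + φ b ^ 2‖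
      ≤ ‖ce φ u z 0‖ + ‖φ b * ce φ u z 1‖ + ‖φ b ^ 2‖ := norm_add₃_le
    _ ≤ _ := by
      rw [norm_mul, norm_pow]
      have h3 := mul_le_mul_of_nonneg_left h1 (norm_nonneg (φ b))
      have h4 := mul_le_mul_of_nonneg_left h2 (sq_nonneg ‖φ b‖)
      nlinarith

theorem poly_bd (φ : K →+* ℂ) (P : Polynomial K) (n : ℕ) (h : P.natDegree ≤ n) :
    ∃ B : ℝ, 0 ≤ B ∧ ∀ y : ℂ, ‖P.eval₂ φ y‖ ≤ B * (max 1 ‖y‖) ^ n := by
  refine ⟨∑ i ∈ Finset.range (P.natDegree + 1), ‖φ (P.coeff i)‖,
    Finset.sum_nonneg fun i _ => norm_nonneg _, fun y => ?_⟩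
  rw [Polynomial.eval₂_eq_sum_range]
  refine (norm_sum_le _ _).trans ?_
  rw [Finset.sum_mul]
  refine Finset.sum_le_sum fun i hi => ?_
  rw [norm_mul, norm_pow]
  refine mul_le_mul_of_nonneg_left ?_ (norm_nonneg _)
  rw [Finset.mem_range] at hi
  calc ‖y‖ ^ i ≤ (max 1 ‖y‖) ^ i := pow_le_pow_left₀ (norm_nonneg _) (le_max_right _ _) _
    _ ≤ (max 1 ‖y‖) ^ n := pow_le_pow_right₀ (le_max_left _ _) (by omega)

/-- the line -/
noncomputable def ll (a : K) : Polynomial K :=
  Polynomial.C (-a) * Polynomial.X + Polynomial.C (-a ^ 2)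

/-- restriction to the line -/
noncomputable def res (a : K) (p : Pol K) : Polynomial K := aeval ![ll a, Polynomial.X] p

theorem mono (a c : K) (e : ℕ) (d : Fin 2 →₀ ℕ) (hd : d.degree ≤ e) :
    (res a (monomial d c)).natDegree ≤ e ∧
      (res a (monomial d c)).coeff e = if d.degree = e then c * (-a) ^ (d 0) else 0 := by
  have hdeg : d.degree = d 0 + d 1 := by
    rw [Finsupp.degree_eq_sum]
    exact Fin.sum_univ_two _
  have h1 : res a (monomial d c) = Polynomial.C c * (ll a ^ d 0 * Polynomial.X ^ d 1) := by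
    unfold res
    rw [aeval_monomial, Finsupp.prod_fintype _ _ (fun i => pow_zero _), Fin.prod_univ_two]
    rfl
  have hl : (ll a).natDegree ≤ 1 := Polynomial.natDegree_linear_le
  have hl2 : (ll a ^ d 0).natDegree ≤ d 0 := by
    refine Polynomial.natDegree_pow_le.trans ?_
    nlinarith
  have h2 : (ll a ^ d 0 * Polynomial.X ^ d 1).natDegree ≤ d 0 + d 1 := by
    refine Polynomial.natDegree_mul_le.trans ?_
    rw [Polynomial.natDegree_X_pow]
    omega
  have h3 : (res a (monomial d c)).natDegree ≤ d 0 + d 1 := by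
    rw [h1]
    exact (Polynomial.natDegree_C_mul_le _ _).trans h2
  refine ⟨by omega, ?_⟩
  split_ifs with h
  · rw [h1, Polynomial.coeff_C_mul, ← h, hdeg, Polynomial.coeff_mul_X_pow]
    have h4 := Polynomial.coeff_pow_of_natDegree_le (m := d 0) hl
    rw [mul_one] at h4
    rw [h4]
    have h5 : (ll a).coeff 1 = -a := by
      unfold ll
      rw [Polynomial.coeff_add, Polynomial.coeff_C_mul, Polynomial.coeff_X_one, mul_one,
        Polynomial.coeff_C_of_ne_zero one_ne_zero, add_zero]
    rw [h5]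
  · exact Polynomial.coeff_eq_zero_of_natDegree_lt (by omega)

theorem res_props (a : K) (p : Pol K) (e : ℕ) (hp : p.totalDegree ≤ e) :
    (res a p).natDegree ≤ e ∧ (res a p).coeff e = eval ![-a, 1] (homogeneousComponent e p) := by
  classical
  have hdeg : ∀ d ∈ p.support, d.degree ≤ e := fun d hd => by
    refine le_trans ?_ hp
    have := le_totalDegree hd
    rw [Finsupp.degree_eq_sum]
    rwa [Finsupp.sum_fintype _ _ (fun _ => rfl)] at this
  have h1 : res a p = ∑ d ∈ p.support, res a (monomial d (coeff d p)) := by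
    unfold res
    rw [← map_sum]
    congr 1
    exact p.as_sum
  refine ⟨?_, ?_⟩
  · rw [h1]
    exact Polynomial.natDegree_sum_le_of_forall_le _ _ fun d hd => (mono a _ e d (hdeg d hd)).1
  · rw [h1, Polynomial.finsetSum_coeff, homogeneousComponent_apply, map_sum, Finset.sum_filter]
    refine Finset.sum_congr rfl fun d hd => ?_
    rw [(mono a _ e d (hdeg d hd)).2]
    split_ifs with h
    · rw [eval_monomial, Finsupp.prod_fintype _ _ (fun i => pow_zero _), Fin.prod_univ_two]
      simp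
    · rfl

theorem res_eval (φ : K →+* ℂ) (a : K) (p : Pol K) (R : Fin 2 → ℂ)
    (hR : R 0 + φ a * R 1 + φ a ^ 2 = 0) :
    eval₂ φ R p = (res a p).eval₂ φ (R 1) := by
  unfold res
  induction p using MvPolynomial.induction_on with
  | C c => simp
  | add p q hp hq => simp only [map_add, eval₂_add, Polynomial.eval₂_add, hp, hq]
  | mul_X p n hp =>
    rw [eval₂_mul, eval₂_X, hp, map_mul, aeval_X, Polynomial.eval₂_mul]
    congr 1
    fin_cases n
    · simp only [ll, Fin.zero_eta, Fin.isValue, Matrix.cons_val_zero, Polynomial.eval₂_add,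
        Polynomial.eval₂_mul, Polynomial.eval₂_C, Polynomial.eval₂_X]
      rw [map_neg, map_neg, map_pow]
      linear_combination hR
    · simp

theorem lower (φ : K →+* ℂ) (a : K) (p : Pol K) (e : ℕ) (he : 1 ≤ e) (hp : p.totalDegree ≤ e)
    (hH : eval ![-a, 1] (homogeneousComponent e p) ≠ 0) :
    ∃ C : ℝ, 1 ≤ C ∧ ∀ R : Fin 2 → ℂ, R 0 + φ a * R 1 + φ a ^ 2 = 0 →
      cn R ^ e ≤ C * max 1 ‖eval₂ φ R p‖ := by
  obtain ⟨hn, hc⟩ := res_props a p e hp
  set P := res a p with hP
  set c := eval ![-a, 1] (homogeneousComponent e p) with hcdef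
  have hP' : (P - Polynomial.C c * Polynomial.X ^ e).natDegree ≤ e - 1 := by
    rw [Polynomial.natDegree_le_iff_coeff_eq_zero]
    intro N hN
    rw [Polynomial.coeff_sub, Polynomial.coeff_C_mul, Polynomial.coeff_X_pow]
    split_ifs with h
    · rw [h, hc, mul_one, sub_self]
    · rw [mul_zero, sub_zero]
      exact Polynomial.coeff_eq_zero_of_natDegree_lt (by omega)
  obtain ⟨B, hB0, hB⟩ := poly_bd φ _ _ hP'
  have hc0 : 0 < ‖φ c‖ := norm_pos_iff.2 ((map_ne_zero φ).2 hH)
  set C' : ℝ := 1 + ‖φ a‖ + ‖φ a‖ ^ 2 with hC'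
  have hC'1 : 1 ≤ C' := by
    have := norm_nonneg (φ a)
    have := sq_nonneg ‖φ a‖
    linarith
  set r : ℝ := max 1 (2 * B / ‖φ c‖) with hr
  have hr1 : 1 ≤ r := le_max_left _ _
  refine ⟨(C' * r) ^ e + C' ^ e * (2 / ‖φ c‖), ?_, ?_⟩
  · have h1 : 1 ≤ (C' * r) ^ e := one_le_pow₀ (by nlinarith)
    have h2 : 0 ≤ C' ^ e * (2 / ‖φ c‖) := by positivity
    linarith
  · intro R hR
    rw [res_eval φ a p R hR, ← hP]
    set y := R 1 with hy
    set m : ℝ := max 1 ‖y‖ with hm
    have hm1 : 1 ≤ m := le_max_left _ _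
    have hym : ‖y‖ ≤ m := le_max_right _ _
    have hcn : cn R ≤ C' * m := by
      apply cn_le
      · intro k
        fin_cases k
        · have h3 : R 0 = -(φ a * y) - φ a ^ 2 := by linear_combination hR
          change ‖R 0‖ ≤ _
          rw [h3]
          calc ‖-(φ a * y) - φ a ^ 2‖ ≤ ‖-(φ a * y)‖ + ‖φ a ^ 2‖ := norm_sub_le _ _
            _ = ‖φ a‖ * ‖y‖ + ‖φ a‖ ^ 2 := by rw [norm_neg, norm_mul, norm_pow]
            _ ≤ C' * m := by
              have h4 := mul_le_mul_of_nonneg_left hym (norm_nonneg (φ a))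
              have h5 := mul_le_mul_of_nonneg_left hm1 (sq_nonneg ‖φ a‖)
              nlinarith
        · change ‖y‖ ≤ _
          nlinarith
      · nlinarith
    have hcne : cn R ^ e ≤ (C' * m) ^ e :=
      pow_le_pow_left₀ (zero_le_one.trans (one_le_cn R)) hcn e
    have hmax1 : 1 ≤ max 1 ‖P.eval₂ φ y‖ := le_max_left _ _
    have hA : 0 ≤ (C' * r) ^ e := by positivity
    have hD : 0 ≤ C' ^ e * (2 / ‖φ c‖) := by positivity
    by_cases hyr : m ≤ r
    · calc cn R ^ e ≤ (C' * m) ^ e := hcne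
        _ ≤ (C' * r) ^ e := pow_le_pow_left₀ (by positivity)
            (mul_le_mul_of_nonneg_left hyr (by linarith)) e
        _ ≤ (C' * r) ^ e * max 1 ‖P.eval₂ φ y‖ := le_mul_of_one_le_right hA hmax1
        _ ≤ _ := by
          rw [add_mul]
          have : 0 ≤ C' ^ e * (2 / ‖φ c‖) * max 1 ‖P.eval₂ φ y‖ := by positivity
          linarith
    · rw [not_le] at hyr
      have hmy : m = ‖y‖ := by
        rcases max_choice (1 : ℝ) ‖y‖ with h | h
        · exfalso
          rw [← hm] at h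
          linarith
        · exact h
      have h6 := hB y
      rw [Polynomial.eval₂_sub, Polynomial.eval₂_mul, Polynomial.eval₂_C, Polynomial.eval₂_X_pow,
        ← hm] at h6
      have h7 : ‖φ c‖ * m ^ e ≤ ‖P.eval₂ φ y‖ + B * m ^ (e - 1) := by
        have h8 : ‖φ c * y ^ e‖ ≤ ‖P.eval₂ φ y‖ + ‖P.eval₂ φ y - φ c * y ^ e‖ := by
          have h9 : φ c * y ^ e = P.eval₂ φ y - (P.eval₂ φ y - φ c * y ^ e) := by ring
          calc ‖φ c * y ^ e‖ = ‖P.eval₂ φ y - (P.eval₂ φ y - φ c * y ^ e)‖ := by rw [← h9]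
            _ ≤ _ := norm_sub_le _ _
        rw [norm_mul, norm_pow, ← hmy] at h8
        linarith
      have h10 : 2 * B < ‖φ c‖ * m := by
        have : 2 * B / ‖φ c‖ < m := (le_max_right _ _).trans_lt hyr
        rw [div_lt_iff₀ hc0] at this
        linarith
      have h11 : B * m ^ (e - 1) ≤ ‖φ c‖ / 2 * m ^ e := by
        have h12 : m ^ e = m ^ (e - 1) * m := by
          rw [← pow_succ]
          congr 1
          omega
        rw [h12]
        have h13 : 0 ≤ m ^ (e - 1) := by positivity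
        nlinarith
      have h14 : m ^ e ≤ 2 / ‖φ c‖ * ‖P.eval₂ φ y‖ := by
        rw [div_mul_eq_mul_div, le_div_iff₀ hc0]
        nlinarith
      calc cn R ^ e ≤ (C' * m) ^ e := hcne
        _ = C' ^ e * m ^ e := mul_pow _ _ _
        _ ≤ C' ^ e * (2 / ‖φ c‖ * ‖P.eval₂ φ y‖) := mul_le_mul_of_nonneg_left h14 (by positivity)
        _ = C' ^ e * (2 / ‖φ c‖) * ‖P.eval₂ φ y‖ := by ring
        _ ≤ C' ^ e * (2 / ‖φ c‖) * max 1 ‖P.eval₂ φ y‖ :=
            mul_le_mul_of_nonneg_left (le_max_right _ _) hD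
        _ ≤ _ := by
          rw [add_mul]
          have : 0 ≤ (C' * r) ^ e * max 1 ‖P.eval₂ φ y‖ := by positivity
          linarith

theorem sum_le {ι : Type} (s : Multiset ι) (f g : ι → ℝ) (k c : ℝ)
    (h : ∀ z ∈ s, f z ≤ k * g z + c) :
    (s.map f).sum ≤ k * (s.map g).sum + Multiset.card s * c := by
  have h1 := Multiset.sum_map_le_sum_map f (fun z => k * g z + c) h
  rwa [Multiset.sum_map_add, Multiset.sum_map_mul_left, Multiset.map_const', Multiset.sum_replicate,
    nsmul_eq_mul] at h1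

theorem growth (x y C r : ℝ) (h : ∀ t : ℂ, r ≤ ‖t‖ →
    x * Real.log ‖t‖ ≤ y * Real.log ‖t‖ + C) : x ≤ y := by
  by_contra hcon
  rw [not_le] at hcon
  set L := max r (C / (x - y) + 1) with hL
  have h1 : ‖(Real.exp L : ℂ)‖ = Real.exp L := by
    rw [Complex.norm_real, Real.norm_eq_abs, abs_of_pos (Real.exp_pos _)]
  have h2 := h (Real.exp L : ℂ) (by
    rw [h1]
    have := Real.add_one_le_exp L
    have := le_max_left r (C / (x - y) + 1)
    linarith)
  rw [h1, Real.log_exp] at h2
  have h3 : C / (x - y) < L := by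
    have := le_max_right r (C / (x - y) + 1)
    linarith
  rw [div_lt_iff₀ (by linarith)] at h3
  nlinarith

omit [Field K] in
theorem exists_generic [Infinite K] (E : Finset K) (n : ℕ) : ∃ 𝒜 : Finset K, n < 𝒜.card ∧
    ∀ a ∈ 𝒜, a ∉ E := by
  classical
  obtain ⟨T, hT1, hT2⟩ := Infinite.exists_superset_card_eq E (E.card + n + 1) (by omega)
  refine ⟨T \ E, ?_, fun a ha => (Finset.mem_sdiff.1 ha).2⟩
  rw [Finset.card_sdiff_of_subset hT1]
  omega

end AuxMu1

open AuxMu1

theorem pr_Mu1 (h1 : S_Crv) (h2 : S_Jn) (h3 : S_Gen) (h4 : S_Up1) : S_Mu1 := by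
  classical
  intro K _ φ u g μ e E hE hdeg hex
  have : CharZero K := φ.charZero
  have : Infinite K := inferInstance
  obtain ⟨k₀, hk₀⟩ := hex
  -- degree zero
  rcases Nat.eq_zero_or_pos e with he0 | he
  · subst he0
    have hc : ∀ k, ∃ c, g k = C c := fun k => by
      have := hdeg k
      exact ⟨_, (totalDegree_eq_zero_iff_eq_C.1 (Nat.le_zero.1 this))⟩
    choose c hc using hc
    have hla : ∀ b, la b (fun k => aeval u (g k)) = C (c 0 + b * c 1 + b ^ 2) := by
      intro b
      unfold la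
      simp only [hc, aeval_C, algebraMap_eq, map_add, map_mul]
    set q : Polynomial K := Polynomial.C (c 0) + Polynomial.C (c 1) * Polynomial.X +
      Polynomial.X ^ 2 with hq
    have hqne : q ≠ 0 := by
      intro h
      have : q.coeff 2 = 1 := by
        rw [hq]
        simp [Polynomial.coeff_X, Polynomial.coeff_C]
      rw [h] at this
      simp at this
    refine ⟨∅, fun a _ => ⟨q.roots.toFinset, fun b hb => ?_⟩⟩
    have hb' : c 0 + b * c 1 + b ^ 2 ≠ 0 := by
      intro h
      apply hb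
      rw [Multiset.mem_toFinset, Polynomial.mem_roots hqne, Polynomial.IsRoot.def, hq]
      simp only [Polynomial.eval_add, Polynomial.eval_mul, Polynomial.eval_C, Polynomial.eval_X,
        Polynomial.eval_pow]
      linear_combination h
    have hun : IsUnit (C (c 0 + b * c 1 + b ^ 2) : Pol K) := (IsUnit.mk0 _ hb').map C
    rw [hla]
    refine ⟨hun.isRelPrime_right, ?_⟩
    rw [mul_zero, Ii]
    have htop : Ideal.span {la a u, (C (c 0 + b * c 1 + b ^ 2) : Pol K)} = ⊤ :=
      Ideal.eq_top_of_isUnit_mem _ (Ideal.subset_span (by simp)) hun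
    have : Subsingleton (Pol K ⧸ Ideal.span {la a u, (C (c 0 + b * c 1 + b ^ 2) : Pol K)}) :=
      Ideal.Quotient.subsingleton_iff.2 htop
    exact Module.finrank_zero_of_subsingleton
  -- positive degree
  have hgk : g k₀ ≠ 0 := by
    intro h
    rw [h, totalDegree_zero] at hk₀
    omega
  set H := homogeneousComponent e (g k₀) with hH
  have hHhom : H.IsHomogeneous e := homogeneousComponent_isHomogeneous _ _
  have hHne : H ≠ 0 := by
    intro h
    obtain ⟨d, hd1, hd2⟩ : ∃ d ∈ (g k₀).support, d.degree = e := by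
      obtain ⟨d, hd, hd'⟩ := Finset.exists_mem_eq_sup (g k₀).support
        (support_nonempty.2 hgk) (fun s => s.sum fun _ e => e)
      refine ⟨d, hd, ?_⟩
      rw [← hk₀, totalDegree, hd', Finsupp.degree_eq_sum, Finsupp.sum_fintype _ _ (fun _ => rfl)]
    have h5 : coeff d H = coeff d (g k₀) := by
      rw [hH, coeff_homogeneousComponent, if_pos hd2]
    rw [h, coeff_zero] at h5
    exact (mem_support_iff.1 hd1) h5.symm
  set Q : Polynomial K := aeval ![-Polynomial.X, 1] H with hQ
  have hQev : ∀ a, Q.eval a = eval ![-a, 1] H := by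
    intro a
    rw [hQ]
    induction H using MvPolynomial.induction_on with
    | C c => simp
    | add p q hp hq => simp only [map_add, Polynomial.eval_add, hp, hq]
    | mul_X p n hp =>
      rw [map_mul, aeval_X, Polynomial.eval_mul, hp, map_mul, eval_X]
      congr 1
      fin_cases n <;> simp
  have hQne : Q ≠ 0 := by
    intro h
    apply hHne
    have h5 : (X 1 : Pol K) * H = 0 := by
      apply MvPolynomial.funext
      intro x
      rw [map_mul, eval_X, map_zero]
      by_cases hx : x 1 = 0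
      · rw [hx, zero_mul]
      · have h6 : eval x H = (x 1) ^ e * eval ![-(-(x 0) / x 1), 1] H := by
          have h7 : x = fun i => x 1 * (![-(-(x 0) / x 1), 1] : Fin 2 → K) i := by
            funext i
            fin_cases i
            · simp
              field_simp
            · simp
          conv_lhs => rw [h7]
          exact eval_hom hHhom _ _
        rw [h6, ← hQev, h]
        simp
    exact (mul_eq_zero.1 h5).resolve_left (X_ne_zero 1)
  refine ⟨E ∪ Q.roots.toFinset, fun a ha => ?_⟩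
  rw [Finset.mem_union, not_or] at ha
  obtain ⟨haE, haQ⟩ := ha
  have hHa : eval ![-a, 1] H ≠ 0 := by
    intro h
    apply haQ
    rw [Multiset.mem_toFinset, Polynomial.mem_roots hQne, Polynomial.IsRoot.def, hQev, h]
  obtain ⟨hG, E', hE'⟩ := hE a haE
  set G := la a u with hGdef
  obtain ⟨Z, hZ⟩ := h1 K φ G hG
  set w : Fin 2 → Pol K := fun k => aeval u (g k) with hw
  obtain ⟨ρ, hρ1, E'', hE''⟩ := h3 K φ G w hG
  have hline : ∀ t, ∀ z ∈ Z t, ce φ u z 0 + φ a * ce φ u z 1 + φ a ^ 2 = 0 := by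
    intro t z hz
    have := hZ.zero t z hz
    rwa [hGdef, eval₂_la] at this
  -- upper bound for `u`
  obtain ⟨𝒜, h𝒜c, h𝒜⟩ := exists_generic E' (2 * G.totalDegree)
  obtain ⟨C₁, ρ₁, hρ₁, hC₁⟩ := h2 K φ G Z μ u 𝒜 hZ h𝒜c
    (fun b hb => ⟨(hE' b (h𝒜 b hb)).1, (hE' b (h𝒜 b hb)).2.le⟩)
  -- upper bound for `w`
  obtain ⟨ℬ, hℬc, hℬ⟩ := exists_generic E'' (2 * G.totalDegree)
  obtain ⟨C₂, ρ₂, hρ₂, hC₂⟩ := h2 K φ G Z ρ w ℬ hZ hℬc
    (fun b hb => ⟨(hE'' b (hℬ b hb)).1, (hE'' b (hℬ b hb)).2.le⟩)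
  -- lower bounds
  obtain ⟨b₁, hb₁⟩ := E'.exists_notMem
  obtain ⟨b₂, hb₂⟩ := E''.exists_notMem
  obtain ⟨C₃, ρ₃, hρ₃, hC₃⟩ := hZ.poi (la b₁ u) (hE' b₁ hb₁).1
  obtain ⟨C₄, ρ₄, hρ₄, hC₄⟩ := hZ.poi (la b₂ w) (hE'' b₂ hb₂).1
  rw [(hE' b₁ hb₁).2] at hC₃
  rw [(hE'' b₂ hb₂).2] at hC₄
  -- the log of a linear combination
  have hlog : ∀ (b : K) (v : Fin 2 → Pol K) (z : Fin 2 → ℂ), eval₂ φ z (la b v) ≠ 0 →
      Real.log ‖eval₂ φ z (la b v)‖ ≤ 1 * Real.log (cn (ce φ v z)) +
        Real.log (1 + ‖φ b‖ + ‖φ b‖ ^ 2) := by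
    intro b v z hne
    have h5 : 0 < 1 + ‖φ b‖ + ‖φ b‖ ^ 2 := by positivity
    have h6 : 0 < cn (ce φ v z) := lt_of_lt_of_le zero_lt_one (one_le_cn _)
    rw [one_mul, add_comm, ← Real.log_mul h5.ne' h6.ne']
    exact Real.log_le_log (norm_pos_iff.2 hne) (norm_la_le φ b v z)
  -- comparison of `u` and `w`
  obtain ⟨Cl, hCl1, hCl⟩ := lower φ a (g k₀) e he (hdeg k₀) hHa
  choose B hB1 hB using fun k => h4 K φ (g k)
  have hupw : ∀ z, Real.log (cn (ce φ w z)) ≤ e * Real.log (cn (ce φ u z)) +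
      Real.log (max (B 0) (B 1)) := by
    intro z
    have h6 : 0 < cn (ce φ u z) := lt_of_lt_of_le zero_lt_one (one_le_cn _)
    have h7 : 0 < cn (ce φ w z) := lt_of_lt_of_le zero_lt_one (one_le_cn _)
    have h8 : 1 ≤ max (B 0) (B 1) := (hB1 0).trans (le_max_left _ _)
    have h9 : cn (ce φ w z) ≤ max (B 0) (B 1) * cn (ce φ u z) ^ e := by
      have h10 : ∀ k, B k ≤ max (B 0) (B 1) := fun k => by
        fin_cases k
        · exact le_max_left _ _
        · exact le_max_right _ _
      apply cn_le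
      · intro k
        rw [hw, ce_comp]
        change ‖eval₂ φ (ce φ u z) (g k)‖ ≤ _
        calc ‖eval₂ φ (ce φ u z) (g k)‖ ≤ B k * cn (ce φ u z) ^ (g k).totalDegree :=
              hB k (ce φ u z)
          _ ≤ max (B 0) (B 1) * cn (ce φ u z) ^ e := by
              apply mul_le_mul (h10 k) (pow_le_pow_right₀ (one_le_cn _) (hdeg k)) (by positivity)
                (by linarith)
      · have : 1 ≤ cn (ce φ u z) ^ e := one_le_pow₀ (one_le_cn _)
        nlinarith
    calc Real.log (cn (ce φ w z)) ≤ Real.log (max (B 0) (B 1) * cn (ce φ u z) ^ e) :=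
          Real.log_le_log h7 h9
      _ = _ := by
        rw [Real.log_mul (by linarith) (by positivity), Real.log_pow]
        ring
  have hloww : ∀ t, ∀ z ∈ Z t, e * Real.log (cn (ce φ u z)) ≤ 1 * Real.log (cn (ce φ w z)) +
      Real.log Cl := by
    intro t z hz
    have h6 : 0 < cn (ce φ u z) := lt_of_lt_of_le zero_lt_one (one_le_cn _)
    have h7 : 0 < cn (ce φ w z) := lt_of_lt_of_le zero_lt_one (one_le_cn _)
    have h8 := hCl (ce φ u z) (hline t z hz)
    have h9 : max 1 ‖eval₂ φ (ce φ u z) (g k₀)‖ ≤ cn (ce φ w z) := by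
      apply max_le (one_le_cn _)
      have := norm_le_cn (ce φ w z) k₀
      rw [hw, ce_comp] at this
      rw [hw, ce_comp]
      exact this
    have h10 : cn (ce φ u z) ^ e ≤ Cl * cn (ce φ w z) :=
      h8.trans (mul_le_mul_of_nonneg_left h9 (by linarith))
    rw [← Real.log_pow, one_mul, add_comm, ← Real.log_mul (by linarith) h7.ne']
    exact Real.log_le_log (by positivity) h10
  have hρ : ρ = μ * e := by
    apply le_antisymm
    · have h5 : (ρ : ℝ) ≤ ((μ * e : ℕ) : ℝ) := by
        apply growth _ _ (e * C₁ + G.totalDegree * Real.log (max (B 0) (B 1)) +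
          G.totalDegree * Real.log (1 + ‖φ b₂‖ + ‖φ b₂‖ ^ 2) + C₄) (max ρ₁ ρ₄)
        intro t ht
        obtain ⟨hne, habs⟩ := hC₄ t ((le_max_right _ _).trans ht)
        have h6 := hC₁ t ((le_max_left _ _).trans ht)
        have h7 := sum_le (Z t) _ (fun z => Real.log (cn (ce φ w z))) 1 _
          (fun z hz => hlog b₂ w z (hne z hz))
        have h8 := sum_le (Z t) (fun z => Real.log (cn (ce φ w z))) _ e _
          (fun z _ => hupw z)
        rw [hZ.card] at h7 h8
        have h9 := (abs_le.1 habs).1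
        have h10 : (e : ℝ) * ((Z t).map (fun z => Real.log (cn (ce φ u z)))).sum ≤
            e * (μ * Real.log ‖t‖ + C₁) := mul_le_mul_of_nonneg_left h6 (Nat.cast_nonneg _)
        push_cast
        nlinarith
      exact_mod_cast h5
    · have h5 : ((μ * e : ℕ) : ℝ) ≤ (ρ : ℝ) := by
        apply growth _ _ (C₂ + G.totalDegree * Real.log Cl +
          e * (G.totalDegree * Real.log (1 + ‖φ b₁‖ + ‖φ b₁‖ ^ 2)) + e * C₃) (max ρ₂ ρ₃)
        intro t ht
        obtain ⟨hne, habs⟩ := hC₃ t ((le_max_right _ _).trans ht)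
        have h6 := hC₂ t ((le_max_left _ _).trans ht)
        have h7 := sum_le (Z t) _ (fun z => Real.log (cn (ce φ u z))) 1 _
          (fun z hz => hlog b₁ u z (hne z hz))
        have h8 := sum_le (Z t) (fun z => e * Real.log (cn (ce φ u z)))
          (fun z => Real.log (cn (ce φ w z))) 1 _ (fun z hz => hloww t z hz)
        rw [hZ.card] at h7 h8
        rw [Multiset.sum_map_mul_left] at h8
        have h9 := (abs_le.1 habs).1
        have h10 : (e : ℝ) * (μ * Real.log ‖t‖ - C₃ -
            G.totalDegree * Real.log (1 + ‖φ b₁‖ + ‖φ b₁‖ ^ 2)) ≤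
            e * ((Z t).map (fun z => Real.log (cn (ce φ u z)))).sum :=
          mul_le_mul_of_nonneg_left (by linarith) (Nat.cast_nonneg _)
        push_cast
        nlinarith
      exact_mod_cast h5
  exact ⟨E'', fun b hb => ⟨(hE'' b hb).1, by rw [(hE'' b hb).2, hρ]⟩⟩

end Pool.Agent.Work.MP_91e6de_nt.BM

end

section

set_option autoImplicit false

namespace Pool.Agent.Work.MP_91e6de_nt.BM

open MvPolynomial Height Height.AdmissibleAbsValues Filter Topology
open Pool.Agent.Work.MP_91e6de_nt.BL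

namespace AuxNA1

/-- the real inequality behind the choice of the parameters -/
theorem key (mu tau al q S n s : ℝ) (hmu : 0 < mu) (htau : 0 ≤ tau)
    (hq : 0 ≤ q) (hal : 0 ≤ al) (hS : 1 ≤ S) (hn : 0 < n) (hntau : tau ≤ n)
    (hS2 : q / mu + al + q ≤ (tau - al / mu) * S) (hs0 : 0 ≤ s)
    (hs : s ≤ S / mu + 1) :
    2 * s * (S * al + q) < (S + 1) * (S + 2) + tau * S * (2 * S + 3 - S / n) := by
  have hS0 : 0 < S := by linarith
  have h1 : 2 * s * (S * al + q) ≤ 2 * (S / mu + 1) * (S * al + q) := by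
    have : 0 ≤ S * al + q := by positivity
    nlinarith
  have h2 : 2 * (S / mu + 1) * (S * al + q) =
      2 * S * (S * (al / mu)) + 2 * S * (q / mu + al) + 2 * q := by
    field_simp
    ring
  have h3 : tau / n ≤ 1 := by
    rw [div_le_one hn]
    exact hntau
  have h4 : tau * S * (S / n) ≤ S * S := by
    have : tau * S * (S / n) = (tau / n) * (S * S) := by
      field_simp
    rw [this]
    have h5 : 0 ≤ S * S := by positivity
    nlinarith
  have h6 : 2 * S * (q / mu + al + q) ≤ 2 * S * ((tau - al / mu) * S) := by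
    have : 0 ≤ 2 * S := by positivity
    exact mul_le_mul_of_nonneg_left hS2 this
  have h7 : 2 * q ≤ 2 * S * q := by nlinarith
  have h8 : 0 ≤ tau * S := by positivity
  nlinarith

end AuxNA1

theorem pr_NA1 : S_NA1 := by
  intro M J q ε hJ hq hε
  obtain ⟨tau, htau⟩ := exists_nat_gt ((q : ℝ) / ε)
  have htau' : (q : ℝ) < tau * ε := by
    rwa [div_lt_iff₀ hε] at htau
  have hJr : (0 : ℝ) < J := by exact_mod_cast hJ
  have hqr : (0 : ℝ) < q := by exact_mod_cast hq
  have htaur : (0 : ℝ) < tau := by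
    by_contra h
    push Not at h
    nlinarith
  set mu : ℝ := (M : ℝ) / J + ε with hmudef
  have hMJ : 0 ≤ (M : ℝ) / J := by positivity
  have hmu : 0 < mu := by rw [hmudef]; linarith
  set al : ℝ := tau * ((M : ℝ) / J) + q with haldef
  have hal : 0 ≤ al := by rw [haldef]; positivity
  have hal2 : al < tau * mu := by
    rw [haldef, hmudef]; nlinarith
  have hdel : 0 < tau - al / mu := by
    rw [sub_pos, div_lt_iff₀ hmu]
    exact hal2
  obtain ⟨n0, hn0⟩ := exists_nat_ge (((q : ℝ) / mu + al + q) / (tau - al / mu))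
  set n : ℕ := n0 + tau + 1 with hndef
  have hn1 : (1 : ℝ) ≤ n := by
    rw [hndef]; push_cast
    have : (0 : ℝ) ≤ n0 := Nat.cast_nonneg _
    linarith
  have hntau : (tau : ℝ) ≤ n := by
    rw [hndef]; push_cast
    have : (0 : ℝ) ≤ n0 := Nat.cast_nonneg _
    linarith
  have hnn0 : (n0 : ℝ) ≤ n := by
    rw [hndef]; push_cast
    linarith
  refine ⟨tau * mu, by positivity, ?_⟩
  intro e he
  have her : (1 : ℝ) ≤ e := by exact_mod_cast he
  have hJ1 : (1 : ℝ) ≤ J := by exact_mod_cast hJ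
  set S : ℕ := n * (J * e) with hSdef
  have hSr : (S : ℝ) = n * (J * e) := by rw [hSdef]; push_cast; ring
  have hDr : (1 : ℝ) ≤ J * e := by nlinarith
  have hSn : (n : ℝ) ≤ S := by rw [hSr]; nlinarith
  have hS1 : (1 : ℝ) ≤ S := le_trans hn1 hSn
  set s : ℕ := ⌈(S : ℝ) / mu⌉₊ with hsdef
  have hs1 : (S : ℝ) / mu ≤ s := Nat.le_ceil _
  have hs2 : (s : ℝ) ≤ (S : ℝ) / mu + 1 :=
    (Nat.ceil_lt_add_one (by positivity)).le
  have hle : J * e ≤ S := by
    rw [hSdef]
    have : 1 ≤ n := by rw [hndef]; omega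
    exact Nat.le_mul_of_pos_left _ this
  have hSmu : (S : ℝ) ≤ mu * s := by
    rw [div_le_iff₀ hmu] at hs1
    linarith
  refine ⟨tau * n, S, s, ?_, hle, ?_, hSmu, ?_⟩
  · rw [hsdef, Nat.one_le_ceil_iff]
    positivity
  · have hmain := AuxNA1.key mu tau al q S n s hmu htaur.le hqr.le hal hS1
      (by linarith) hntau
      (by
        rw [div_le_iff₀ hdel] at hn0
        have : (n0 : ℝ) * (tau - al / mu) ≤ S * (tau - al / mu) := by
          apply mul_le_mul_of_nonneg_right _ hdel.le
          linarith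
        linarith) (Nat.cast_nonneg _) hs2
    have hc : ((S - J * e : ℕ) : ℝ) = S - J * e := by
      rw [Nat.cast_sub hle]; push_cast; ring
    have hnpos : (0 : ℝ) < n := by linarith
    have hSn' : (S : ℝ) / n = J * e := by
      rw [hSr]; field_simp
    rw [hSn'] at hmain
    have e1 : ((tau * n : ℕ) : ℝ) * e * M = S * (tau * ((M : ℝ) / J)) := by
      rw [hSr]; push_cast; field_simp
    have e2 : ((tau * n : ℕ) : ℝ) * (J * e) = tau * S := by
      rw [hSr]; push_cast; ring
    have goal : (2 : ℝ) * s * (((tau * n : ℕ) : ℝ) * e * M + S * q + q) +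
        ((tau * n : ℕ) : ℝ) * ((((S - J * e : ℕ) : ℝ) + 1) * (((S - J * e : ℕ) : ℝ) + 2)) <
        (((tau * n : ℕ) : ℝ) + 1) * (((S : ℝ) + 1) * ((S : ℝ) + 2)) := by
      rw [hc, e1]
      have e3 : ((tau * n : ℕ) : ℝ) * (((S : ℝ) - J * e + 1) * ((S : ℝ) - J * e + 2)) =
          ((tau * n : ℕ) : ℝ) * (((S : ℝ) + 1) * ((S : ℝ) + 2)) -
          (((tau * n : ℕ) : ℝ) * (J * e)) * (2 * S + 3 - J * e) := by ring
      rw [e3, e2]
      have e4 : (S : ℝ) * (tau * ((M : ℝ) / J)) + S * q + q = S * al + q := by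
        rw [haldef]; ring
      rw [e4]
      linarith
    exact_mod_cast goal
  · have : ((tau * n : ℕ) : ℝ) * (J * e) = tau * S := by
      rw [hSr]; push_cast; ring
    rw [this]
    nlinarith

end Pool.Agent.Work.MP_91e6de_nt.BM

end

section

set_option autoImplicit false

namespace Pool.Agent.Work.MP_91e6de_nt.BM

open MvPolynomial Height Height.AdmissibleAbsValues Filter Topology
open Pool.Agent.Work.MP_91e6de_nt.BL

namespace AuxNA2

/-- the quadratic inequality -/
theorem quad (a b c g τ x ε : ℝ) (ha : 0 ≤ a) (hb : 0 ≤ b) (hc : 0 ≤ c) (hx : 1 ≤ x)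
    (hg : g = τ * (a + ε) - a * b) (hbig : (a + b) * c + c ^ 2 < g * x) :
    (a * x + c) * (b * x + c) < τ * (a + ε) * x ^ 2 := by
  have h1 : (a + b) * c * x + c ^ 2 ≤ ((a + b) * c + c ^ 2) * x := by
    nlinarith [mul_nonneg (sq_nonneg c) (by linarith : (0 : ℝ) ≤ x - 1)]
  have h2 : ((a + b) * c + c ^ 2) * x < g * x * x :=
    mul_lt_mul_of_pos_right hbig (by linarith)
  have h3 : (a * x + c) * (b * x + c) = a * b * x ^ 2 + ((a + b) * c * x + c ^ 2) := by ring
  rw [h3]
  have h4 : τ * (a + ε) * x ^ 2 = a * b * x ^ 2 + g * x * x := by rw [hg]; ring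
  rw [h4]
  linarith

end AuxNA2

open AuxNA2 in
/-- numerical inequality -/
theorem pr_NA2 : S_NA2 := by
  intro μ J ε hJ hε hεμ
  have hJ' : (1 : ℝ) ≤ J := by exact_mod_cast hJ
  have hJ0 : (0 : ℝ) < J := by linarith
  set a : ℝ := (μ : ℝ) / J - ε with ha
  have ha0 : 0 < a := by rw [ha]; linarith
  obtain ⟨τ, hτ⟩ := exists_nat_gt (a * J / ε)
  have hτ' : a * J < τ * ε := by
    rw [div_lt_iff₀ hε] at hτ
    exact hτ
  refine ⟨τ, Nat.cast_nonneg _, ?_⟩
  intro e C₀ he
  have he' : (1 : ℝ) ≤ e := by exact_mod_cast he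
  set g : ℝ := τ * (a + ε) - a * (J + τ) with hg
  have hg0 : 0 < g := by rw [hg]; nlinarith
  set c : ℝ := (C₀ : ℝ) + 1 with hc
  have hc0 : 0 ≤ c := by rw [hc]; positivity
  obtain ⟨n, hn⟩ := exists_nat_gt (((a + (J + τ)) * c + c ^ 2) / g)
  have hn1 : (a + (J + τ)) * c + c ^ 2 < g * n := by
    rw [div_lt_iff₀ hg0] at hn
    linarith
  have hn0 : 1 ≤ n := by
    rcases Nat.eq_zero_or_pos n with h | h
    · exfalso
      rw [h] at hn1
      have : 0 ≤ (a + (J + τ)) * c + c ^ 2 := by positivity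
      simp only [CharP.cast_eq_zero, mul_zero] at hn1
      linarith
    · exact h
  have hn0' : (1 : ℝ) ≤ n := by exact_mod_cast hn0
  set x : ℝ := ((n * (J * e) : ℕ) : ℝ) with hx
  have hxe : x = n * (J * e) := by rw [hx]; push_cast; ring
  have hJe : (1 : ℝ) ≤ J * e := by nlinarith
  have hxn : (n : ℝ) ≤ x := by rw [hxe]; nlinarith
  have hx1 : 1 ≤ x := by linarith
  have hax : 0 ≤ a * x := by positivity
  refine ⟨τ * n, n * (J * e), ⌈a * x⌉₊ + C₀, ?_, by omega, ?_, ?_, ?_⟩
  · have : 1 ≤ J * e := Nat.mul_pos hJ he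
    exact Nat.mul_pos hn0 this
  · have hs : ((⌈a * x⌉₊ + C₀ : ℕ) : ℝ) ≤ a * x + c := by
      push_cast
      have := Nat.ceil_lt_add_one hax
      rw [hc]; linarith
    have hs0 : (0 : ℝ) ≤ ((⌈a * x⌉₊ + C₀ : ℕ) : ℝ) := Nat.cast_nonneg _
    have hq := quad a (J + τ) c g τ x ε ha0.le (by positivity) hc0 hx1 hg
      (lt_of_lt_of_le hn1 (mul_le_mul_of_nonneg_left hxn hg0.le))
    have haε : a + ε = (μ : ℝ) / J := by rw [ha]; ring
    have hr : ((⌈a * x⌉₊ + C₀ : ℕ) : ℝ) * ((J + τ) * x + c) < τ * (a + ε) * x ^ 2 :=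
      lt_of_le_of_lt (mul_le_mul_of_nonneg_right hs (by positivity)) hq
    have hr2 : τ * (a + ε) * x ^ 2 = τ * n * x * (μ * e) := by
      rw [haε]
      have : x ^ 2 = x * (n * (J * e)) := by rw [← hxe]; ring
      rw [this]
      field_simp
    have hr3 : (τ : ℝ) * n * x * (μ * e) ≤ (τ * n + 1) * (x + 1) * (μ * e) := by
      apply mul_le_mul_of_nonneg_right _ (by positivity)
      apply mul_le_mul <;> first | positivity | linarith
    have hr4 : ((J : ℝ) + τ) * x + c = C₀ + x * J + (τ * n) * (J * e) + 1 := by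
      rw [hc]
      have : (τ : ℝ) * n * (J * e) = τ * x := by rw [hxe]; ring
      rw [this]; ring
    rw [hr4, hr2] at hr
    have hfin : ((⌈a * x⌉₊ + C₀ : ℕ) : ℝ) * (C₀ + x * J + (τ * n) * (J * e) + 1) <
        (τ * n + 1) * (x + 1) * (μ * e) := lt_of_lt_of_le hr hr3
    rw [hx] at hfin
    exact_mod_cast hfin
  · push_cast
    have := Nat.le_ceil (a * x)
    rw [← hxe]
    linarith
  · push_cast
    have : (τ : ℝ) * n * (J * e) = τ * (n * (J * e)) := by ring
    rw [this]

end Pool.Agent.Work.MP_91e6de_nt.BM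

end

section

set_option autoImplicit false

namespace Pool.Agent.Work.MP_91e6de_nt.BM

open MvPolynomial Height Height.AdmissibleAbsValues Filter Topology
open Pool.Agent.Work.MP_91e6de_nt.BL

namespace AuxND

/-- substitution of multiples of a vector into a form -/
theorem sub_hom {K : Type} [Field K] (v : Fin 2 → K) (h0 F : Pol K) (d : ℕ)
    (hF : F.IsHomogeneous d) :
    (aeval (fun i => C (v i) * h0) F : Pol K) = C (eval v F) * h0 ^ d := by
  rw [aeval_def, eval₂_eq', eval_eq', map_sum, Finset.sum_mul]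
  refine Finset.sum_congr rfl fun m hm => ?_
  have hdeg : m 0 + m 1 = d := by
    have := hF (mem_support_iff.1 hm)
    rw [Finsupp.weight_apply, Finsupp.sum_fintype _ _ (by simp)] at this
    simpa using this
  rw [Fin.prod_univ_two, Fin.prod_univ_two, ← hdeg, mul_pow, mul_pow, algebraMap_eq]
  simp only [map_mul, map_pow]
  ring

theorem td_ne {K : Type} [Field K] (p : Pol K) (n : ℕ) (hn : 1 ≤ n)
    (h : homogeneousComponent n p = 0) : p.totalDegree ≠ n := by
  intro hp
  have hp0 : p ≠ 0 := by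
    rintro rfl
    rw [totalDegree_zero] at hp
    omega
  have hs : p.support.Nonempty := by
    rwa [Finset.nonempty_iff_ne_empty, Ne, support_eq_empty]
  obtain ⟨m, hm, hmax⟩ := Finset.exists_mem_eq_sup p.support hs (fun s => s.sum fun _ e => e)
  have h1 : coeff m (homogeneousComponent n p) = coeff m p := by
    rw [coeff_homogeneousComponent, if_pos]
    have : p.totalDegree = m.sum fun _ e => e := hmax
    rw [← hp, this, Finsupp.degree_eq_sum, Finsupp.sum_fintype _ _ (by simp)]
  rw [h, coeff_zero] at h1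
  exact mem_support_iff.1 hm h1.symm

end AuxND

theorem pr_ND (h : S_Top) : S_ND := by
  intro K _ _ f d v hd hf hdg hv hbase
  by_contra hcon
  push Not at hcon
  have : Infinite K := inferInstance
  have hE : (C (v 1) * homogeneousComponent d (f 0) : Pol K) =
      C (v 0) * homogeneousComponent d (f 1) := by
    apply MvPolynomial.funext
    intro x
    have := hcon x
    simp only [map_mul, eval_C]
    linear_combination this
  obtain ⟨h0, hh0⟩ : ∃ h0 : Pol K, ∀ i, homogeneousComponent d (f i) = C (v i) * h0 := by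
    by_cases h00 : v 0 = 0
    · have h11 : v 1 ≠ 0 := by
        intro h11
        apply hv
        funext i
        fin_cases i
        · exact h00
        · exact h11
      refine ⟨C (v 1)⁻¹ * homogeneousComponent d (f 1), fun i => ?_⟩
      have h1 : (C (v 1) * C (v 1)⁻¹ : Pol K) = 1 := by
        rw [← C_mul, mul_inv_cancel₀ h11, C_1]
      fin_cases i
      · simp only [Fin.zero_eta, Fin.isValue, h00, C_0, zero_mul]
        rw [h00, C_0, zero_mul] at hE
        rcases mul_eq_zero.1 hE with h2 | h2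
        · exact absurd (C_eq_zero.1 h2) h11
        · exact h2
      · simp only [Fin.mk_one, Fin.isValue]
        rw [← mul_assoc, h1, one_mul]
    · refine ⟨C (v 0)⁻¹ * homogeneousComponent d (f 0), fun i => ?_⟩
      have h1 : (C (v 0) * C (v 0)⁻¹ : Pol K) = 1 := by
        rw [← C_mul, mul_inv_cancel₀ h00, C_1]
      fin_cases i
      · simp only [Fin.zero_eta, Fin.isValue]
        rw [← mul_assoc, h1, one_mul]
      · simp only [Fin.mk_one, Fin.isValue]
        have h2 : (C (v 1) * (C (v 0)⁻¹ * homogeneousComponent d (f 0)) : Pol K) =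
            C (v 0)⁻¹ * (C (v 1) * homogeneousComponent d (f 0)) := by ring
        rw [h2, hE, ← mul_assoc, mul_comm (C (v 0)⁻¹ : Pol K), h1, one_mul]
  have key : ∀ i, homogeneousComponent (d * d) (it f 2 i) = 0 := by
    intro i
    have h1 : it f 2 i = aeval f (f i) := by
      have h2 : it f 1 = f := by
        funext j
        show aeval (fun i => X i) (f j) = f j
        exact aeval_X_left_apply (f j)
      show aeval (it f 1) (f i) = aeval f (f i)
      rw [h2]
    rw [h1, h K f (f i) d d hd hf (hf i)]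
    have h3 : (fun i => homogeneousComponent d (f i)) = fun i => C (v i) * h0 := by
      funext j
      exact hh0 j
    rw [h3, AuxND.sub_hom v h0 _ d (homogeneousComponent_isHomogeneous d (f i)), hbase i, C_0,
      zero_mul]
  have h2 : ∀ i, (it f 2 i).totalDegree ≠ d * d := fun i =>
    AuxND.td_ne _ _ (Nat.mul_pos hd hd) (key i)
  have h3 : max (it f 2 0).totalDegree (it f 2 1).totalDegree = d * d := by
    rw [← pow_two]; exact hdg
  rcases max_choice (it f 2 0).totalDegree (it f 2 1).totalDegree with h4 | h4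
  · exact h2 0 (h4.symm.trans h3)
  · exact h2 1 (h4.symm.trans h3)

end Pool.Agent.Work.MP_91e6de_nt.BM

end

section

set_option autoImplicit false

namespace Pool.Agent.Work.MP_91e6de_nt.BM

open MvPolynomial Height Height.AdmissibleAbsValues Filter Topology
open Pool.Agent.Work.MP_91e6de_nt.BL

namespace AuxNF

/-! ### the source of a finite map -/

/-- the source of the map: the polynomial ring with another algebra structure -/
def Src {A K : Type} [CommRing A] [Field K] (_ : A →+* Pol K) : Type := Pol K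

section
variable {A K : Type} [CommRing A] [Field K] (g : A →+* Pol K)

noncomputable instance : CommRing (Src g) := inferInstanceAs (CommRing (Pol K))
instance : IsDomain (Src g) := inferInstanceAs (IsDomain (Pol K))
instance : IsIntegrallyClosed (Src g) := inferInstanceAs (IsIntegrallyClosed (Pol K))
noncomputable instance : Algebra A (Src g) := g.toAlgebra

theorem isIntegral_src (h0 : ∀ c, ∃ a, g a = C c) (hX : ∀ i, g.IsIntegralElem (X i)) :
    Algebra.IsIntegral A (Src g) := by
  constructor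
  intro x
  change g.IsIntegralElem (x : Pol K)
  refine MvPolynomial.induction_on (x : Pol K) ?_ ?_ ?_
  · intro c
    obtain ⟨a, ha⟩ := h0 c
    rw [← ha]
    exact g.isIntegralElem_map
  · intro p q hp hq
    exact RingHom.IsIntegralElem.add g hp hq
  · intro p i hp
    exact RingHom.IsIntegralElem.mul g hp (hX i)

theorem finite_src (h0 : ∀ c, ∃ a, g a = C c) (hX : ∀ i, g.IsIntegralElem (X i)) :
    Module.Finite A (Src g) := by
  have := isIntegral_src g h0 hX
  have : Algebra.FiniteType A (Src g) := by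
    refine ⟨Subalgebra.fg_def.2 ⟨Set.range (fun i : Fin 2 => ((X i : Pol K) : Src g)),
      Set.finite_range _, ?_⟩⟩
    rw [eq_top_iff]
    intro x _
    refine MvPolynomial.induction_on (x : Pol K) ?_ ?_ ?_
    · intro c
      obtain ⟨a, ha⟩ := h0 c
      rw [← ha]
      exact Subalgebra.algebraMap_mem _ a
    · intro p q hp hq
      exact Subalgebra.add_mem _ hp hq
    · intro p i hp
      exact Subalgebra.mul_mem _ hp (Algebra.subset_adjoin ⟨i, rfl⟩)
  exact Algebra.IsIntegral.finite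

theorem tf_src (hinj : Function.Injective g) [IsDomain A] : Module.IsTorsionFree A (Src g) := by
  rw [Module.isTorsionFree_iff_algebraMap_injective]
  exact hinj

end

/-! ### change of the base by an isomorphism -/

theorem intNorm_iso (A P : Type) [CommRing A] [IsDomain A] [IsIntegrallyClosed A] [CommRing P]
    [IsDomain P] [IsIntegrallyClosed P] [Algebra A P] [Algebra.IsIntegral A P]
    [Module.IsTorsionFree A P] (hbij : Function.Bijective (algebraMap A P)) (y : P) :
    algebraMap A P (Algebra.intNorm A P y) = y := by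
  obtain ⟨a, rfl⟩ := hbij.2 y
  let σ : A ≃ₐ[A] P := AlgEquiv.ofBijective (Algebra.ofId A P) hbij
  have : Module.Free A P := Module.Free.of_equiv σ.toLinearEquiv
  have : Module.Finite A P := Module.Finite.equiv σ.toLinearEquiv
  rw [Algebra.intNorm_eq_norm, Algebra.norm_algebraMap]
  have h1 : Module.finrank A P = 1 := by
    rw [← σ.toLinearEquiv.finrank_eq, Module.finrank_self]
  rw [h1, pow_one]

theorem intNorm_base (A P B : Type) [CommRing A] [IsDomain A] [IsIntegrallyClosed A] [CommRing P]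
    [IsDomain P] [IsIntegrallyClosed P] [CommRing B] [IsDomain B] [IsIntegrallyClosed B]
    [Algebra A P] [Algebra P B] [Algebra A B] [IsScalarTower A P B] [Algebra.IsIntegral A B]
    [Algebra.IsIntegral P B] [Algebra.IsIntegral A P] [Module.IsTorsionFree A B]
    [Module.IsTorsionFree P B] [Module.IsTorsionFree A P]
    (hbij : Function.Bijective (algebraMap A P)) (x : B) :
    algebraMap A P (Algebra.intNorm A B x) = Algebra.intNorm P B x := by
  rw [← Algebra.intNorm_intNorm A P (C := B), intNorm_iso A P hbij]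


/-! ### restriction to a line -/

section
variable {K : Type} [Field K]

/-- the restriction to the line `p + s e` -/
noncomputable def rl (e p : Fin 2 → K) : Pol K →ₐ[K] Polynomial K :=
  aeval (fun k => Polynomial.C (p k) + Polynomial.C (e k) * Polynomial.X)

theorem rl_C (e p : Fin 2 → K) (c : K) : rl e p (C c) = Polynomial.C c := by
  rw [rl, MvPolynomial.aeval_C]; rfl

theorem rl_X (e p : Fin 2 → K) (k : Fin 2) :
    rl e p (X k) = Polynomial.C (p k) + Polynomial.C (e k) * Polynomial.X := by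
  rw [rl, MvPolynomial.aeval_X]

/-- the equation of the line `p + s e` -/
noncomputable def ul (e p : Fin 2 → K) : Pol K := lf e - C (eval p (lf e))

theorem rl_ul (e p : Fin 2 → K) : rl e p (ul e p) = 0 := by
  simp only [ul, lf, map_sub, map_mul, rl_C, rl_X, eval_C, eval_X]
  ring

/-- a section of the restriction -/
noncomputable def sl (e p : Fin 2 → K) (k : Fin 2) : Polynomial K →ₐ[K] Pol K :=
  Polynomial.aeval (C (e k)⁻¹ * (X k - C (p k)))

theorem sl_X (e p : Fin 2 → K) (k : Fin 2) :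
    sl e p k Polynomial.X = C (e k)⁻¹ * (X k - C (p k)) := by
  rw [sl, Polynomial.aeval_X]

theorem sl_C (e p : Fin 2 → K) (k : Fin 2) (c : K) : sl e p k (Polynomial.C c) = C c := by
  rw [sl, Polynomial.aeval_C]; rfl

theorem rl_sl (e p : Fin 2 → K) (k : Fin 2) (hk : e k ≠ 0) (r : Polynomial K) :
    rl e p (sl e p k r) = r := by
  have h : (rl e p).comp (sl e p k) = AlgHom.id K _ := by
    apply Polynomial.algHom_ext
    rw [AlgHom.comp_apply, sl_X, map_mul, map_sub, rl_C, rl_C, rl_X, AlgHom.id_apply,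
      add_sub_cancel_left, ← mul_assoc, ← Polynomial.C_mul, inv_mul_cancel₀ hk, Polynomial.C_1,
      one_mul]
  exact DFunLike.congr_fun h r

theorem rl_surj (e p : Fin 2 → K) (he : e ≠ 0) : Function.Surjective (rl e p) := by
  obtain ⟨k, hk⟩ := Function.ne_iff.1 he
  exact fun r => ⟨_, rl_sl e p k hk r⟩

theorem mk_sl (e p : Fin 2 → K) (k : Fin 2) (hk : e k ≠ 0) (b : Pol K) :
    b - sl e p k (rl e p b) ∈ Ideal.span {ul e p} := by
  rw [← Ideal.Quotient.mk_eq_mk_iff_sub_mem]
  have h : (Ideal.Quotient.mkₐ K (Ideal.span {ul e p})) =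
      (Ideal.Quotient.mkₐ K (Ideal.span {ul e p})).comp ((sl e p k).comp (rl e p)) := by
    apply MvPolynomial.algHom_ext
    intro j
    rw [AlgHom.comp_apply, AlgHom.comp_apply, rl_X, map_add, map_mul, sl_C, sl_C, sl_X]
    rw [Ideal.Quotient.mkₐ_eq_mk, Ideal.Quotient.mk_eq_mk_iff_sub_mem,
      Ideal.mem_span_singleton]
    fin_cases k <;> fin_cases j <;>
      simp only [Fin.zero_eta, Fin.mk_one, Fin.isValue] at hk ⊢
    · refine ⟨0, ?_⟩
      rw [← mul_assoc, ← C_mul, mul_inv_cancel₀ hk, C_1]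
      ring
    · refine ⟨-C (e 0)⁻¹, ?_⟩
      have h1 : (C (e 0) * C (e 0)⁻¹ : Pol K) = 1 := by rw [← C_mul, mul_inv_cancel₀ hk, C_1]
      simp only [ul, lf, map_sub, map_mul, eval_C, eval_X]
      linear_combination (C (p 1) - X 1) * h1
    · refine ⟨C (e 1)⁻¹, ?_⟩
      have h1 : (C (e 1) * C (e 1)⁻¹ : Pol K) = 1 := by rw [← C_mul, mul_inv_cancel₀ hk, C_1]
      simp only [ul, lf, map_sub, map_mul, eval_C, eval_X]
      linear_combination (C (p 0) - X 0) * h1
    · refine ⟨0, ?_⟩
      rw [← mul_assoc, ← C_mul, mul_inv_cancel₀ hk, C_1]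
      ring
  exact DFunLike.congr_fun h b

theorem ker_rl (e p : Fin 2 → K) (he : e ≠ 0) :
    RingHom.ker (rl e p) = Ideal.span {ul e p} := by
  obtain ⟨k, hk⟩ := Function.ne_iff.1 he
  apply le_antisymm
  · intro b hb
    rw [RingHom.mem_ker] at hb
    have h := mk_sl e p k hk b
    rw [hb, map_zero, sub_zero] at h
    exact h
  · rw [Ideal.span_singleton_le_iff_mem, RingHom.mem_ker]
    exact rl_ul e p

theorem ul_ne (e p : Fin 2 → K) (he : e ≠ 0) : ul e p ≠ 0 := by
  intro h
  obtain ⟨k, hk⟩ := Function.ne_iff.1 he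
  have h0 : lf e = C (eval p (lf e)) := sub_eq_zero.1 h
  have h1 := congrArg (eval (fun i => if i = 0 then (1 : K) else 0)) h0
  have h2 := congrArg (eval (fun i => if i = 0 then (0 : K) else 1)) h0
  have h3 := congrArg (eval (fun _ => (0 : K))) h0
  simp only [lf, map_sub, map_mul, eval_C, eval_X, mul_zero, sub_zero, if_true,
    one_ne_zero, if_false, mul_one, zero_sub] at h1 h2 h3
  rw [← h3] at h1 h2
  apply he
  funext i
  fin_cases i
  · exact neg_eq_zero.1 h2
  · exact h1

/-! ### coordinates adapted to a vector -/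

/-- the isomorphism `T ↦ lf v`, `Y ↦ α x + β y` -/
noncomputable def io (v : Fin 2 → K) (α β : K) : Polynomial (Polynomial K) →+* Pol K :=
  Polynomial.eval₂RingHom (Polynomial.eval₂RingHom C (lf v)) (C α * X 0 + C β * X 1)

/-- the inverse isomorphism -/
noncomputable def jo (v : Fin 2 → K) (α β : K) : Pol K →+* Polynomial (Polynomial K) :=
  eval₂Hom (Polynomial.C.comp Polynomial.C)
    ![Polynomial.C (Polynomial.C β * Polynomial.X) +
        Polynomial.C (Polynomial.C (v 0)) * Polynomial.X,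
      Polynomial.C (Polynomial.C (-α) * Polynomial.X) +
        Polynomial.C (Polynomial.C (v 1)) * Polynomial.X]

theorem io_C (v : Fin 2 → K) (α β : K) (r : Polynomial K) :
    io v α β (Polynomial.C r) = Polynomial.aeval (lf v) r := by
  rw [io, Polynomial.coe_eval₂RingHom, Polynomial.eval₂_C, Polynomial.coe_eval₂RingHom,
    Polynomial.aeval_def]
  rfl

theorem io_X (v : Fin 2 → K) (α β : K) :
    io v α β Polynomial.X = C α * X 0 + C β * X 1 := by
  rw [io, Polynomial.coe_eval₂RingHom, Polynomial.eval₂_X]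

theorem jo_C (v : Fin 2 → K) (α β : K) (c : K) :
    jo v α β (C c) = Polynomial.C (Polynomial.C c) := by
  rw [jo, coe_eval₂Hom, eval₂_C]; rfl

theorem jo_X0 (v : Fin 2 → K) (α β : K) :
    jo v α β (X 0) = Polynomial.C (Polynomial.C β * Polynomial.X) +
        Polynomial.C (Polynomial.C (v 0)) * Polynomial.X := by
  rw [jo, coe_eval₂Hom, eval₂_X]; rfl

theorem jo_X1 (v : Fin 2 → K) (α β : K) :
    jo v α β (X 1) = Polynomial.C (Polynomial.C (-α) * Polynomial.X) +
        Polynomial.C (Polynomial.C (v 1)) * Polynomial.X := by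
  rw [jo, coe_eval₂Hom, eval₂_X]; rfl

theorem io_jo (v : Fin 2 → K) (α β : K) (h : α * v 0 + β * v 1 = 1) (g : Pol K) :
    io v α β (jo v α β g) = g := by
  have h1 : (C α * C (v 0) + C β * C (v 1) : Pol K) = 1 := by
    rw [← C_mul, ← C_mul, ← C_add, h, C_1]
  have h2 : (io v α β).comp (jo v α β) = RingHom.id _ := by
    apply MvPolynomial.ringHom_ext
    · intro c
      rw [RingHom.comp_apply, jo_C, io_C, Polynomial.aeval_C]
      rfl
    · intro i
      rw [RingHom.comp_apply, RingHom.id_apply]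
      fin_cases i
      · simp only [Fin.zero_eta, Fin.isValue]
        rw [jo_X0, map_add, io_C, map_mul (io v α β), io_C, io_X, map_mul, Polynomial.aeval_C,
          Polynomial.aeval_C, Polynomial.aeval_X, lf]
        change C β * _ + C (v 0) * _ = _
        linear_combination X 0 * h1
      · simp only [Fin.mk_one, Fin.isValue]
        rw [jo_X1, map_add, io_C, map_mul (io v α β), io_C, io_X, map_mul, Polynomial.aeval_C,
          Polynomial.aeval_C, Polynomial.aeval_X, lf]
        change C (-α) * _ + C (v 1) * _ = _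
        rw [C_neg]
        linear_combination X 1 * h1
  exact DFunLike.congr_fun h2 g

theorem jo_io (v : Fin 2 → K) (α β : K) (h : α * v 0 + β * v 1 = 1)
    (g : Polynomial (Polynomial K)) : jo v α β (io v α β g) = g := by
  have h1 : (Polynomial.C (Polynomial.C α) * Polynomial.C (Polynomial.C (v 0)) +
      Polynomial.C (Polynomial.C β) * Polynomial.C (Polynomial.C (v 1)) :
        Polynomial (Polynomial K)) = 1 := by
    simp only [← Polynomial.C_mul, ← Polynomial.C_add, h, Polynomial.C_1]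
  have h2 : (jo v α β).comp (io v α β) = RingHom.id _ := by
    apply Polynomial.ringHom_ext'
    · apply Polynomial.ringHom_ext
      · intro c
        rw [RingHom.comp_apply, RingHom.comp_apply, io_C, Polynomial.aeval_C]
        change jo v α β (C c) = _
        rw [jo_C]
        rfl
      · rw [RingHom.comp_apply, RingHom.comp_apply, io_C, Polynomial.aeval_X, lf, map_sub,
          map_mul, map_mul, jo_C, jo_C, jo_X0, jo_X1, RingHom.comp_apply, RingHom.id_apply]
        simp only [Polynomial.C_mul, Polynomial.C_neg]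
        linear_combination Polynomial.C Polynomial.X * h1
    · rw [RingHom.comp_apply, io_X, map_add, map_mul, map_mul, jo_C, jo_C, jo_X0, jo_X1,
          RingHom.id_apply]
      simp only [Polynomial.C_mul, Polynomial.C_neg]
      linear_combination Polynomial.X * h1
  exact DFunLike.congr_fun h2 g

theorem jo_bd (v : Fin 2 → K) (α β : K) (m : Fin 2 →₀ ℕ) (c : K) :
    (jo v α β (monomial m c)).natDegree ≤ m.degree ∧
      (jo v α β (monomial m c)).coeff m.degree = Polynomial.C (eval v (monomial m c)) := by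
  have hm : m.degree = m 0 + m 1 := by
    rw [Finsupp.degree_eq_sum, Fin.sum_univ_two]
  have h1 : monomial m c = (C c * (X 0 ^ m 0 * X 1 ^ m 1) : Pol K) := by
    rw [monomial_eq, Finsupp.prod_fintype _ _ (fun i => pow_zero _), Fin.prod_univ_two]
  have key : ∀ (a b : K) (s : ℕ),
      ((Polynomial.C (Polynomial.C a * Polynomial.X) +
        Polynomial.C (Polynomial.C b) * Polynomial.X : Polynomial (Polynomial K)) ^ s).natDegree
          ≤ s ∧
      ((Polynomial.C (Polynomial.C a * Polynomial.X) +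
        Polynomial.C (Polynomial.C b) * Polynomial.X : Polynomial (Polynomial K)) ^ s).coeff s
          = Polynomial.C (b ^ s) := by
    intro a b s
    have h2 : (Polynomial.C (Polynomial.C a * Polynomial.X) +
        Polynomial.C (Polynomial.C b) * Polynomial.X : Polynomial (Polynomial K)).natDegree
          ≤ 1 := by
      compute_degree
    have h3 : (Polynomial.C (Polynomial.C a * Polynomial.X) +
        Polynomial.C (Polynomial.C b) * Polynomial.X : Polynomial (Polynomial K)).coeff 1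
          = Polynomial.C b := by
      rw [Polynomial.coeff_add, Polynomial.coeff_C_of_ne_zero one_ne_zero, zero_add,
        Polynomial.coeff_C_mul, Polynomial.coeff_X_one, mul_one]
    refine ⟨(Polynomial.natDegree_pow_le_of_le s h2).trans (by rw [mul_one]), ?_⟩
    have h4 := Polynomial.coeff_pow_of_natDegree_le (m := s) h2
    rw [mul_one, h3] at h4
    rw [h4, Polynomial.C_pow]
  obtain ⟨d0, e0⟩ := key β (v 0) (m 0)
  obtain ⟨d1, e1⟩ := key (-α) (v 1) (m 1)
  rw [hm, h1, map_mul, map_mul, map_pow, map_pow, jo_C, jo_X0, jo_X1]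
  have h5 := Polynomial.natDegree_mul_le_of_le d0 d1
  have h6 := Polynomial.coeff_mul_add_eq_of_natDegree_le d0 d1
  refine ⟨(Polynomial.natDegree_C_mul_le _ _).trans h5, ?_⟩
  rw [Polynomial.coeff_C_mul, h6, e0, e1]
  simp only [map_mul, map_pow, eval_C, eval_X]

theorem jo_top (v : Fin 2 → K) (α β : K) (ν : Pol K) (D : ℕ) (hD : ν.totalDegree ≤ D) :
    (jo v α β ν).natDegree ≤ D ∧
      (jo v α β ν).coeff D = Polynomial.C (eval v (homogeneousComponent D ν)) := by
  have hs : ∀ m ∈ ν.support, m.degree ≤ D := by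
    intro m hm
    refine le_trans ?_ hD
    have := le_totalDegree hm
    rw [Finsupp.degree_eq_sum]
    rwa [Finsupp.sum_fintype _ _ (fun _ => rfl)] at this
  have hν : jo v α β ν = ∑ m ∈ ν.support, jo v α β (monomial m (coeff m ν)) := by
    conv_lhs => rw [ν.as_sum]
    rw [map_sum]
  constructor
  · rw [hν]
    refine Polynomial.natDegree_sum_le_of_forall_le _ _ fun m hm => ?_
    exact (jo_bd v α β m _).1.trans (hs m hm)
  · rw [hν, Polynomial.finsetSum_coeff, homogeneousComponent_apply, map_sum, map_sum,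
      Finset.sum_filter]
    refine Finset.sum_congr rfl fun m hm => ?_
    split_ifs with h
    · rw [← h]
      exact (jo_bd v α β m _).2
    · exact Polynomial.coeff_eq_zero_of_natDegree_lt
        (((jo_bd v α β m _).1).trans_lt (lt_of_le_of_ne (hs m hm) h))

end

/-! ### the norm -/

section
attribute [local instance] FractionRing.liftAlgebra FractionRing.isScalarTower_liftAlgebra
open nonZeroDivisors

theorem intNorm_ne (A B : Type) [CommRing A] [IsDomain A] [IsIntegrallyClosed A] [CommRing B]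
    [IsDomain B] [IsIntegrallyClosed B] [Algebra A B] [Module.Finite A B]
    [Module.IsTorsionFree A B] (x : B) (hx : x ≠ 0) : Algebra.intNorm A B x ≠ 0 := by
  have : IsIntegralClosure B A (FractionRing B) :=
    IsIntegralClosure.of_isIntegrallyClosed _ _ _
  have : Algebra.IsAlgebraic (FractionRing A) (FractionRing B) :=
    isAlgebraic_of_isFractionRing A B ..
  have : IsLocalization (Algebra.algebraMapSubmonoid B A⁰) (FractionRing B) :=
    IsIntegralClosure.isLocalization _ (FractionRing A) _ _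
  have : FiniteDimensional (FractionRing A) (FractionRing B) := .of_isLocalization A B A⁰
  exact Algebra.intNorm_ne_zero.2 hx

end

theorem top_ne {K : Type} [Field K] (ν : Pol K) (h : ν ≠ 0) :
    homogeneousComponent ν.totalDegree ν ≠ 0 := by
  intro h4
  obtain ⟨m, hm, hm2⟩ := Finset.exists_mem_eq_sup ν.support (support_nonempty.2 h)
    (fun s => s.sum fun _ e => e)
  have h5 := congrArg (coeff m) h4
  rw [coeff_homogeneousComponent, coeff_zero, if_pos] at h5
  · exact (mem_support_iff.1 hm) h5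
  · rw [totalDegree, hm2, Finsupp.degree_eq_sum, Finsupp.sum_fintype _ _ (fun _ => rfl)]

theorem top_zero {K : Type} [Field K] (ν : Pol K) (D : ℕ) (h : 1 ≤ D) :
    eval 0 (homogeneousComponent D ν) = 0 := by
  rw [eval_zero, constantCoeff_eq, coeff_homogeneousComponent, if_neg]
  rw [map_zero]
  omega

section
variable {K : Type} [Field K]

/-- the ring homomorphism of the polynomial map -/
noncomputable def Gf (f : Fin 2 → Pol K) : Pol K →+* Pol K :=
  (aeval f : Pol K →ₐ[K] Pol K).toRingHom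

theorem Gf_C (f : Fin 2 → Pol K) (c : K) : Gf f (C c) = C c := by
  change (aeval f : Pol K →ₐ[K] Pol K) (C c) = _
  rw [aeval_C]; rfl

theorem Gf_X (f : Fin 2 → Pol K) (i : Fin 2) : Gf f (X i) = f i := by
  change (aeval f : Pol K →ₐ[K] Pol K) (X i) = _
  rw [aeval_X]

theorem norm_jo (h2 : S_Deg) (f : Fin 2 → Pol K) (hX : ∀ i, (Gf f).IsIntegralElem (X i))
    (hinj : Function.Injective (Gf f)) [Algebra.IsIntegral (Pol K) (Src (Gf f))]
    [Module.IsTorsionFree (Pol K) (Src (Gf f))] (e p : Fin 2 → K) (he : e ≠ 0)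
    (v : Fin 2 → K) (α β : K) (hαβ : α * v 0 + β * v 1 = 1) :
    (jo v α β (Algebra.intNorm (Pol K) (Src (Gf f)) (ul e p))).natDegree =
      (rl e p (Gf f (lf v))).natDegree := by
  have hG0 : ∀ c, ∃ a, Gf f a = C c := fun c => ⟨C c, Gf_C f c⟩
  have : Module.Finite (Pol K) (Src (Gf f)) := finite_src _ hG0 hX
  let a1 : Algebra (Polynomial (Polynomial K)) (Pol K) := (io v α β).toAlgebra
  let a2 : Algebra (Polynomial (Polynomial K)) (Src (Gf f)) :=
    ((Gf f).comp (io v α β)).toAlgebra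
  have : IsScalarTower (Polynomial (Polynomial K)) (Pol K) (Src (Gf f)) :=
    IsScalarTower.of_algebraMap_eq' rfl
  have hbij : Function.Bijective (algebraMap (Polynomial (Polynomial K)) (Pol K)) := by
    refine ⟨fun a b hab => ?_, fun g => ⟨jo v α β g, io_jo v α β hαβ g⟩⟩
    rw [← jo_io v α β hαβ a, ← jo_io v α β hαβ b]
    exact congrArg _ hab
  have : Module.Finite (Polynomial (Polynomial K)) (Pol K) :=
    Module.Finite.of_surjective (Algebra.linearMap _ _) hbij.2
  have : Module.Finite (Polynomial (Polynomial K)) (Src (Gf f)) :=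
    Module.Finite.trans (Pol K) _
  have : Module.IsTorsionFree (Polynomial (Polynomial K)) (Pol K) := by
    rw [Module.isTorsionFree_iff_algebraMap_injective]
    exact hbij.1
  have : Module.IsTorsionFree (Polynomial (Polynomial K)) (Src (Gf f)) := by
    rw [Module.isTorsionFree_iff_algebraMap_injective]
    exact hinj.comp hbij.1
  have h3 := intNorm_base (Polynomial (Polynomial K)) (Pol K) (Src (Gf f)) hbij (ul e p)
  have h4 : jo v α β (Algebra.intNorm (Pol K) (Src (Gf f)) (ul e p)) =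
      Algebra.intNorm (Polynomial (Polynomial K)) (Src (Gf f)) (ul e p) := by
    rw [← h3]
    exact jo_io v α β hαβ _
  rw [h4]
  -- the quotient
  let R : Src (Gf f) →+* Polynomial K := (rl e p).toRingHom
  have hR : Function.Surjective R := rl_surj e p he
  let U : Src (Gf f) := ul e p
  have hk : Ideal.span {U} = RingHom.ker R := (ker_rl e p he).symm
  let E : (Src (Gf f) ⧸ Ideal.span {U}) ≃+* Polynomial K :=
    (Ideal.quotEquivOfEq hk).trans (RingHom.quotientKerEquivOfSurjective hR)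
  refine h2 K (Src (Gf f)) U (rl e p (Gf f (lf v))) E (ul_ne e p he) fun r => ?_
  change R (Gf f (io v α β (Polynomial.C r))) = _
  rw [io_C]
  change rl e p ((aeval f : Pol K →ₐ[K] Pol K) (Polynomial.aeval (lf v) r)) = _
  rw [← Polynomial.aeval_algHom_apply, ← Polynomial.aeval_algHom_apply]
  rfl

end

end AuxNF

open AuxNF in
theorem pr_NF (h1 : S_Fib) (h2 : S_Deg) : S_NF := by
  intro K _ φ f hf hinj0
  have hchar : CharZero K := RingHom.charZero φ
  have hinf : Infinite K := CharZero.infinite K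
  have hX : ∀ i, (Gf f).IsIntegralElem (X i) := hf
  have hinj : Function.Injective (Gf f) := (injective_iff_map_eq_zero _).2 hinj0
  have hG0 : ∀ c, ∃ a, Gf f a = C c := fun c => ⟨C c, Gf_C f c⟩
  have i1 : Module.Finite (Pol K) (Src (Gf f)) := finite_src _ hG0 hX
  have i2 : Module.IsTorsionFree (Pol K) (Src (Gf f)) := tf_src _ hinj
  obtain ⟨n, hn, hψ⟩ := h1 (Pol K) (Src (Gf f))
  refine ⟨n, fun u => Algebra.intNorm (Pol K) (Src (Gf f)) u, hn, ?_, ?_⟩
  · intro R
    obtain ⟨χ, hχ, hprod⟩ := hψ (eval₂Hom φ R)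
    have key : ∀ (i : Fin n) (u : Pol K), χ i u = eval₂ φ (fun k => χ i (X k : Pol K)) u := by
      intro i u
      let ξ : Pol K →+* ℂ := χ i
      have : ξ = eval₂Hom φ (fun k => ξ (X k)) := by
        apply MvPolynomial.ringHom_ext
        · intro c
          have h3 := DFunLike.congr_fun (hχ i) (C c)
          rw [RingHom.comp_apply, coe_eval₂Hom, eval₂_C] at h3
          rw [coe_eval₂Hom, eval₂_C, ← h3]
          change ξ (C c) = ξ (Gf f (C c))
          rw [Gf_C]
        · intro k
          rw [coe_eval₂Hom, eval₂_X]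
      exact DFunLike.congr_fun this u
    refine ⟨fun i k => χ i (X k : Pol K), fun i => ?_, fun u => ?_⟩
    · funext k
      rw [ce, ← key]
      have h3 := DFunLike.congr_fun (hχ i) (X k)
      rw [RingHom.comp_apply, coe_eval₂Hom, eval₂_X] at h3
      rw [← h3]
      change χ i (f k : Pol K) = χ i (Gf f (X k))
      rw [Gf_X]
    · have h3 := hprod u
      rw [coe_eval₂Hom] at h3
      rw [h3]
      exact Finset.prod_congr rfl fun i _ => key i u
  · intro e p q δ he hq hδ
    change (Algebra.intNorm (Pol K) (Src (Gf f)) (ul e p)).totalDegree = δ ∧ ∀ v : Fin 2 → K,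
      (eval v (homogeneousComponent δ (Algebra.intNorm (Pol K) (Src (Gf f)) (ul e p))) ≠ 0 ↔ _)
    generalize hν : Algebra.intNorm (Pol K) (Src (Gf f)) (ul e p) = ν
    have hq' : ∀ v : Fin 2 → K, rl e p (Gf f (lf v)) =
        Polynomial.C (v 1) * q 0 - Polynomial.C (v 0) * q 1 := by
      intro v
      rw [hq 0, hq 1, lf, map_sub, map_mul, map_mul, Gf_C, Gf_C, Gf_X, Gf_X, map_sub, map_mul,
        map_mul, rl_C, rl_C]
      rfl
    -- the norm is not zero
    have hν0 : ν ≠ 0 := by
      rw [← hν]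
      exact intNorm_ne (Pol K) (Src (Gf f)) (ul e p) (ul_ne e p he)
    -- the norm is not constant
    have hν1 : 1 ≤ ν.totalDegree := by
      by_contra hlt
      have h0 : ν.totalDegree = 0 := by omega
      rw [totalDegree_eq_zero_iff_eq_C] at h0
      have h3 := Algebra.dvd_algebraMap_intNorm_self (A := Pol K) (B := Src (Gf f)) (ul e p)
      rw [hν] at h3
      have h4 : (ul e p : Pol K) ∣ C (coeff 0 ν) := by
        obtain ⟨w, hw⟩ := h3
        refine ⟨w, ?_⟩
        rw [← Gf_C f, ← h0]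
        exact hw
      have h5 := map_dvd (rl e p) h4
      rw [rl_ul, rl_C, zero_dvd_iff, Polynomial.C_eq_zero] at h5
      rw [h5, C_0] at h0
      exact hν0 h0
    have main : ∀ v : Fin 2 → K, v ≠ 0 →
        (Polynomial.C (v 1) * q 0 - Polynomial.C (v 0) * q 1).natDegree ≤ ν.totalDegree ∧
        (eval v (homogeneousComponent ν.totalDegree ν) ≠ 0 ↔
          (Polynomial.C (v 1) * q 0 - Polynomial.C (v 0) * q 1).natDegree = ν.totalDegree) := by
      intro v hv
      obtain ⟨α, β, hαβ⟩ : ∃ α β : K, α * v 0 + β * v 1 = 1 := by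
        obtain ⟨k, hk⟩ := Function.ne_iff.1 hv
        fin_cases k
        · exact ⟨(v 0)⁻¹, 0, by rw [zero_mul, add_zero]; exact inv_mul_cancel₀ hk⟩
        · exact ⟨0, (v 1)⁻¹, by rw [zero_mul, zero_add]; exact inv_mul_cancel₀ hk⟩
      have h3 := norm_jo h2 f hX hinj e p he v α β hαβ
      rw [hν, hq'] at h3
      obtain ⟨h4, h5⟩ := jo_top v α β ν ν.totalDegree le_rfl
      rw [← h3]
      refine ⟨h4, fun h6 => ?_, fun h6 => ?_⟩
      · refine le_antisymm h4 (Polynomial.le_natDegree_of_ne_zero ?_)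
        rw [h5]
        exact fun h7 => h6 (Polynomial.C_eq_zero.1 h7)
      · intro h7
        rw [h7, Polynomial.C_0, ← h6, Polynomial.coeff_natDegree,
          Polynomial.leadingCoeff_eq_zero] at h5
        rw [h5, Polynomial.natDegree_zero] at h6
        omega
    have hD1 : δ ≤ ν.totalDegree := by
      rw [← hδ]
      refine max_le ?_ ?_
      · have h3 := (main ![0, 1] (fun h => one_ne_zero (congrFun h 1))).1
        simpa using h3
      · have h3 := (main ![-1, 0] (fun h => neg_ne_zero.2 one_ne_zero (congrFun h 0))).1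
        simpa using h3
    have hD2 : ν.totalDegree ≤ δ := by
      have h3 := top_ne ν hν0
      obtain ⟨v, hv⟩ : ∃ v, eval v (homogeneousComponent ν.totalDegree ν) ≠ 0 := by
        by_contra hcon
        push Not at hcon
        exact h3 (MvPolynomial.funext fun v => by rw [hcon v, map_zero])
      have hv0 : v ≠ 0 := by
        rintro rfl
        exact hv (top_zero ν _ hν1)
      rw [← ((main v hv0).2.1 hv), ← hδ]
      refine (Polynomial.natDegree_sub_le _ _).trans (max_le_max ?_ ?_)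
      · exact Polynomial.natDegree_C_mul_le _ _
      · exact Polynomial.natDegree_C_mul_le _ _
    have hD : ν.totalDegree = δ := le_antisymm hD2 hD1
    refine ⟨hD, fun v => ?_⟩
    rw [← hD]
    constructor
    · intro h3
      have hv0 : v ≠ 0 := by
        rintro rfl
        exact h3 (top_zero ν _ hν1)
      exact ⟨hv0, (main v hv0).2.1 h3⟩
    · rintro ⟨hv0, h3⟩
      exact (main v hv0).2.2 h3

end Pool.Agent.Work.MP_91e6de_nt.BM

end

section

set_option autoImplicit false

namespace Pool.Agent.Work.MP_91e6de_nt.BM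

open MvPolynomial Height Height.AdmissibleAbsValues Filter Topology
open Pool.Agent.Work.MP_91e6de_nt.BL

namespace AuxNm

variable {K : Type} [Field K]

/-- the restriction of `G` to the vertical line over `t` -/
noncomputable def rs (φ : K →+* ℂ) (t : ℂ) (G : Pol K) : Polynomial ℂ :=
  eval₂ (Polynomial.C.comp φ) ![Polynomial.C t, Polynomial.X] G

lemma rs_coeff (φ : K →+* ℂ) (t : ℂ) (G : Pol K) (q : ℕ) (h : G.totalDegree = q) :
    (rs φ t G).coeff q = φ (coeff (Finsupp.single 1 q) G) := by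
  unfold rs
  rw [eval₂_eq', Polynomial.finsetSum_coeff]
  have key : ∀ m ∈ G.support, m ≠ Finsupp.single 1 q →
      ((Polynomial.C.comp φ) (coeff m G) *
        ∏ i, (![Polynomial.C t, Polynomial.X] i) ^ m i).coeff q = 0 := by
    intro m hm hne
    rw [Fin.prod_univ_two]
    simp only [RingHom.comp_apply, Matrix.cons_val_zero, Matrix.cons_val_one]
    rw [← Polynomial.C_pow, ← mul_assoc, ← Polynomial.C_mul, Polynomial.coeff_C_mul,
      Polynomial.coeff_X_pow]
    split_ifs with hq
    · exfalso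
      apply hne
      have h1 : (m.sum fun _ e => e) ≤ q := h ▸ le_totalDegree hm
      rw [Finsupp.sum_fintype _ _ (fun _ => rfl), Fin.sum_univ_two] at h1
      ext i
      fin_cases i
      · simp
        omega
      · simp
        omega
    · simp
  by_cases hs : Finsupp.single 1 q ∈ G.support
  · rw [Finset.sum_eq_single_of_mem _ hs key]
    rw [Fin.prod_univ_two]
    simp
  · rw [Finset.sum_eq_zero fun m hm => key m hm (fun he => hs (he ▸ hm))]
    rw [notMem_support_iff.1 hs, map_zero]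

lemma rs_ne (φ : K →+* ℂ) (t : ℂ) (G : Pol K) (q : ℕ) (h : YM G q) : rs φ t G ≠ 0 := by
  intro h0
  have h1 := rs_coeff φ t G q h.1
  rw [h0, Polynomial.coeff_zero] at h1
  exact h.2 ((map_eq_zero φ).1 h1.symm)

lemma rt_mul (φ : K →+* ℂ) (t : ℂ) (G G' : Pol K) (q q' : ℕ) (h : YM G q) (h' : YM G' q') :
    rt φ (G * G') t = rt φ G t + rt φ G' t := by
  have hm : rs φ t (G * G') = rs φ t G * rs φ t G' := by
    unfold rs
    rw [eval₂_mul]
  have := Polynomial.roots_mul (mul_ne_zero (rs_ne φ t G q h) (rs_ne φ t G' q' h'))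
  show (rs φ t (G * G')).roots = (rs φ t G).roots + (rs φ t G').roots
  rw [hm, this]

end AuxNm

theorem pr_Nm (h1 : S_NmI) (h2 : S_Add) (h3 : S_YMs) : S_Nm := by
  intro K _ φ G
  induction G using WfDvdMonoid.induction_on_irreducible with
  | zero =>
    intro q T hY
    exact absurd (by simp) hY.2
  | unit u hu =>
    intro q T hY hc
    refine ⟨1, one_ne_zero, ?_, ?_⟩
    · rw [Polynomial.natDegree_one]
      unfold Ii
      have htop : Ideal.span {u, T} = ⊤ :=
        Ideal.eq_top_of_isUnit_mem _ (Ideal.subset_span (by simp)) hu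
      rw [htop]
      have : Subsingleton (Pol K ⧸ (⊤ : Ideal (Pol K))) := Ideal.Quotient.subsingleton_iff.2 rfl
      exact (Module.finrank_zero_of_subsingleton).symm
    · intro t
      have hr : rt φ u t = 0 := by
        have hu' : IsUnit (AuxNm.rs φ t u) := by
          have := hu.map (eval₂Hom (Polynomial.C.comp φ) ![Polynomial.C t, Polynomial.X])
          exact this
        obtain ⟨r, hr, hr'⟩ := Polynomial.isUnit_iff.1 hu'
        show (AuxNm.rs φ t u).roots = 0
        rw [← hr', Polynomial.roots_C]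
      rw [hr]
      simp
  | mul a p ha hp ih =>
    intro q T hY hc
    obtain ⟨hYp, hYa, -⟩ := h3.1 K p a q hY
    have hcp : IsRelPrime p T := fun d hd hd' => hc (hd.mul_right a) hd'
    have hca : IsRelPrime a T := fun d hd hd' => hc (hd.mul_left p) hd'
    have hdiv : ¬ p ∣ T := fun hd => hp.not_isUnit (hcp dvd_rfl hd)
    obtain ⟨R, hR0, hR1, hR2⟩ := h1 K φ p _ T hYp hp hdiv
    obtain ⟨R', hR'0, hR'1, hR'2⟩ := ih _ T hYa hca
    refine ⟨R * R', mul_ne_zero hR0 hR'0, ?_, ?_⟩
    · rw [Polynomial.natDegree_mul hR0 hR'0, hR1, hR'1, h2 K p a T hc]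
    · intro t
      rw [Polynomial.eval₂_mul, hR2, hR'2, AuxNm.rt_mul φ t p a _ _ hYp hYa, Multiset.map_add,
        Multiset.prod_add]

end Pool.Agent.Work.MP_91e6de_nt.BM

end

section

set_option autoImplicit false

namespace Pool.Agent.Work.MP_91e6de_nt.BM

open MvPolynomial Height Height.AdmissibleAbsValues Filter Topology
open Pool.Agent.Work.MP_91e6de_nt.BL

namespace AuxRt

variable {K : Type} [Field K]

theorem form (φ : K →+* ℂ) (G : Pol K) (t : ℂ) :
    (eval₂ (Polynomial.C.comp φ) ![Polynomial.C t, Polynomial.X] G : Polynomial ℂ) =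
      ∑ d ∈ G.support, Polynomial.C (φ (coeff d G) * t ^ d 0) * Polynomial.X ^ d 1 := by
  rw [eval₂_eq']
  refine Finset.sum_congr rfl fun d _ => ?_
  simp [Fin.prod_univ_two, mul_assoc]

theorem evalf (φ : K →+* ℂ) (G : Pol K) (t y : ℂ) :
    eval₂ φ ![t, y] G = ∑ d ∈ G.support, φ (coeff d G) * (t ^ d 0 * y ^ d 1) := by
  rw [eval₂_eq']
  refine Finset.sum_congr rfl fun d _ => ?_
  simp [Fin.prod_univ_two]

theorem evg (φ : K →+* ℂ) (G : Pol K) (t y : ℂ) :
    Polynomial.eval y (eval₂ (Polynomial.C.comp φ) ![Polynomial.C t, Polynomial.X] G) =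
      eval₂ φ ![t, y] G := by
  rw [form, evalf, Polynomial.eval_finsetSum]
  refine Finset.sum_congr rfl fun d _ => ?_
  simp [mul_assoc]

theorem deg_le (G : Pol K) (q : ℕ) (h : G.totalDegree = q) (d : Fin 2 →₀ ℕ)
    (hd : d ∈ G.support) : d 0 + d 1 ≤ q := by
  have h1 := le_totalDegree hd
  rw [h] at h1
  rw [Finsupp.sum_fintype _ _ (fun _ => rfl)] at h1
  simpa [Fin.sum_univ_two] using h1

theorem eq_single (d : Fin 2 →₀ ℕ) (q : ℕ) (h : d 0 + d 1 ≤ q) (h1 : d 1 = q) :
    d = Finsupp.single 1 q := by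
  ext i
  fin_cases i
  · have : d 0 = 0 := by omega
    simpa using this
  · simpa using h1

theorem coq (φ : K →+* ℂ) (G : Pol K) (q : ℕ) (h : YM G q) (t : ℂ) :
    (eval₂ (Polynomial.C.comp φ) ![Polynomial.C t, Polynomial.X] G : Polynomial ℂ).coeff q =
      φ (coeff (Finsupp.single 1 q) G) := by
  rw [form, Polynomial.finsetSum_coeff]
  rw [Finset.sum_eq_single (Finsupp.single 1 q)]
  · simp
  · intro d hd hne
    rw [Polynomial.coeff_C_mul, Polynomial.coeff_X_pow, if_neg, mul_zero]
    intro hq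
    exact hne (eq_single d q (deg_le G q h.1 d hd) hq.symm)
  · intro hn
    exact absurd (mem_support_iff.mpr h.2) hn

theorem nd (φ : K →+* ℂ) (G : Pol K) (q : ℕ) (h : YM G q) (t : ℂ) :
    (eval₂ (Polynomial.C.comp φ) ![Polynomial.C t, Polynomial.X] G : Polynomial ℂ).natDegree
      = q := by
  refine le_antisymm ?_ ?_
  · rw [form]
    refine Polynomial.natDegree_sum_le_of_forall_le _ _ fun d hd => ?_
    refine (Polynomial.natDegree_C_mul_le _ _).trans ?_
    rw [Polynomial.natDegree_X_pow]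
    have := deg_le G q h.1 d hd
    omega
  · refine Polynomial.le_natDegree_of_ne_zero ?_
    rw [coq φ G q h t]
    exact (map_ne_zero φ).mpr h.2

theorem bd (φ : K →+* ℂ) (G : Pol K) (q : ℕ) (h : YM G q) (t y : ℂ)
    (h0 : eval₂ φ ![t, y] G = 0) (hy : max ‖t‖ 1 ≤ ‖y‖) :
    ‖y‖ ≤ (∑ d ∈ G.support, ‖φ (coeff d G)‖) / ‖φ (coeff (Finsupp.single 1 q) G)‖ *
      max ‖t‖ 1 := by
  have hc : 0 < ‖φ (coeff (Finsupp.single 1 q) G)‖ :=
    norm_pos_iff.mpr ((map_ne_zero φ).mpr h.2)
  have hm : (1 : ℝ) ≤ max ‖t‖ 1 := le_max_right _ _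
  have ht : ‖t‖ ≤ max ‖t‖ 1 := le_max_left _ _
  generalize hmm : max ‖t‖ 1 = m at *
  have hy1 : 1 ≤ ‖y‖ := hm.trans hy
  have hyp : 0 < ‖y‖ := lt_of_lt_of_le one_pos hy1
  have hmem : Finsupp.single 1 q ∈ G.support := mem_support_iff.mpr h.2
  rw [evalf, ← Finset.add_sum_erase _ _ hmem] at h0
  have h1 : φ (coeff (Finsupp.single 1 q) G) * y ^ q =
      -∑ d ∈ G.support.erase (Finsupp.single 1 q), φ (coeff d G) * (t ^ d 0 * y ^ d 1) := by
    have := eq_neg_of_add_eq_zero_left h0
    simpa using this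
  have h2 : ‖φ (coeff (Finsupp.single 1 q) G)‖ * ‖y‖ ^ q * ‖y‖ ≤
      ∑ d ∈ G.support, ‖φ (coeff d G)‖ * (m * ‖y‖ ^ q) := by
    rw [← norm_pow, ← norm_mul, h1, norm_neg]
    refine (mul_le_mul_of_nonneg_right (norm_sum_le _ _) hyp.le).trans ?_
    rw [Finset.sum_mul]
    refine (Finset.sum_le_sum (fun d hd => ?_)).trans
      (Finset.sum_le_sum_of_subset_of_nonneg (Finset.erase_subset _ _)
        (fun _ _ _ => by positivity))
    rw [Finset.mem_erase] at hd
    rw [norm_mul, norm_mul, norm_pow, norm_pow, norm_pow, mul_assoc]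
    refine mul_le_mul_of_nonneg_left ?_ (norm_nonneg _)
    have hdq := deg_le G q h.1 d hd.2
    rcases Nat.eq_zero_or_pos (d 0) with hz | hp
    · have hlt : d 1 < q := by
        rcases lt_or_eq_of_le (show d 1 ≤ q by omega) with h' | h'
        · exact h'
        · exact absurd (eq_single d q hdq h') hd.1
      rw [hz, pow_zero, one_mul, ← pow_succ]
      calc ‖y‖ ^ (d 1 + 1) ≤ ‖y‖ ^ q := pow_le_pow_right₀ hy1 hlt
        _ ≤ m * ‖y‖ ^ q := le_mul_of_one_le_left (by positivity) hm
    · obtain ⟨e, he⟩ := Nat.exists_eq_add_of_le' hp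
      have h3 : ‖t‖ ^ d 0 ≤ m * ‖y‖ ^ e := by
        rw [he, pow_succ']
        exact mul_le_mul ht (pow_le_pow_left₀ (norm_nonneg _) (ht.trans hy) _)
          (by positivity) (by linarith)
      calc ‖t‖ ^ d 0 * ‖y‖ ^ d 1 * ‖y‖ ≤ m * ‖y‖ ^ e * ‖y‖ ^ d 1 * ‖y‖ := by gcongr
        _ = m * ‖y‖ ^ (d 0 + d 1) := by rw [he]; ring
        _ ≤ m * ‖y‖ ^ q := by
          refine mul_le_mul_of_nonneg_left (pow_le_pow_right₀ hy1 hdq) (by linarith)
  rw [← Finset.sum_mul] at h2
  have hyq : 0 < ‖y‖ ^ q := by positivity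
  have h4 : ‖φ (coeff (Finsupp.single 1 q) G)‖ * ‖y‖ ≤
      (∑ d ∈ G.support, ‖φ (coeff d G)‖) * m := by
    refine le_of_mul_le_mul_right ?_ hyq
    calc _ = ‖φ (coeff (Finsupp.single 1 q) G)‖ * ‖y‖ ^ q * ‖y‖ := by ring
      _ ≤ _ := h2
      _ = _ := by ring
  rw [div_mul_eq_mul_div, le_div_iff₀ hc]
  linarith

end AuxRt

theorem pr_Rt : S_Rt := by
  intro K _ φ G q h
  refine ⟨max 1 ((∑ d ∈ G.support, ‖φ (coeff d G)‖) / ‖φ (coeff (Finsupp.single 1 q) G)‖),
    le_max_left _ _, fun t => ?_⟩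
  have hne : (eval₂ (Polynomial.C.comp φ) ![Polynomial.C t, Polynomial.X] G : Polynomial ℂ)
      ≠ 0 := by
    intro h0
    have := AuxRt.coq φ G q h t
    rw [h0, Polynomial.coeff_zero] at this
    exact (map_ne_zero φ).mpr h.2 this.symm
  have hmem : ∀ y : ℂ, y ∈ rt φ G t ↔ eval₂ φ ![t, y] G = 0 := by
    intro y
    rw [rt, Polynomial.mem_roots hne, Polynomial.IsRoot.def, AuxRt.evg]
  refine ⟨?_, hmem, fun y hy => ?_⟩
  · rw [rt, IsAlgClosed.card_roots_eq_natDegree, AuxRt.nd φ G q h t]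
  · rw [hmem] at hy
    have hm : (1 : ℝ) ≤ max ‖t‖ 1 := le_max_right _ _
    have ht : ‖t‖ ≤ max ‖t‖ 1 := le_max_left _ _
    have hC := le_max_left (1 : ℝ)
      ((∑ d ∈ G.support, ‖φ (coeff d G)‖) / ‖φ (coeff (Finsupp.single 1 q) G)‖)
    have hC' := le_max_right (1 : ℝ)
      ((∑ d ∈ G.support, ‖φ (coeff d G)‖) / ‖φ (coeff (Finsupp.single 1 q) G)‖)
    have h1 : max ‖t‖ 1 ≤ max 1 ((∑ d ∈ G.support, ‖φ (coeff d G)‖) /
        ‖φ (coeff (Finsupp.single 1 q) G)‖) * max ‖t‖ 1 :=
      le_mul_of_one_le_left (by linarith) hC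
    have h2 : ‖y‖ ≤ max 1 ((∑ d ∈ G.support, ‖φ (coeff d G)‖) /
        ‖φ (coeff (Finsupp.single 1 q) G)‖) * max ‖t‖ 1 := by
      rcases le_total (max ‖t‖ 1) ‖y‖ with h3 | h3
      · exact (AuxRt.bd φ G q h t y hy h3).trans (mul_le_mul_of_nonneg_right hC' (by linarith))
      · exact h3.trans h1
    unfold cn
    refine max_le (max_le ?_ ?_) ?_
    · simpa using ht.trans h1
    · simpa using h2
    · exact hm.trans h1

end Pool.Agent.Work.MP_91e6de_nt.BM

end
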