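import Pool.Agent.Work.MP_91e6de_nt.BM.Stmts

/-! Bundle of small proof modules (one section per former module). -/

section

set_option autoImplicit false

namespace Pool.Agent.Work.MP_91e6de_nt.BM

namespace AuxNmI

section
open Polynomial

/-- determinant of a polynomial in a matrix -/
theorem det_aeval {n : Type} [Fintype n] [DecidableEq n] (N : Matrix n n ℂ) (P : ℂ[X]) :
    (aeval N P).det = (N.charpoly.roots.map (fun y => P.eval y)).prod := by
  have hX : ∀ a : ℂ, (aeval N (X - C a)).det = (N.charpoly.roots.map (fun y => (X - C a).eval y)).prod := by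
    intro a
    have h1 : N.charpoly = (N.charpoly.roots.map (fun b => X - C b)).prod := by
      have := (IsAlgClosed.splits N.charpoly).eq_prod_roots
      rw [N.charpoly_monic.leadingCoeff, C_1, one_mul] at this
      exact this
    have h2 : N.charpoly.eval a = (N.charpoly.roots.map (fun b => a - b)).prod := by
      conv_lhs => rw [h1]
      rw [eval_multiset_prod, Multiset.map_map]
      simp
    have h3 : N.charpoly.eval a = (Matrix.scalar n a - N).det := by
      rw [Matrix.eval_charpoly]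
    have h4 : Multiset.card N.charpoly.roots = Fintype.card n := by
      rw [← (IsAlgClosed.splits N.charpoly).natDegree_eq_card_roots, Matrix.charpoly_natDegree_eq_dim]
    have h5 : (aeval N (X - C a)) = -(Matrix.scalar n a - N) := by
      rw [map_sub, aeval_X, aeval_C, neg_sub]
      rfl
    rw [h5, Matrix.det_neg, ← h3, h2]
    have h6 : (N.charpoly.roots.map (fun y => (X - C a).eval y)).prod
        = (N.charpoly.roots.map (fun y => (-1) * (a - y))).prod := by
      congr 1
      apply Multiset.map_congr rfl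
      intro y _
      simp
    rw [h6, Multiset.prod_map_mul, Multiset.map_const', Multiset.prod_replicate, h4]
  by_cases hP : P = 0
  · subst hP
    rw [map_zero]
    by_cases hn : IsEmpty n
    · have h4 : Multiset.card N.charpoly.roots = Fintype.card n := by
        rw [← (IsAlgClosed.splits N.charpoly).natDegree_eq_card_roots, Matrix.charpoly_natDegree_eq_dim]
      rw [Fintype.card_eq_zero, Multiset.card_eq_zero] at h4
      rw [h4]
      simp
    · rw [not_isEmpty_iff] at hn
      have h4 : Multiset.card N.charpoly.roots = Fintype.card n := by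
        rw [← (IsAlgClosed.splits N.charpoly).natDegree_eq_card_roots, Matrix.charpoly_natDegree_eq_dim]
      rw [Matrix.det_zero]
      symm
      rw [Multiset.prod_eq_zero_iff]
      have : 0 < Multiset.card N.charpoly.roots := by rw [h4]; exact Fintype.card_pos
      obtain ⟨y, hy⟩ := Multiset.card_pos_iff_exists_mem.mp this
      rw [Multiset.mem_map]
      exact ⟨y, hy, by simp⟩
  · -- two monoid homs
    have hmul : ∀ P Q : ℂ[X], (aeval N P).det = (N.charpoly.roots.map (fun y => P.eval y)).prod →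
        (aeval N Q).det = (N.charpoly.roots.map (fun y => Q.eval y)).prod →
        (aeval N (P * Q)).det = (N.charpoly.roots.map (fun y => (P * Q).eval y)).prod := by
      intro P Q h1 h2
      rw [map_mul, Matrix.det_mul, h1, h2, ← Multiset.prod_map_mul]
      simp
    have hprod : ∀ s : Multiset ℂ, (aeval N ((s.map (fun a => X - C a)).prod)).det =
        (N.charpoly.roots.map (fun y => ((s.map (fun a => X - C a)).prod).eval y)).prod := by
      intro s
      induction s using Multiset.induction_on with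
      | empty => simp
      | cons a s ih =>
        rw [Multiset.map_cons, Multiset.prod_cons]
        exact hmul _ _ (hX a) ih
    have h0 := (IsAlgClosed.splits P).eq_prod_roots
    rw [h0]
    apply hmul _ _ _ (hprod _)
    have h4 : Multiset.card N.charpoly.roots = Fintype.card n := by
      rw [← (IsAlgClosed.splits N.charpoly).natDegree_eq_card_roots, Matrix.charpoly_natDegree_eq_dim]
    rw [aeval_C]
    simp only [eval_C]
    rw [Multiset.map_const', Multiset.prod_replicate, h4, Algebra.algebraMap_eq_smul_one, Matrix.det_smul,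
      Matrix.det_one, mul_one]

/-- the norm from `A[y]/(g)` under a ring homomorphism to `ℂ` -/
theorem norm_eval {A : Type} [CommRing A] [Nontrivial A] (g T : A[X]) (hg : g.Monic) (ψ : A →+* ℂ) :
    ψ (Algebra.norm A (AdjoinRoot.mk g T)) =
      ((g.map ψ).roots.map (fun y => (T.map ψ).eval y)).prod := by
  set b := (AdjoinRoot.powerBasis' hg).basis with hb
  set M := Algebra.leftMulMatrix b (AdjoinRoot.root g) with hM
  have h1 : Algebra.leftMulMatrix b (AdjoinRoot.mk g T) = aeval M T := by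
    rw [hM, Polynomial.aeval_algHom_apply, AdjoinRoot.aeval_eq]
  have hchar : M.charpoly = g := by
    have hdvd : g ∣ M.charpoly := by
      rw [← AdjoinRoot.mk_eq_zero, ← AdjoinRoot.aeval_eq]
      apply (injective_iff_map_eq_zero (Algebra.leftMulMatrix b)).mp (Algebra.leftMulMatrix_injective b)
      rw [← Polynomial.aeval_algHom_apply, Matrix.aeval_self_charpoly]
    refine (Polynomial.eq_of_monic_of_dvd_of_natDegree_le hg M.charpoly_monic hdvd ?_)
    rw [Matrix.charpoly_natDegree_eq_dim, Fintype.card_fin, AdjoinRoot.powerBasis'_dim]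
  rw [Algebra.norm_eq_matrix_det b, h1, RingHom.map_det]
  have h2 : ψ.mapMatrix (aeval M T) = aeval (ψ.mapMatrix M) (T.map ψ) := by
    rw [Polynomial.aeval_def, Polynomial.hom_eval₂, Polynomial.aeval_def, Polynomial.eval₂_map]
    congr 1
    ext a i j
    simp only [RingHom.comp_apply, RingHom.mapMatrix_apply, Matrix.algebraMap_eq_diagonal, Matrix.map_apply,
      Matrix.diagonal_apply, Pi.algebraMap_apply]
    split_ifs <;> simp
  rw [h2, det_aeval]
  have h3 : (ψ.mapMatrix M).charpoly = g.map ψ := by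
    rw [RingHom.mapMatrix_apply, Matrix.charpoly_map, hchar]
  rw [h3]

end

end AuxNmI

open MvPolynomial Height Height.AdmissibleAbsValues Filter Topology
open Pool.Agent.Work.MP_91e6de_nt.BL

namespace AuxNmI

section
variable {K : Type} [Field K]

/-- to polynomials in `y` over `K[x]` -/
noncomputable def al : Pol K →ₐ[K] Polynomial (Polynomial K) :=
  aeval ![Polynomial.C Polynomial.X, Polynomial.X]

/-- from polynomials in `y` over `K[x]` -/
noncomputable def be : Polynomial (Polynomial K) →ₐ[K] Pol K :=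
  { Polynomial.eval₂RingHom ((Polynomial.aeval (X 0 : Pol K) : Polynomial K →ₐ[K] Pol K) :
      Polynomial K →+* Pol K) (X 1) with
    commutes' := fun r => by
      show Polynomial.eval₂ _ _ (algebraMap K (Polynomial (Polynomial K)) r) = _
      rw [IsScalarTower.algebraMap_apply K (Polynomial K) (Polynomial (Polynomial K)),
        Polynomial.algebraMap_eq, Polynomial.eval₂_C]
      simp }

theorem be_apply (p : Polynomial (Polynomial K)) : be p =
    Polynomial.eval₂ ((Polynomial.aeval (X 0 : Pol K) : Polynomial K →ₐ[K] Pol K) :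
      Polynomial K →+* Pol K) (X 1) p := rfl

theorem be_al (p : Pol K) : be (al p) = p := by
  have : (be.comp al : Pol K →ₐ[K] Pol K) = AlgHom.id K _ := by
    apply MvPolynomial.algHom_ext
    intro i
    fin_cases i
    · simp [al, be_apply]
    · simp [al, be_apply]
  exact DFunLike.congr_fun this p

theorem al_be (p : Polynomial (Polynomial K)) : al (be p) = p := by
  have h : ((al : Pol K →ₐ[K] Polynomial (Polynomial K)) : Pol K →+* Polynomial (Polynomial K)).comp
      ((be : Polynomial (Polynomial K) →ₐ[K] Pol K) : Polynomial (Polynomial K) →+* Pol K) =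
      RingHom.id _ := by
    apply Polynomial.ringHom_ext
    · intro a
      simp only [RingHom.comp_apply, RingHom.coe_coe, be_apply, Polynomial.eval₂_C, RingHom.id_apply]
      induction a using Polynomial.induction_on' with
      | add p q hp hq => rw [map_add, map_add, hp, hq, map_add]
      | monomial n a =>
        rw [Polynomial.aeval_monomial, map_mul, map_pow, al, aeval_X]
        rw [← Polynomial.C_mul_X_pow_eq_monomial, map_mul, map_pow]
        congr 1
        rw [MvPolynomial.algebraMap_eq, MvPolynomial.aeval_C,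
          IsScalarTower.algebraMap_apply K (Polynomial K) (Polynomial (Polynomial K))]
        rfl
    · simp [al, be_apply]
  exact DFunLike.congr_fun h p

/-- the equivalence -/
noncomputable def ee : Pol K ≃ₐ[K] Polynomial (Polynomial K) :=
  AlgEquiv.ofAlgHom al be (AlgHom.ext fun x => al_be x) (AlgHom.ext fun x => be_al x)

theorem ee_apply (p : Pol K) : ee p = al p := rfl

/-- value of `al G` -/
theorem al_map (φ : K →+* ℂ) (t : ℂ) (G : Pol K) :
    (al G).map (Polynomial.eval₂RingHom φ t) =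
      (eval₂ (Polynomial.C.comp φ) ![Polynomial.C t, Polynomial.X] G : Polynomial ℂ) := by
  have h : ((Polynomial.mapRingHom (Polynomial.eval₂RingHom φ t)).comp
      ((al : Pol K →ₐ[K] _) : Pol K →+* _)) =
      MvPolynomial.eval₂Hom (Polynomial.C.comp φ) ![Polynomial.C t, Polynomial.X] := by
    apply MvPolynomial.ringHom_ext
    · intro r
      simp only [RingHom.comp_apply, RingHom.coe_coe, al, MvPolynomial.aeval_C, eval₂Hom_C]
      rw [IsScalarTower.algebraMap_apply K (Polynomial K) (Polynomial (Polynomial K))]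
      simp
    · intro i
      fin_cases i
      · simp [al]
      · simp [al]
  exact DFunLike.congr_fun h G

theorem eval_eval2 (φ : K →+* ℂ) (t y : ℂ) (T : Pol K) :
    Polynomial.eval y (eval₂ (Polynomial.C.comp φ) ![Polynomial.C t, Polynomial.X] T : Polynomial ℂ) =
      eval₂ φ ![t, y] T := by
  have h : (Polynomial.evalRingHom y).comp
      (MvPolynomial.eval₂Hom (Polynomial.C.comp φ) ![Polynomial.C t, Polynomial.X]) =
      MvPolynomial.eval₂Hom φ ![t, y] := by
    apply MvPolynomial.ringHom_ext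
    · intro r
      simp
    · intro i
      fin_cases i
      · simp
      · simp
  exact DFunLike.congr_fun h T

theorem al_monomial (s : Fin 2 →₀ ℕ) (a : K) : al (monomial s a) =
    Polynomial.monomial (s 1) (Polynomial.monomial (s 0) a) := by
  rw [al, aeval_monomial, Finsupp.prod_fintype _ _ (by simp), Fin.prod_univ_two]
  simp only [Matrix.cons_val_zero, Matrix.cons_val_one]
  rw [IsScalarTower.algebraMap_apply K (Polynomial K) (Polynomial (Polynomial K)),
    ← Polynomial.C_mul_X_pow_eq_monomial (n := s 1), ← Polynomial.C_mul_X_pow_eq_monomial (n := s 0)]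
  rw [map_mul, map_pow, mul_assoc]
  rfl

theorem coeff_al (G : Pol K) (k : ℕ) : (al G).coeff k =
    ∑ s ∈ G.support, if s 1 = k then Polynomial.monomial (s 0) (coeff s G) else 0 := by
  conv_lhs => rw [G.as_sum, map_sum]
  rw [Polynomial.finsetSum_coeff]
  apply Finset.sum_congr rfl
  intro s _
  rw [al_monomial, Polynomial.coeff_monomial]

theorem al_YM {G : Pol K} {q : ℕ} (h : YM G q) :
    ∃ g : Polynomial (Polynomial K), g.Monic ∧
      al G = Polynomial.C (Polynomial.C (coeff (Finsupp.single 1 q) G)) * g := by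
  set c := coeff (Finsupp.single 1 q) G with hc
  have hc0 : c ≠ 0 := h.2
  have hsup : ∀ s ∈ G.support, s 0 + s 1 ≤ q := by
    intro s hs
    have := le_totalDegree hs
    rw [h.1] at this
    rw [Finsupp.sum_fintype _ _ (by simp), Fin.sum_univ_two] at this
    exact this
  have hcq : (al G).coeff q = Polynomial.C c := by
    rw [coeff_al]
    have hmem : (Finsupp.single 1 q : Fin 2 →₀ ℕ) ∈ G.support := by
      rw [mem_support_iff]; exact h.2
    rw [Finset.sum_eq_single_of_mem _ hmem]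
    · rw [if_pos (by simp)]
      have : (Finsupp.single (1 : Fin 2) q) 0 = 0 := by
        rw [Finsupp.single_eq_of_ne]; decide
      rw [this]
      rfl
    · intro s hs hne
      rw [if_neg]
      intro h1
      apply hne
      have h2 := hsup s hs
      have h3 : s 0 = 0 := by omega
      ext i
      fin_cases i
      · simp [h3]
      · simp [h1]
  have hdeg : (al G).natDegree ≤ q := by
    rw [Polynomial.natDegree_le_iff_coeff_eq_zero]
    intro N hN
    rw [coeff_al]
    apply Finset.sum_eq_zero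
    intro s hs
    rw [if_neg]
    intro h1
    have := hsup s hs
    omega
  refine ⟨Polynomial.C (Polynomial.C c⁻¹) * al G, ?_, ?_⟩
  · apply Polynomial.monic_of_natDegree_le_of_coeff_eq_one q
    · exact (Polynomial.natDegree_C_mul_le _ _).trans hdeg
    · rw [Polynomial.coeff_C_mul, hcq, ← map_mul, inv_mul_cancel₀ hc0, map_one]
  · rw [← mul_assoc, ← map_mul, ← map_mul, mul_inv_cancel₀ hc0, map_one, map_one, one_mul]


/-- the item -/
theorem main (K : Type) [Field K] (φ : K →+* ℂ) (G : Pol K) (q : ℕ) (T : Pol K)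
    (hG : YM G q) (hirr : Irreducible G) (hT : ¬ G ∣ T) :
    ∃ R : Polynomial K, R ≠ 0 ∧ R.natDegree = Ii G T ∧
    ∀ t : ℂ, R.eval₂ φ t = ((rt φ G t).map (fun y => eval₂ φ ![t, y] T)).prod := by
  obtain ⟨g, hg, hGg⟩ := al_YM hG
  set c := coeff (Finsupp.single 1 q) G with hc
  have hc0 : c ≠ 0 := hG.2
  have hu : IsUnit (Polynomial.C (Polynomial.C c) : Polynomial (Polynomial K)) := by
    rw [Polynomial.isUnit_C, Polynomial.isUnit_C]; exact hc0.isUnit
  have hass : Associated (ee G) g := by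
    rw [ee_apply, hGg]
    exact (associated_isUnit_mul_left_iff hu).mpr (Associated.refl _)
  have hgirr : Irreducible g := by
    rw [← hass.irreducible_iff, MulEquiv.irreducible_iff]
    exact hirr
  have hgp : Prime g := hgirr.prime
  have : Fact (Irreducible g) := ⟨hgirr⟩
  have : IsDomain (AdjoinRoot g) := AdjoinRoot.isDomain_of_prime hgp
  set τ := AdjoinRoot.mk g (al T) with hτ
  have hτ0 : τ ≠ 0 := by
    rw [hτ, Ne, AdjoinRoot.mk_eq_zero]
    intro hdvd
    apply hT
    have h1 : ee G ∣ ee T := hass.dvd.trans hdvd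
    exact (map_dvd_iff (ee : Pol K ≃ₐ[K] _)).mp h1
  have : Module.Free (Polynomial K) (AdjoinRoot g) := hg.free_adjoinRoot
  have : Module.Finite (Polynomial K) (AdjoinRoot g) := hg.finite_adjoinRoot
  refine ⟨Algebra.norm (Polynomial K) τ, ?_, ?_, ?_⟩
  · rw [Algebra.norm_ne_zero_iff]
    exact hτ0
  · rw [← finrank_quotient_span_eq_natDegree_norm (AdjoinRoot.powerBasis' hg).basis hτ0]
    unfold Ii
    -- the quotient
    have e1 : (Pol K ⧸ Ideal.span {G, T}) ≃ₐ[K]
        (Polynomial (Polynomial K) ⧸ (Ideal.span {g} ⊔ Ideal.span {al T})) := by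
      refine Ideal.quotientEquivAlg _ _ (ee : Pol K ≃ₐ[K] Polynomial (Polynomial K)) ?_
      rw [Ideal.map_span, Set.image_pair, Ideal.span_insert]
      congr 1
      exact (Ideal.span_singleton_eq_span_singleton.mpr hass).symm
    have e2 := DoubleQuot.quotQuotEquivQuotSupₐ K (Ideal.span {g}) (Ideal.span {al T})
    rw [LinearEquiv.finrank_eq e1.toLinearEquiv, ← LinearEquiv.finrank_eq e2.toLinearEquiv]
    rw [Ideal.map_span, Set.image_singleton]
    rfl
  · intro t
    have h1 := norm_eval g (al T) hg (Polynomial.eval₂RingHom φ t)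
    rw [Polynomial.coe_eval₂RingHom] at h1
    rw [hτ, h1, al_map φ t T]
    unfold rt
    rw [← al_map φ t G, hGg, Polynomial.map_mul, Polynomial.map_C, Polynomial.coe_eval₂RingHom,
      Polynomial.eval₂_C, Polynomial.roots_C_mul]
    · congr 1
      apply Multiset.map_congr rfl
      intro y _
      exact eval_eval2 φ t y T
    · intro h
      exact hc0 (φ.injective (by rw [h, map_zero]))

end

end AuxNmI

theorem pr_NmI : S_NmI := AuxNmI.main

end Pool.Agent.Work.MP_91e6de_nt.BM

end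

section

set_option autoImplicit false

/-!
# MP_91e6de_nt, block BM: item PFH2 (product formula, three points)
-/

namespace Pool.Agent.Work.MP_91e6de_nt.BM

open MvPolynomial Height Height.AdmissibleAbsValues Filter Topology
open Pool.Agent.Work.MP_91e6de_nt.BL

open Pool.Agent.Work.MP_91e6de_nt.BL.AuxPFH in
theorem pr_PFH2 : S_PFH2 := by
  classical
  intro K _ _ T B w t t' hB
  refine ⟨Real.log B * ((archAbsVal (K := K)).card + T.card), ?_⟩
  intro a P P' P'' ha h1 h2
  have hB0 : 0 < B := lt_of_lt_of_le one_pos hB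
  have hfa : (Function.mulSupport (fun v : nonarchAbsVal (K := K) => v.val a)).Finite :=
    hasFiniteMulSupport ha
  set S : Finset (nonarchAbsVal (K := K)) := hfa.toFinset ∪ (fin_nn P).toFinset ∪
    (fin_nn P').toFinset ∪ (fin_nn P'').toFinset with hS
  have e1 : ∏ᶠ v : nonarchAbsVal (K := K), v.val a = ∏ v ∈ S, v.val a := by
    apply finprod_eq_prod_of_mulSupport_subset
    intro v hv
    rw [hS]
    simp only [Finset.coe_union, Set.Finite.coe_toFinset, Set.mem_union]
    exact Or.inl (Or.inl (Or.inl hv))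
  have e2 : ∏ᶠ v : nonarchAbsVal (K := K), nn v.val P = ∏ v ∈ S, nn v.val P := by
    apply finprod_eq_prod_of_mulSupport_subset
    intro v hv
    rw [hS]
    simp only [Finset.coe_union, Set.Finite.coe_toFinset, Set.mem_union]
    exact Or.inl (Or.inl (Or.inr hv))
  have e3 : ∏ᶠ v : nonarchAbsVal (K := K), nn v.val P' = ∏ v ∈ S, nn v.val P' := by
    apply finprod_eq_prod_of_mulSupport_subset
    intro v hv
    rw [hS]
    simp only [Finset.coe_union, Set.Finite.coe_toFinset, Set.mem_union]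
    exact Or.inl (Or.inr hv)
  have e4 : ∏ᶠ v : nonarchAbsVal (K := K), nn v.val P'' = ∏ v ∈ S, nn v.val P'' := by
    apply finprod_eq_prod_of_mulSupport_subset
    intro v hv
    rw [hS]
    simp only [Finset.coe_union, Set.Finite.coe_toFinset, Set.mem_union]
    exact Or.inr hv
  have hpf := product_formula (K := K) ha
  rw [e1] at hpf
  set A := archAbsVal (K := K) with hA
  -- archimedean part
  have f1 : (A.map (fun v : AbsoluteValue K ℝ => v a)).prod *
      (A.map (fun v : AbsoluteValue K ℝ => nn v P)).prod ^ w ≤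
      B ^ A.card * (A.map (fun v : AbsoluteValue K ℝ => nn v P')).prod ^ t *
        (A.map (fun v : AbsoluteValue K ℝ => nn v P'')).prod ^ t' := by
    rw [← Multiset.prod_map_pow, ← Multiset.prod_map_pow, ← Multiset.prod_map_pow,
      ← Multiset.prod_map_mul]
    have h3 : B ^ A.card = (A.map (fun _ : AbsoluteValue K ℝ => B)).prod := by
      rw [Multiset.map_const', Multiset.prod_replicate]
    rw [h3, ← Multiset.prod_map_mul, ← Multiset.prod_map_mul]
    apply Multiset.prod_map_le_prod_map₀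
    · intro v _
      exact mul_nonneg (v.nonneg _) (pow_nonneg (nn_pos v P).le _)
    · intro v hv
      exact h1 v (Or.inl hv)
  -- nonarchimedean part
  have f2 : (∏ v ∈ S, v.val a) * (∏ v ∈ S, nn v.val P) ^ w ≤
      B ^ T.card * (∏ v ∈ S, nn v.val P') ^ t * (∏ v ∈ S, nn v.val P'') ^ t' := by
    rw [← Finset.prod_pow, ← Finset.prod_pow, ← Finset.prod_pow, ← Finset.prod_mul_distrib]
    have h3 : ∏ v ∈ S, v.val a * nn v.val P ^ w ≤
        ∏ v ∈ S, (if v.val ∈ T then B else 1) * (nn v.val P' ^ t * nn v.val P'' ^ t') := by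
      apply Finset.prod_le_prod
      · intro v _
        exact mul_nonneg (v.val.nonneg _) (pow_nonneg (nn_pos v.val P).le _)
      · intro v _
        split_ifs with hv
        · rw [← mul_assoc]
          exact h1 v.val (Or.inr v.2)
        · rw [one_mul]
          exact h2 v.val v.2 hv
    refine h3.trans ?_
    rw [Finset.prod_mul_distrib, Finset.prod_mul_distrib, mul_assoc]
    have h4 : ∏ v ∈ S, (if v.val ∈ T then B else 1) ≤ B ^ T.card := by
      rw [Finset.prod_ite, Finset.prod_const, Finset.prod_const_one, mul_one]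
      apply pow_le_pow_right₀ hB
      apply Finset.card_le_card_of_injOn (fun v : nonarchAbsVal (K := K) => v.val)
      · intro v hv
        exact (Finset.mem_filter.1 (Finset.mem_coe.1 hv)).2
      · intro v _ v' _ h
        exact Subtype.ext h
    exact mul_le_mul_of_nonneg_right h4
      (mul_nonneg (Finset.prod_nonneg fun v _ => pow_nonneg (nn_pos v.val P').le _)
        (Finset.prod_nonneg fun v _ => pow_nonneg (nn_pos v.val P'').le _))
  -- combination
  have p0 : 0 < (A.map (fun v : AbsoluteValue K ℝ => nn v P)).prod := by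
    apply Multiset.prod_pos
    intro x hx
    obtain ⟨v, -, rfl⟩ := Multiset.mem_map.1 hx
    exact nn_pos v P
  have p1 : 0 < (A.map (fun v : AbsoluteValue K ℝ => nn v P')).prod := by
    apply Multiset.prod_pos
    intro x hx
    obtain ⟨v, -, rfl⟩ := Multiset.mem_map.1 hx
    exact nn_pos v P'
  have p5 : 0 < (A.map (fun v : AbsoluteValue K ℝ => nn v P'')).prod := by
    apply Multiset.prod_pos
    intro x hx
    obtain ⟨v, -, rfl⟩ := Multiset.mem_map.1 hx
    exact nn_pos v P''
  have p2 : 0 < ∏ v ∈ S, nn v.val P := Finset.prod_pos fun v _ => nn_pos v.val P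
  have p3 : 0 < ∏ v ∈ S, nn v.val P' := Finset.prod_pos fun v _ => nn_pos v.val P'
  have p6 : 0 < ∏ v ∈ S, nn v.val P'' := Finset.prod_pos fun v _ => nn_pos v.val P''
  have p4 : 0 ≤ ∏ v ∈ S, v.val a := Finset.prod_nonneg fun v _ => v.val.nonneg _
  have key : mulHeight ![P 0, P 1, 1] ^ w ≤
      B ^ (A.card + T.card) * mulHeight ![P' 0, P' 1, 1] ^ t *
        mulHeight ![P'' 0, P'' 1, 1] ^ t' := by
    rw [mulHeight_nn, mulHeight_nn, mulHeight_nn, e2, e3, e4, mul_pow, mul_pow, mul_pow, pow_add]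
    calc (A.map (fun v : AbsoluteValue K ℝ => nn v P)).prod ^ w * (∏ v ∈ S, nn v.val P) ^ w
        = ((A.map (fun v : AbsoluteValue K ℝ => v a)).prod * ∏ v ∈ S, v.val a) *
          ((A.map (fun v : AbsoluteValue K ℝ => nn v P)).prod ^ w *
            (∏ v ∈ S, nn v.val P) ^ w) := by rw [hpf, one_mul]
      _ = ((A.map (fun v : AbsoluteValue K ℝ => v a)).prod *
          (A.map (fun v : AbsoluteValue K ℝ => nn v P)).prod ^ w) *
          ((∏ v ∈ S, v.val a) * (∏ v ∈ S, nn v.val P) ^ w) := by ring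
      _ ≤ (B ^ A.card * (A.map (fun v : AbsoluteValue K ℝ => nn v P')).prod ^ t *
            (A.map (fun v : AbsoluteValue K ℝ => nn v P'')).prod ^ t') *
          (B ^ T.card * (∏ v ∈ S, nn v.val P') ^ t * (∏ v ∈ S, nn v.val P'') ^ t') :=
          mul_le_mul f1 f2 (mul_nonneg p4 (by positivity)) (by positivity)
      _ = _ := by ring
  have q1 := mulHeight_pos (![P 0, P 1, 1] : Fin 3 → K)
  have q2 := mulHeight_pos (![P' 0, P' 1, 1] : Fin 3 → K)
  have q3 := mulHeight_pos (![P'' 0, P'' 1, 1] : Fin 3 → K)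
  have h5 := Real.log_le_log (by positivity) key
  rw [Real.log_pow, Real.log_mul (by positivity) (by positivity),
    Real.log_mul (by positivity) (by positivity), Real.log_pow, Real.log_pow,
    Real.log_pow] at h5
  unfold hP logHeight
  push_cast at h5
  linarith

end Pool.Agent.Work.MP_91e6de_nt.BM

end

section

set_option autoImplicit false

namespace Pool.Agent.Work.MP_91e6de_nt.BM

open MvPolynomial Height Height.AdmissibleAbsValues Filter Topology
open Pool.Agent.Work.MP_91e6de_nt.BL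

namespace AuxPFS

open Pool.Agent.Work.MP_91e6de_nt.BL.AuxPFH

variable {K : Type} [Field K] [NumberField K]

omit [Field K] [NumberField K] in
lemma mprod {ι α : Type} (A : Multiset α) (s : Finset ι) (f : ι → α → ℝ) :
    ∏ i ∈ s, (A.map (f i)).prod = (A.map (fun v => ∏ i ∈ s, f i v)).prod := by
  induction A using Multiset.induction_on with
  | empty => simp
  | cons a A ih => simp only [Multiset.map_cons, Multiset.prod_cons, Finset.prod_mul_distrib, ih]

lemma key_prod (T : Finset (AbsoluteValue K ℝ)) (B : ℝ) (hB : 1 ≤ B) (k : ℕ)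
    (Pt : ℕ → Fin 2 → K) (P' : Fin 2 → K)
    (h1 : ∀ v, IsPl v → ∏ i ∈ Finset.range (k + 1), nn v (Pt i) ≤ B * nn v P')
    (h2 : ∀ v ∈ nonarchAbsVal (K := K), v ∉ T →
      ∏ i ∈ Finset.range (k + 1), nn v (Pt i) ≤ nn v P') :
    ∏ i ∈ Finset.range (k + 1), mulHeight ![Pt i 0, Pt i 1, 1] ≤
      B ^ ((archAbsVal (K := K)).card + T.card) * mulHeight ![P' 0, P' 1, 1] := by
  classical
  have hB0 : 0 < B := lt_of_lt_of_le one_pos hB
  set S : Finset (nonarchAbsVal (K := K)) :=
    (Finset.range (k + 1)).biUnion (fun i => (fin_nn (Pt i)).toFinset) ∪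
    (fin_nn P').toFinset with hS
  have e2 : ∀ i ∈ Finset.range (k + 1), ∏ᶠ v : nonarchAbsVal (K := K), nn v.val (Pt i) =
      ∏ v ∈ S, nn v.val (Pt i) := by
    intro i hi
    apply finprod_eq_prod_of_mulSupport_subset
    intro v hv
    rw [hS, Finset.mem_coe, Finset.mem_union, Finset.mem_biUnion]
    exact Or.inl ⟨i, hi, (Set.Finite.mem_toFinset _).2 hv⟩
  have e3 : ∏ᶠ v : nonarchAbsVal (K := K), nn v.val P' = ∏ v ∈ S, nn v.val P' := by
    apply finprod_eq_prod_of_mulSupport_subset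
    intro v hv
    rw [hS, Finset.mem_coe, Finset.mem_union]
    exact Or.inr ((Set.Finite.mem_toFinset _).2 hv)
  set A := archAbsVal (K := K) with hA
  have f1 : (A.map (fun v : AbsoluteValue K ℝ => ∏ i ∈ Finset.range (k + 1), nn v (Pt i))).prod ≤
      B ^ A.card * (A.map (fun v : AbsoluteValue K ℝ => nn v P')).prod := by
    have h3 : B ^ A.card = (A.map (fun _ : AbsoluteValue K ℝ => B)).prod := by
      rw [Multiset.map_const', Multiset.prod_replicate]
    rw [h3, ← Multiset.prod_map_mul]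
    apply Multiset.prod_map_le_prod_map₀
    · intro v _
      exact Finset.prod_nonneg fun i _ => (nn_pos v (Pt i)).le
    · intro v hv
      exact h1 v (Or.inl hv)
  have f2 : ∏ v ∈ S, ∏ i ∈ Finset.range (k + 1), nn v.val (Pt i) ≤
      B ^ T.card * ∏ v ∈ S, nn v.val P' := by
    have h3 : ∏ v ∈ S, ∏ i ∈ Finset.range (k + 1), nn v.val (Pt i) ≤
        ∏ v ∈ S, (if v.val ∈ T then B else 1) * nn v.val P' := by
      apply Finset.prod_le_prod
      · intro v _
        exact Finset.prod_nonneg fun i _ => (nn_pos v.val (Pt i)).le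
      · intro v _
        split_ifs with hv
        · exact h1 v.val (Or.inr v.2)
        · rw [one_mul]
          exact h2 v.val v.2 hv
    refine h3.trans ?_
    rw [Finset.prod_mul_distrib]
    have h4 : ∏ v ∈ S, (if v.val ∈ T then B else 1) ≤ B ^ T.card := by
      rw [Finset.prod_ite, Finset.prod_const, Finset.prod_const_one, mul_one]
      apply pow_le_pow_right₀ hB
      apply Finset.card_le_card_of_injOn (fun v : nonarchAbsVal (K := K) => v.val)
      · intro v hv
        exact (Finset.mem_filter.1 (Finset.mem_coe.1 hv)).2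
      · intro v _ v' _ h
        exact Subtype.ext h
    exact mul_le_mul_of_nonneg_right h4 (Finset.prod_nonneg fun v _ => (nn_pos v.val P').le)
  have p1 : 0 ≤ (A.map (fun v : AbsoluteValue K ℝ => nn v P')).prod := by
    apply Multiset.prod_nonneg
    intro x hx
    obtain ⟨v, -, rfl⟩ := Multiset.mem_map.1 hx
    exact (nn_pos v P').le
  have hl : ∏ i ∈ Finset.range (k + 1), mulHeight ![Pt i 0, Pt i 1, 1] =
      (A.map (fun v : AbsoluteValue K ℝ => ∏ i ∈ Finset.range (k + 1), nn v (Pt i))).prod *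
      ∏ v ∈ S, ∏ i ∈ Finset.range (k + 1), nn v.val (Pt i) := by
    rw [Finset.prod_comm, ← mprod A (Finset.range (k + 1)) (fun i v => nn v (Pt i)),
      ← Finset.prod_mul_distrib]
    refine Finset.prod_congr rfl fun i hi => ?_
    rw [mulHeight_nn, e2 i hi]
  rw [hl, mulHeight_nn, e3, pow_add]
  calc _ ≤ (B ^ A.card * (A.map (fun v : AbsoluteValue K ℝ => nn v P')).prod) *
          (B ^ T.card * ∏ v ∈ S, nn v.val P') :=
          mul_le_mul f1 f2 (Finset.prod_nonneg fun v _ =>
            Finset.prod_nonneg fun i _ => (nn_pos v.val (Pt i)).le) (by positivity)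
      _ = _ := by ring

end AuxPFS

open AuxPFS in
open Pool.Agent.Work.MP_91e6de_nt.BL.AuxPFH in
theorem pr_PFS : S_PFS := by
  classical
  intro K _ _ T κ k hκ hT
  set B : ℝ := max κ⁻¹ 1 with hB
  have hB1 : 1 ≤ B := le_max_right _ _
  have hBκ : 1 ≤ B * κ := by
    have : κ⁻¹ * κ ≤ B * κ := mul_le_mul_of_nonneg_right (le_max_left _ _) hκ.le
    rwa [inv_mul_cancel₀ hκ.ne'] at this
  refine ⟨Real.log B * ((archAbsVal (K := K)).card + T.card), fun Pt P' h1 h2 => ?_⟩
  have hnn : ∀ v ∈ T, ∏ i ∈ Finset.range (k + 1), nn v (Pt i) ≤ B * nn v P' := by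
    intro v hv
    have hp : 0 ≤ ∏ i ∈ Finset.range (k + 1), nn v (Pt i) :=
      Finset.prod_nonneg fun i _ => (nn_pos v (Pt i)).le
    calc ∏ i ∈ Finset.range (k + 1), nn v (Pt i)
        ≤ (B * κ) * ∏ i ∈ Finset.range (k + 1), nn v (Pt i) := le_mul_of_one_le_left hp hBκ
      _ = B * (κ * ∏ i ∈ Finset.range (k + 1), nn v (Pt i)) := by ring
      _ ≤ B * nn v P' := mul_le_mul_of_nonneg_left (h1 v hv) (by positivity)
  have hone : ∀ v ∈ nonarchAbsVal (K := K), v ∉ T →
      ∏ i ∈ Finset.range (k + 1), nn v (Pt i) ≤ nn v P' := by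
    intro v hv hvT
    have : ∏ i ∈ Finset.range (k + 1), nn v (Pt i) = 1 := by
      apply Finset.prod_eq_one
      intro i hi
      have := h2 i (Nat.lt_succ_iff.1 (Finset.mem_range.1 hi)) v hv hvT
      exact max_eq_right (max_le (this 0) (this 1))
    rw [this]
    exact one_le_nn v P'
  have hall : ∀ v, IsPl v → ∏ i ∈ Finset.range (k + 1), nn v (Pt i) ≤ B * nn v P' := by
    intro v hv
    by_cases hvT : v ∈ T
    · exact hnn v hvT
    · rcases hv with hv | hv
      · exact absurd (hT v hv) hvT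
      · refine (hone v hv hvT).trans ?_
        exact le_mul_of_one_le_left (nn_pos v P').le hB1
  have key := key_prod T B hB1 k Pt P' hall hone
  have q1 : ∀ i ∈ Finset.range (k + 1), mulHeight ![Pt i 0, Pt i 1, 1] ≠ 0 := fun i _ =>
    (mulHeight_pos (![Pt i 0, Pt i 1, 1] : Fin 3 → K)).ne'
  have q2 := mulHeight_pos (![P' 0, P' 1, 1] : Fin 3 → K)
  have hB0 : 0 < B := lt_of_lt_of_le one_pos hB1
  have h5 := Real.log_le_log (Finset.prod_pos fun i _ =>
    mulHeight_pos (![Pt i 0, Pt i 1, 1] : Fin 3 → K)) key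
  rw [Real.log_prod q1, Real.log_mul (by positivity) (by positivity), Real.log_pow] at h5
  unfold hP logHeight
  push_cast at h5
  linarith

end Pool.Agent.Work.MP_91e6de_nt.BM

end

section

set_option autoImplicit false

/-!
# MP_91e6de_nt, block BM, item Pre: preimages near a base point
-/

namespace Pool.Agent.Work.MP_91e6de_nt.BM

open MvPolynomial Height Height.AdmissibleAbsValues Filter Topology
open Pool.Agent.Work.MP_91e6de_nt.BL

namespace AuxPre

theorem line {K : Type} [Field K] (f : MvPolynomial (Fin 2) K) (d : ℕ) (hf : f.totalDegree ≤ d)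
    (p e : Fin 2 → K) :
    (aeval (fun k => Polynomial.C (p k) + Polynomial.C (e k) * Polynomial.X) f :
      Polynomial K).natDegree ≤ d ∧
    (aeval (fun k => Polynomial.C (p k) + Polynomial.C (e k) * Polynomial.X) f :
      Polynomial K).coeff d = eval e (homogeneousComponent d f) := by
  have hl : ∀ k, (Polynomial.C (p k) + Polynomial.C (e k) * Polynomial.X :
      Polynomial K).natDegree ≤ 1 := by
    intro k
    compute_degree
  have hc : ∀ k, (Polynomial.C (p k) + Polynomial.C (e k) * Polynomial.X :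
      Polynomial K).coeff 1 = e k := by
    intro k
    simp
  have hpw : ∀ k (n : ℕ), ((Polynomial.C (p k) + Polynomial.C (e k) * Polynomial.X :
      Polynomial K) ^ n).natDegree ≤ n ∧ ((Polynomial.C (p k) + Polynomial.C (e k) * Polynomial.X :
      Polynomial K) ^ n).coeff n = e k ^ n := by
    intro k n
    constructor
    · have := Polynomial.natDegree_pow_le_of_le n (hl k)
      simpa using this
    · have := Polynomial.coeff_pow_of_natDegree_le (m := n) (hl k)
      rw [hc, mul_one] at this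
      exact this
  have hm : ∀ m : Fin 2 →₀ ℕ,
      (∏ k, (Polynomial.C (p k) + Polynomial.C (e k) * Polynomial.X :
        Polynomial K) ^ m k).natDegree ≤ m.degree ∧
      (∏ k, (Polynomial.C (p k) + Polynomial.C (e k) * Polynomial.X :
        Polynomial K) ^ m k).coeff m.degree = ∏ k, e k ^ m k := by
    intro m
    have hdeg : m.degree = m 0 + m 1 := by
      rw [Finsupp.degree_eq_sum]
      simp [Fin.sum_univ_two]
    rw [hdeg, Fin.prod_univ_two, Fin.prod_univ_two]
    refine ⟨Polynomial.natDegree_mul_le_of_le (hpw 0 _).1 (hpw 1 _).1, ?_⟩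
    rw [Polynomial.coeff_mul_add_eq_of_natDegree_le (hpw 0 _).1 (hpw 1 _).1, (hpw 0 _).2,
      (hpw 1 _).2]
  have hd : ∀ m ∈ f.support, m.degree ≤ d := by
    intro m hm
    refine le_trans ?_ hf
    exact MvPolynomial.le_totalDegree hm
  rw [aeval_def, eval₂_eq']
  constructor
  · refine Polynomial.natDegree_sum_le_of_forall_le _ _ fun m hmm => ?_
    refine (Polynomial.natDegree_mul_le_of_le (m := 0) (n := d) ?_
      ((hm m).1.trans (hd m hmm))).trans (by omega)
    rw [Polynomial.algebraMap_eq]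
    simp
  · rw [Polynomial.finsetSum_coeff]
    rw [homogeneousComponent_apply, map_sum, Finset.sum_filter]
    refine Finset.sum_congr rfl fun m hmm => ?_
    rw [Polynomial.algebraMap_eq, Polynomial.coeff_C_mul]
    by_cases h : m.degree = d
    · rw [if_pos h, ← h, (hm m).2, eval_monomial, Finsupp.prod_fintype _ _ (fun _ => pow_zero _)]
    · rw [if_neg h, Polynomial.coeff_eq_zero_of_natDegree_lt
        (lt_of_le_of_lt (hm m).1 (lt_of_le_of_ne (hd m hmm) h)), mul_zero]

theorem ev0 {K : Type} [Field K] (H : MvPolynomial (Fin 2) K) (d : ℕ) (hd : 1 ≤ d)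
    (hH : H.IsHomogeneous d) : eval (0 : Fin 2 → K) H = 0 := by
  have h1 : eval (0 : Fin 2 → K) H = constantCoeff H := by
    simp
  rw [h1, constantCoeff_eq]
  exact hH.coeff_eq_zero (by simp; omega)

theorem sc {K : Type} [Field K] (φ : K →+* ℂ) (H : MvPolynomial (Fin 2) K) (d : ℕ)
    (hH : H.IsHomogeneous d) (c : ℂ) (R : Fin 2 → ℂ) :
    eval₂ φ (fun i => c * R i) H = c ^ d * eval₂ φ R H := by
  rw [eval₂_eq', eval₂_eq', Finset.mul_sum]
  refine Finset.sum_congr rfl fun m hm => ?_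
  have h1 : m.degree = d := by
    by_contra hne
    exact (mem_support_iff.mp hm) (hH.coeff_eq_zero hne)
  have h2 : c ^ d = c ^ m 0 * c ^ m 1 := by
    rw [← h1, ← pow_add, Finsupp.degree_eq_sum]
    simp [Fin.sum_univ_two]
  rw [h2, Fin.prod_univ_two, Fin.prod_univ_two, mul_pow, mul_pow]
  ring

/-- a continuous positive function on the unit sphere is bounded below -/
theorem low {K : Type} [Field K] (φ : K →+* ℂ) (H L : MvPolynomial (Fin 2) K)
    (h0 : ∀ R : Fin 2 → ℂ, R ≠ 0 → eval₂ φ R L = 0 → eval₂ φ R H ≠ 0) :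
    ∃ c : ℝ, 0 < c ∧ ∀ R : Fin 2 → ℂ, ‖R‖ = 1 → c ≤ ‖eval₂ φ R H‖ + ‖eval₂ φ R L‖ := by
  have hcont : ∀ P : MvPolynomial (Fin 2) K, Continuous fun R : Fin 2 → ℂ => eval₂ φ R P := by
    intro P
    have : (fun R : Fin 2 → ℂ => eval₂ φ R P) = fun R => eval R (map φ P) := by
      funext R
      rw [eval_map]
    rw [this]
    exact continuous_eval _
  have hcomp : IsCompact (Metric.sphere (0 : Fin 2 → ℂ) 1) := isCompact_sphere _ _
  have hne : (Metric.sphere (0 : Fin 2 → ℂ) 1).Nonempty :=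
    ⟨fun _ => 1, by simp⟩
  obtain ⟨R₀, hR₀, hmin⟩ := hcomp.exists_isMinOn hne
    (f := fun R : Fin 2 → ℂ => ‖eval₂ φ R H‖ + ‖eval₂ φ R L‖)
    (((hcont H).norm.add (hcont L).norm).continuousOn)
  refine ⟨‖eval₂ φ R₀ H‖ + ‖eval₂ φ R₀ L‖, ?_, ?_⟩
  · by_cases hL : eval₂ φ R₀ L = 0
    · have hR : R₀ ≠ 0 := by
        rintro rfl
        simp at hR₀
      have := norm_pos_iff.mpr (h0 R₀ hR hL)
      have h2 := norm_nonneg (eval₂ φ R₀ L)
      linarith
    · have := norm_pos_iff.mpr hL
      have h2 := norm_nonneg (eval₂ φ R₀ H)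
      linarith
  · intro R hR
    exact hmin (by simpa using hR)

theorem ev_lf {K : Type} [Field K] (φ : K →+* ℂ) (v : Fin 2 → K) (R : Fin 2 → ℂ) :
    eval₂ φ R (lf v) = φ (v 1) * R 0 - φ (v 0) * R 1 := by
  simp only [lf, eval₂_sub, eval₂_mul, eval₂_C, eval₂_X]

theorem lf_hom {K : Type} [Field K] (v : Fin 2 → K) : (lf v).IsHomogeneous 1 := by
  unfold lf
  exact (isHomogeneous_C_mul_X _ _).sub (isHomogeneous_C_mul_X _ _)

/-- the polynomial is of maximal size away from the zeros of its top form -/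
theorem lowH {K : Type} [Field K] (h4 : S_Up1) (φ : K →+* ℂ) (v : Fin 2 → K) (hv : v ≠ 0)
    (N : Pol K) (d : ℕ) (hd : 1 ≤ d) (hN : N.totalDegree = d)
    (hH : eval v (homogeneousComponent d N) ≠ 0) :
    ∃ c ρ : ℝ, 0 < c ∧ 0 < ρ ∧ ∀ R : Fin 2 → ℂ, ρ ≤ cn R → ρ * ‖eval₂ φ R (lf v)‖ ≤ cn R →
      c * cn R ^ d ≤ ‖eval₂ φ R N‖ := by
  set H : Pol K := homogeneousComponent d N with hHd
  have hHh : H.IsHomogeneous d := homogeneousComponent_isHomogeneous _ _
  have hEd : (N - H).totalDegree ≤ d - 1 := by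
    have hs : N - H = ∑ i ∈ Finset.range d, homogeneousComponent i N := by
      have := sum_homogeneousComponent N
      rw [hN, Finset.sum_range_succ] at this
      rw [hHd, sub_eq_iff_eq_add]
      exact this.symm
    rw [hs]
    refine totalDegree_finsetSum_le fun i hi => ?_
    have h1 := (homogeneousComponent_isHomogeneous i N).totalDegree_le
    have h2 := Finset.mem_range.mp hi
    omega
  obtain ⟨c₀, hc₀, hlow⟩ := low φ H (lf v) (by
    intro R hR hL
    rw [ev_lf] at hL
    have key : ∀ l : ℂ, (∀ i, R i = l * φ (v i)) → eval₂ φ R H ≠ 0 := by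
      intro l hl
      have hl0 : l ≠ 0 := by
        rintro rfl
        exact hR (by funext i; simp [hl i])
      have hRe : R = fun i => l * φ (v i) := funext hl
      rw [hRe, sc φ H d hHh]
      refine mul_ne_zero (pow_ne_zero _ hl0) ?_
      have : eval₂ φ (fun i => φ (v i)) H = φ (eval v H) := by
        have := eval₂_comp_left φ (RingHom.id K) v H
        rw [RingHom.comp_id] at this
        exact this.symm
      rw [this]
      exact fun h => hH (φ.injective (by rw [h, map_zero]))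
    by_cases h1 : v 1 = 0
    · have h0 : v 0 ≠ 0 := by
        intro h0
        exact hv (by funext i; fin_cases i <;> simp [h0, h1])
      have h0' : φ (v 0) ≠ 0 := fun h => h0 (φ.injective (by rw [h, map_zero]))
      refine key (R 0 / φ (v 0)) fun i => ?_
      fin_cases i
      · simp only [Fin.zero_eta]
        field_simp
      · simp only [Fin.mk_one]
        rw [h1, map_zero, zero_mul, zero_sub, neg_eq_zero] at hL
        rw [h1, map_zero, mul_zero]
        exact (mul_eq_zero.mp hL).resolve_left h0'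
    · have h1' : φ (v 1) ≠ 0 := fun h => h1 (φ.injective (by rw [h, map_zero]))
      refine key (R 1 / φ (v 1)) fun i => ?_
      fin_cases i
      · simp only [Fin.zero_eta]
        field_simp
        linear_combination hL
      · simp only [Fin.mk_one]
        field_simp)
  obtain ⟨B, hB, hBE⟩ := h4 K φ (N - H)
  refine ⟨c₀ / 4, 2 + 2 / c₀ + 4 * B / c₀, by positivity, by positivity, ?_⟩
  intro R hρ hρL
  set X := cn R with hX
  have hq1 : 0 ≤ 2 / c₀ := by positivity
  have hq2 : 0 ≤ 4 * B / c₀ := by positivity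
  have hX2 : 2 ≤ X := by linarith
  have hX0 : 0 < X := by linarith
  have hRX : ‖R‖ = X := by
    have h1 : ‖R‖ = max ‖R 0‖ ‖R 1‖ := by
      refine le_antisymm ?_ (max_le (norm_le_pi_norm R 0) (norm_le_pi_norm R 1))
      refine (pi_norm_le_iff_of_nonneg (le_trans (norm_nonneg _) (le_max_left _ _))).mpr ?_
      intro i
      fin_cases i
      · exact le_max_left _ _
      · exact le_max_right _ _
    have h2 : X = max ‖R‖ 1 := by rw [h1]; rfl
    rw [h2]
    rw [h2] at hX2
    refine (max_eq_left ?_).symm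
    by_contra hc
    rw [max_eq_right (le_of_lt (not_le.mp hc))] at hX2
    linarith
  set R' : Fin 2 → ℂ := fun i => ((X : ℂ))⁻¹ * R i with hR'
  have hXc : (X : ℂ) ≠ 0 := by exact_mod_cast hX0.ne'
  have hRR' : R = fun i => (X : ℂ) * R' i := by
    funext i
    simp only [hR']
    field_simp
  have hnR' : ‖R'‖ = 1 := by
    have h1 : R' = ((X : ℂ))⁻¹ • R := by
      funext i
      simp [hR']
    rw [h1, norm_smul, hRX, norm_inv, Complex.norm_real, Real.norm_of_nonneg hX0.le]
    field_simp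
  have hl := hlow R' hnR'
  have hHR : ‖eval₂ φ R H‖ = X ^ d * ‖eval₂ φ R' H‖ := by
    conv_lhs => rw [hRR']
    rw [sc φ H d hHh, norm_mul, norm_pow, Complex.norm_real, Real.norm_of_nonneg hX0.le]
  have hLR : ‖eval₂ φ R (lf v)‖ = X * ‖eval₂ φ R' (lf v)‖ := by
    conv_lhs => rw [hRR']
    rw [sc φ (lf v) 1 (lf_hom v), norm_mul, norm_pow, Complex.norm_real,
      Real.norm_of_nonneg hX0.le, pow_one]
  have hL' : ‖eval₂ φ R' (lf v)‖ ≤ c₀ / 2 := by
    rw [hLR] at hρL
    have h1 : (2 + 2 / c₀ + 4 * B / c₀) * ‖eval₂ φ R' (lf v)‖ ≤ 1 := by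
      have : X * ((2 + 2 / c₀ + 4 * B / c₀) * ‖eval₂ φ R' (lf v)‖) ≤ X * 1 := by
        calc _ = (2 + 2 / c₀ + 4 * B / c₀) * (X * ‖eval₂ φ R' (lf v)‖) := by ring
          _ ≤ X := hρL
          _ = X * 1 := by ring
      exact le_of_mul_le_mul_left this hX0
    have h2 : 2 / c₀ * ‖eval₂ φ R' (lf v)‖ ≤ 1 := by
      refine le_trans ?_ h1
      refine mul_le_mul_of_nonneg_right ?_ (norm_nonneg _)
      linarith
    have h3 : ‖eval₂ φ R' (lf v)‖ = c₀ / 2 * (2 / c₀ * ‖eval₂ φ R' (lf v)‖) := by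
      field_simp
    rw [h3]
    calc c₀ / 2 * (2 / c₀ * ‖eval₂ φ R' (lf v)‖) ≤ c₀ / 2 * 1 :=
          mul_le_mul_of_nonneg_left h2 (by positivity)
      _ = c₀ / 2 := by ring
  have hH' : c₀ / 2 ≤ ‖eval₂ φ R' H‖ := by linarith
  have hHR2 : c₀ / 2 * X ^ d ≤ ‖eval₂ φ R H‖ := by
    rw [hHR, mul_comm]
    exact mul_le_mul_of_nonneg_left hH' (by positivity)
  have hE : ‖eval₂ φ R (N - H)‖ ≤ B * X ^ (d - 1) := by
    refine (hBE R).trans ?_
    refine mul_le_mul_of_nonneg_left ?_ (by linarith)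
    exact pow_le_pow_right₀ (by linarith) hEd
  have hBX : B * X ^ (d - 1) ≤ c₀ / 4 * X ^ d := by
    have h1 : X ^ d = X * X ^ (d - 1) := by
      rw [← pow_succ', Nat.sub_add_cancel hd]
    rw [h1, ← mul_assoc]
    refine mul_le_mul_of_nonneg_right ?_ (by positivity)
    have h2 : 4 * B / c₀ ≤ X := by linarith
    rw [div_le_iff₀ hc₀] at h2
    linarith
  have hsum : eval₂ φ R N = eval₂ φ R H + eval₂ φ R (N - H) := by
    rw [← eval₂_add]
    congr 1
    ring
  have h5 : ‖eval₂ φ R H‖ ≤ ‖eval₂ φ R N‖ + ‖eval₂ φ R (N - H)‖ := by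
    have : eval₂ φ R H = eval₂ φ R N - eval₂ φ R (N - H) := by rw [hsum]; ring
    rw [this]
    exact norm_sub_le _ _
  linarith

theorem cn1 (z : Fin 2 → ℂ) : 1 ≤ cn z := le_max_right _ _

/-- one factor is large -/
theorem pig (n : ℕ) (hn : 1 ≤ n) (a m : Fin n → ℝ) (ha : ∀ i, 0 < a i)
    (_hm : ∀ i, 0 < m i) (Y : ℝ) (hY : 0 < Y) (h : Y * ∏ i, m i ≤ ∏ i, a i) :
    ∃ i, m i * Y ^ ((1 : ℝ) / n) ≤ a i := by
  by_contra hc
  push Not at hc
  have hne : (Finset.univ : Finset (Fin n)).Nonempty := ⟨⟨0, by omega⟩, Finset.mem_univ _⟩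
  have h1 : ∏ i, a i < ∏ i, (m i * Y ^ ((1 : ℝ) / n)) :=
    Finset.prod_lt_prod_of_nonempty (fun i _ => ha i) (fun i _ => hc i) hne
  rw [Finset.prod_mul_distrib, Finset.prod_const, Finset.card_univ, Fintype.card_fin] at h1
  have h2 : (Y ^ ((1 : ℝ) / n)) ^ n = Y := by
    rw [one_div]
    exact Real.rpow_inv_natCast_pow hY.le (by omega)
  rw [h2] at h1
  linarith

/-- the final computation -/
theorem comp (n k : ℕ) (hn : 1 ≤ n) (c C₃ : ℝ) (hc : 0 < c) (hC : 0 < C₃) :
    ∃ K₀ η : ℝ, 0 < K₀ ∧ 0 < η ∧ ∀ X t m : ℝ, 1 ≤ X → 1 ≤ t → 0 < m → t ≤ C₃ * X ^ k →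
      m * (c * X) ^ ((1 : ℝ) / n) ≤ t → m ≤ K₀ * t * t ^ (-η) := by
  have hn0 : (0 : ℝ) < n := by exact_mod_cast hn
  have hk0 : (0 : ℝ) < (k : ℝ) + 1 := by positivity
  set α : ℝ := 1 / ((k : ℝ) + 1) with hα
  set β : ℝ := 1 / (n : ℝ) with hβ
  have hα0 : 0 < α := by positivity
  have hβ0 : 0 < β := by positivity
  refine ⟨((c * (1 / C₃) ^ α) ^ β)⁻¹, α * β, by positivity, by positivity, ?_⟩
  intro X t m hX ht hm h1 h2
  have ht0 : 0 < t := by linarith
  have hX0 : 0 < X := by linarith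
  have h3 : t / C₃ ≤ X ^ (k + 1) := by
    rw [div_le_iff₀ hC]
    refine h1.trans ?_
    rw [mul_comm]
    refine mul_le_mul_of_nonneg_right ?_ hC.le
    exact pow_le_pow_right₀ hX (by omega)
  have h4 : (t / C₃) ^ α ≤ X := by
    have h5 : (t / C₃) ^ α ≤ (X ^ (k + 1)) ^ α :=
      Real.rpow_le_rpow (by positivity) h3 hα0.le
    refine h5.trans (le_of_eq ?_)
    have h6 : α = (((k + 1 : ℕ) : ℝ))⁻¹ := by
      rw [hα]
      push_cast
      rw [one_div]
    rw [h6]
    exact Real.pow_rpow_inv_natCast hX0.le (by omega)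
  have h7 : (c * (1 / C₃) ^ α) ^ β * t ^ (α * β) ≤ (c * X) ^ β := by
    have h8 : (c * (1 / C₃) ^ α) ^ β * t ^ (α * β) = (c * (t / C₃) ^ α) ^ β := by
      rw [Real.rpow_mul ht0.le, ← Real.mul_rpow (by positivity) (by positivity), mul_assoc,
        ← Real.mul_rpow (by positivity) (by positivity)]
      congr 3
      ring
    rw [h8]
    refine Real.rpow_le_rpow (by positivity) ?_ hβ0.le
    exact mul_le_mul_of_nonneg_left h4 hc.le
  have h9 : m * ((c * (1 / C₃) ^ α) ^ β * t ^ (α * β)) ≤ t :=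
    (mul_le_mul_of_nonneg_left h7 hm.le).trans h2
  have hP : 0 < (c * (1 / C₃) ^ α) ^ β := by positivity
  have hQ : 0 < t ^ (α * β) := by positivity
  rw [Real.rpow_neg ht0.le]
  calc m = (m * ((c * (1 / C₃) ^ α) ^ β * t ^ (α * β))) *
        (((c * (1 / C₃) ^ α) ^ β)⁻¹ * (t ^ (α * β))⁻¹) := by
        field_simp
    _ ≤ t * (((c * (1 / C₃) ^ α) ^ β)⁻¹ * (t ^ (α * β))⁻¹) :=
        mul_le_mul_of_nonneg_right h9 (by positivity)
    _ = ((c * (1 / C₃) ^ α) ^ β)⁻¹ * t * (t ^ (α * β))⁻¹ := by ring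

theorem ev_eval_lf {K : Type} [Field K] (v p : Fin 2 → K) :
    eval p (lf v) = v 1 * p 0 - v 0 * p 1 := by
  simp [lf]

/-- a linear form takes all values -/
theorem surj {K : Type} [Field K] (b : Fin 2 → K) (hb : b ≠ 0) (c : K) :
    ∃ p : Fin 2 → K, eval p (lf b) = -c := by
  by_cases h1 : b 1 = 0
  · have h0 : b 0 ≠ 0 := by
      intro h0
      exact hb (by funext i; fin_cases i <;> simp [h0, h1])
    refine ⟨![0, c / b 0], ?_⟩
    rw [ev_eval_lf]
    simp
    field_simp
  · refine ⟨![-c / b 1, 0], ?_⟩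
    rw [ev_eval_lf]
    simp
    field_simp

end AuxPre

open AuxPre in
theorem pr_Pre (h1 : S_NF) (h2 : S_Prp) (h3 : S_VanC) (h4 : S_Up1) : S_Pre := by
  intro K _ φ f d b v e hd hfd hFn hind hb hFb hve
  classical
  have hchar : CharZero K := φ.charZero
  have hinf : Infinite K := CharZero.infinite K
  have hv : v ≠ 0 := by
    rintro rfl
    simp at hve
  have he : e ≠ 0 := by
    rintro rfl
    rw [ev0 _ d hd (homogeneousComponent_isHomogeneous _ _),
      ev0 _ d hd (homogeneousComponent_isHomogeneous _ _)] at hve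
    simp at hve
  obtain ⟨n, N, hn, hfib, hdeg⟩ := h1 K φ f hFn hind
  -- upper bound for the norm of `lf b + C c`
  have hup : ∀ c : K, ∃ B : ℝ, 1 ≤ B ∧ ∀ R : Fin 2 → ℂ,
      ‖eval₂ φ R (N (lf b + C c))‖ ≤ B * cn R ^ (d - 1) := by
    intro c
    obtain ⟨p, hp⟩ := surj b hb c
    obtain ⟨B, hB, hBu⟩ := h4 K φ (N (lf b + C c))
    refine ⟨B, hB, fun R => (hBu R).trans ?_⟩
    refine mul_le_mul_of_nonneg_left ?_ (by linarith)
    refine pow_le_pow_right₀ (cn1 R) ?_
    have hd' := (hdeg b p _ _ hb (fun i => rfl) rfl).1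
    rw [hp, map_neg, sub_neg_eq_add] at hd'
    rw [hd']
    have hi : ∀ i, (aeval (fun k => Polynomial.C (p k) + Polynomial.C (b k) * Polynomial.X) (f i) :
        Polynomial K).natDegree ≤ d - 1 := by
      intro i
      obtain ⟨hl1, hl2⟩ := line (f i) d (hfd i) p b
      rw [hFb i] at hl2
      have : (aeval (fun k => Polynomial.C (p k) + Polynomial.C (b k) * Polynomial.X) (f i) :
        Polynomial K).natDegree ≠ d ∨ d = 0 ∨
        (aeval (fun k => Polynomial.C (p k) + Polynomial.C (b k) * Polynomial.X) (f i) :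
        Polynomial K) = 0 := by
        by_cases h0 : (aeval (fun k => Polynomial.C (p k) + Polynomial.C (b k) * Polynomial.X)
          (f i) : Polynomial K) = 0
        · exact Or.inr (Or.inr h0)
        · left
          intro hdd
          have := Polynomial.leadingCoeff_ne_zero.mpr h0
          rw [Polynomial.leadingCoeff, hdd] at this
          exact this hl2
      rcases this with h | h | h
      · omega
      · omega
      · rw [h, Polynomial.natDegree_zero]
        omega
    exact max_le (hi 0) (hi 1)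
  choose Bf hBf1 hBf2 using hup
  -- lower bound for the norm of `lf e`
  obtain ⟨c₁, ρ, hc₁, hρ, hlow⟩ : ∃ c ρ : ℝ, 0 < c ∧ 0 < ρ ∧ ∀ R : Fin 2 → ℂ, ρ ≤ cn R →
      ρ * ‖eval₂ φ R (lf v)‖ ≤ cn R → c * cn R ^ d ≤ ‖eval₂ φ R (N (lf e))‖ := by
    have hl : ∀ i, _ := fun i => line (f i) d (hfd i) (0 : Fin 2 → K) e
    set q : Fin 2 → Polynomial K := fun i =>
      aeval (fun k => Polynomial.C ((0 : Fin 2 → K) k) + Polynomial.C (e k) * Polynomial.X) (f i)
      with hq
    have hqd : ∀ i, (q i).natDegree ≤ d := fun i => (hl i).1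
    have hqc : ∀ i, (q i).coeff d = eval e (homogeneousComponent d (f i)) := fun i => (hl i).2
    have hcd : (Polynomial.C (v 1) * q 0 - Polynomial.C (v 0) * q 1).natDegree = d := by
      refine le_antisymm ?_ ?_
      · refine (Polynomial.natDegree_sub_le _ _).trans (max_le ?_ ?_)
        · exact (Polynomial.natDegree_C_mul_le _ _).trans (hqd 0)
        · exact (Polynomial.natDegree_C_mul_le _ _).trans (hqd 1)
      · refine Polynomial.le_natDegree_of_ne_zero ?_
        rw [Polynomial.coeff_sub, Polynomial.coeff_C_mul, Polynomial.coeff_C_mul, hqc, hqc]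
        exact hve
    have hmax : max (q 0).natDegree (q 1).natDegree = d := by
      refine le_antisymm (max_le (hqd 0) (hqd 1)) ?_
      rw [← hcd]
      refine (Polynomial.natDegree_sub_le _ _).trans (max_le_max ?_ ?_)
      · exact Polynomial.natDegree_C_mul_le _ _
      · exact Polynomial.natDegree_C_mul_le _ _
    obtain ⟨hd1, hd2⟩ := hdeg e 0 q d he (fun i => rfl) hmax
    have hz : lf e - C (eval (0 : Fin 2 → K) (lf e)) = lf e := by
      rw [ev_eval_lf]
      simp
    rw [hz] at hd1 hd2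
    exact lowH h4 φ v hv (N (lf e)) d hd hd1 ((hd2 v).mpr ⟨hv, hcd⟩)
  obtain ⟨Ce, hCe1, hCe⟩ := h4 K φ (lf e)
  obtain ⟨C₃, k, hC₃, hprop⟩ := h2 K φ f hFn
  obtain ⟨𝒜, h𝒜⟩ := Infinite.exists_subset_card_eq K (n + 1)
  obtain ⟨κ, hκ, hvan⟩ := h3 K φ 𝒜 1
  set Bs : ℝ := 1 + ∑ a ∈ 𝒜, Bf a with hBs
  have hBs0 : 0 < Bs := by
    have : 0 ≤ ∑ a ∈ 𝒜, Bf a := Finset.sum_nonneg fun a _ => by linarith [hBf1 a]
    linarith
  have hBsa : ∀ a ∈ 𝒜, Bf a ≤ Bs := by
    intro a ha
    have := Finset.single_le_sum (f := Bf) (fun a _ => by linarith [hBf1 a]) ha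
    linarith
  have hCe0 : 0 < Ce := by linarith
  set c : ℝ := c₁ * κ ^ n / (Ce ^ n * Bs) with hc
  have hc0 : 0 < c := by positivity
  obtain ⟨K₀, η, hK₀, hη, hcomp⟩ := comp n k hn c C₃ hc0 (by linarith)
  refine ⟨η, K₀, ρ, hη, hK₀, hρ, ?_⟩
  intro R hR1 hR2
  obtain ⟨z, hz1, hz2⟩ := hfib R
  set X := cn R with hX
  have hX1 : 1 ≤ X := cn1 R
  -- the product of the sizes is large
  have hA : c₁ * X ^ d ≤ Ce ^ n * ∏ i, cn (z i) := by
    refine (hlow R hR1 hR2).trans ?_
    rw [hz2 (lf e), norm_prod]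
    have h5 : ∏ i, ‖eval₂ φ (z i) (lf e)‖ ≤ ∏ i, (Ce * cn (z i)) := by
      refine Finset.prod_le_prod (fun i _ => norm_nonneg _) fun i _ => ?_
      refine (hCe (z i)).trans ?_
      refine mul_le_mul_of_nonneg_left ?_ hCe0.le
      have := pow_le_pow_right₀ (cn1 (z i)) (lf_hom e).totalDegree_le
      rwa [pow_one] at this
    rw [Finset.prod_mul_distrib, Finset.prod_const, Finset.card_univ, Fintype.card_fin] at h5
    exact h5
  -- a good constant
  have hx : ∀ i : Fin n, ∃ B ⊆ 𝒜, B.card ≤ 1 ∧ ∀ a ∈ 𝒜, a ∉ B →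
      κ * max 1 ‖eval₂ φ (z i) (lf b)‖ ≤ ‖eval₂ φ (z i) (lf b + C a)‖ := by
    intro i
    obtain ⟨B, hB1, hB2, hB3⟩ := hvan ![eval₂ φ (z i) (lf b), 1]
    refine ⟨B, hB1, hB2, fun a ha haB => ?_⟩
    have h5 := hB3 a ha haB
    have hs : ∑ j : Fin (1 + 1), (![eval₂ φ (z i) (lf b), 1] : Fin 2 → ℂ) j * φ a ^ (j : ℕ) =
        eval₂ φ (z i) (lf b + C a) := by
      rw [Fin.sum_univ_two, eval₂_add, eval₂_C]
      simp
    rw [hs] at h5
    rw [mul_max_of_nonneg _ _ hκ.le]
    refine max_le ?_ ?_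
    · have := h5 1
      simpa using this
    · have := h5 0
      simpa using this
  choose Bx hBx1 hBx2 hBx3 using hx
  obtain ⟨a, ha, haB⟩ : ∃ a ∈ 𝒜, ∀ i, a ∉ Bx i := by
    have hcard : (Finset.univ.biUnion Bx).card ≤ n := by
      have := Finset.card_biUnion_le_card_mul (Finset.univ : Finset (Fin n)) Bx 1
        (fun i _ => hBx2 i)
      rwa [Finset.card_univ, Fintype.card_fin, mul_one] at this
    obtain ⟨a, ha, haU⟩ := Finset.exists_mem_notMem_of_card_lt_card
      (s := Finset.univ.biUnion Bx) (t := 𝒜) (by omega)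
    refine ⟨a, ha, fun i hi => haU (Finset.mem_biUnion.mpr ⟨i, Finset.mem_univ _, hi⟩)⟩
  -- the product of the values of `lf b` is small
  have hM : κ ^ n * ∏ i, max 1 ‖eval₂ φ (z i) (lf b)‖ ≤ Bs * X ^ (d - 1) := by
    have h5 : ∏ i, (κ * max 1 ‖eval₂ φ (z i) (lf b)‖) ≤
        ∏ i, ‖eval₂ φ (z i) (lf b + C a)‖ := by
      refine Finset.prod_le_prod (fun i _ => by positivity) fun i _ => ?_
      exact hBx3 i a ha (haB i)
    rw [Finset.prod_mul_distrib, Finset.prod_const, Finset.card_univ, Fintype.card_fin,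
      ← norm_prod, ← hz2 (lf b + C a)] at h5
    refine h5.trans ((hBf2 a R).trans ?_)
    exact mul_le_mul_of_nonneg_right (hBsa a ha) (by positivity)
  have hmain : (c * X) * ∏ i, max 1 ‖eval₂ φ (z i) (lf b)‖ ≤ ∏ i, cn (z i) := by
    have h5 : X ^ d = X * X ^ (d - 1) := by
      rw [← pow_succ', Nat.sub_add_cancel hd]
    rw [h5] at hA
    have h6 : c₁ * X * (κ ^ n * ∏ i, max 1 ‖eval₂ φ (z i) (lf b)‖) ≤
        c₁ * X * (Bs * X ^ (d - 1)) := mul_le_mul_of_nonneg_left hM (by positivity)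
    have h7 : c₁ * X * (κ ^ n * ∏ i, max 1 ‖eval₂ φ (z i) (lf b)‖) ≤
        Bs * (Ce ^ n * ∏ i, cn (z i)) := by
      refine h6.trans ?_
      calc c₁ * X * (Bs * X ^ (d - 1)) = Bs * (c₁ * (X * X ^ (d - 1))) := by ring
        _ ≤ _ := mul_le_mul_of_nonneg_left hA hBs0.le
    have h8 : 0 < Ce ^ n * Bs := by positivity
    have h9 : (Ce ^ n * Bs) * ((c * X) * ∏ i, max 1 ‖eval₂ φ (z i) (lf b)‖) ≤
        (Ce ^ n * Bs) * ∏ i, cn (z i) := by
      calc (Ce ^ n * Bs) * ((c * X) * ∏ i, max 1 ‖eval₂ φ (z i) (lf b)‖)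
          = c₁ * X * (κ ^ n * ∏ i, max 1 ‖eval₂ φ (z i) (lf b)‖) := by
            rw [hc]
            field_simp
        _ ≤ Bs * (Ce ^ n * ∏ i, cn (z i)) := h7
        _ = _ := by ring
    exact le_of_mul_le_mul_left h9 h8
  obtain ⟨i, hi⟩ := pig n hn (fun i => cn (z i)) (fun i => max 1 ‖eval₂ φ (z i) (lf b)‖)
    (fun i => by linarith [cn1 (z i)]) (fun i => lt_of_lt_of_le one_pos (le_max_left _ _))
    (c * X) (by positivity) hmain
  refine ⟨z i, hz1 i, ?_⟩
  have hp := hprop (z i)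
  rw [hz1 i] at hp
  refine (le_max_right 1 _).trans ?_
  exact hcomp X (cn (z i)) _ hX1 (cn1 _) (lt_of_lt_of_le one_pos (le_max_left _ _)) hp hi

end Pool.Agent.Work.MP_91e6de_nt.BM

end

section

set_option autoImplicit false

/-!
# MP_91e6de_nt, block BM, item Prp: finite polynomial maps are proper
-/

namespace Pool.Agent.Work.MP_91e6de_nt.BM

open MvPolynomial Height Height.AdmissibleAbsValues Filter Topology
open Pool.Agent.Work.MP_91e6de_nt.BL

namespace AuxPrp

theorem one_le_cn (z : Fin 2 → ℂ) : 1 ≤ cn z := le_max_right _ _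

theorem le_cn (z : Fin 2 → ℂ) (i : Fin 2) : ‖z i‖ ≤ cn z := by
  fin_cases i
  · exact (le_max_left _ _).trans (le_max_left _ _)
  · exact (le_max_right _ _).trans (le_max_left _ _)

theorem monomial_le (z : Fin 2 → ℂ) (s : Fin 2 →₀ ℕ) (D : ℕ)
    (hs : (s.sum fun _ e => e) ≤ D) : ‖∏ i, z i ^ s i‖ ≤ cn z ^ D := by
  have h1 : s 0 + s 1 ≤ D := by
    rw [Finsupp.sum_fintype _ _ (fun _ => rfl), Fin.sum_univ_two] at hs
    exact hs
  rw [Fin.prod_univ_two, norm_mul, norm_pow, norm_pow]
  have hn : 0 ≤ cn z := le_trans zero_le_one (one_le_cn z)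
  calc ‖z 0‖ ^ s 0 * ‖z 1‖ ^ s 1 ≤ cn z ^ s 0 * cn z ^ s 1 :=
        mul_le_mul (pow_le_pow_left₀ (norm_nonneg _) (le_cn z 0) _)
          (pow_le_pow_left₀ (norm_nonneg _) (le_cn z 1) _) (pow_nonneg (norm_nonneg _) _)
          (pow_nonneg hn _)
    _ = cn z ^ (s 0 + s 1) := (pow_add _ _ _).symm
    _ ≤ cn z ^ D := pow_le_pow_right₀ (one_le_cn z) h1

theorem up {K : Type} [Field K] (φ : K →+* ℂ) (T : Pol K) : ∃ B : ℝ, 1 ≤ B ∧
    ∀ z : Fin 2 → ℂ, ‖eval₂ φ z T‖ ≤ B * cn z ^ T.totalDegree := by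
  refine ⟨1 + ∑ s ∈ T.support, ‖φ (coeff s T)‖, ?_, ?_⟩
  · have : 0 ≤ ∑ s ∈ T.support, ‖φ (coeff s T)‖ := Finset.sum_nonneg fun s _ => norm_nonneg _
    linarith
  · intro z
    have hn : 0 ≤ cn z ^ T.totalDegree :=
      pow_nonneg (le_trans zero_le_one (one_le_cn z)) _
    rw [eval₂_eq']
    calc ‖∑ s ∈ T.support, φ (coeff s T) * ∏ i, z i ^ s i‖
        ≤ ∑ s ∈ T.support, ‖φ (coeff s T) * ∏ i, z i ^ s i‖ := norm_sum_le _ _
      _ ≤ ∑ s ∈ T.support, ‖φ (coeff s T)‖ * cn z ^ T.totalDegree := by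
          refine Finset.sum_le_sum fun s hs => ?_
          rw [norm_mul]
          exact mul_le_mul_of_nonneg_left (monomial_le z s _ (le_totalDegree hs)) (norm_nonneg _)
      _ = (∑ s ∈ T.support, ‖φ (coeff s T)‖) * cn z ^ T.totalDegree := by
          rw [Finset.sum_mul]
      _ ≤ (1 + ∑ s ∈ T.support, ‖φ (coeff s T)‖) * cn z ^ T.totalDegree := by
          refine mul_le_mul_of_nonneg_right ?_ hn
          linarith

theorem ev_aeval {K : Type} [Field K] (φ : K →+* ℂ) (f : Fin 2 → Pol K) (z : Fin 2 → ℂ)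
    (p : Pol K) : eval₂ φ z (aeval f p : Pol K) = eval₂ φ (ce φ f z) p := by
  have h : ((eval₂Hom φ z).comp (aeval f : Pol K →ₐ[K] Pol K).toRingHom) =
      eval₂Hom φ (ce φ f z) := by
    apply MvPolynomial.ringHom_ext
    · intro r
      simp
    · intro i
      simp [ce]
  exact congrArg (fun g : Pol K →+* ℂ => g p) h

theorem coord {K : Type} [Field K] (φ : K →+* ℂ) (f : Fin 2 → Pol K) (i : Fin 2)
    (h : (aeval f : Pol K →ₐ[K] Pol K).toRingHom.IsIntegralElem (X i)) :
    ∃ (C : ℝ) (k : ℕ), 1 ≤ C ∧ ∀ z : Fin 2 → ℂ, ‖z i‖ ≤ C * cn (ce φ f z) ^ k := by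
  obtain ⟨p, hp, hz⟩ := h
  choose B hB1 hB using fun l : ℕ => up φ (p.coeff l)
  set n := p.natDegree with hn
  have hB0 : ∀ l, 0 ≤ B l := fun l => zero_le_one.trans (hB1 l)
  refine ⟨1 + ∑ l ∈ Finset.range n, B l, ∑ l ∈ Finset.range n, (p.coeff l).totalDegree, ?_, ?_⟩
  · have := Finset.sum_nonneg (s := Finset.range n) fun l _ => hB0 l
    linarith
  · intro z
    set w := ce φ f z with hw
    have hw1 : 1 ≤ cn w := one_le_cn w
    set g : Pol K →+* ℂ := (eval₂Hom φ z).comp (aeval f : Pol K →ₐ[K] Pol K).toRingHom with hg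
    have hgl : ∀ l, ‖(p.map g).coeff l‖ = ‖eval₂ φ w (p.coeff l)‖ := by
      intro l
      rw [Polynomial.coeff_map, hg, hw, ← ev_aeval]
      rfl
    have hroot : (p.map g).IsRoot (z i) := by
      have := Polynomial.hom_eval₂ p (aeval f : Pol K →ₐ[K] Pol K).toRingHom (eval₂Hom φ z) (X i)
      rw [hz, map_zero] at this
      rw [Polynomial.IsRoot, Polynomial.eval_map, hg]
      rw [show z i = eval₂Hom φ z (X i) by simp]
      exact this.symm
    have hmon : (p.map g).Monic := hp.map g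
    have hb := hroot.norm_lt_cauchyBound hmon.ne_zero
    have hpow : ∀ l ∈ Finset.range n, cn w ^ (p.coeff l).totalDegree ≤
        cn w ^ (∑ l ∈ Finset.range n, (p.coeff l).totalDegree) := fun l hl =>
      pow_le_pow_right₀ hw1 (Finset.single_le_sum (f := fun l => (p.coeff l).totalDegree)
        (fun _ _ => Nat.zero_le _) hl)
    have hsup : (((Finset.range (p.map g).natDegree).sup fun l => ‖(p.map g).coeff l‖₊ : NNReal)
        : ℝ) ≤ (∑ l ∈ Finset.range n, B l) *
          cn w ^ (∑ l ∈ Finset.range n, (p.coeff l).totalDegree) := by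
      have h0 : 0 ≤ (∑ l ∈ Finset.range n, B l) *
          cn w ^ (∑ l ∈ Finset.range n, (p.coeff l).totalDegree) :=
        mul_nonneg (Finset.sum_nonneg fun l _ => hB0 l) (pow_nonneg (zero_le_one.trans hw1) _)
      rw [← NNReal.coe_mk _ h0, NNReal.coe_le_coe]
      refine Finset.sup_le fun l hl => ?_
      rw [← NNReal.coe_le_coe, coe_nnnorm, hgl, NNReal.coe_mk]
      rw [hp.natDegree_map g] at hl
      calc ‖eval₂ φ w (p.coeff l)‖ ≤ B l * cn w ^ (p.coeff l).totalDegree := hB l w
        _ ≤ (∑ l ∈ Finset.range n, B l) *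
          cn w ^ (∑ l ∈ Finset.range n, (p.coeff l).totalDegree) :=
          mul_le_mul (Finset.single_le_sum (f := B) (fun l _ => hB0 l) hl) (hpow l hl)
            (pow_nonneg (zero_le_one.trans hw1) _) (Finset.sum_nonneg fun l _ => hB0 l)
    have hb' : ‖z i‖ < (((Finset.range (p.map g).natDegree).sup
        fun l => ‖(p.map g).coeff l‖₊ : NNReal) : ℝ) + 1 := by
      have h2 : ((‖z i‖₊ : NNReal) : ℝ) < ((p.map g).cauchyBound : NNReal) := by
        exact_mod_cast hb
      rw [Polynomial.cauchyBound, hmon.leadingCoeff, nnnorm_one, div_one, NNReal.coe_add,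
        NNReal.coe_one] at h2
      exact h2
    have h3 : 1 ≤ cn w ^ (∑ l ∈ Finset.range n, (p.coeff l).totalDegree) := one_le_pow₀ hw1
    calc ‖z i‖ ≤ _ := hb'.le
      _ ≤ (∑ l ∈ Finset.range n, B l) *
          cn w ^ (∑ l ∈ Finset.range n, (p.coeff l).totalDegree) +
          cn w ^ (∑ l ∈ Finset.range n, (p.coeff l).totalDegree) := add_le_add hsup h3
      _ = _ := by ring

end AuxPrp

/-- finite polynomial maps are proper -/
theorem pr_Prp : S_Prp := by
  intro K _ φ f hf
  obtain ⟨C0, k0, hC0, h0⟩ := AuxPrp.coord φ f 0 (hf 0)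
  obtain ⟨C1, k1, hC1, h1⟩ := AuxPrp.coord φ f 1 (hf 1)
  refine ⟨max C0 C1, max k0 k1, hC0.trans (le_max_left _ _), fun z => ?_⟩
  have hw := AuxPrp.one_le_cn (ce φ f z)
  have hpos : 1 ≤ max C0 C1 := hC0.trans (le_max_left _ _)
  refine max_le (max_le ?_ ?_) ?_
  · exact (h0 z).trans (mul_le_mul (le_max_left _ _) (pow_le_pow_right₀ hw (le_max_left _ _))
      (pow_nonneg (zero_le_one.trans hw) _) (zero_le_one.trans hpos))
  · exact (h1 z).trans (mul_le_mul (le_max_right _ _) (pow_le_pow_right₀ hw (le_max_right _ _))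
      (pow_nonneg (zero_le_one.trans hw) _) (zero_le_one.trans hpos))
  · exact one_le_mul_of_one_le_of_one_le hpos (one_le_pow₀ hw)

end Pool.Agent.Work.MP_91e6de_nt.BM

end

section

set_option autoImplicit false

namespace Pool.Agent.Work.MP_91e6de_nt.BM

open MvPolynomial Height Height.AdmissibleAbsValues Filter Topology
open Pool.Agent.Work.MP_91e6de_nt.BL

namespace AuxSelW

theorem common {α : Type*} (T : Finset α) (p : α → ℝ → Prop)
    (mono : ∀ a κ κ', 0 < κ' → κ' ≤ κ → p a κ → p a κ')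
    (h : ∀ a ∈ T, ∃ κ : ℝ, 0 < κ ∧ p a κ) :
    ∃ κ : ℝ, 0 < κ ∧ ∀ a ∈ T, p a κ := by
  classical
  induction T using Finset.induction_on with
  | empty => exact ⟨1, one_pos, by simp⟩
  | insert a s ha ih =>
    obtain ⟨κ1, h1, h1'⟩ := ih (fun b hb => h b (Finset.mem_insert_of_mem hb))
    obtain ⟨κ2, h2, h2'⟩ := h a (Finset.mem_insert_self _ _)
    refine ⟨min κ1 κ2, lt_min h1 h2, fun b hb => ?_⟩
    rcases Finset.mem_insert.1 hb with rfl | hb
    · exact mono _ _ _ (lt_min h1 h2) (min_le_right _ _) h2'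
    · exact mono _ _ _ (lt_min h1 h2) (min_le_left _ _) (h1' b hb)

section
variable {K : Type} [Field K]

theorem one_le_nn (u : AbsoluteValue K ℝ) (R : Fin 2 → K) : 1 ≤ nn u R := le_max_right _ _

/-- at most one of the two linear forms is small -/
theorem forms (u : AbsoluteValue K ℝ) (v : Fin 2 → Fin 2 → K)
    (hv : v 0 0 * v 1 1 - v 0 1 * v 1 0 ≠ 0) :
    ∃ κ : ℝ, 0 < κ ∧ ∀ R : Fin 2 → K, ∃ ω : Fin 2, ∀ b, b ≠ ω →
      κ * nn u R ≤ max (u (eval R (lf (v b)))) 1 := by
  set D := v 0 0 * v 1 1 - v 0 1 * v 1 0 with hD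
  have hD0 : 0 < u D := u.pos hv
  set S := u (v 0 0) + u (v 0 1) + u (v 1 0) + u (v 1 1) with hS
  have p00 := u.nonneg (v 0 0)
  have p01 := u.nonneg (v 0 1)
  have p10 := u.nonneg (v 1 0)
  have p11 := u.nonneg (v 1 1)
  have hS0 : 0 ≤ S := by positivity
  set L := max (S / u D) 1 with hL
  have hL1 : 1 ≤ L := le_max_right _ _
  have hL2 : S / u D ≤ L := le_max_left _ _
  have hL0 : 0 < L := lt_of_lt_of_le one_pos hL1
  refine ⟨1 / L, by positivity, fun R => ?_⟩
  set l0 := eval R (lf (v 0)) with hl0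
  set l1 := eval R (lf (v 1)) with hl1
  have e0 : l0 = v 0 1 * R 0 - v 0 0 * R 1 := by simp [hl0, lf]
  have e1 : l1 = v 1 1 * R 0 - v 1 0 * R 1 := by simp [hl1, lf]
  have key : nn u R ≤ L * max (max (u l0) (u l1)) 1 := by
    set M := max (max (u l0) (u l1)) 1 with hM
    have hM0 : u l0 ≤ M := (le_max_left _ _).trans (le_max_left _ _)
    have hM1 : u l1 ≤ M := (le_max_right _ _).trans (le_max_left _ _)
    have hM2 : 1 ≤ M := le_max_right _ _
    have hMp : 0 ≤ M := zero_le_one.trans hM2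
    have gen : ∀ (x a b : K), D * x = a * l1 + -(b * l0) → u a + u b ≤ S → u x ≤ L * M := by
      intro x a b hx hab
      have h1 : u D * u x ≤ S * M := by
        rw [← map_mul, hx]
        calc u (a * l1 + -(b * l0)) ≤ u (a * l1) + u (-(b * l0)) := u.add_le _ _
          _ = u a * u l1 + u b * u l0 := by rw [u.map_neg, map_mul, map_mul]
          _ ≤ u a * M + u b * M := by
              gcongr
          _ = (u a + u b) * M := by ring
          _ ≤ S * M := mul_le_mul_of_nonneg_right hab hMp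
      calc u x ≤ S * M / u D := by
            rw [le_div_iff₀ hD0]; linarith
        _ = S / u D * M := by ring
        _ ≤ L * M := mul_le_mul_of_nonneg_right hL2 hMp
    refine max_le (max_le ?_ ?_) ?_
    · exact gen (R 0) (v 0 0) (v 1 0) (by rw [e0, e1, hD]; ring) (by rw [hS]; linarith)
    · exact gen (R 1) (v 0 1) (v 1 1) (by rw [e0, e1, hD]; ring) (by rw [hS]; linarith)
    · calc (1 : ℝ) = 1 * 1 := by ring
        _ ≤ L * M := mul_le_mul hL1 hM2 zero_le_one hL0.le
  have key' : 1 / L * nn u R ≤ max (max (u l0) (u l1)) 1 := by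
    rw [one_div, inv_mul_le_iff₀ hL0]; exact key
  rcases le_total (u l0) (u l1) with h | h
  · refine ⟨0, fun b hb => ?_⟩
    have hb1 : b = 1 := by
      rcases b with ⟨b, hb2⟩
      interval_cases b
      · exact absurd rfl hb
      · rfl
    subst hb1
    rw [max_eq_right h] at key'
    exact key'
  · refine ⟨1, fun b hb => ?_⟩
    have hb1 : b = 0 := by
      rcases b with ⟨b, hb2⟩
      interval_cases b
      · rfl
      · exact absurd rfl hb
    subst hb1
    rw [max_eq_left h] at key'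
    exact key'

/-- at most three bad constants -/
theorem goodc (h1 : S_Van) (u : AbsoluteValue K ℝ) (𝒞 : Finset K) :
    ∃ κ : ℝ, 0 < κ ∧ ∀ (R : Fin 2 → K) (l : K), ∃ B ⊆ 𝒞, B.card ≤ 3 ∧ ∀ c ∈ 𝒞, c ∉ B →
      κ * nn u R ≤ u (R 0 + c * R 1 + c ^ 2) ∧ κ * max (u l) 1 ≤ u (l + c) := by
  classical
  obtain ⟨κ1, hκ1, H1⟩ := h1 K u 𝒞 2
  obtain ⟨κ2, hκ2, H2⟩ := h1 K u 𝒞 1
  refine ⟨min κ1 κ2, lt_min hκ1 hκ2, fun R l => ?_⟩
  obtain ⟨B1, hB1, hc1, G1⟩ := H1 ![R 0, R 1, 1]
  obtain ⟨B2, hB2, hc2, G2⟩ := H2 ![l, 1]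
  refine ⟨B1 ∪ B2, Finset.union_subset hB1 hB2, (Finset.card_union_le _ _).trans (by omega), ?_⟩
  intro c hc hcB
  rw [Finset.mem_union, not_or] at hcB
  have g1 := G1 c hc hcB.1
  have g2 := G2 c hc hcB.2
  have s1 : ∑ i : Fin (2 + 1), (![R 0, R 1, 1] : Fin 3 → K) i * c ^ (i : ℕ) =
      R 0 + c * R 1 + c ^ 2 := by
    rw [Fin.sum_univ_three]; simp; ring
  have s2 : ∑ i : Fin (1 + 1), (![l, 1] : Fin 2 → K) i * c ^ (i : ℕ) = l + c := by
    rw [Fin.sum_univ_two]; simp
  constructor
  · have a0 : κ1 * u (R 0) ≤ u (R 0 + c * R 1 + c ^ 2) := by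
      have := g1 0; rw [s1] at this; simpa using this
    have a1 : κ1 * u (R 1) ≤ u (R 0 + c * R 1 + c ^ 2) := by
      have := g1 1; rw [s1] at this; simpa using this
    have a2 : κ1 * 1 ≤ u (R 0 + c * R 1 + c ^ 2) := by
      have := g1 2; rw [s1] at this; simpa using this
    have : κ1 * nn u R ≤ u (R 0 + c * R 1 + c ^ 2) := by
      unfold nn
      rw [mul_max_of_nonneg _ _ hκ1.le, mul_max_of_nonneg _ _ hκ1.le]
      exact max_le (max_le a0 a1) a2
    exact le_trans (mul_le_mul_of_nonneg_right (min_le_left _ _)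
      (zero_le_one.trans (one_le_nn u R))) this
  · have a0 : κ2 * u l ≤ u (l + c) := by
      have := g2 0; rw [s2] at this; simpa using this
    have a1 : κ2 * 1 ≤ u (l + c) := by
      have := g2 1; rw [s2] at this; simpa using this
    have : κ2 * max (u l) 1 ≤ u (l + c) := by
      rw [mul_max_of_nonneg _ _ hκ2.le]
      exact max_le a0 a1
    exact le_trans (mul_le_mul_of_nonneg_right (min_le_right _ _)
      (zero_le_one.trans (le_max_right _ _))) this

theorem eval_Qw (f : Fin 2 → Pol K) (v : Fin 2 → Fin 2 → K) (k : ℕ) (w : ℕ → Fin 2)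
    (a c : K) (P : Fin 2 → K) :
    eval P (Qw f v k w a c) = ∑ i ∈ Finset.range (k + 1),
      (eval (orb f P i) (lf (v (w i))) + c) *
        (∏ i' ∈ (Finset.range (k + 1)).erase i,
          (orb f P i' 0 + c * orb f P i' 1 + c ^ 2)) * a ^ i := by
  have hit : ∀ m i, eval P (it f m i) = orb f P m i := by
    intro m i
    have := (pr_It K f).2 P 0 m i
    rw [Nat.zero_add] at this
    exact this
  have hcomp : ∀ (m : ℕ) (Q : Pol K), eval P (aeval (it f m) Q) = eval (orb f P m) Q := by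
    intro m Q
    have : (eval P : Pol K →+* K) (aeval (it f m) Q) =
        ((eval P : Pol K →+* K).comp (aeval (it f m) : Pol K →ₐ[K] Pol K).toRingHom) Q := rfl
    rw [this]
    have h2 : ((eval P : Pol K →+* K).comp (aeval (it f m) : Pol K →ₐ[K] Pol K).toRingHom) =
        (eval (orb f P m) : Pol K →+* K) := by
      apply MvPolynomial.ringHom_ext
      · intro r; simp
      · intro i; simp [hit]
    rw [h2]
  unfold Qw la
  rw [map_sum]
  refine Finset.sum_congr rfl fun i _ => ?_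
  rw [map_mul, map_mul, map_prod, map_add, eval_C, eval_C, hcomp]
  have : (∏ i' ∈ (Finset.range (k + 1)).erase i, eval P (it f i' 0 + C c * it f i' 1 + C (c ^ 2)))
      = ∏ i' ∈ (Finset.range (k + 1)).erase i, (orb f P i' 0 + c * orb f P i' 1 + c ^ 2) := by
    refine Finset.prod_congr rfl fun i' _ => ?_
    rw [map_add, map_add, map_mul, eval_C, eval_C, hit, hit]
  rw [this]
  ring

end

end AuxSelW

open AuxSelW in
theorem pr_SelW (h1 : S_Van) : S_SelW := by
  classical
  intro K _ _ f v k T hv hT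
  obtain ⟨𝒞, h𝒞⟩ := Infinite.exists_subset_card_eq K (3 * ((k + 1) * T.card) + 1)
  obtain ⟨𝒜, h𝒜⟩ := Infinite.exists_subset_card_eq K (k * T.card + 1)
  -- uniform constants
  obtain ⟨κ0, hκ0, H0⟩ := common T (fun u κ => ∀ R : Fin 2 → K, ∃ ω : Fin 2, ∀ b, b ≠ ω →
      κ * nn u R ≤ max (u (eval R (lf (v b)))) 1)
    (fun u κ κ' _ hle H R => by
      obtain ⟨ω, hω⟩ := H R
      exact ⟨ω, fun b hb => le_trans (mul_le_mul_of_nonneg_right hle
        (zero_le_one.trans (one_le_nn u R))) (hω b hb)⟩)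
    (fun u _ => forms u v hv)
  obtain ⟨κ1, hκ1, H1⟩ := common T (fun u κ => ∀ (R : Fin 2 → K) (l : K), ∃ B ⊆ 𝒞, B.card ≤ 3 ∧
      ∀ c ∈ 𝒞, c ∉ B →
      κ * nn u R ≤ u (R 0 + c * R 1 + c ^ 2) ∧ κ * max (u l) 1 ≤ u (l + c))
    (fun u κ κ' _ hle H R l => by
      obtain ⟨B, hB, hc, G⟩ := H R l
      refine ⟨B, hB, hc, fun c h hcB => ⟨?_, ?_⟩⟩
      · exact le_trans (mul_le_mul_of_nonneg_right hle
          (zero_le_one.trans (one_le_nn u R))) (G c h hcB).1
      · exact le_trans (mul_le_mul_of_nonneg_right hle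
          (zero_le_one.trans (le_max_right _ _))) (G c h hcB).2)
    (fun u _ => goodc h1 u 𝒞)
  obtain ⟨κ2, hκ2, H2⟩ := common T (fun u κ => ∀ x : Fin (k + 1) → K, ∃ B ⊆ 𝒜, B.card ≤ k ∧
      ∀ a ∈ 𝒜, a ∉ B → ∀ i, κ * u (x i) ≤ u (∑ i, x i * a ^ (i : ℕ)))
    (fun u κ κ' _ hle H x => by
      obtain ⟨B, hB, hc, G⟩ := H x
      exact ⟨B, hB, hc, fun a ha haB i => le_trans (mul_le_mul_of_nonneg_right hle
        (u.nonneg _)) (G a ha haB i)⟩)
    (fun u _ => h1 K u 𝒜 k)
  -- words
  let ext : (Fin (k + 1) → Fin 2) → ℕ → Fin 2 := fun w i => if h : i < k + 1 then w ⟨i, h⟩ else 0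
  refine ⟨(Finset.univ.image ext) ×ˢ (𝒜 ×ˢ 𝒞), κ2 * (κ0 * κ1 ^ (k + 1)), by positivity, ?_⟩
  intro P
  -- the word
  have hω : ∀ u : AbsoluteValue K ℝ, ∃ ω : Fin (k + 1) → Fin 2, u ∈ T → ∀ i b, b ≠ ω i →
      κ0 * nn u (orb f P i) ≤ max (u (eval (orb f P i) (lf (v b)))) 1 := by
    intro u
    by_cases hu : u ∈ T
    · have : ∀ i : Fin (k + 1), ∃ ω : Fin 2, ∀ b, b ≠ ω →
          κ0 * nn u (orb f P i) ≤ max (u (eval (orb f P i) (lf (v b)))) 1 :=
        fun i => H0 u hu (orb f P i)
      choose ω hω using this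
      exact ⟨ω, fun _ => hω⟩
    · exact ⟨fun _ => 0, fun h => absurd h hu⟩
  choose ω hω using hω
  obtain ⟨w, hw⟩ : ∃ w : Fin (k + 1) → Fin 2, w ∉ T.image ω := by
    by_contra hcon
    push Not at hcon
    have h2 : (Finset.univ : Finset (Fin (k + 1) → Fin 2)) ⊆ T.image ω := fun x _ => hcon x
    have h3 := Finset.card_le_card h2
    rw [Finset.card_univ, Fintype.card_fun, Fintype.card_fin, Fintype.card_fin] at h3
    have h4 := h3.trans Finset.card_image_le
    omega
  have hidx : ∀ u ∈ T, ∃ i : Fin (k + 1),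
      κ0 * nn u (orb f P i) ≤ max (u (eval (orb f P i) (lf (v (w i))))) 1 := by
    intro u hu
    have : w ≠ ω u := fun h => hw (Finset.mem_image.2 ⟨u, hu, h.symm⟩)
    obtain ⟨i, hi⟩ := Function.ne_iff.1 this
    exact ⟨i, hω u hu i _ hi⟩
  -- the constant c
  have hBc : ∀ (u : AbsoluteValue K ℝ) (i : ℕ), ∃ B : Finset K, B.card ≤ 3 ∧ (u ∈ T →
      ∀ c ∈ 𝒞, c ∉ B →
      κ1 * nn u (orb f P i) ≤ u (orb f P i 0 + c * orb f P i 1 + c ^ 2) ∧
      κ1 * max (u (eval (orb f P i) (lf (v (ext w i))))) 1 ≤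
        u (eval (orb f P i) (lf (v (ext w i))) + c)) := by
    intro u i
    by_cases hu : u ∈ T
    · obtain ⟨B, _, hc, G⟩ := H1 u hu (orb f P i) (eval (orb f P i) (lf (v (ext w i))))
      exact ⟨B, hc, fun _ => G⟩
    · exact ⟨∅, by simp, fun h => absurd h hu⟩
  choose Bc hBc1 hBc2 using hBc
  obtain ⟨c, hc𝒞, hc⟩ : ∃ c ∈ 𝒞, c ∉ (T ×ˢ Finset.range (k + 1)).biUnion
      (fun p => Bc p.1 p.2) := by
    apply Finset.exists_mem_notMem_of_card_lt_card
    have h2 := Finset.card_biUnion_le_card_mul (T ×ˢ Finset.range (k + 1))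
      (fun p => Bc p.1 p.2) 3 (fun p _ => hBc1 p.1 p.2)
    rw [Finset.card_product, Finset.card_range] at h2
    rw [h𝒞]
    have h3 : T.card * (k + 1) * 3 = 3 * ((k + 1) * T.card) := by ring
    omega
  have hcg : ∀ u ∈ T, ∀ i ∈ Finset.range (k + 1),
      κ1 * nn u (orb f P i) ≤ u (orb f P i 0 + c * orb f P i 1 + c ^ 2) ∧
      κ1 * max (u (eval (orb f P i) (lf (v (ext w i))))) 1 ≤
        u (eval (orb f P i) (lf (v (ext w i))) + c) := by
    intro u hu i hi
    refine hBc2 u i hu c hc𝒞 fun h => hc ?_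
    exact Finset.mem_biUnion.2 ⟨(u, i), Finset.mem_product.2 ⟨hu, hi⟩, h⟩
  -- the numbers x i
  let x : Fin (k + 1) → K := fun i => (eval (orb f P i) (lf (v (ext w i))) + c) *
    (∏ i' ∈ (Finset.range (k + 1)).erase (i : ℕ), (orb f P i' 0 + c * orb f P i' 1 + c ^ 2))
  have hBa : ∀ u : AbsoluteValue K ℝ, ∃ B : Finset K, B.card ≤ k ∧ (u ∈ T →
      ∀ a ∈ 𝒜, a ∉ B → ∀ i, κ2 * u (x i) ≤ u (∑ i, x i * a ^ (i : ℕ))) := by
    intro u
    by_cases hu : u ∈ T
    · obtain ⟨B, _, hc, G⟩ := H2 u hu x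
      exact ⟨B, hc, fun _ => G⟩
    · exact ⟨∅, by simp, fun h => absurd h hu⟩
  choose Ba hBa1 hBa2 using hBa
  obtain ⟨a, ha𝒜, ha⟩ : ∃ a ∈ 𝒜, a ∉ T.biUnion Ba := by
    apply Finset.exists_mem_notMem_of_card_lt_card
    have h2 := Finset.card_biUnion_le_card_mul T Ba k (fun p _ => hBa1 p)
    rw [h𝒜]
    have h3 : T.card * k = k * T.card := by ring
    omega
  refine ⟨(ext w, a, c), ?_, fun u hu => ?_⟩
  · rw [Finset.mem_product, Finset.mem_product]
    exact ⟨Finset.mem_image_of_mem _ (Finset.mem_univ _), ha𝒜, hc𝒞⟩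
  -- conclusion
  obtain ⟨i, hi⟩ := hidx u hu
  have hext : ext w (i : ℕ) = w i := by
    simp only [ext, i.2, dite_true]
  have h3 := hBa2 u hu a ha𝒜 (fun h => ha (Finset.mem_biUnion.2 ⟨u, hu, h⟩)) i
  have hsum : ∑ j : Fin (k + 1), x j * a ^ (j : ℕ) = eval P (Qw f v k (ext w) a c) := by
    rw [eval_Qw, Finset.sum_range]
  rw [hsum] at h3
  have hir : (i : ℕ) ∈ Finset.range (k + 1) := Finset.mem_range.2 i.2
  have hx : κ0 * κ1 ^ (k + 1) * ∏ j ∈ Finset.range (k + 1), nn u (orb f P j) ≤ u (x i) := by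
    have hxe : u (x i) = u (eval (orb f P i) (lf (v (ext w i))) + c) *
        ∏ i' ∈ (Finset.range (k + 1)).erase (i : ℕ),
          u (orb f P i' 0 + c * orb f P i' 1 + c ^ 2) := by
      simp only [x]
      rw [map_mul, map_prod]
    have hprod : ∏ i' ∈ (Finset.range (k + 1)).erase (i : ℕ), (κ1 * nn u (orb f P i')) ≤
        ∏ i' ∈ (Finset.range (k + 1)).erase (i : ℕ),
          u (orb f P i' 0 + c * orb f P i' 1 + c ^ 2) := by
      refine Finset.prod_le_prod (fun j _ => ?_) fun j hj => ?_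
      · exact mul_nonneg hκ1.le (zero_le_one.trans (one_le_nn _ _))
      · exact (hcg u hu j (Finset.mem_of_mem_erase hj)).1
    have hl : κ1 * (κ0 * nn u (orb f P i)) ≤
        u (eval (orb f P i) (lf (v (ext w i))) + c) := by
      refine le_trans ?_ (hcg u hu i hir).2
      rw [hext]
      exact mul_le_mul_of_nonneg_left hi hκ1.le
    have hpr0 : 0 ≤ ∏ i' ∈ (Finset.range (k + 1)).erase (i : ℕ), (κ1 * nn u (orb f P i')) :=
      Finset.prod_nonneg fun j _ => mul_nonneg hκ1.le (zero_le_one.trans (one_le_nn _ _))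
    rw [hxe]
    have hall : κ0 * κ1 ^ (k + 1) * ∏ j ∈ Finset.range (k + 1), nn u (orb f P j) =
        κ1 * (κ0 * nn u (orb f P i)) *
          ∏ i' ∈ (Finset.range (k + 1)).erase (i : ℕ), (κ1 * nn u (orb f P i')) := by
      rw [← Finset.mul_prod_erase (Finset.range (k + 1)) (fun j => nn u (orb f P j)) hir,
        Finset.prod_mul_distrib, Finset.prod_const, Finset.card_erase_of_mem hir,
        Finset.card_range, Nat.add_sub_cancel, pow_succ]
      ring
    rw [hall]
    exact mul_le_mul hl hprod hpr0 (u.nonneg _)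
  calc κ2 * (κ0 * κ1 ^ (k + 1)) * ∏ j ∈ Finset.range (k + 1), nn u (orb f P j)
      = κ2 * (κ0 * κ1 ^ (k + 1) * ∏ j ∈ Finset.range (k + 1), nn u (orb f P j)) := by ring
    _ ≤ κ2 * u (x i) := mul_le_mul_of_nonneg_left hx hκ2.le
    _ ≤ u (eval P (Qw f v k (ext w) a c)) := h3
    _ ≤ nn u ![eval P (Qw f v k (ext w) a c), 0] := by
        unfold nn
        exact (le_max_left _ _).trans (le_max_left _ _)

end Pool.Agent.Work.MP_91e6de_nt.BM

end

section

set_option autoImplicit false

namespace Pool.Agent.Work.MP_91e6de_nt.BM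

open MvPolynomial Height Height.AdmissibleAbsValues Filter Topology
open Pool.Agent.Work.MP_91e6de_nt.BL

namespace AuxSqC

theorem exists_pderiv_ne {K : Type} [Field K] [CharZero K] (Q : MvPolynomial (Fin 2) K)
    (hQ : 1 ≤ Q.totalDegree) : ∃ i, pderiv i Q ≠ 0 := by
  classical
  have h0 : Q.totalDegree ≠ 0 := by omega
  rw [Ne, totalDegree_eq_zero_iff] at h0
  push Not at h0
  obtain ⟨s, hs, i, hi⟩ := h0
  refine ⟨i, fun h => ?_⟩
  have h1 := coeff_pderiv (p := Q) (i := i) (m := s - Finsupp.single i 1)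
  rw [h, coeff_zero] at h1
  have h2 : s - Finsupp.single i 1 + Finsupp.single i 1 = s := by
    ext j
    by_cases hj : j = i
    · subst hj; simp; omega
    · simp [Ne.symm hj]
  rw [h2] at h1
  have h3 : coeff s Q ≠ 0 := mem_support_iff.1 hs
  rcases mul_eq_zero.1 h1.symm with h4 | h4
  · exact h3 h4
  · exact Nat.cast_add_one_ne_zero _ h4

end AuxSqC

theorem pr_SqC : S_SqC := by
  classical
  intro K _ _ Q hQ
  obtain ⟨i, hi⟩ := AuxSqC.exists_pderiv_ne Q hQ
  let cc : Pol K → K := fun p => if h : ∃ c, p ∣ Q + C c then h.choose else 0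
  refine ⟨((UniqueFactorizationMonoid.factors (pderiv i Q)).toFinset).image cc, fun c hc => ?_⟩
  intro x hx
  by_contra hx'
  have hne : Q + C c ≠ 0 := by
    intro h
    have : Q = C (-c) := by rw [C_neg]; exact eq_neg_of_add_eq_zero_left h
    rw [this, totalDegree_C] at hQ
    omega
  have hx0 : x ≠ 0 := by
    rintro rfl
    rw [zero_mul, zero_dvd_iff] at hx
    exact hne hx
  obtain ⟨p, hp, hpx⟩ := WfDvdMonoid.exists_irreducible_factor hx' hx0
  have hpp : p * p ∣ Q + C c := (mul_dvd_mul hpx hpx).trans hx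
  have hpQ : p ∣ Q + C c := (Dvd.intro _ rfl).trans hpp
  have hpD : p ∣ pderiv i Q := by
    obtain ⟨r, hr⟩ := hpp
    have h1 : pderiv i (Q + C c) = pderiv i Q := by simp
    rw [← h1, hr, Derivation.leibniz, Derivation.leibniz]
    refine dvd_add ?_ ?_
    · rw [smul_eq_mul, mul_assoc]; exact Dvd.intro _ rfl
    · refine dvd_smul_of_dvd _ ?_
      exact dvd_add (by rw [smul_eq_mul]; exact Dvd.intro _ rfl)
        (by rw [smul_eq_mul]; exact Dvd.intro _ rfl)
  obtain ⟨q, hq, hpq⟩ := UniqueFactorizationMonoid.exists_mem_factors_of_dvd hi hp hpD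
  have hqQ : q ∣ Q + C c := hpq.symm.dvd.trans hpQ
  have hex : ∃ c, q ∣ Q + C c := ⟨c, hqQ⟩
  have hcq : q ∣ Q + C (cc q) := by
    have : cc q = hex.choose := dif_pos hex
    rw [this]; exact hex.choose_spec
  have hd : q ∣ C (c - cc q) := by
    have h2 := dvd_sub hqQ hcq
    have h3 : Q + C c - (Q + C (cc q)) = C (c - cc q) := by rw [C_sub]; ring
    rwa [h3] at h2
  by_cases h : c = cc q
  · exact hc (Finset.mem_image.2 ⟨q, Multiset.mem_toFinset.2 hq, h.symm⟩)
  · have hu : IsUnit (C (c - cc q) : Pol K) := (IsUnit.mk0 _ (sub_ne_zero.2 h)).map C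
    exact (hpq.irreducible hp).not_isUnit (isUnit_of_dvd_unit hd hu)

end Pool.Agent.Work.MP_91e6de_nt.BM

end

section

set_option autoImplicit false

/-!
# MP_91e6de_nt, block BM: item Sub (good elements for all absolute values of a finite set)
-/

namespace Pool.Agent.Work.MP_91e6de_nt.BM

open MvPolynomial Height Height.AdmissibleAbsValues Filter Topology
open Pool.Agent.Work.MP_91e6de_nt.BL

namespace AuxSub

theorem all (h : S_Van) (K : Type) [Field K] (𝒜 : Finset K) (k : ℕ)
    (T : Finset (AbsoluteValue K ℝ)) : ∃ κ : ℝ, 0 < κ ∧ ∀ x : Fin (k + 1) → K, ∃ B ⊆ 𝒜,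
      B.card ≤ k * T.card ∧
      ∀ a ∈ 𝒜, a ∉ B → ∀ v ∈ T, ∀ i, κ * v (x i) ≤ v (∑ i, x i * a ^ (i : ℕ)) := by
  classical
  induction T using Finset.induction_on with
  | empty =>
    refine ⟨1, one_pos, fun x => ⟨∅, Finset.empty_subset _, by simp, ?_⟩⟩
    intro a _ _ v hv
    simp at hv
  | insert v T hv ih =>
    obtain ⟨κ₁, hκ₁, h1⟩ := ih
    obtain ⟨κ₂, hκ₂, h2⟩ := h K v 𝒜 k
    refine ⟨min κ₁ κ₂, lt_min hκ₁ hκ₂, fun x => ?_⟩
    obtain ⟨B₁, hB₁, hc₁, h1'⟩ := h1 x
    obtain ⟨B₂, hB₂, hc₂, h2'⟩ := h2 x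
    refine ⟨B₁ ∪ B₂, Finset.union_subset hB₁ hB₂, ?_, ?_⟩
    · rw [Finset.card_insert_of_notMem hv]
      have := Finset.card_union_le B₁ B₂
      nlinarith
    · intro a ha hab w hw i
      rw [Finset.mem_union, not_or] at hab
      rcases Finset.mem_insert.1 hw with rfl | hw
      · exact (mul_le_mul_of_nonneg_right (min_le_right _ _) (w.nonneg _)).trans
          (h2' a ha hab.2 i)
      · exact (mul_le_mul_of_nonneg_right (min_le_left _ _) (w.nonneg _)).trans
          (h1' a ha hab.1 w hw i)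

end AuxSub

theorem pr_Sub (h : S_Van) : S_Sub := by
  classical
  intro K _ T 𝒜 k s hs
  obtain ⟨κ, hκ, h1⟩ := AuxSub.all h K 𝒜 k T
  refine ⟨κ, hκ, fun x => ?_⟩
  obtain ⟨B, hB, hc, h2⟩ := h1 x
  have hcard : s ≤ (𝒜 \ B).card := by
    rw [Finset.card_sdiff_of_subset hB]
    omega
  obtain ⟨𝒜', h𝒜', hc'⟩ := Finset.exists_subset_card_eq hcard
  refine ⟨𝒜', h𝒜'.trans Finset.sdiff_subset, hc', ?_⟩
  intro a ha v hv i
  have := Finset.mem_sdiff.1 (h𝒜' ha)
  exact h2 a this.1 this.2 v hv i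

end Pool.Agent.Work.MP_91e6de_nt.BM

end
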