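import Pool.Agent.Work.MP_91e6de_nt.BM.Stmts

/-! Bundle of small proof modules (one section per former module). -/

section

set_option autoImplicit false

/-!
# MP_91e6de_nt, block BM: the strict inequality
-/

namespace Pool.Agent.Work.MP_91e6de_nt.BM

open MvPolynomial Height Height.AdmissibleAbsValues Filter Topology
open Pool.Agent.Work.MP_91e6de_nt.BL

namespace AuxStr

lemma Ii_comm {K : Type} [Field K] (u w : Pol K) : Ii u w = Ii w u := by
  unfold Ii
  rw [Set.pair_comm]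

lemma cn_one (z : Fin 2 → ℂ) : 1 ≤ cn z := le_max_right _ _

lemma la_deg {K : Type} [Field K] (b : K) (u : Fin 2 → Pol K) (D : ℕ)
    (h : ∀ i, (u i).totalDegree ≤ D) : (la b u).totalDegree ≤ D := by
  unfold la
  refine (totalDegree_add _ _).trans
    (max_le ((totalDegree_add _ _).trans (max_le (h 0) ?_)) ?_)
  · refine (totalDegree_mul _ _).trans ?_
    rw [totalDegree_C, zero_add]
    exact h 1
  · rw [totalDegree_C]
    exact Nat.zero_le _

lemma X_not_unit {K : Type} [Field K] : ¬ IsUnit (X 0 : Pol K) := by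
  intro h
  have h2 := h.map (aeval (fun _ => (0 : K)) : Pol K →ₐ[K] K)
  rw [aeval_X] at h2
  exact not_isUnit_zero h2

lemma la_ne {K : Type} [Field K] (b : K) (u : Fin 2 → Pol K)
    (h : IsRelPrime (X 0 : Pol K) (la b u)) : la b u ≠ 0 := by
  intro h0
  rw [h0, isRelPrime_zero_right] at h
  exact X_not_unit h

lemma it_deg {K : Type} [Field K] (f : Fin 2 → Pol K) (d n : ℕ) (h : ∀ n, dg f n = d ^ n) :
    ∀ i, (it f n i).totalDegree ≤ d ^ n := by
  intro i
  rw [← h n]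
  unfold dg
  fin_cases i
  · exact le_max_left _ _
  · exact le_max_right _ _

lemma exists_big {K : Type} [Infinite K] (E : Finset K) (n : ℕ) :
    ∃ A : Finset K, (∀ a ∈ A, a ∉ E) ∧ A.card = n := by
  have h : (((E : Set K))ᶜ).Infinite := E.finite_toSet.infinite_compl
  obtain ⟨t, ht, hc⟩ := h.exists_subset_card_eq n
  refine ⟨t, fun a ha => ?_, hc⟩
  have := ht (Finset.mem_coe.2 ha)
  simpa using this

lemma fin_ineq (I S : ℕ) (η Cc : ℝ) (hη : 0 < η)
    (h : ∀ R : ℝ, ∃ x : ℝ, R ≤ x ∧ (I : ℝ) * x ≤ S * x - η * x + Cc) : I + 1 ≤ S := by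
  by_contra hn
  have hSI : S ≤ I := by omega
  obtain ⟨x, hx, h1⟩ := h (max (Cc / η + 1) 0)
  have hx0 : 0 ≤ x := le_trans (le_max_right _ _) hx
  have hx1 : Cc / η + 1 ≤ x := le_trans (le_max_left _ _) hx
  have h2 : (S : ℝ) * x ≤ I * x := mul_le_mul_of_nonneg_right (by exact_mod_cast hSI) hx0
  have h3 : η * x ≤ Cc := by linarith
  have h4 : η * (Cc / η + 1) ≤ η * x := mul_le_mul_of_nonneg_left hx1 hη.le
  have h5 : η * (Cc / η + 1) = Cc + η := by field_simp
  linarith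

lemma msum (s : Multiset (Fin 2 → ℂ)) (F : (Fin 2 → ℂ) → ℝ) (L : ℝ) (n : ℕ)
    (g : ℕ → (Fin 2 → ℂ) → ℝ) :
    (∀ z ∈ s, F z ≤ L + ∑ i ∈ Finset.range n, g i z) →
    (s.map F).sum ≤ (Multiset.card s : ℝ) * L + ∑ i ∈ Finset.range n, (s.map (g i)).sum := by
  induction s using Multiset.induction_on with
  | empty => intro _; simp
  | cons a s ih =>
    intro h
    have h1 := ih (fun z hz => h z (Multiset.mem_cons_of_mem hz))
    have h2 := h a (Multiset.mem_cons_self a s)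
    simp only [Multiset.map_cons, Multiset.sum_cons, Multiset.card_cons, Finset.sum_add_distrib]
    push_cast
    linarith

lemma msum' (s : Multiset (Fin 2 → ℂ)) (F : (Fin 2 → ℂ) → ℝ) (L lt : ℝ) (n : ℕ)
    (g : ℕ → (Fin 2 → ℂ) → ℝ) (z₀ : Fin 2 → ℂ) (hz : z₀ ∈ s)
    (h : ∀ z ∈ s, F z ≤ L + ∑ i ∈ Finset.range n, g i z)
    (h₀ : F z₀ ≤ L + lt + ∑ i ∈ Finset.range n, g i z₀) :
    (s.map F).sum ≤ lt + (Multiset.card s : ℝ) * L +
      ∑ i ∈ Finset.range n, (s.map (g i)).sum := by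
  obtain ⟨r, rfl⟩ := Multiset.exists_cons_of_mem hz
  have h1 := msum r F L n g (fun z hz => h z (Multiset.mem_cons_of_mem hz))
  simp only [Multiset.map_cons, Multiset.sum_cons, Multiset.card_cons, Finset.sum_add_distrib]
  push_cast
  linarith

/-- the analytic part -/
lemma core {K : Type} [Field K] (h4 : S_StrU) (φ : K →+* ℂ) (f : Fin 2 → Pol K)
    (v : Fin 2 → Fin 2 → K) (k : ℕ) (w : ℕ → Fin 2) (a c c' : K) (G : Pol K)
    (Z : ℂ → Multiset (Fin 2 → ℂ)) (hZ : Crv φ G Z) (m : ℕ → ℕ)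
    (hrel : IsRelPrime G (Qw f v k w a c + C c'))
    (hJ : ∀ i, i ≤ k → ∃ C ρ : ℝ, 1 ≤ ρ ∧ ∀ t : ℂ, ρ ≤ ‖t‖ →
      ((Z t).map (fun z => Real.log (cn (ce φ (it f i) z)))).sum ≤ m i * Real.log ‖t‖ + C)
    (hW : ∃ η C : ℝ, 0 < η ∧ ∀ M : ℝ, ∃ z : Fin 2 → ℂ,
      M ≤ cn z ∧ eval₂ φ z G = 0 ∧
      ∀ i, i ≤ k → cn z ^ η ≤ cn (ce φ (it f i) z) ∧
        ‖eval₂ φ z (aeval (it f i) (lf (v (w i))) : Pol K)‖ ≤
          C * cn (ce φ (it f i) z) * cn z ^ (-η)) :
    Ii G (Qw f v k w a c + C c') + 1 ≤ ∑ i ∈ Finset.range (k + 1), m i := by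
  obtain ⟨η, C₁, hη, hW⟩ := hW
  obtain ⟨B, hB, hU⟩ := h4 K φ f v k w a c c'
  obtain ⟨C₂, ρ₂, hρ₂, hP⟩ := hZ.poi _ hrel
  obtain ⟨C₃, hC₃, hbd⟩ := hZ.bd
  choose! Cj ρj hρj hJ using hJ
  set Q' : Pol K := Qw f v k w a c + C c' with hQ'
  -- the constants
  set ρ : ℝ := max ρ₂ (1 + ∑ i ∈ Finset.range (k + 1), ρj i) with hρ
  have hρ1 : 1 ≤ ρ := le_trans hρ₂ (le_max_left _ _)
  have hρi : ∀ i, i ≤ k → ρj i ≤ ρ := by
    intro i hi
    have h1 : ρj i ≤ ∑ i ∈ Finset.range (k + 1), ρj i :=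
      Finset.single_le_sum (f := ρj)
        (fun i hi => by
          have := hρj i (by have := Finset.mem_range.1 hi; omega)
          linarith)
        (Finset.mem_range.2 (by omega))
    have h2 := le_max_right ρ₂ (1 + ∑ i ∈ Finset.range (k + 1), ρj i)
    linarith
  refine fin_ineq _ _ η (C₂ + Real.log (max C₁ 1) + η * Real.log C₃ +
    (G.totalDegree : ℝ) * Real.log B + ∑ i ∈ Finset.range (k + 1), Cj i) hη fun R => ?_
  obtain ⟨z₀, hz1, hz2, hz3⟩ := hW (C₃ * max ρ (Real.exp R) + C₃)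
  obtain ⟨t₀, ht₀⟩ := hZ.mem z₀ hz2
  obtain ⟨hb1, hb2⟩ := hbd t₀ z₀ ht₀
  have hC₃0 : 0 < C₃ := by linarith
  have hexp : 0 < max ρ (Real.exp R) := lt_max_of_lt_left (by linarith)
  have ht1 : max ρ (Real.exp R) ≤ ‖t₀‖ := by
    by_contra hn
    have hn := not_le.1 hn
    have h1 : max ‖t₀‖ 1 ≤ max ρ (Real.exp R) :=
      max_le hn.le (le_trans hρ1 (le_max_left _ _))
    have h2 : C₃ * max ‖t₀‖ 1 ≤ C₃ * max ρ (Real.exp R) :=
      mul_le_mul_of_nonneg_left h1 hC₃0.le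
    linarith
  have htρ : ρ ≤ ‖t₀‖ := le_trans (le_max_left _ _) ht1
  have ht0 : 0 < ‖t₀‖ := by linarith
  have htR : R ≤ Real.log ‖t₀‖ :=
    (Real.le_log_iff_exp_le ht0).2 (le_trans (le_max_right _ _) ht1)
  refine ⟨Real.log ‖t₀‖, htR, ?_⟩
  obtain ⟨hne, habs⟩ := hP t₀ (le_trans (le_max_left _ _) htρ)
  have hcn : ∀ i z, 0 < cn (ce φ (it f i) z) := fun i z => by
    have := cn_one (ce φ (it f i) z); linarith
  have hz0 : 0 < cn z₀ := by have := cn_one z₀; linarith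
  have hprod : ∀ z, Real.log (∏ i ∈ Finset.range (k + 1), cn (ce φ (it f i) z)) =
      ∑ i ∈ Finset.range (k + 1), Real.log (cn (ce φ (it f i) z)) := fun z =>
    Real.log_prod (fun i _ => (hcn i z).ne')
  have hprod0 : ∀ z, 0 < ∏ i ∈ Finset.range (k + 1), cn (ce φ (it f i) z) := fun z =>
    Finset.prod_pos fun i _ => hcn i z
  have hB0 : 0 < B := by linarith
  set θ : ℝ := max C₁ 1 * cn z₀ ^ (-η) with hθ
  have hm1 : 0 < max C₁ 1 := lt_max_of_lt_right one_pos
  have hpw : 0 < cn z₀ ^ (-η) := Real.rpow_pos_of_pos hz0 _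
  have hθ0 : 0 < θ := mul_pos hm1 hpw
  have hθe : ‖eval₂ φ z₀ Q'‖ ≤
      B * θ * ∏ i ∈ Finset.range (k + 1), cn (ce φ (it f i) z₀) := by
    refine (hU z₀).2 θ hθ0 fun i hi => ⟨?_, ?_⟩
    · have h1 := (hz3 i hi).1
      have h2 : cn z₀ ^ (-η) * cn z₀ ^ η = 1 := by
        rw [← Real.rpow_add hz0]
        simp
      calc (1 : ℝ) = 1 * (cn z₀ ^ (-η) * cn z₀ ^ η) := by rw [h2, one_mul]
        _ ≤ max C₁ 1 * (cn z₀ ^ (-η) * cn (ce φ (it f i) z₀)) := by
            refine mul_le_mul (le_max_right _ _) (mul_le_mul_of_nonneg_left h1 hpw.le)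
              ?_ hm1.le
            rw [h2]
            exact zero_le_one
        _ = θ * cn (ce φ (it f i) z₀) := by rw [hθ]; ring
    · refine (hz3 i hi).2.trans ?_
      have h1 : C₁ * cn (ce φ (it f i) z₀) ≤ max C₁ 1 * cn (ce φ (it f i) z₀) :=
        mul_le_mul_of_nonneg_right (le_max_left _ _) (hcn i z₀).le
      calc C₁ * cn (ce φ (it f i) z₀) * cn z₀ ^ (-η)
          ≤ max C₁ 1 * cn (ce φ (it f i) z₀) * cn z₀ ^ (-η) :=
            mul_le_mul_of_nonneg_right h1 hpw.le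
        _ = θ * cn (ce φ (it f i) z₀) := by rw [hθ]; ring
  have hlog : ∀ z ∈ Z t₀, Real.log ‖eval₂ φ z Q'‖ ≤ Real.log B +
      ∑ i ∈ Finset.range (k + 1), Real.log (cn (ce φ (it f i) z)) := by
    intro z hz
    rw [← hprod z, ← Real.log_mul hB0.ne' (hprod0 z).ne']
    exact Real.log_le_log (norm_pos_iff.2 (hne z hz)) (hU z).1
  have hlog0 : Real.log ‖eval₂ φ z₀ Q'‖ ≤ Real.log B + Real.log θ +
      ∑ i ∈ Finset.range (k + 1), Real.log (cn (ce φ (it f i) z₀)) := by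
    rw [← hprod z₀, ← Real.log_mul hB0.ne' hθ0.ne',
      ← Real.log_mul (mul_pos hB0 hθ0).ne' (hprod0 z₀).ne']
    exact Real.log_le_log (norm_pos_iff.2 (hne z₀ ht₀)) hθe
  have hsum := msum' (Z t₀) (fun z => Real.log ‖eval₂ φ z Q'‖) (Real.log B) (Real.log θ)
    (k + 1) (fun i z => Real.log (cn (ce φ (it f i) z))) z₀ ht₀ hlog hlog0
  have hJs : ∑ i ∈ Finset.range (k + 1),
      ((Z t₀).map (fun z => Real.log (cn (ce φ (it f i) z)))).sum ≤
      ∑ i ∈ Finset.range (k + 1), ((m i : ℝ) * Real.log ‖t₀‖ + Cj i) := by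
    refine Finset.sum_le_sum fun i hi => ?_
    have hi' : i ≤ k := by have := Finset.mem_range.1 hi; omega
    exact hJ i hi' t₀ (le_trans (hρi i hi') htρ)
  rw [Finset.sum_add_distrib, ← Finset.sum_mul] at hJs
  have hlθ : Real.log θ = Real.log (max C₁ 1) - η * Real.log (cn z₀) := by
    rw [hθ, Real.log_mul hm1.ne' hpw.ne', Real.log_rpow hz0]
    ring
  have hlc : Real.log ‖t₀‖ ≤ Real.log C₃ + Real.log (cn z₀) := by
    rw [← Real.log_mul hC₃0.ne' hz0.ne']
    exact Real.log_le_log ht0 hb2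
  have hlc2 := mul_le_mul_of_nonneg_left hlc hη.le
  rw [hZ.card t₀] at hsum
  have habs1 := (abs_le.1 habs).1
  push_cast
  linarith

end AuxStr

theorem pr_Str (h1 : S_Crv) (h2 : S_Jn) (h3 : S_CopU) (h4 : S_StrU) (h5 : S_Up1) : S_Str := by
  classical
  intro K _ φ f d μ v k w hd hdg hMu hWR a c c' hQ
  haveI : CharZero K := φ.charZero
  haveI : Infinite K := CharZero.infinite K
  -- exceptional sets
  have hE : ∀ i : ℕ, ∃ E : Finset K, i ≤ k → ∀ a, a ∉ E → ∃ E' : Finset K, ∀ b, b ∉ E' →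
      IsRelPrime (la a (it f i)) (la b (it f (k + 1))) ∧
      Ii (la a (it f i)) (la b (it f (k + 1))) = μ i * d ^ (k + 1 - i) := by
    intro i
    by_cases hi : i ≤ k
    · obtain ⟨E, hE⟩ := hMu i (k + 1) (by omega)
      exact ⟨E, fun _ a ha => (hE a ha).1⟩
    · exact ⟨∅, fun h => absurd h hi⟩
  choose E₀ hE₀ using hE
  obtain ⟨𝒜, h𝒜, hcard⟩ := AuxStr.exists_big
    ((Finset.range (k + 1)).biUnion E₀) (2 * d ^ (k + 1) + 1)
  have hE1 : ∀ (i : ℕ) (a : K), ∃ E' : Finset K, i ≤ k → a ∈ 𝒜 → ∀ b, b ∉ E' →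
      IsRelPrime (la a (it f i)) (la b (it f (k + 1))) ∧
      Ii (la a (it f i)) (la b (it f (k + 1))) = μ i * d ^ (k + 1 - i) := by
    intro i a
    by_cases h : i ≤ k ∧ a ∈ 𝒜
    · have ha : a ∉ E₀ i := fun hn => h𝒜 a h.2
        (Finset.mem_biUnion.2 ⟨i, Finset.mem_range.2 (by omega), hn⟩)
      obtain ⟨E', hE'⟩ := hE₀ i h.1 a ha
      exact ⟨E', fun _ _ => hE'⟩
    · exact ⟨∅, fun hi ha => absurd ⟨hi, ha⟩ h⟩
  choose E₁ hE₁ using hE1
  obtain ⟨E₂, hE₂⟩ := hWR
  obtain ⟨E₃, hE₃⟩ := (h3 K _ hQ).1 (it f (k + 1))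
  obtain ⟨E₄, hE₄⟩ := (h3 K (X 0) (X_ne_zero 0)).1 (it f (k + 1))
  refine ⟨(Finset.range (k + 1)).biUnion (fun i => 𝒜.biUnion (E₁ i)) ∪ (E₂ ∪ (E₃ ∪ E₄)),
    fun b hb => ?_⟩
  rw [Finset.mem_union, Finset.mem_union, Finset.mem_union, not_or, not_or, not_or] at hb
  obtain ⟨hb1, hb2, hb3, hb4⟩ := hb
  have hG0 : la b (it f (k + 1)) ≠ 0 := AuxStr.la_ne _ _ (hE₄ b hb4)
  obtain ⟨Z, hZ⟩ := h1 K φ _ hG0
  have hrel := hE₃ b hb3
  refine ⟨hrel, ?_⟩
  rw [AuxStr.Ii_comm]
  refine AuxStr.core h4 φ f v k w a c c' _ Z hZ (fun i => μ i * d ^ (k + 1 - i)) hrel.symm ?_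
    (hE₂ b hb2)
  intro i hi
  have hdeg : (la b (it f (k + 1))).totalDegree ≤ d ^ (k + 1) :=
    AuxStr.la_deg _ _ _ (AuxStr.it_deg f d (k + 1) hdg)
  refine h2 K φ _ Z (μ i * d ^ (k + 1 - i)) (it f i) 𝒜 hZ (by omega) fun a' ha' => ?_
  have hb' : b ∉ E₁ i a' := fun hn => hb1 (Finset.mem_biUnion.2
    ⟨i, Finset.mem_range.2 (by omega), Finset.mem_biUnion.2 ⟨a', ha', hn⟩⟩)
  obtain ⟨h6, h7⟩ := hE₁ i a' hi ha' b hb'
  refine ⟨h6.symm, ?_⟩
  rw [AuxStr.Ii_comm, h7]

end Pool.Agent.Work.MP_91e6de_nt.BM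

end

section

set_option autoImplicit false

namespace Pool.Agent.Work.MP_91e6de_nt.BM

open MvPolynomial Height Height.AdmissibleAbsValues Filter Topology
open Pool.Agent.Work.MP_91e6de_nt.BL

namespace AuxStrU

lemma one_le_cn (z : Fin 2 → ℂ) : 1 ≤ cn z := le_max_right _ _

lemma le_cn0 (z : Fin 2 → ℂ) : ‖z 0‖ ≤ cn z := (le_max_left _ _).trans (le_max_left _ _)

lemma le_cn1 (z : Fin 2 → ℂ) : ‖z 1‖ ≤ cn z := (le_max_right _ _).trans (le_max_left _ _)

lemma one_le_pr {s : Finset ℕ} {c : ℕ → ℝ} (h : ∀ i ∈ s, 1 ≤ c i) : 1 ≤ ∏ i ∈ s, c i := by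
  have := Finset.prod_le_prod (s := s) (f := fun _ => (1 : ℝ)) (g := c)
    (fun _ _ => zero_le_one) h
  rwa [Finset.prod_const_one] at this

lemma gen (k : ℕ) (α x y : ℕ → ℂ) (c M : ℕ → ℝ) (Λ : ℝ)
    (hM : ∀ i ∈ Finset.range (k + 1), ‖x i‖ ≤ M i * c i)
    (hy : ∀ i, ‖y i‖ ≤ Λ * c i) :
    ‖∑ i ∈ Finset.range (k + 1), α i * x i * ∏ i' ∈ (Finset.range (k + 1)).erase i, y i'‖ ≤
      (∑ i ∈ Finset.range (k + 1), ‖α i‖ * M i * Λ ^ k) * ∏ i ∈ Finset.range (k + 1), c i := by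
  refine (norm_sum_le _ _).trans ?_
  rw [Finset.sum_mul]
  refine Finset.sum_le_sum fun i hi => ?_
  rw [norm_mul, norm_mul, norm_prod]
  have h1 : ∏ i' ∈ (Finset.range (k + 1)).erase i, ‖y i'‖ ≤
      Λ ^ k * ∏ i' ∈ (Finset.range (k + 1)).erase i, c i' := by
    calc ∏ i' ∈ (Finset.range (k + 1)).erase i, ‖y i'‖
        ≤ ∏ i' ∈ (Finset.range (k + 1)).erase i, (Λ * c i') :=
          Finset.prod_le_prod (fun _ _ => norm_nonneg _) (fun i' _ => hy i')
      _ = _ := by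
          rw [Finset.prod_mul_distrib, Finset.prod_const, Finset.card_erase_of_mem hi,
            Finset.card_range, Nat.add_sub_cancel]
  have h2 := hM i hi
  calc ‖α i‖ * ‖x i‖ * ∏ i' ∈ (Finset.range (k + 1)).erase i, ‖y i'‖
      ≤ ‖α i‖ * (M i * c i) * (Λ ^ k * ∏ i' ∈ (Finset.range (k + 1)).erase i, c i') :=
        mul_le_mul (mul_le_mul_of_nonneg_left h2 (norm_nonneg _)) h1
          (Finset.prod_nonneg fun _ _ => norm_nonneg _)
          (mul_nonneg (norm_nonneg _) ((norm_nonneg _).trans h2))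
    _ = ‖α i‖ * M i * Λ ^ k * (c i * ∏ i' ∈ (Finset.range (k + 1)).erase i, c i') := by ring
    _ = _ := by rw [Finset.mul_prod_erase _ _ hi]

variable {K : Type} [Field K]

lemma ev_Qw (φ : K →+* ℂ) (f : Fin 2 → Pol K) (v : Fin 2 → Fin 2 → K) (k : ℕ) (w : ℕ → Fin 2)
    (a c : K) (z : Fin 2 → ℂ) : eval₂ φ z (Qw f v k w a c) =
    ∑ i ∈ Finset.range (k + 1), φ (a ^ i) *
      (eval₂ φ z (aeval (it f i) (lf (v (w i))) : Pol K) + φ c) *
      ∏ i' ∈ (Finset.range (k + 1)).erase i, eval₂ φ z (la c (it f i')) := by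
  unfold Qw
  rw [← coe_eval₂Hom, map_sum]
  refine Finset.sum_congr rfl fun i _ => ?_
  rw [map_mul, map_mul, map_add, map_prod]
  simp only [coe_eval₂Hom, eval₂_C]

lemma ev_la (φ : K →+* ℂ) (u : Fin 2 → Pol K) (c : K) (z : Fin 2 → ℂ) :
    ‖eval₂ φ z (la c u)‖ ≤ (1 + ‖φ c‖ + ‖φ (c ^ 2)‖) * cn (ce φ u z) := by
  unfold la
  rw [eval₂_add, eval₂_add, eval₂_mul, eval₂_C, eval₂_C]
  have h0 : ‖eval₂ φ z (u 0)‖ ≤ cn (ce φ u z) := le_cn0 (ce φ u z)
  have h1 : ‖eval₂ φ z (u 1)‖ ≤ cn (ce φ u z) := le_cn1 (ce φ u z)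
  have h2 := one_le_cn (ce φ u z)
  calc _ ≤ ‖eval₂ φ z (u 0)‖ + ‖φ c‖ * ‖eval₂ φ z (u 1)‖ + ‖φ (c ^ 2)‖ := by
        refine (norm_add_le _ _).trans ?_
        gcongr
        refine (norm_add_le _ _).trans ?_
        rw [norm_mul]
    _ ≤ cn (ce φ u z) + ‖φ c‖ * cn (ce φ u z) + ‖φ (c ^ 2)‖ * cn (ce φ u z) := by
        gcongr
        exact le_mul_of_one_le_right (norm_nonneg _) h2
    _ = _ := by ring

lemma ev_lf (φ : K →+* ℂ) (u : Fin 2 → Pol K) (v : Fin 2 → K) (z : Fin 2 → ℂ) :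
    ‖eval₂ φ z (aeval u (lf v) : Pol K)‖ ≤ (‖φ (v 1)‖ + ‖φ (v 0)‖) * cn (ce φ u z) := by
  have e : (aeval u (lf v) : Pol K) = C (v 1) * u 0 - C (v 0) * u 1 := by
    unfold lf
    rw [map_sub, map_mul, map_mul, aeval_X, aeval_X]
    simp only [← algebraMap_eq, AlgHom.commutes]
  have h0 : ‖eval₂ φ z (u 0)‖ ≤ cn (ce φ u z) := le_cn0 (ce φ u z)
  have h1 : ‖eval₂ φ z (u 1)‖ ≤ cn (ce φ u z) := le_cn1 (ce φ u z)
  rw [e, ← coe_eval₂Hom, map_sub, map_mul, map_mul]
  simp only [coe_eval₂Hom, eval₂_C]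
  refine (norm_sub_le _ _).trans ?_
  rw [norm_mul, norm_mul, add_mul]
  gcongr

end AuxStrU

open AuxStrU in
theorem pr_StrU : S_StrU := by
  intro K _ φ f v k w a c c'
  set Λ : ℝ := 1 + ‖φ c‖ + ‖φ (c ^ 2)‖ with hΛd
  have hΛ : 1 ≤ Λ := by
    have := norm_nonneg (φ c)
    have := norm_nonneg (φ (c ^ 2))
    linarith
  set L : ℕ → ℝ := fun i => ‖φ (v (w i) 1)‖ + ‖φ (v (w i) 0)‖ with hL
  set B1 : ℝ := ∑ i ∈ Finset.range (k + 1), ‖φ (a ^ i)‖ * (L i + ‖φ c‖) * Λ ^ k with hB1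
  set B2 : ℝ := ∑ i ∈ Finset.range (k + 1), ‖φ (a ^ i)‖ * (1 + ‖φ c‖) * Λ ^ k with hB2
  have hΛ0 : 0 ≤ Λ := le_trans zero_le_one hΛ
  have b1 : 0 ≤ B1 := Finset.sum_nonneg fun i _ => by positivity
  have b2 : 0 ≤ B2 := Finset.sum_nonneg fun i _ => by positivity
  have b3 : 0 ≤ ‖φ c'‖ := norm_nonneg _
  refine ⟨1 + B1 + B2 + ‖φ c'‖, by linarith, fun z => ?_⟩
  set cc : ℕ → ℝ := fun i => cn (ce φ (it f i) z) with hcc
  have hc : ∀ i, 1 ≤ cc i := fun i => one_le_cn _
  set Pr : ℝ := ∏ i ∈ Finset.range (k + 1), cc i with hPr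
  have hPr1 : 1 ≤ Pr := by
    rw [hPr]
    exact one_le_pr (fun i _ => hc i)
  have e : eval₂ φ z (Qw f v k w a c + C c') = eval₂ φ z (Qw f v k w a c) + φ c' := by
    rw [eval₂_add, eval₂_C]
  rw [e]
  refine ⟨?_, fun θ hθ h => ?_⟩
  · have g := gen k (fun i => φ (a ^ i))
      (fun i => eval₂ φ z (aeval (it f i) (lf (v (w i))) : Pol K) + φ c)
      (fun i => eval₂ φ z (la c (it f i))) cc (fun i => L i + ‖φ c‖) Λ
      (fun i _ => by
        refine (norm_add_le _ _).trans ?_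
        rw [add_mul]
        refine add_le_add (ev_lf φ (it f i) (v (w i)) z) ?_
        exact le_mul_of_one_le_right (norm_nonneg _) (hc i))
      (fun i => ev_la φ (it f i) c z)
    rw [← ev_Qw φ f v k w a c z] at g
    calc _ ≤ ‖eval₂ φ z (Qw f v k w a c)‖ + ‖φ c'‖ := norm_add_le _ _
      _ ≤ B1 * Pr + ‖φ c'‖ * Pr := add_le_add g (le_mul_of_one_le_right b3 hPr1)
      _ = (B1 + ‖φ c'‖) * Pr := by ring
      _ ≤ _ := mul_le_mul_of_nonneg_right (by linarith) (by linarith)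
  · have g := gen k (fun i => φ (a ^ i))
      (fun i => eval₂ φ z (aeval (it f i) (lf (v (w i))) : Pol K) + φ c)
      (fun i => eval₂ φ z (la c (it f i))) cc (fun _ => (1 + ‖φ c‖) * θ) Λ
      (fun i hi => by
        obtain ⟨h1, h2⟩ := h i (Nat.lt_succ_iff.1 (Finset.mem_range.1 hi))
        refine (norm_add_le _ _).trans ?_
        calc _ ≤ θ * cc i + ‖φ c‖ * (θ * cc i) :=
              add_le_add h2 (le_mul_of_one_le_right (norm_nonneg _) h1)
          _ = _ := by ring)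
      (fun i => ev_la φ (it f i) c z)
    rw [← ev_Qw φ f v k w a c z] at g
    have g2 : ∑ i ∈ Finset.range (k + 1), ‖φ (a ^ i)‖ * ((1 + ‖φ c‖) * θ) * Λ ^ k = B2 * θ := by
      rw [hB2, Finset.sum_mul]
      exact Finset.sum_congr rfl fun i _ => by ring
    rw [g2] at g
    have h0 : 1 ≤ θ * cc 0 := (h 0 (Nat.zero_le _)).1
    have hc0 : cc 0 ≤ Pr := by
      rw [hPr, ← Finset.mul_prod_erase _ _ (Finset.mem_range.2 (Nat.succ_pos k))]
      exact le_mul_of_one_le_right (by linarith [hc 0]) (one_le_pr (fun i _ => hc i))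
    have h3 : 1 ≤ θ * Pr := h0.trans (mul_le_mul_of_nonneg_left hc0 hθ.le)
    calc _ ≤ ‖eval₂ φ z (Qw f v k w a c)‖ + ‖φ c'‖ := norm_add_le _ _
      _ ≤ B2 * θ * Pr + ‖φ c'‖ * (θ * Pr) := add_le_add g (le_mul_of_one_le_right b3 h3)
      _ = (B2 + ‖φ c'‖) * (θ * Pr) := by ring
      _ ≤ (1 + B1 + B2 + ‖φ c'‖) * (θ * Pr) :=
        mul_le_mul_of_nonneg_right (by linarith) (by linarith)
      _ = _ := by ring

end Pool.Agent.Work.MP_91e6de_nt.BM

end

section

set_option autoImplicit false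

/-!
# MP_91e6de_nt, block BM, item Top: top forms of compositions
-/

namespace Pool.Agent.Work.MP_91e6de_nt.BM

open MvPolynomial Height Height.AdmissibleAbsValues Filter Topology
open Pool.Agent.Work.MP_91e6de_nt.BL

namespace AuxTop

variable {K : Type} [Field K]

theorem coeff_zero {p : Pol K} {m : ℕ} (hp : p.totalDegree ≤ m) {s : Fin 2 →₀ ℕ}
    (hs : m < s.degree) : coeff s p = 0 :=
  coeff_eq_zero_of_totalDegree_lt (lt_of_le_of_lt hp hs)

theorem hmul {p q : Pol K} {m n : ℕ} (hp : p.totalDegree ≤ m) (hq : q.totalDegree ≤ n) :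
    homogeneousComponent (m + n) (p * q) =
      homogeneousComponent m p * homogeneousComponent n q := by
  ext s
  rw [coeff_homogeneousComponent, coeff_mul, coeff_mul]
  by_cases hs : s.degree = m + n
  · rw [if_pos hs]
    refine Finset.sum_congr rfl fun x hx => ?_
    rw [coeff_homogeneousComponent, coeff_homogeneousComponent]
    have hx' : x.1 + x.2 = s := by simpa using hx
    have hd : x.1.degree + x.2.degree = m + n := by rw [← hs, ← hx', map_add]
    rcases lt_trichotomy x.1.degree m with h | h | h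
    · have h2 : n < x.2.degree := by omega
      rw [coeff_zero hq h2, if_neg (by omega)]
      simp
    · rw [if_pos h, if_pos (by omega)]
    · rw [coeff_zero hp h, if_neg (by omega)]
      simp
  · rw [if_neg hs]
    symm
    refine Finset.sum_eq_zero fun x hx => ?_
    rw [coeff_homogeneousComponent, coeff_homogeneousComponent]
    have hx' : x.1 + x.2 = s := by simpa using hx
    have hd : x.1.degree + x.2.degree ≠ m + n := by rw [← map_add, hx']; exact hs
    by_cases h : x.1.degree = m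
    · rw [if_neg (show ¬ x.2.degree = n by omega), mul_zero]
    · rw [if_neg h, zero_mul]

theorem hpow {p : Pol K} {m : ℕ} (hp : p.totalDegree ≤ m) (k : ℕ) :
    homogeneousComponent (m * k) (p ^ k) = homogeneousComponent m p ^ k := by
  induction k with
  | zero =>
    rw [mul_zero, pow_zero, pow_zero]
    rw [homogeneousComponent_zero]
    simp
  | succ k ih =>
    rw [pow_succ, pow_succ, Nat.mul_succ, hmul ?_ hp, ih]
    refine (totalDegree_pow _ _).trans ?_
    rw [mul_comm]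
    exact Nat.mul_le_mul_right _ hp

theorem mono (u : Fin 2 → Pol K) (d e : ℕ) (hd : 1 ≤ d) (hu : ∀ i, (u i).totalDegree ≤ d)
    (s : Fin 2 →₀ ℕ) (c : K) (hs : s.degree ≤ e) :
    homogeneousComponent (d * e) (aeval u (monomial s c : Pol K) : Pol K) =
      aeval (fun i => homogeneousComponent d (u i)) (homogeneousComponent e (monomial s c)) := by
  have hdeg : s.degree = s 0 + s 1 := by
    rw [Finsupp.degree_eq_sum, Fin.sum_univ_two]
  have h1 : (aeval u (monomial s c : Pol K) : Pol K) = C c * (u 0 ^ s 0 * u 1 ^ s 1) := by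
    rw [aeval_monomial, Finsupp.prod_fintype _ _ (fun i => pow_zero _), Fin.prod_univ_two]
    rfl
  have ht0 : (u 0 ^ s 0).totalDegree ≤ d * s 0 := by
    refine (totalDegree_pow _ _).trans ?_
    rw [mul_comm]
    exact Nat.mul_le_mul_right _ (hu 0)
  have ht1 : (u 1 ^ s 1).totalDegree ≤ d * s 1 := by
    refine (totalDegree_pow _ _).trans ?_
    rw [mul_comm]
    exact Nat.mul_le_mul_right _ (hu 1)
  rw [h1, homogeneousComponent_C_mul]
  rcases Nat.lt_or_ge s.degree e with hlt | hge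
  · have h2 : homogeneousComponent (d * e) (u 0 ^ s 0 * u 1 ^ s 1) = 0 := by
      apply homogeneousComponent_eq_zero
      refine lt_of_le_of_lt (totalDegree_mul _ _) ?_
      have : d * s.degree < d * e := Nat.mul_lt_mul_of_pos_left hlt hd
      rw [hdeg, Nat.mul_add] at this
      omega
    have h3 : homogeneousComponent e (monomial s c : Pol K) = 0 := by
      ext t
      rw [coeff_homogeneousComponent, coeff_monomial, MvPolynomial.coeff_zero]
      by_cases ht : t.degree = e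
      · rw [if_pos ht, if_neg]
        rintro rfl
        omega
      · rw [if_neg ht]
    rw [h2, h3, mul_zero, map_zero]
  · have he : e = s 0 + s 1 := by omega
    have h3 : homogeneousComponent e (monomial s c : Pol K) = monomial s c := by
      ext t
      rw [coeff_homogeneousComponent, coeff_monomial]
      by_cases ht : s = t
      · rw [if_pos ht, if_pos]
        rw [← ht]; omega
      · rw [if_neg ht, ite_self]
    rw [h3, aeval_monomial, Finsupp.prod_fintype _ _ (fun i => pow_zero _), Fin.prod_univ_two,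
      he, Nat.mul_add, hmul ht0 ht1, hpow (hu 0), hpow (hu 1)]
    rfl

end AuxTop

/-- top forms of compositions -/
theorem pr_Top : S_Top := by
  intro K _ u Ψ d e hd hu hΨ
  have key : ∀ s ∈ Ψ.support,
      homogeneousComponent (d * e) (aeval u (monomial s (coeff s Ψ) : Pol K) : Pol K) =
      aeval (fun i => homogeneousComponent d (u i))
        (homogeneousComponent e (monomial s (coeff s Ψ))) := by
    intro s hs
    exact AuxTop.mono u d e hd hu s _ ((le_totalDegree hs).trans hΨ)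
  calc homogeneousComponent (d * e) (aeval u Ψ : Pol K)
      = homogeneousComponent (d * e)
        (aeval u (∑ s ∈ Ψ.support, monomial s (coeff s Ψ) : Pol K) : Pol K) := by
        rw [← Ψ.as_sum]
    _ = ∑ s ∈ Ψ.support, homogeneousComponent (d * e)
        (aeval u (monomial s (coeff s Ψ) : Pol K) : Pol K) := by
        rw [map_sum, map_sum]
    _ = ∑ s ∈ Ψ.support, aeval (fun i => homogeneousComponent d (u i))
        (homogeneousComponent e (monomial s (coeff s Ψ))) := Finset.sum_congr rfl key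
    _ = aeval (fun i => homogeneousComponent d (u i))
        (homogeneousComponent e (∑ s ∈ Ψ.support, monomial s (coeff s Ψ) : Pol K)) := by
        rw [map_sum, map_sum]
    _ = aeval (fun i => homogeneousComponent d (u i)) (homogeneousComponent e Ψ) := by
        rw [← Ψ.as_sum]

end Pool.Agent.Work.MP_91e6de_nt.BM

end

section

set_option autoImplicit false

namespace Pool.Agent.Work.MP_91e6de_nt.BM

open MvPolynomial Height Height.AdmissibleAbsValues Filter Topology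
open Pool.Agent.Work.MP_91e6de_nt.BL

namespace AuxUp1

theorem one_le_cn (z : Fin 2 → ℂ) : 1 ≤ cn z := le_max_right _ _

theorem norm_le_cn (z : Fin 2 → ℂ) (i : Fin 2) : ‖z i‖ ≤ cn z := by
  unfold cn
  fin_cases i
  · exact le_trans (le_max_left _ _) (le_max_left _ _)
  · exact le_trans (le_max_right _ _) (le_max_left _ _)

end AuxUp1

open AuxUp1 in
/-- upper bound for the values of a polynomial -/
theorem pr_Up1 : S_Up1 := by
  intro K _ φ T
  have h0 : 0 ≤ ∑ s ∈ T.support, ‖φ (coeff s T)‖ :=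
    Finset.sum_nonneg (fun s _ => norm_nonneg (φ (coeff s T)))
  refine ⟨1 + ∑ s ∈ T.support, ‖φ (coeff s T)‖, by linarith, ?_⟩
  intro z
  have h1 : 1 ≤ cn z := one_le_cn z
  have hp : 0 ≤ cn z ^ T.totalDegree := by positivity
  rw [MvPolynomial.eval₂_eq']
  calc ‖∑ s ∈ T.support, φ (coeff s T) * ∏ i, z i ^ s i‖
      ≤ ∑ s ∈ T.support, ‖φ (coeff s T) * ∏ i, z i ^ s i‖ := norm_sum_le _ _
    _ ≤ ∑ s ∈ T.support, ‖φ (coeff s T)‖ * cn z ^ T.totalDegree := by
        apply Finset.sum_le_sum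
        intro s hs
        rw [norm_mul, norm_prod]
        apply mul_le_mul_of_nonneg_left _ (norm_nonneg _)
        calc ∏ i, ‖z i ^ s i‖ ≤ ∏ i, cn z ^ s i := by
              apply Finset.prod_le_prod
              · intro i _
                exact norm_nonneg _
              · intro i _
                rw [norm_pow]
                exact pow_le_pow_left₀ (norm_nonneg _) (norm_le_cn z i) _
          _ = cn z ^ (∑ i, s i) := by rw [Finset.prod_pow_eq_pow_sum]
          _ ≤ cn z ^ T.totalDegree := by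
              apply pow_le_pow_right₀ h1
              have h2 := le_totalDegree hs
              rw [Finsupp.sum_fintype _ _ (fun _ => rfl)] at h2
              exact h2
    _ = (∑ s ∈ T.support, ‖φ (coeff s T)‖) * cn z ^ T.totalDegree := by rw [Finset.sum_mul]
    _ ≤ (1 + ∑ s ∈ T.support, ‖φ (coeff s T)‖) * cn z ^ T.totalDegree := by
        apply mul_le_mul_of_nonneg_right _ hp
        linarith

end Pool.Agent.Work.MP_91e6de_nt.BM

end

section

set_option autoImplicit false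

namespace Pool.Agent.Work.MP_91e6de_nt.BM

open MvPolynomial Height Height.AdmissibleAbsValues Filter Topology
open Pool.Agent.Work.MP_91e6de_nt.BL

namespace AuxVan

/-- the constant attached to `k + 1` points -/
noncomputable def cst {K : Type} [Field K] (v : AbsoluteValue K ℝ) {k : ℕ}
    (e : Fin (k + 1) → K) : ℝ :=
  ∑ i, ∑ j, v ((Matrix.vandermonde e)⁻¹ i j)

lemma cst_nonneg {K : Type} [Field K] (v : AbsoluteValue K ℝ) {k : ℕ}
    (e : Fin (k + 1) → K) : 0 ≤ cst v e :=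
  Finset.sum_nonneg fun _ _ => Finset.sum_nonneg fun _ _ => v.nonneg _

lemma le_cst {K : Type} [Field K] (v : AbsoluteValue K ℝ) {k : ℕ}
    (e : Fin (k + 1) → K) (he : Function.Injective e) (x : Fin (k + 1) → K) (M : ℝ)
    (hM : 0 ≤ M) (h : ∀ j, v (∑ i, x i * e j ^ (i : ℕ)) ≤ M) (i : Fin (k + 1)) :
    v (x i) ≤ cst v e * M := by
  have hdet : IsUnit (Matrix.vandermonde e).det :=
    isUnit_iff_ne_zero.2 (Matrix.det_vandermonde_ne_zero_iff.2 he)
  have h1 : (Matrix.vandermonde e)⁻¹.mulVec ((Matrix.vandermonde e).mulVec x) = x := by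
    rw [Matrix.mulVec_mulVec, Matrix.nonsing_inv_mul _ hdet, Matrix.one_mulVec]
  have h2 : x i = ∑ j, (Matrix.vandermonde e)⁻¹ i j * ∑ i, x i * e j ^ (i : ℕ) := by
    conv_lhs => rw [← h1]
    simp only [Matrix.mulVec, dotProduct, Matrix.vandermonde_apply]
    refine Finset.sum_congr rfl fun j _ => ?_
    congr 1
    exact Finset.sum_congr rfl fun l _ => mul_comm _ _
  rw [h2]
  refine (v.sum_le _ _).trans ?_
  calc ∑ j, v ((Matrix.vandermonde e)⁻¹ i j * ∑ i, x i * e j ^ (i : ℕ))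
      ≤ ∑ j, v ((Matrix.vandermonde e)⁻¹ i j) * M := by
        refine Finset.sum_le_sum fun j _ => ?_
        rw [v.map_mul]
        exact mul_le_mul_of_nonneg_left (h j) (v.nonneg _)
    _ = (∑ j, v ((Matrix.vandermonde e)⁻¹ i j)) * M := by rw [Finset.sum_mul]
    _ ≤ cst v e * M := by
        refine mul_le_mul_of_nonneg_right ?_ hM
        exact Finset.single_le_sum (f := fun i => ∑ j, v ((Matrix.vandermonde e)⁻¹ i j))
          (fun i _ => Finset.sum_nonneg fun j _ => v.nonneg _) (Finset.mem_univ i)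

end AuxVan

open AuxVan in
theorem pr_Van : S_Van := by
  classical
  intro K _ v 𝒜 k
  set S : ℝ := ∑ e : Fin (k + 1) → 𝒜, cst v (fun j => (e j : K)) with hS
  have hS0 : 0 ≤ S := Finset.sum_nonneg fun _ _ => cst_nonneg _ _
  refine ⟨1 / (1 + S), by positivity, fun x => ?_⟩
  refine ⟨𝒜.filter (fun a => ∃ i, v (∑ i, x i * a ^ (i : ℕ)) < 1 / (1 + S) * v (x i)),
    Finset.filter_subset _ _, ?_, ?_⟩
  · by_contra hcard
    push Not at hcard
    set B := 𝒜.filter (fun a => ∃ i, v (∑ i, x i * a ^ (i : ℕ)) < 1 / (1 + S) * v (x i))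
      with hB
    obtain ⟨e⟩ : Nonempty (Fin (k + 1) ↪ B) := by
      apply Function.Embedding.nonempty_of_card_le
      simpa using hcard
    obtain ⟨i₀, hi₀⟩ := Finite.exists_max (fun i => v (x i))
    have hlt : ∀ j, v (∑ i, x i * (e j : K) ^ (i : ℕ)) < 1 / (1 + S) * v (x i₀) := by
      intro j
      obtain ⟨i, hi⟩ := (Finset.mem_filter.1 (e j).2).2
      refine hi.trans_le ?_
      exact mul_le_mul_of_nonneg_left (hi₀ i) (by positivity)
    have hpos : 0 < v (x i₀) := by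
      have h1 := (v.nonneg _).trans_lt (hlt 0)
      by_contra h0
      have h2 : v (x i₀) = 0 := le_antisymm (not_lt.1 h0) (v.nonneg _)
      rw [h2, mul_zero] at h1
      exact lt_irrefl _ h1
    have hinj : Function.Injective (fun j => (e j : K)) :=
      fun a b hab => e.injective (Subtype.ext hab)
    have hle := le_cst v (fun j => (e j : K)) hinj x (1 / (1 + S) * v (x i₀)) (by positivity)
      (fun j => (hlt j).le) i₀
    have hc : cst v (fun j => (e j : K)) ≤ S := by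
      have := Finset.single_le_sum
        (f := fun e : Fin (k + 1) → 𝒜 => cst v (fun j => (e j : K)))
        (fun _ _ => cst_nonneg _ _)
        (Finset.mem_univ (fun j => (⟨(e j : K), (Finset.mem_filter.1 (e j).2).1⟩ : 𝒜)))
      simpa using this
    have h3 : v (x i₀) ≤ S * (1 / (1 + S) * v (x i₀)) :=
      hle.trans (mul_le_mul_of_nonneg_right hc (by positivity))
    have h4 : S * (1 / (1 + S) * v (x i₀)) < v (x i₀) := by
      have : S * (1 / (1 + S) * v (x i₀)) = (S / (1 + S)) * v (x i₀) := by ring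
      rw [this]
      have h5 : S / (1 + S) < 1 := by
        rw [div_lt_one (by positivity)]
        linarith
      nlinarith
    linarith
  · intro a ha haB i
    by_contra hlt
    push Not at hlt
    exact haB (Finset.mem_filter.2 ⟨ha, i, hlt⟩)

end Pool.Agent.Work.MP_91e6de_nt.BM

end

section

set_option autoImplicit false

namespace Pool.Agent.Work.MP_91e6de_nt.BM

open MvPolynomial Height Height.AdmissibleAbsValues Filter Topology
open Pool.Agent.Work.MP_91e6de_nt.BL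

theorem pr_VanC (h : S_Van) : S_VanC := by
  intro K _ φ 𝒜 k
  obtain ⟨κ, hκ, H⟩ := h ℂ (NormedField.toAbsoluteValue ℂ) (𝒜.map ⟨φ, φ.injective⟩) k
  refine ⟨κ, hκ, fun x => ?_⟩
  obtain ⟨B, hB, hcard, hb⟩ := H x
  classical
  refine ⟨𝒜.filter (fun a => φ a ∈ B), Finset.filter_subset _ _, ?_, ?_⟩
  · refine le_trans ?_ hcard
    apply Finset.card_le_card_of_injOn (fun a => φ a)
    · intro a ha
      simpa using (Finset.mem_filter.mp ha).2
    · intro a _ b _ hab
      exact φ.injective hab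
  · intro a ha hna i
    have h1 : φ a ∈ 𝒜.map ⟨φ, φ.injective⟩ := Finset.mem_map.mpr ⟨a, ha, rfl⟩
    have h2 : φ a ∉ B := fun h3 => hna (Finset.mem_filter.mpr ⟨ha, h3⟩)
    exact hb (φ a) h1 h2 i

end Pool.Agent.Work.MP_91e6de_nt.BM

end

section

set_option autoImplicit false

namespace Pool.Agent.Work.MP_91e6de_nt.BM

open MvPolynomial Height Height.AdmissibleAbsValues Filter Topology
open Pool.Agent.Work.MP_91e6de_nt.BL

namespace AuxWordF

variable {K : Type} [Field K]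

theorem ev_aeval (φ : K →+* ℂ) (z : Fin 2 → ℂ) (g : Fin 2 → Pol K) (P : Pol K) :
    eval₂ φ z (aeval g P : Pol K) = eval₂ φ (ce φ g z) P := by
  have h : (eval₂Hom φ z).comp (RingHomClass.toRingHom (aeval g : Pol K →ₐ[K] Pol K)) =
      eval₂Hom φ (ce φ g z) := by
    apply ringHom_ext
    · intro c
      simp
    · intro j
      simp [ce]
  have h2 := congrArg (fun ψ : Pol K →+* ℂ => ψ P) h
  simpa using h2

theorem it_one (f : Fin 2 → Pol K) : it f 1 = f := by
  funext i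
  show aeval (it f 0) (f i) = f i
  have : (aeval (it f 0) : Pol K →ₐ[K] Pol K) = AlgHom.id K (Pol K) := by
    apply algHom_ext
    intro j
    rw [aeval_X]
    rfl
  rw [this]
  rfl

theorem ce_zero (φ : K →+* ℂ) (f : Fin 2 → Pol K) (z : Fin 2 → ℂ) : ce φ (it f 0) z = z := by
  funext i
  show eval₂ φ z (X i) = z i
  rw [eval₂_X]

theorem ce_succ (φ : K →+* ℂ) (f : Fin 2 → Pol K) (z : Fin 2 → ℂ) (i : ℕ) :
    ce φ (it f (i + 1)) z = ce φ (it f i) (ce φ f z) := by
  funext j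
  show eval₂ φ z (it f (i + 1) j) = eval₂ φ (ce φ f z) (it f i j)
  rw [(pr_It K f).1 i 1 j, it_one, ev_aeval]

theorem ev_la (φ : K →+* ℂ) (z : Fin 2 → ℂ) (b : K) (u : Fin 2 → Pol K) :
    eval₂ φ z (la b u) = ce φ u z 0 + φ b * ce φ u z 1 + φ (b ^ 2) := by
  simp [la, ce, eval₂_add, eval₂_mul, eval₂_C]

theorem ev_lf (φ : K →+* ℂ) (z : Fin 2 → ℂ) (v : Fin 2 → K) :
    eval₂ φ z (lf v) = φ (v 1) * z 0 - φ (v 0) * z 1 := by
  simp [lf, eval₂_sub, eval₂_mul, eval₂_C, eval₂_X]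

theorem cn_one (z : Fin 2 → ℂ) : 1 ≤ cn z := le_max_right _ _

/-- uniform constants -/
def Uni (φ : K →+* ℂ) (f : Fin 2 → Pol K) (vb vt : Fin 2 → K) (η C ρ : ℝ) : Prop :=
  ∀ R : Fin 2 → ℂ, ρ ≤ cn R → ρ * ‖eval₂ φ R (lf vt)‖ ≤ cn R → ∃ z : Fin 2 → ℂ,
    ce φ f z = R ∧ ‖eval₂ φ z (lf vb)‖ ≤ C * cn z * cn z ^ (-η)

theorem Uni.mono {φ : K →+* ℂ} {f : Fin 2 → Pol K} {vb vt : Fin 2 → K} {η C ρ η' C' ρ' : ℝ}
    (h : Uni φ f vb vt η C ρ) (hη : η' ≤ η) (hC : C ≤ C') (hC0 : 0 ≤ C') (hρ : ρ ≤ ρ') :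
    Uni φ f vb vt η' C' ρ' := by
  intro R h1 h2
  obtain ⟨z, hz, hz'⟩ := h R (hρ.trans h1)
    ((mul_le_mul_of_nonneg_right hρ (norm_nonneg _)).trans h2)
  refine ⟨z, hz, hz'.trans ?_⟩
  have hc := cn_one z
  have hc0 : 0 ≤ cn z := by linarith
  have : cn z ^ (-η) ≤ cn z ^ (-η') := Real.rpow_le_rpow_of_exponent_le hc (by linarith)
  have hp : 0 ≤ cn z ^ (-η) := Real.rpow_nonneg hc0 _
  calc C * cn z * cn z ^ (-η) ≤ C' * cn z * cn z ^ (-η) :=
        mul_le_mul_of_nonneg_right (mul_le_mul_of_nonneg_right hC hc0) hp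
    _ ≤ C' * cn z * cn z ^ (-η') := mul_le_mul_of_nonneg_left this (mul_nonneg hC0 hc0)

theorem unif {ι : Type} [Fintype ι] (φ : K →+* ℂ) (f : Fin 2 → Pol K) (vb vt : ι → Fin 2 → K)
    (h : ∀ i, ∃ η C ρ : ℝ, 0 < η ∧ 0 < C ∧ 0 < ρ ∧ Uni φ f (vb i) (vt i) η C ρ) :
    ∃ η C ρ : ℝ, 0 < η ∧ η ≤ 1 ∧ 0 < C ∧ 1 ≤ ρ ∧ ∀ i, Uni φ f (vb i) (vt i) η C ρ := by
  classical
  choose η C ρ h1 h2 h3 h4 using h
  have key : ∀ s : Finset ι, ∃ η' C' ρ' : ℝ, 0 < η' ∧ η' ≤ 1 ∧ 0 < C' ∧ 1 ≤ ρ' ∧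
      ∀ i ∈ s, Uni φ f (vb i) (vt i) η' C' ρ' := by
    intro s
    induction s using Finset.induction_on with
    | empty => exact ⟨1, 1, 1, one_pos, le_rfl, one_pos, le_rfl, fun i hi => by simp at hi⟩
    | insert a s _ ih =>
      obtain ⟨η', C', ρ', e1, e2, e3, e4, e5⟩ := ih
      refine ⟨min (η a) η', max (C a) C', max (ρ a) ρ', lt_min (h1 a) e1,
        (min_le_right _ _).trans e2, lt_max_of_lt_right e3, e4.trans (le_max_right _ _), ?_⟩
      intro i hi
      have hm : 0 ≤ max (C a) C' := (h2 a).le.trans (le_max_left _ _)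
      rcases Finset.mem_insert.1 hi with rfl | hi
      · exact (h4 i).mono (min_le_left _ _) (le_max_left _ _) hm (le_max_left _ _)
      · exact (e5 i hi).mono (min_le_right _ _) (le_max_right _ _) hm (le_max_right _ _)
  obtain ⟨η', C', ρ', e1, e2, e3, e4, e5⟩ := key Finset.univ
  exact ⟨η', C', ρ', e1, e2, e3, e4, fun i => e5 i (Finset.mem_univ i)⟩

/-- the points `z` have size going to infinity with the size of `f z` -/
theorem big (φ : K →+* ℂ) (f : Fin 2 → Pol K) (h4 : S_Up1) : ∀ M : ℝ, ∃ M' : ℝ,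
    ∀ z : Fin 2 → ℂ, M' ≤ cn (ce φ f z) → M ≤ cn z := by
  intro M
  obtain ⟨B0, hB0, hb0⟩ := h4 K φ (f 0)
  obtain ⟨B1, hB1, hb1⟩ := h4 K φ (f 1)
  refine ⟨B0 * (max M 1) ^ (f 0).totalDegree + B1 * (max M 1) ^ (f 1).totalDegree + 2, ?_⟩
  intro z hz
  by_contra hlt
  push Not at hlt
  have hc := cn_one z
  have hc0 : 0 ≤ cn z := by linarith
  have hle : cn z ≤ max M 1 := hlt.le.trans (le_max_left _ _)
  have e0 : ‖ce φ f z 0‖ ≤ B0 * (max M 1) ^ (f 0).totalDegree :=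
    (hb0 z).trans (mul_le_mul_of_nonneg_left (pow_le_pow_left₀ hc0 hle _) (by linarith))
  have e1 : ‖ce φ f z 1‖ ≤ B1 * (max M 1) ^ (f 1).totalDegree :=
    (hb1 z).trans (mul_le_mul_of_nonneg_left (pow_le_pow_left₀ hc0 hle _) (by linarith))
  have p0 : 0 ≤ B0 * (max M 1) ^ (f 0).totalDegree := (norm_nonneg _).trans e0
  have p1 : 0 ≤ B1 * (max M 1) ^ (f 1).totalDegree := (norm_nonneg _).trans e1
  have : cn (ce φ f z) ≤ B0 * (max M 1) ^ (f 0).totalDegree +
      B1 * (max M 1) ^ (f 1).totalDegree + 1 := by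
    unfold cn
    refine max_le (max_le ?_ ?_) ?_ <;> linarith
  linarith

/-- the statement proved by induction -/
def St (φ : K →+* ℂ) (f : Fin 2 → Pol K) (v : Fin 2 → Fin 2 → K) (b : K) (k : ℕ)
    (w : ℕ → Fin 2) : Prop :=
  ∃ η C : ℝ, 0 < η ∧ 0 < C ∧ ∀ M : ℝ, ∃ z : Fin 2 → ℂ,
  M ≤ cn z ∧ eval₂ φ z (la b (it f (k + 1))) = 0 ∧
  ∀ i, i ≤ k → cn z ^ η ≤ cn (ce φ (it f i) z) ∧
    ‖eval₂ φ z (aeval (it f i) (lf (v (w i))) : Pol K)‖ ≤ C * cn (ce φ (it f i) z) * cn z ^ (-η)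

theorem start (φ : K →+* ℂ) (b : K) (ρ : ℝ) : ∀ M : ℝ, ∃ R : Fin 2 → ℂ, M ≤ cn R ∧
    R 0 + φ b * R 1 + φ (b ^ 2) = 0 ∧ ρ * ‖eval₂ φ R (lf ![-b, 1])‖ ≤ cn R := by
  intro M
  refine ⟨![-(φ b * ((max M (ρ * ‖φ b ^ 2‖) : ℝ) : ℂ)) - φ b ^ 2,
    ((max M (ρ * ‖φ b ^ 2‖) : ℝ) : ℂ)], ?_, ?_, ?_⟩
  · have h1 : ‖(((max M (ρ * ‖φ b ^ 2‖) : ℝ)) : ℂ)‖ ≤
      cn ![-(φ b * ((max M (ρ * ‖φ b ^ 2‖) : ℝ) : ℂ)) - φ b ^ 2,
        ((max M (ρ * ‖φ b ^ 2‖) : ℝ) : ℂ)] :=
      (le_max_right _ _).trans (le_max_left _ _)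
    refine le_trans ?_ h1
    rw [Complex.norm_real]
    exact (le_max_left _ _).trans (Real.le_norm_self _)
  · simp only [Matrix.cons_val_zero, Matrix.cons_val_one, map_pow]
    ring
  · have h1 : ‖(((max M (ρ * ‖φ b ^ 2‖) : ℝ)) : ℂ)‖ ≤
      cn ![-(φ b * ((max M (ρ * ‖φ b ^ 2‖) : ℝ) : ℂ)) - φ b ^ 2,
        ((max M (ρ * ‖φ b ^ 2‖) : ℝ) : ℂ)] :=
      (le_max_right _ _).trans (le_max_left _ _)
    refine le_trans ?_ h1
    rw [Complex.norm_real]
    refine le_trans ?_ (Real.le_norm_self _)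
    refine le_trans (le_of_eq ?_) (le_max_right _ _)
    rw [ev_lf]
    simp only [Matrix.cons_val_zero, Matrix.cons_val_one, map_one, map_neg]
    have : ∀ y : ℂ, 1 * (-(φ b * y) - φ b ^ 2) - -φ b * y = -(φ b ^ 2) := by
      intro y; ring
    rw [this, norm_neg]

theorem main (φ : K →+* ℂ) (f : Fin 2 → Pol K) (v : Fin 2 → Fin 2 → K) (b : K)
    (h4 : S_Up1) (η C ρ C' : ℝ) (k' : ℕ) (hη : 0 < η) (hη1 : η ≤ 1) (hC : 0 < C) (hρ : 1 ≤ ρ)
    (hC' : 1 ≤ C') (hP : ∀ z : Fin 2 → ℂ, cn z ≤ C' * cn (ce φ f z) ^ k')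
    (hs : ∀ l, Uni φ f (v l) ![-b, 1] η C ρ) (hu : ∀ l l', Uni φ f (v l) (v l') η C ρ) :
    ∀ k w, St φ f v b k w := by
  intro k
  induction k with
  | zero =>
    intro w
    refine ⟨η, C, hη, hC, fun M => ?_⟩
    obtain ⟨M', hM'⟩ := big φ f h4 M
    obtain ⟨R, hR1, hR2, hR3⟩ := start φ b ρ (max M' ρ)
    obtain ⟨z, hz1, hz2⟩ := hs (w 0) R ((le_max_right _ _).trans hR1) hR3
    refine ⟨z, hM' z (by rw [hz1]; exact (le_max_left _ _).trans hR1), ?_, ?_⟩
    · rw [ev_la, zero_add, it_one, hz1, hR2]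
    · intro i hi
      obtain rfl : i = 0 := by omega
      rw [ev_aeval, ce_zero]
      refine ⟨?_, hz2⟩
      calc cn z ^ η ≤ cn z ^ (1 : ℝ) := Real.rpow_le_rpow_of_exponent_le (cn_one z) hη1
        _ = cn z := Real.rpow_one _
  | succ k ih =>
    intro w
    obtain ⟨η1, C1, hη1p, hC1, hz⟩ := ih (fun i => w (i + 1))
    set κ : ℝ := 1 / (2 * ((k' : ℝ) + 1)) with hκ
    have hκ0 : 0 < κ := by positivity
    refine ⟨min η (κ * η1), max C C1, lt_min hη (mul_pos hκ0 hη1p), lt_max_of_lt_left hC, ?_⟩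
    intro M
    obtain ⟨M', hM'⟩ := big φ f h4 (max M (C' ^ 2))
    -- large z1
    obtain ⟨M1, hM1⟩ : ∃ M1 : ℝ, ∀ x : ℝ, M1 ≤ x → 1 ≤ x → ρ * C1 * x ^ (-η1) ≤ 1 := by
      refine ⟨(ρ * C1) ^ (1 / η1), fun x hx hx1 => ?_⟩
      have hx0 : 0 < x := by linarith
      have hpos : 0 < ρ * C1 := mul_pos (by linarith) hC1
      have : ρ * C1 ≤ x ^ η1 := by
        calc ρ * C1 = ((ρ * C1) ^ (1 / η1)) ^ η1 := by
              rw [← Real.rpow_mul hpos.le, one_div, inv_mul_cancel₀ hη1p.ne', Real.rpow_one]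
          _ ≤ x ^ η1 := Real.rpow_le_rpow (Real.rpow_nonneg hpos.le _) hx hη1p.le
      rw [Real.rpow_neg hx0.le, ← div_eq_mul_inv, div_le_one (Real.rpow_pos_of_pos hx0 _)]
      exact this
    obtain ⟨z1, hz1M, hz1l, hz1⟩ := hz (max M' (max M1 ρ))
    have hc1 := cn_one z1
    have hc1p : 0 < cn z1 := by linarith
    have h0 := hz1 0 (Nat.zero_le _)
    rw [ev_aeval, ce_zero] at h0
    have hnear : ρ * ‖eval₂ φ z1 (lf (v (w (0 + 1))))‖ ≤ cn z1 := by
      have a1 : ρ * ‖eval₂ φ z1 (lf (v (w (0 + 1))))‖ ≤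
          ρ * (C1 * cn z1 * cn z1 ^ (-η1)) :=
        mul_le_mul_of_nonneg_left h0.2 (by linarith)
      have a2 : ρ * C1 * cn z1 ^ (-η1) ≤ 1 :=
        hM1 (cn z1) (((le_max_left _ _).trans (le_max_right _ _)).trans hz1M) hc1
      calc ρ * ‖eval₂ φ z1 (lf (v (w (0 + 1))))‖ ≤ ρ * (C1 * cn z1 * cn z1 ^ (-η1)) := a1
        _ = (ρ * C1 * cn z1 ^ (-η1)) * cn z1 := by ring
        _ ≤ 1 * cn z1 := mul_le_mul_of_nonneg_right a2 hc1p.le
        _ = cn z1 := one_mul _
    obtain ⟨z, hfz, hzb⟩ := hu (w 0) (w (0 + 1)) z1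
      (((le_max_right _ _).trans (le_max_right _ _)).trans hz1M) hnear
    have hzM : max M (C' ^ 2) ≤ cn z :=
      hM' z (by rw [hfz]; exact (le_max_left _ _).trans hz1M)
    have hc := cn_one z
    have hcp : 0 < cn z := by linarith
    -- comparison of sizes
    have hcmp : cn z ^ κ ≤ cn z1 := by
      have b1 : cn z ≤ C' * cn z1 ^ k' := by
        have := hP z
        rwa [hfz] at this
      have b2 : C' ^ 2 ≤ cn z := (le_max_right _ _).trans hzM
      have b3 : C' * cn z1 ^ k' ≤ C' * cn z1 ^ (k' + 1) :=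
        mul_le_mul_of_nonneg_left (pow_le_pow_right₀ hc1 (Nat.le_succ _)) (by linarith)
      have b4 : cn z ^ 2 ≤ cn z * (cn z1 ^ (k' + 1)) ^ 2 := by
        calc cn z ^ 2 ≤ (C' * cn z1 ^ (k' + 1)) ^ 2 := pow_le_pow_left₀ hcp.le (b1.trans b3) 2
          _ = C' ^ 2 * (cn z1 ^ (k' + 1)) ^ 2 := by ring
          _ ≤ cn z * (cn z1 ^ (k' + 1)) ^ 2 := mul_le_mul_of_nonneg_right b2 (by positivity)
      have b5 : cn z ≤ (cn z1 ^ (k' + 1)) ^ 2 := by
        have : cn z * cn z ≤ cn z * (cn z1 ^ (k' + 1)) ^ 2 := by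
          rw [← sq]; exact b4
        exact le_of_mul_le_mul_left this hcp
      have b6 : cn z ≤ cn z1 ^ (2 * ((k' : ℝ) + 1)) := by
        calc cn z ≤ (cn z1 ^ (k' + 1)) ^ 2 := b5
          _ = cn z1 ^ (2 * (k' + 1)) := by rw [← pow_mul]; ring_nf
          _ = cn z1 ^ ((2 * (k' + 1) : ℕ) : ℝ) := (Real.rpow_natCast _ _).symm
          _ = cn z1 ^ (2 * ((k' : ℝ) + 1)) := by push_cast; rfl
      calc cn z ^ κ ≤ (cn z1 ^ (2 * ((k' : ℝ) + 1))) ^ κ :=
            Real.rpow_le_rpow hcp.le b6 hκ0.le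
        _ = cn z1 := by
            rw [← Real.rpow_mul hc1p.le, hκ, mul_one_div_cancel (by positivity), Real.rpow_one]
    have hmin1 : min η (κ * η1) ≤ 1 := (min_le_left _ _).trans hη1
    refine ⟨z, (le_max_left _ _).trans hzM, ?_, ?_⟩
    · rw [ev_la, ce_succ, hfz]
      rw [ev_la] at hz1l
      exact hz1l
    · intro i hi
      cases i with
      | zero =>
        rw [ev_aeval, ce_zero]
        constructor
        · calc cn z ^ (min η (κ * η1)) ≤ cn z ^ (1 : ℝ) :=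
                Real.rpow_le_rpow_of_exponent_le hc hmin1
            _ = cn z := Real.rpow_one _
        · refine hzb.trans ?_
          have q1 : cn z ^ (-η) ≤ cn z ^ (-(min η (κ * η1))) :=
            Real.rpow_le_rpow_of_exponent_le hc (neg_le_neg (min_le_left _ _))
          have q2 : 0 ≤ cn z ^ (-η) := Real.rpow_nonneg hcp.le _
          calc C * cn z * cn z ^ (-η) ≤ max C C1 * cn z * cn z ^ (-η) :=
                mul_le_mul_of_nonneg_right
                  (mul_le_mul_of_nonneg_right (le_max_left _ _) hcp.le) q2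
            _ ≤ max C C1 * cn z * cn z ^ (-(min η (κ * η1))) :=
                mul_le_mul_of_nonneg_left q1
                  (mul_nonneg (hC.le.trans (le_max_left _ _)) hcp.le)
      | succ i =>
        obtain ⟨g1, g2⟩ := hz1 i (by omega)
        rw [ev_aeval] at g2
        rw [ev_aeval, ce_succ, hfz]
        have r1 : cn z ^ (min η (κ * η1)) ≤ cn z1 ^ η1 := by
          calc cn z ^ (min η (κ * η1)) ≤ cn z ^ (κ * η1) :=
                Real.rpow_le_rpow_of_exponent_le hc (min_le_right _ _)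
            _ = (cn z ^ κ) ^ η1 := Real.rpow_mul hcp.le _ _
            _ ≤ cn z1 ^ η1 := Real.rpow_le_rpow (Real.rpow_nonneg hcp.le _) hcmp hη1p.le
        refine ⟨r1.trans g1, g2.trans ?_⟩
        have r2 : cn z1 ^ (-η1) ≤ cn z ^ (-(min η (κ * η1))) := by
          rw [Real.rpow_neg hc1p.le, Real.rpow_neg hcp.le]
          exact inv_anti₀ (Real.rpow_pos_of_pos hcp _) r1
        have hci := cn_one (ce φ (it f i) z1)
        have hci0 : 0 ≤ cn (ce φ (it f i) z1) := by linarith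
        have r3 : 0 ≤ cn z1 ^ (-η1) := Real.rpow_nonneg hc1p.le _
        calc C1 * cn (ce φ (it f i) z1) * cn z1 ^ (-η1)
            ≤ max C C1 * cn (ce φ (it f i) z1) * cn z1 ^ (-η1) :=
              mul_le_mul_of_nonneg_right
                (mul_le_mul_of_nonneg_right (le_max_right _ _) hci0) r3
          _ ≤ max C C1 * cn (ce φ (it f i) z1) * cn z ^ (-(min η (κ * η1))) :=
              mul_le_mul_of_nonneg_left r2
                (mul_nonneg (hC.le.trans (le_max_left _ _)) hci0)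

end AuxWordF

open AuxWordF in
theorem pr_WordF (h1 : S_Pre) (h2 : S_ND) (h3 : S_Prp) (h4 : S_Up1) : S_WordF := by
  intro K _ φ f d v hd hdg hFn hinj hv hbase k w
  have hchar : CharZero K := RingHom.charZero φ
  have hdeg : ∀ i, (f i).totalDegree ≤ d := by
    have h := hdg 1
    rw [pow_one, dg, it_one] at h
    intro i
    fin_cases i
    · exact (le_max_left _ _).trans h.le
    · exact (le_max_right _ _).trans h.le
  have hd1 : 1 ≤ d := by omega
  have hnd : ∀ l, ∃ e : Fin 2 → K, v l 1 * eval e (homogeneousComponent d (f 0)) -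
      v l 0 * eval e (homogeneousComponent d (f 1)) ≠ 0 := fun l =>
    h2 K f d (v l) hd1 hdeg (hdg 2) (hv l) (hbase l)
  obtain ⟨e0, he0⟩ := hnd 0
  refine ⟨{-(eval e0 (homogeneousComponent d (f 0)) / eval e0 (homogeneousComponent d (f 1)))},
    fun b hb => ?_⟩
  have hb' : eval e0 (homogeneousComponent d (f 0)) +
      b * eval e0 (homogeneousComponent d (f 1)) ≠ 0 := by
    intro h
    by_cases hF : eval e0 (homogeneousComponent d (f 1)) = 0
    · rw [hF, mul_zero, add_zero] at h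
      rw [h, hF] at he0
      simp at he0
    · apply hb
      rw [Finset.mem_singleton, ← neg_div, eq_div_iff hF]
      linear_combination h
  obtain ⟨C', k', hC', hP⟩ := h3 K φ f hFn
  have hall : ∀ x : Fin 2 × Option (Fin 2), ∃ η C ρ : ℝ, 0 < η ∧ 0 < C ∧ 0 < ρ ∧
      Uni φ f (v x.1) (x.2.elim ![-b, 1] v) η C ρ := by
    rintro ⟨l, t⟩
    cases t with
    | none =>
      obtain ⟨η, C, ρ, a1, a2, a3, a4⟩ := h1 K φ f d (v l) ![-b, 1] e0 hd1 hdeg hFn hinj (hv l)
        (hbase l) (by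
          simp only [Matrix.cons_val_zero, Matrix.cons_val_one]
          intro h
          apply hb'
          linear_combination h)
      exact ⟨η, C, ρ, a1, a2, a3, a4⟩
    | some l' =>
      obtain ⟨e, he⟩ := hnd l'
      obtain ⟨η, C, ρ, a1, a2, a3, a4⟩ := h1 K φ f d (v l) (v l') e hd1 hdeg hFn hinj (hv l)
        (hbase l) he
      exact ⟨η, C, ρ, a1, a2, a3, a4⟩
  obtain ⟨η, C, ρ, u1, u2, u3, u4, u5⟩ := unif φ f (fun x : Fin 2 × Option (Fin 2) => v x.1)
    (fun x => x.2.elim ![-b, 1] v) hall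
  obtain ⟨η', C'', r1, r2, r3⟩ := main φ f v b h4 η C ρ C' k' u1 u2 u3 u4 hC' hP
    (fun l => u5 (l, none)) (fun l l' => u5 (l, some l')) k w
  exact ⟨η', C'', r1, r3⟩

end Pool.Agent.Work.MP_91e6de_nt.BM

end

section

set_option autoImplicit false

/-!
# MP_91e6de_nt, block BM, item YMs: polynomials monic in `y` up to a constant
-/

namespace Pool.Agent.Work.MP_91e6de_nt.BM

open MvPolynomial Height Height.AdmissibleAbsValues Filter Topology
open Pool.Agent.Work.MP_91e6de_nt.BL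

namespace AuxYMs

variable {K : Type} [Field K]

theorem deg_le {G : Pol K} {s : Fin 2 →₀ ℕ} (hs : s ∈ G.support) : s 0 + s 1 ≤ G.totalDegree := by
  have h := le_totalDegree hs
  rw [Finsupp.sum_fintype _ _ (fun _ => rfl), Fin.sum_univ_two] at h
  exact h

theorem exists_deg {G : Pol K} (hG : G ≠ 0) : ∃ s ∈ G.support, s 0 + s 1 = G.totalDegree := by
  have hne : G.support.Nonempty := by
    rw [Finset.nonempty_iff_ne_empty]
    exact fun h => hG (support_eq_empty.1 h)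
  obtain ⟨s, hs, h⟩ := Finset.exists_mem_eq_sup G.support hne (fun s => s.sum fun _ e => e)
  refine ⟨s, hs, ?_⟩
  rw [Finsupp.sum_fintype _ _ (fun _ => rfl), Fin.sum_univ_two] at h
  exact h.symm

/-- the value at `τ` of this polynomial is the coefficient of `y ^ q` in the shear -/
noncomputable def gg (q : ℕ) (G : Pol K) : Polynomial K :=
  ∑ s ∈ G.support.filter (fun s => s 0 + s 1 = q), Polynomial.monomial (s 0) (coeff s G)

/-- the restriction to the line through the origin with direction `(τ, 1)` -/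
noncomputable def ln (τ : K) : Pol K →ₐ[K] Polynomial K :=
  aeval ![Polynomial.C τ * Polynomial.X, Polynomial.X]

theorem ln_mono (τ c : K) (s : Fin 2 →₀ ℕ) :
    ln τ (monomial s c) = Polynomial.monomial (s 0 + s 1) (c * τ ^ (s 0)) := by
  rw [ln, aeval_monomial, Finsupp.prod_fintype _ _ (fun i => pow_zero _)]
  simp only [Fin.prod_univ_two, Matrix.cons_val_zero, Matrix.cons_val_one]
  rw [Polynomial.algebraMap_apply, Algebra.algebraMap_self, RingHom.id_apply,
    ← Polynomial.C_mul_X_pow_eq_monomial, mul_pow, ← Polynomial.C_pow, pow_add, Polynomial.C_mul]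
  ring

theorem ln_coeff (τ : K) (q : ℕ) (G : Pol K) : (ln τ G).coeff q = (gg q G).eval τ := by
  have h1 : ln τ G = ∑ s ∈ G.support, Polynomial.monomial (s 0 + s 1) (coeff s G * τ ^ (s 0)) := by
    conv_lhs => rw [G.as_sum]
    rw [map_sum]
    exact Finset.sum_congr rfl fun s _ => ln_mono τ _ s
  rw [h1, Polynomial.finsetSum_coeff, gg, Polynomial.eval_finsetSum, Finset.sum_filter]
  refine Finset.sum_congr rfl fun s _ => ?_
  rw [Polynomial.coeff_monomial]
  split_ifs with h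
  · rw [Polynomial.eval_monomial]
  · rfl

theorem gg_coeff (q : ℕ) (G : Pol K) (s : Fin 2 →₀ ℕ) (hs : s 0 + s 1 = q) :
    (gg q G).coeff (s 0) = coeff s G := by
  rw [gg, Polynomial.finsetSum_coeff]
  by_cases h : s ∈ G.support
  · rw [Finset.sum_eq_single s]
    · rw [Polynomial.coeff_monomial, if_pos rfl]
    · intro t ht hne
      rw [Polynomial.coeff_monomial, if_neg]
      intro h2
      apply hne
      have h3 := (Finset.mem_filter.1 ht).2
      ext i
      fin_cases i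
      · exact h2
      · show t 1 = s 1
        omega
    · intro h2
      exact absurd (Finset.mem_filter.2 ⟨h, hs⟩) h2
  · rw [notMem_support_iff.1 h]
    refine Finset.sum_eq_zero fun t ht => ?_
    rw [Polynomial.coeff_monomial, if_neg]
    intro h2
    have h3 := (Finset.mem_filter.1 ht).2
    apply h
    have : t = s := by
      ext i
      fin_cases i
      · exact h2
      · show t 1 = s 1
        omega
    rw [← this]
    exact (Finset.mem_filter.1 ht).1

theorem coeff_y (q : ℕ) (G : Pol K) : coeff (Finsupp.single 1 q) G = (ln 0 G).coeff q := by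
  rw [ln_coeff, ← Polynomial.coeff_zero_eq_eval_zero]
  have h := gg_coeff q G (Finsupp.single 1 q) (by simp)
  rw [← h]
  simp

theorem ln_sh (τ : K) (G : Pol K) : ln 0 (sh τ G) = ln τ G := by
  have h : (ln (0 : K)).comp (sh τ) = ln τ := by
    apply MvPolynomial.algHom_ext
    intro i
    fin_cases i
    · simp [ln, sh]
    · simp [ln, sh]
  rw [← h]
  rfl

theorem sh_deg (τ : K) (G : Pol K) : (sh τ G).totalDegree ≤ G.totalDegree := by
  have h1 : sh τ G = ∑ s ∈ G.support,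
      C (coeff s G) * ((X 0 + C τ * X 1) ^ (s 0) * (X 1) ^ (s 1)) := by
    conv_lhs => rw [G.as_sum]
    rw [map_sum]
    refine Finset.sum_congr rfl fun s _ => ?_
    rw [sh, aeval_monomial, Finsupp.prod_fintype _ _ (fun i => pow_zero _)]
    simp only [Fin.prod_univ_two, Matrix.cons_val_zero, Matrix.cons_val_one]
    rfl
  rw [h1]
  refine (totalDegree_finsetSum _ _).trans (Finset.sup_le fun s hs => ?_)
  have hx : (X 0 + C τ * X 1 : Pol K).totalDegree ≤ 1 := by
    refine (totalDegree_add _ _).trans (max_le ?_ ?_)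
    · exact (totalDegree_X (R := K) (0 : Fin 2)).le
    · refine (totalDegree_mul _ _).trans ?_
      rw [totalDegree_C, totalDegree_X]
  have h2 : ((X 0 + C τ * X 1 : Pol K) ^ (s 0)).totalDegree ≤ s 0 := by
    refine (totalDegree_pow _ _).trans ?_
    calc s 0 * (X 0 + C τ * X 1 : Pol K).totalDegree ≤ s 0 * 1 := Nat.mul_le_mul_left _ hx
      _ = s 0 := mul_one _
  have h3 : ((X 1 : Pol K) ^ (s 1)).totalDegree ≤ s 1 := by
    rw [totalDegree_X_pow]
  refine (totalDegree_mul _ _).trans ?_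
  rw [totalDegree_C, zero_add]
  refine (totalDegree_mul _ _).trans ?_
  exact (add_le_add h2 h3).trans (deg_le hs)

theorem ln_deg (τ : K) (G : Pol K) : (ln τ G).natDegree ≤ G.totalDegree := by
  have h1 : ln τ G = ∑ s ∈ G.support, Polynomial.monomial (s 0 + s 1) (coeff s G * τ ^ (s 0)) := by
    conv_lhs => rw [G.as_sum]
    rw [map_sum]
    exact Finset.sum_congr rfl fun s _ => ln_mono τ _ s
  rw [h1]
  refine Polynomial.natDegree_sum_le_of_forall_le _ _ fun s hs => ?_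
  exact (Polynomial.natDegree_monomial_le _).trans (deg_le hs)

theorem gg_ne {G : Pol K} (hG : G ≠ 0) : gg G.totalDegree G ≠ 0 := by
  obtain ⟨s, hs, h⟩ := exists_deg hG
  intro h2
  have h3 := gg_coeff G.totalDegree G s h
  rw [h2, Polynomial.coeff_zero] at h3
  exact (mem_support_iff.1 hs) h3.symm

end AuxYMs

open AuxYMs in
theorem pr_YMs : S_YMs := by
  constructor
  · intro K _ G G' q h
    obtain ⟨h1, h2⟩ := h
    have hGG : G * G' ≠ 0 := by
      intro h3
      rw [h3] at h2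
      exact h2 (coeff_zero _)
    have hG : G ≠ 0 := left_ne_zero_of_mul hGG
    have hG' : G' ≠ 0 := right_ne_zero_of_mul hGG
    have h3 : G.totalDegree + G'.totalDegree = q := by
      rw [← h1, totalDegree_mul_of_isDomain hG hG']
    have h4 : coeff (Finsupp.single 1 q) (G * G') =
        coeff (Finsupp.single 1 G.totalDegree) G * coeff (Finsupp.single 1 G'.totalDegree) G' := by
      rw [coeff_y, coeff_y, coeff_y, map_mul, ← h3,
        Polynomial.coeff_mul_add_eq_of_natDegree_le (ln_deg 0 G) (ln_deg 0 G')]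
    rw [h4] at h2
    exact ⟨⟨rfl, left_ne_zero_of_mul h2⟩, ⟨rfl, right_ne_zero_of_mul h2⟩, h3⟩
  · intro K _ _ G hG
    classical
    refine ⟨(gg G.totalDegree G).roots.toFinset, fun τ hτ => ?_⟩
    have h1 : coeff (Finsupp.single 1 G.totalDegree) (sh τ G) ≠ 0 := by
      rw [coeff_y, ln_sh, ln_coeff]
      intro h2
      apply hτ
      rw [Multiset.mem_toFinset, Polynomial.mem_roots (gg_ne hG)]
      exact h2
    refine ⟨le_antisymm (sh_deg τ G) ?_, h1⟩
    have h2 := deg_le (mem_support_iff.2 h1)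
    simpa using h2

end Pool.Agent.Work.MP_91e6de_nt.BM

end
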