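import Pool.Agent.Work.MP_91e6de_nt.BL.Stmts

/-! Bundle of small proof modules (one section per former module). -/

section

set_option autoImplicit false

/-!
# MP_91e6de_nt, block BL: the auxiliary polynomial
-/

namespace Pool.Agent.Work.MP_91e6de_nt.BL

open MvPolynomial Height Height.AdmissibleAbsValues Filter Topology

namespace AuxAux

/-- the filtration by the powers of `Q`, summed up -/
theorem filt (h4 : S_Gr) {K : Type} [Field K] (Q : Pol K) (q : ℕ) (E : Submodule K (Pol K))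
    (hE : FiniteDimensional K E) (hQ : Q ≠ 0) (hq : Q.totalDegree = q) (hq1 : 1 ≤ q)
    (B : ℕ → ℕ)
    (hB : ∀ r, ∀ T ∈ E, ∃ T' : Pol K, T'.totalDegree ≤ B r ∧ Q ^ (r + 1) ∣ T - T') (s : ℕ) :
    Module.finrank K E ≤ Module.finrank K (E ⊓ II Q s : Submodule K (Pol K)) +
      ∑ r ∈ Finset.range s, q * (B r + 1 - q * r) := by
  induction s with
  | zero =>
    have h : (E ⊓ II Q 0 : Submodule K (Pol K)) = E := by
      refine inf_eq_left.2 fun T _ => ?_
      change Q ^ 0 ∣ T
      rw [pow_zero]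
      exact one_dvd _
    rw [h]
    simp
  | succ s ih =>
    have h := h4 K Q q s (B s) E hE hQ hq hq1 (hB s)
    rw [Finset.sum_range_succ]
    omega

end AuxAux

theorem pr_Aux (h1 : S_dim) (h2 : S_Ind) (h3 : S_Exp) (h4 : S_Gr) (h5 : S_Num) : S_Aux := by
  intro K _ Q q d' u hD Ψ₁ Ψ₂ e he hΨ₁ hΨ₂ hcop hdeg
  have hq1 := hD.q1
  have hqd := hD.qd
  have hQ := hD.ne
  have hd1 : 1 ≤ d' := hq1.trans hqd
  have hD1 : 1 ≤ d' * e := Nat.mul_pos hd1 he
  have ht1 : 1 ≤ 32 * q * d' ^ 2 := Nat.mul_pos (Nat.mul_pos (by norm_num) hq1) (pow_pos hd1 2)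
  have hQdeg : Q.totalDegree = q := hD.hom.totalDegree hQ
  obtain ⟨hfin, hdim⟩ := h2 K (aeval u Ψ₁ : Pol K) (aeval u Ψ₂ : Pol K) (32 * q * d' ^ 2)
    (32 * q * d' ^ 2 * (d' * e)) hcop (by rw [hdeg]; exact hD1)
    (by rw [hdeg]; exact Nat.le_mul_of_pos_left _ ht1)
  rw [hdeg] at hdim
  have hF := AuxAux.filt h4 Q q _ hfin hQ hQdeg hq1
    (fun r => min (d' * ((32 * q * d' ^ 2) * e)) ((d' - 1) * ((32 * q * d' ^ 2) * e) + r) +
      32 * q * d' ^ 2 * (d' * e))
    (fun r T hT => h3 K Q q d' u hD Ψ₁ Ψ₂ e (32 * q * d' ^ 2) (32 * q * d' ^ 2 * (d' * e))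
      hΨ₁ hΨ₂ T hT r)
    (32 * d' ^ 2 * (d' * e) + 4 * q * (d' * e))
  have hN := h5 q d' e (32 * q * d' ^ 2) (d' * e)
    (32 * d' ^ 2 * (d' * e) + 4 * q * (d' * e)) hq1 hqd he rfl rfl rfl
  have hA := (h1 K (32 * q * d' ^ 2 * (d' * e))).2
  have hA' := (h1 K (32 * q * d' ^ 2 * (d' * e) - d' * e)).2
  have hpos : 0 < Module.finrank K
      (EE (aeval u Ψ₁ : Pol K) (aeval u Ψ₂ : Pol K) (32 * q * d' ^ 2)
        (32 * q * d' ^ 2 * (d' * e)) ⊓
        II Q (32 * d' ^ 2 * (d' * e) + 4 * q * (d' * e)) : Submodule K (Pol K)) := by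
    rw [← hA, ← hA'] at hN
    beta_reduce at hF
    generalize (∑ r ∈ Finset.range (32 * d' ^ 2 * (d' * e) + 4 * q * (d' * e)),
      q * (min (d' * ((32 * q * d' ^ 2) * e)) ((d' - 1) * ((32 * q * d' ^ 2) * e) + r) +
        32 * q * d' ^ 2 * (d' * e) + 1 - q * r)) = S at hF hN
    generalize Module.finrank K
      (EE (aeval u Ψ₁ : Pol K) (aeval u Ψ₂ : Pol K) (32 * q * d' ^ 2)
        (32 * q * d' ^ 2 * (d' * e)) ⊓
        II Q (32 * d' ^ 2 * (d' * e) + 4 * q * (d' * e)) : Submodule K (Pol K)) = F at hF ⊢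
    generalize Module.finrank K (EE (aeval u Ψ₁ : Pol K) (aeval u Ψ₂ : Pol K) (32 * q * d' ^ 2)
        (32 * q * d' ^ 2 * (d' * e)) : Submodule K (Pol K)) = E at hF hdim
    generalize Module.finrank K (AA K (32 * q * d' ^ 2 * (d' * e))) = A at hdim hN
    generalize Module.finrank K (AA K (32 * q * d' ^ 2 * (d' * e) - d' * e)) = A' at hdim hN
    nlinarith
  have hne : (EE (aeval u Ψ₁ : Pol K) (aeval u Ψ₂ : Pol K) (32 * q * d' ^ 2)
        (32 * q * d' ^ 2 * (d' * e)) ⊓
        II Q (32 * d' ^ 2 * (d' * e) + 4 * q * (d' * e)) : Submodule K (Pol K)) ≠ ⊥ := by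
    intro h
    rw [h] at hpos
    simp at hpos
  obtain ⟨T, hT, hT0⟩ := Submodule.exists_mem_ne_zero_of_ne_bot hne
  obtain ⟨hTE, hTI⟩ := Submodule.mem_inf.1 hT
  obtain ⟨a, ha, hTa⟩ := hTE
  obtain ⟨R, hR⟩ := hTI
  refine ⟨R, a, ?_, ha, ?_⟩
  · rintro rfl
    exact hT0 (by rw [hR, mul_zero])
  · rw [← hR, hTa]

end Pool.Agent.Work.MP_91e6de_nt.BL

end

section

set_option autoImplicit false

/-!
# MP_91e6de_nt, block BL, item AuxF: the auxiliary polynomial for the iterates
-/

namespace Pool.Agent.Work.MP_91e6de_nt.BL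

open MvPolynomial Height Height.AdmissibleAbsValues Filter Topology

namespace AuxAuxF

theorem dg_le {K : Type} [Field K] (f : Fin 2 → Pol K) (n : ℕ) (i : Fin 2) :
    (it f n i).totalDegree ≤ dg f n := by
  unfold dg
  fin_cases i
  · exact le_max_left _ _
  · exact le_max_right _ _

end AuxAuxF

theorem pr_AuxF (h1 : S_Aux) (h2 : S_It) (h3 : S_Cop) : S_AuxF := by
  intro K _ _ f d Q q j m hd hdg hQ hjm
  have hdm : 1 ≤ d ^ m := Nat.one_le_pow _ _ (by omega)
  obtain ⟨i, i', c, hi, hc⟩ := h3 K (it f m) (d ^ m) hdm (hdg m)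
  have hit : ∀ l, it f m l = aeval (it f j) (it f (m - j) l) := by
    intro l
    have := (h2 K f).1 (m - j) j l
    rwa [Nat.sub_add_cancel hjm] at this
  have e1 : (aeval (it f j) (it f (m - j) i' + C c) : Pol K) = it f m i' + C c := by
    rw [map_add, ← hit, aeval_C]
    rfl
  have hde : d ^ j * d ^ (m - j) = d ^ m := by
    rw [← pow_add, Nat.add_sub_cancel' hjm]
  have hdeg : ∀ l, (it f (m - j) l).totalDegree ≤ d ^ (m - j) := fun l => by
    rw [← hdg (m - j)]
    exact AuxAuxF.dg_le f (m - j) l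
  obtain ⟨R, a, hR, ha, hEq⟩ := h1 K Q q (d ^ j) (it f j) hQ (it f (m - j) i' + C c)
    (it f (m - j) i) (d ^ (m - j)) (Nat.one_le_pow _ _ (by omega))
    ((totalDegree_add _ _).trans (max_le (hdeg i') (by rw [totalDegree_C]; exact Nat.zero_le _)))
    (hdeg i) (by rw [e1, ← hit]; exact hc) (by rw [← hit, hi, hde])
  rw [hde] at ha hEq
  rw [e1, ← hit] at hEq
  exact ⟨R, a, i, i', c, hR, ha, hEq⟩

end Pool.Agent.Work.MP_91e6de_nt.BL

end

section

set_option autoImplicit false

/-!
# Item BF: base points at infinity over the algebraic closure give forms over `K`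
-/

namespace Pool.Agent.Work.MP_91e6de_nt.BL

open MvPolynomial Height Height.AdmissibleAbsValues Filter Topology

namespace AuxBF

theorem low {K : Type} [Field K] (u : Pol K) (D : ℕ) (hD : 1 ≤ D) (hu : u.totalDegree ≤ D) :
    (u - homogeneousComponent D u).totalDegree + 1 ≤ D := by
  have h : (u - homogeneousComponent D u).totalDegree ≤ D - 1 := by
    unfold totalDegree
    refine Finset.sup_le fun m hm => ?_
    rw [mem_support_iff, coeff_sub, coeff_homogeneousComponent] at hm
    have hdeg : (m.sum fun _ e => e) = m.degree := rfl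
    have hne : m.degree ≠ D := by
      intro h
      rw [if_pos h, sub_self] at hm
      exact hm rfl
    rw [if_neg hne, sub_zero] at hm
    have h1 := le_totalDegree (mem_support_iff.mpr hm)
    rw [hdeg] at h1 ⊢
    omega
  omega

theorem comp_ne {K : Type} [Field K] (u : Pol K) (D : ℕ) (hD : 1 ≤ D) (hu : u.totalDegree = D) :
    homogeneousComponent D u ≠ 0 := by
  intro h
  have h1 := low u D hD hu.le
  rw [h, sub_zero] at h1
  omega

theorem aeval_comp {K : Type} [Field K] (z : AlgebraicClosure K) (G : Pol K) :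
    Polynomial.aeval z (aeval ![Polynomial.X, 1] G : Polynomial K) =
      (aeval ![z, 1] G : AlgebraicClosure K) := by
  have h : ((Polynomial.aeval z).comp (aeval ![Polynomial.X, (1 : Polynomial K)]) :
      Pol K →ₐ[K] AlgebraicClosure K) = aeval ![z, 1] := by
    apply MvPolynomial.algHom_ext
    intro i
    fin_cases i <;> simp
  exact congrArg (fun φ : Pol K →ₐ[K] AlgebraicClosure K => φ G) h

theorem hom1_zero {K : Type} [Field K] (L : ℕ) : hom1 L (0 : Polynomial K) = 0 := by
  unfold hom1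
  simp

theorem mk_dec {K : Type} [Field K] (h2 : S_Hom1) (u : Fin 2 → Pol K) (D : ℕ) (hD : 1 ≤ D)
    (hu : max (u 0).totalDegree (u 1).totalDegree = D) (z : AlgebraicClosure K)
    (hz : ∀ i : Fin 2, (aeval ![z, 1] (homogeneousComponent D (u i)) : AlgebraicClosure K) = 0) :
    Dec (hom1 (minpoly K z).natDegree (minpoly K z)) (minpoly K z).natDegree D u := by
  obtain ⟨H1, H2, H3, H4, H5, H6⟩ := h2 K
  have hint : IsIntegral K z := Algebra.IsIntegral.isIntegral z
  set p := minpoly K z with hp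
  have hp0 : p ≠ 0 := minpoly.ne_zero hint
  have hui : ∀ i, (u i).totalDegree ≤ D := by
    intro i
    rw [← hu]
    fin_cases i
    · exact le_max_left _ _
    · exact le_max_right _ _
  set g : Fin 2 → Polynomial K := fun i =>
    aeval ![Polynomial.X, 1] (homogeneousComponent D (u i)) with hg
  have hgd : ∀ i, (g i).natDegree ≤ D ∧ hom1 D (g i) = homogeneousComponent D (u i) := fun i =>
    H5 D _ (homogeneousComponent_isHomogeneous D (u i))
  have hdvd : ∀ i, p ∣ g i := by
    intro i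
    apply minpoly.dvd K z
    rw [hg]
    show Polynomial.aeval z (aeval ![Polynomial.X, 1] (homogeneousComponent D (u i)) :
      Polynomial K) = 0
    rw [aeval_comp]
    exact hz i
  have hqD : p.natDegree ≤ D := by
    have hex : ∃ i, (u i).totalDegree = D := by
      rcases max_choice (u 0).totalDegree (u 1).totalDegree with h | h
      · exact ⟨0, by rw [← h, hu]⟩
      · exact ⟨1, by rw [← h, hu]⟩
    obtain ⟨i, hi⟩ := hex
    have h1 := comp_ne (u i) D hD hi
    have h3 : g i ≠ 0 := by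
      intro h
      apply h1
      rw [← (hgd i).2, h, hom1_zero]
    exact (Polynomial.natDegree_le_of_dvd (hdvd i) h3).trans (hgd i).1
  refine ⟨H1 _ _, ?_, ?_, hqD, ?_⟩
  · intro h
    exact hp0 (H6 _ _ le_rfl h)
  · exact minpoly.natDegree_pos hint
  · intro i
    obtain ⟨w, hw⟩ : ∃ w, g i = p * w ∧ w.natDegree ≤ D - p.natDegree := by
      by_cases h0 : g i = 0
      · exact ⟨0, by rw [h0, mul_zero], by simp⟩
      · obtain ⟨w, hw⟩ := hdvd i
        refine ⟨w, hw, ?_⟩
        have hw0 : w ≠ 0 := by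
          rintro rfl
          rw [mul_zero] at hw
          exact h0 hw
        have h3 := (hgd i).1
        rw [hw, Polynomial.natDegree_mul hp0 hw0] at h3
        omega
    refine ⟨hom1 (D - p.natDegree) w, u i - homogeneousComponent D (u i), ?_, ?_, ?_⟩
    · rw [← H2 _ _ _ _ le_rfl hw.2, ← hw.1, Nat.add_sub_cancel' hqD, (hgd i).2]
      ring
    · have h3 := (H1 (D - p.natDegree) w).totalDegree_le
      omega
    · exact low (u i) D hD (hui i)

end AuxBF

theorem pr_BF (h1 : S_CopH) (h2 : S_Hom1) : S_BF := by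
  intro K _ f d hd hdg hinf r
  set Z : Set (AlgebraicClosure K) := {z | ∃ j, ∀ i : Fin 2,
    (aeval ![z, 1] (homogeneousComponent (d ^ j) (it f j i)) : AlgebraicClosure K) = 0} with hZ
  have hint : ∀ z : AlgebraicClosure K, IsIntegral K z := fun z => Algebra.IsIntegral.isIntegral z
  have himg : ((minpoly K) '' Z).Infinite := by
    intro hfin
    apply hinf
    apply Set.Finite.of_finite_fibers (minpoly K) hfin
    rintro p ⟨z, hz, rfl⟩
    have hne : minpoly K z ≠ 0 := minpoly.ne_zero (hint z)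
    have h3 : ((minpoly K z).rootSet (AlgebraicClosure K)).Finite :=
      Polynomial.rootSet_finite _ _
    refine h3.subset ?_
    rintro w ⟨-, hw⟩
    have hw' : minpoly K w = minpoly K z := hw
    rw [Polynomial.mem_rootSet]
    refine ⟨hne, ?_⟩
    rw [← hw']
    exact minpoly.aeval K w
  have e := himg.natEmbedding
  have hzz : ∀ i : Fin r, ∃ z ∈ Z, minpoly K z = (e (i : ℕ) : Polynomial K) :=
    fun i => (e (i : ℕ)).2
  choose z hzZ hze using hzz
  choose j hj using hzZ
  refine ⟨fun i => hom1 (minpoly K (z i)).natDegree (minpoly K (z i)),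
    fun i => (minpoly K (z i)).natDegree, j, ?_, ?_⟩
  · intro i i' hii
    apply h1 K _ _ (minpoly.monic (hint _)) (minpoly.monic (hint _))
    rw [(minpoly.irreducible (hint (z i))).coprime_iff_not_dvd]
    intro hdvd
    have hass : Associated (minpoly K (z i)) (minpoly K (z i')) :=
      (minpoly.irreducible (hint (z i))).associated_of_dvd
        (minpoly.irreducible (hint (z i'))) hdvd
    have heq := Polynomial.eq_of_monic_of_associated (minpoly.monic (hint _))
      (minpoly.monic (hint _)) hass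
    rw [hze, hze] at heq
    have h3 := e.injective (Subtype.ext heq)
    exact hii (Fin.ext h3)
  · intro i
    exact AuxBF.mk_dec h2 (it f (j i)) (d ^ j i) (Nat.one_le_pow _ _ hd) (hdg (j i)) (z i) (hj i)

end Pool.Agent.Work.MP_91e6de_nt.BL

end

section

set_option autoImplicit false

/-!
# MP_91e6de_nt, block BL, item Bd: upper bound for the values of a polynomial
-/

namespace Pool.Agent.Work.MP_91e6de_nt.BL

open MvPolynomial Height Height.AdmissibleAbsValues Filter Topology

namespace AuxBd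

theorem one_le_nn {K : Type} [Field K] (v : AbsoluteValue K ℝ) (P : Fin 2 → K) :
    1 ≤ nn v P := le_max_right _ _

theorem le_nn {K : Type} [Field K] (v : AbsoluteValue K ℝ) (P : Fin 2 → K) (i : Fin 2) :
    v (P i) ≤ nn v P := by
  fin_cases i
  · exact (le_max_left _ _).trans (le_max_left _ _)
  · exact (le_max_right _ _).trans (le_max_left _ _)

theorem monomial_le {K : Type} [Field K] (v : AbsoluteValue K ℝ) (P : Fin 2 → K)
    (s : Fin 2 →₀ ℕ) (D : ℕ) (hs : (s.sum fun _ e => e) ≤ D) :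
    v (∏ i, P i ^ s i) ≤ nn v P ^ D := by
  have h1 : s 0 + s 1 ≤ D := by
    rw [Finsupp.sum_fintype _ _ (fun _ => rfl), Fin.sum_univ_two] at hs
    exact hs
  rw [Fin.prod_univ_two, map_mul, map_pow, map_pow]
  have hn : 0 ≤ nn v P := le_trans zero_le_one (one_le_nn v P)
  calc v (P 0) ^ s 0 * v (P 1) ^ s 1 ≤ nn v P ^ s 0 * nn v P ^ s 1 :=
        mul_le_mul (pow_le_pow_left₀ (v.nonneg _) (le_nn v P 0) _)
          (pow_le_pow_left₀ (v.nonneg _) (le_nn v P 1) _) (pow_nonneg (v.nonneg _) _)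
          (pow_nonneg hn _)
    _ = nn v P ^ (s 0 + s 1) := (pow_add _ _ _).symm
    _ ≤ nn v P ^ D := pow_le_pow_right₀ (one_le_nn v P) h1

end AuxBd

/-- upper bound for the values of a polynomial -/
theorem pr_Bd : S_Bd := by
  intro K _ v R
  refine ⟨1 + ∑ s ∈ R.support, v (coeff s R), ?_, ?_⟩
  · have : 0 ≤ ∑ s ∈ R.support, v (coeff s R) := Finset.sum_nonneg fun s _ => v.nonneg _
    linarith
  · intro P
    have hn : 0 ≤ nn v P ^ R.totalDegree :=
      pow_nonneg (le_trans zero_le_one (AuxBd.one_le_nn v P)) _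
    rw [eval_eq']
    calc v (∑ s ∈ R.support, coeff s R * ∏ i, P i ^ s i)
        ≤ ∑ s ∈ R.support, v (coeff s R * ∏ i, P i ^ s i) := v.sum_le _ _
      _ ≤ ∑ s ∈ R.support, v (coeff s R) * nn v P ^ R.totalDegree := by
          refine Finset.sum_le_sum fun s hs => ?_
          rw [map_mul]
          exact mul_le_mul_of_nonneg_left
            (AuxBd.monomial_le v P s _ (le_totalDegree hs)) (v.nonneg _)
      _ = (∑ s ∈ R.support, v (coeff s R)) * nn v P ^ R.totalDegree := by
          rw [Finset.sum_mul]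
      _ ≤ (1 + ∑ s ∈ R.support, v (coeff s R)) * nn v P ^ R.totalDegree := by
          refine mul_le_mul_of_nonneg_right ?_ hn
          linarith

end Pool.Agent.Work.MP_91e6de_nt.BL

end

section

set_option autoImplicit false

/-!
Two coprime combinations of the coordinates. The statement does not ask for different indices, and
`F i + 1` is coprime to `F i`.
-/

namespace Pool.Agent.Work.MP_91e6de_nt.BL

open MvPolynomial Height Height.AdmissibleAbsValues Filter Topology

namespace AuxCop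

variable {K : Type} [Field K]

theorem relPrime_add_one (F : Pol K) : IsRelPrime (F + C 1) F := by
  intro d h1 h2
  have h3 : d ∣ (C 1 : Pol K) := (dvd_add_right h2).1 h1
  rw [C_1] at h3
  exact isUnit_of_dvd_one h3

end AuxCop

theorem pr_Cop : S_Cop := by
  intro K _ _ F D _ h
  rcases le_total (F 0).totalDegree (F 1).totalDegree with h1 | h1
  · exact ⟨1, 1, 1, by rw [← h, max_eq_right h1], AuxCop.relPrime_add_one _⟩
  · exact ⟨0, 0, 1, by rw [← h, max_eq_left h1], AuxCop.relPrime_add_one _⟩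

end Pool.Agent.Work.MP_91e6de_nt.BL

end

section

set_option autoImplicit false

/-!
# MP_91e6de_nt, block BL: coprime monic polynomials give forms without common zero
-/

namespace Pool.Agent.Work.MP_91e6de_nt.BL

open MvPolynomial Height Height.AdmissibleAbsValues Filter Topology

namespace AuxCopH

variable {K : Type} [Field K]

/-- the part of `hom1 q p` divisible by `X 1`, divided by `X 1` -/
noncomputable def MM (q : ℕ) (p : Polynomial K) : Pol K :=
  ∑ k ∈ Finset.range q, C (p.coeff k) * X 0 ^ k * X 1 ^ (q - 1 - k)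

lemma hom1_eq {q : ℕ} {p : Polynomial K} (hp : p.coeff q = 1) :
    hom1 q p = X 1 * MM q p + X 0 ^ q := by
  unfold hom1 MM
  rw [Finset.sum_range_succ, hp, Finset.mul_sum]
  simp only [C_1, one_mul, Nat.sub_self, pow_zero, mul_one]
  congr 1
  refine Finset.sum_congr rfl fun k hk => ?_
  have hk' : k < q := Finset.mem_range.mp hk
  have : q - k = (q - 1 - k) + 1 := by omega
  rw [this, pow_succ]
  ring

lemma MM_hom (q : ℕ) (p : Polynomial K) : (MM q p).IsHomogeneous (q - 1) := by
  unfold MM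
  refine IsHomogeneous.sum _ _ _ fun k hk => ?_
  have hk' : k < q := Finset.mem_range.mp hk
  have h := ((isHomogeneous_C (Fin 2) (p.coeff k)).mul ((isHomogeneous_X K (0 : Fin 2)).pow k)).mul
    ((isHomogeneous_X K (1 : Fin 2)).pow (q - 1 - k))
  have e : 0 + 1 * k + 1 * (q - 1 - k) = q - 1 := by omega
  rwa [e] at h

end AuxCopH

open AuxCopH in
theorem pr_CopH (h : S_Hom1) : S_CopH := by
  intro K _ p p' hp hp' hcop
  obtain ⟨h1, h2, h3, h4, -, -⟩ := h K
  obtain ⟨u, w, huw⟩ := hcop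
  set q := p.natDegree with hq
  set q' := p'.natDegree with hq'
  -- the first step: a power of `X 1`
  set L₁ := max (u.natDegree + q) (w.natDegree + q') with hL₁
  have hu : u.natDegree ≤ L₁ - q := by
    have : u.natDegree + q ≤ L₁ := le_max_left _ _
    omega
  have hw : w.natDegree ≤ L₁ - q' := by
    have : w.natDegree + q' ≤ L₁ := le_max_right _ _
    omega
  have hq1 : q ≤ L₁ := by
    have : u.natDegree + q ≤ L₁ := le_max_left _ _
    omega
  have hq1' : q' ≤ L₁ := by
    have : w.natDegree + q' ≤ L₁ := le_max_right _ _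
    omega
  have hX1 : (X 1 : Pol K) ^ L₁ = hom1 (L₁ - q) u * hom1 q p + hom1 (L₁ - q') w * hom1 q' p' := by
    rw [← h2 _ _ _ _ hu le_rfl, ← h2 _ _ _ _ hw le_rfl, Nat.sub_add_cancel hq1,
      Nat.sub_add_cancel hq1', ← h3, huw, h4]
  have hA1 := h1 (L₁ - q) u
  have hB1 := h1 (L₁ - q') w
  set A₁ := hom1 (L₁ - q) u with hA₁
  set B₁ := hom1 (L₁ - q') w with hB₁
  have hQ := hom1_eq (q := q) (p := p) hp.coeff_natDegree
  have hX0h : ∀ n : ℕ, ((X 0 : Pol K) ^ n).IsHomogeneous n := by
    intro n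
    simpa using (isHomogeneous_X K (0 : Fin 2)).pow n
  have hX1h : ∀ n : ℕ, ((X 1 : Pol K) ^ n).IsHomogeneous n := by
    intro n
    simpa using (isHomogeneous_X K (1 : Fin 2)).pow n
  rcases Nat.eq_zero_or_pos q with h0 | hpos
  · refine ⟨L₁, hq1, hq1', fun i => ?_⟩
    fin_cases i
    · refine ⟨X 0 ^ L₁, 0, ?_, isHomogeneous_zero _ _ _, ?_⟩
      · rw [h0, Nat.sub_zero]; exact hX0h _
      · have : hom1 q p = 1 := by
          rw [hQ, MM, h0]
          simp
        rw [this]
        simp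
    · exact ⟨A₁, B₁, hA1, hB1, hX1⟩
  · set M := MM q p with hM
    have hMh : M.IsHomogeneous (q - 1) := MM_hom q p
    -- a power of `X 0`
    set A : Pol K := ∑ i ∈ Finset.range L₁, (X 0 ^ q) ^ i * (-(X 1 * M)) ^ (L₁ - 1 - i) with hA
    have hgeom : A * (X 0 ^ q - -(X 1 * M)) = (X 0 ^ q) ^ L₁ - (-(X 1 * M)) ^ L₁ :=
      (Commute.all _ _).geom_sum₂_mul L₁
    have hX1M : (-(X 1 * M)).IsHomogeneous q := by
      have := (((isHomogeneous_X K (1 : Fin 2))).mul hMh).neg
      have e : 1 + (q - 1) = q := by omega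
      rwa [e] at this
    have hAh : A.IsHomogeneous (q * L₁ - q) := by
      refine IsHomogeneous.sum _ _ _ fun i hi => ?_
      have hi' : i < L₁ := Finset.mem_range.mp hi
      have := ((hX0h q).pow i).mul (hX1M.pow (L₁ - 1 - i))
      have e : q * i + q * (L₁ - 1 - i) = q * L₁ - q := by
        rw [← Nat.mul_add]
        have : i + (L₁ - 1 - i) = L₁ - 1 := by omega
        rw [this, Nat.mul_sub, Nat.mul_one]
      rwa [e] at this
    have hML : ((-M) ^ L₁).IsHomogeneous ((q - 1) * L₁) := hMh.neg.pow L₁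
    have hX0 : (X 0 : Pol K) ^ (q * L₁) =
        (A + (-M) ^ L₁ * A₁) * hom1 q p + (-M) ^ L₁ * B₁ * hom1 q' p' := by
      have e1 : (X 0 : Pol K) ^ (q * L₁) = A * hom1 q p + (-M) ^ L₁ * X 1 ^ L₁ := by
        rw [hQ, pow_mul]
        have : (-(X 1 * M)) ^ L₁ = (-M) ^ L₁ * X 1 ^ L₁ := by
          rw [← mul_pow]; congr 1; ring
        rw [this] at hgeom
        linear_combination -hgeom
      rw [e1, hX1]
      ring
    have hqL : q * L₁ = (q - 1) * L₁ + L₁ := by
      obtain ⟨s, hs⟩ : ∃ s, q = s + 1 := ⟨q - 1, by omega⟩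
      rw [hs, Nat.add_sub_cancel, Nat.add_mul, Nat.one_mul]
    refine ⟨q * L₁ + L₁, hq1.trans (Nat.le_add_left _ _), hq1'.trans (Nat.le_add_left _ _),
      fun i => ?_⟩
    fin_cases i
    · refine ⟨X 0 ^ L₁ * (A + (-M) ^ L₁ * A₁), X 0 ^ L₁ * ((-M) ^ L₁ * B₁), ?_, ?_, ?_⟩
      · have e0 : ((-M) ^ L₁ * A₁).IsHomogeneous (q * L₁ - q) := by
          have := hML.mul hA1
          have e : (q - 1) * L₁ + (L₁ - q) = q * L₁ - q := by omega
          rwa [e] at this
        have := (hX0h L₁).mul (hAh.add e0)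
        have e : L₁ + (q * L₁ - q) = q * L₁ + L₁ - q := by
          have : q ≤ q * L₁ := by
            rw [hqL]; omega
          omega
        rwa [e] at this
      · have := (hX0h L₁).mul (hML.mul hB1)
        have e : L₁ + ((q - 1) * L₁ + (L₁ - q')) = q * L₁ + L₁ - q' := by omega
        rwa [e] at this
      · show (X 0 : Pol K) ^ (q * L₁ + L₁) = _
        rw [pow_add, hX0]
        ring
    · refine ⟨X 1 ^ (q * L₁) * A₁, X 1 ^ (q * L₁) * B₁, ?_, ?_, ?_⟩
      · have := (hX1h (q * L₁)).mul hA1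
        have e : q * L₁ + (L₁ - q) = q * L₁ + L₁ - q := by omega
        rwa [e] at this
      · have := (hX1h (q * L₁)).mul hB1
        have e : q * L₁ + (L₁ - q') = q * L₁ + L₁ - q' := by omega
        rwa [e] at this
      · show (X 1 : Pol K) ^ (q * L₁ + L₁) = _
        rw [pow_add, hX1]
        ring

end Pool.Agent.Work.MP_91e6de_nt.BL

end

section

set_option autoImplicit false

/-!
# MP_91e6de_nt, block BL, item Dom: a map with a dense orbit is dominant
-/

namespace Pool.Agent.Work.MP_91e6de_nt.BL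

open MvPolynomial Height Height.AdmissibleAbsValues Filter Topology

namespace AuxDom

theorem X_sub_ne {K : Type} [Field K] (a : K) : (X 0 - C a : Pol K) ≠ 0 := by
  intro h
  have h1 := congrArg (eval (fun _ => a + 1)) h
  rw [map_sub, eval_X, eval_C, map_zero] at h1
  have h2 : (1 : K) = 0 := by
    rw [← h1]
    ring
  exact one_ne_zero h2

theorem eval_aeval {K : Type} [Field K] (f : Fin 2 → Pol K) (p : Fin 2 → K) (Φ : Pol K) :
    eval (fun i => eval p (f i)) Φ = eval p (aeval f Φ) := by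
  induction Φ using MvPolynomial.induction_on with
  | C a => rw [eval_C, aeval_C, MvPolynomial.algebraMap_eq, eval_C]
  | add p q hp hq => rw [map_add, map_add, map_add, hp, hq]
  | mul_X p i hp => rw [map_mul, map_mul, map_mul, hp, eval_X, aeval_X]

end AuxDom

theorem pr_Dom : S_Dom := by
  intro K _ f P hD Φ h
  have h1 : Φ * (X 0 - C (P 0)) = 0 := by
    apply hD
    intro n
    rw [map_mul]
    rcases n with _ | n
    · have h2 : eval (orb f P 0) (X 0 - C (P 0) : Pol K) = 0 := by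
        rw [map_sub, eval_X, eval_C]
        exact sub_self _
      rw [h2, mul_zero]
    · have h2 : eval (orb f P (n + 1)) Φ = 0 := by
        have h3 := AuxDom.eval_aeval f (orb f P n) Φ
        rw [h, map_zero] at h3
        exact h3
      rw [h2, zero_mul]
  exact (mul_eq_zero.1 h1).resolve_right (AuxDom.X_sub_ne _)

end Pool.Agent.Work.MP_91e6de_nt.BL

end

section

set_option autoImplicit false

/-!
# MP_91e6de_nt, block BL: elements of `EE` modulo powers of `Q`
-/

namespace Pool.Agent.Work.MP_91e6de_nt.BL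

open MvPolynomial Height Height.AdmissibleAbsValues Filter Topology

namespace AuxExp

variable {K : Type} [Field K]

/-- bounds for the coefficients of a polynomial in `Q` -/
def Wt (q d' : ℕ) (P : Polynomial (Pol K)) (M s : ℕ) : Prop :=
  ∀ k, P.coeff k = 0 ∨ (k ≤ M ∧ (P.coeff k).totalDegree + q * k ≤ (d' - 1) * M + k + s)

/-- values of such polynomials -/
def VV (Q : Pol K) (q d' M s : ℕ) (T : Pol K) : Prop :=
  ∃ P : Polynomial (Pol K), Wt q d' P M s ∧ P.eval Q = T

theorem sum_bound {ι : Type} {S : Finset ι} {f : ι → Pol K} {A B : ℕ}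
    (h : ∀ i ∈ S, f i = 0 ∨ (f i).totalDegree + A ≤ B) (hne : ∑ i ∈ S, f i ≠ 0) :
    (∑ i ∈ S, f i).totalDegree + A ≤ B := by
  obtain ⟨i, hi, hfi⟩ := Finset.exists_ne_zero_of_sum_ne_zero hne
  have hAB : A ≤ B := by
    rcases h i hi with h1 | h1
    · exact absurd h1 hfi
    · omega
  have h2 : (∑ i ∈ S, f i).totalDegree ≤ B - A := by
    refine (totalDegree_finsetSum S f).trans (Finset.sup_le fun j hj => ?_)
    rcases h j hj with h1 | h1
    · rw [h1, totalDegree_zero]
      exact Nat.zero_le _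
    · omega
  omega

theorem Wt.add {q d' M s : ℕ} {P P' : Polynomial (Pol K)} (h : Wt q d' P M s)
    (h' : Wt q d' P' M s) : Wt q d' (P + P') M s := by
  intro k
  rw [Polynomial.coeff_add]
  rcases h k with h1 | ⟨h1, h2⟩
  · rw [h1, zero_add]
    exact h' k
  · rcases h' k with h3 | ⟨h3, h4⟩
    · rw [h3, add_zero]
      exact Or.inr ⟨h1, h2⟩
    · right
      refine ⟨h1, ?_⟩
      have := totalDegree_add (P.coeff k) (P'.coeff k)
      rcases max_le_iff.1 (le_refl (max (P.coeff k).totalDegree (P'.coeff k).totalDegree))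
        with ⟨_, _⟩
      rcases le_total (P.coeff k).totalDegree (P'.coeff k).totalDegree with h5 | h5
      · rw [max_eq_right h5] at this
        omega
      · rw [max_eq_left h5] at this
        omega

theorem Wt.mul {q d' M s M' s' : ℕ} {P P' : Polynomial (Pol K)} (h : Wt q d' P M s)
    (h' : Wt q d' P' M' s') : Wt q d' (P * P') (M + M') (s + s') := by
  intro k
  rw [Polynomial.coeff_mul]
  have hterm : ∀ x ∈ Finset.HasAntidiagonal.antidiagonal k, P.coeff x.1 * P'.coeff x.2 = 0 ∨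
      (k ≤ M + M' ∧ (P.coeff x.1 * P'.coeff x.2).totalDegree + q * k ≤
        (d' - 1) * (M + M') + k + (s + s')) := by
    intro x hx
    have hk : x.1 + x.2 = k := Finset.HasAntidiagonal.mem_antidiagonal.1 hx
    rcases h x.1 with h1 | ⟨h1, h2⟩
    · left
      rw [h1, zero_mul]
    · rcases h' x.2 with h3 | ⟨h3, h4⟩
      · left
        rw [h3, mul_zero]
      · right
        refine ⟨by omega, ?_⟩
        have h5 := totalDegree_mul (P.coeff x.1) (P'.coeff x.2)
        have e1 : q * k = q * x.1 + q * x.2 := by rw [← hk]; ring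
        have e2 : (d' - 1) * (M + M') = (d' - 1) * M + (d' - 1) * M' := by ring
        omega
  by_cases h0 : ∑ x ∈ Finset.HasAntidiagonal.antidiagonal k, P.coeff x.1 * P'.coeff x.2 = 0
  · exact Or.inl h0
  · right
    obtain ⟨x, hx, hfx⟩ := Finset.exists_ne_zero_of_sum_ne_zero h0
    refine ⟨?_, sum_bound (fun y hy => ?_) h0⟩
    · rcases hterm x hx with h1 | h1
      · exact absurd h1 hfx
      · exact h1.1
    · rcases hterm y hy with h1 | h1
      · exact Or.inl h1
      · exact Or.inr h1.2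

theorem Wt.mono {q d' M s M' s' : ℕ} {P : Polynomial (Pol K)} (h : Wt q d' P M s)
    (hM : M ≤ M') (hs : s ≤ s') : Wt q d' P M' s' := by
  intro k
  rcases h k with h1 | ⟨h1, h2⟩
  · exact Or.inl h1
  · right
    refine ⟨h1.trans hM, ?_⟩
    have := Nat.mul_le_mul_left (d' - 1) hM
    omega

theorem VV.add {Q : Pol K} {q d' M s : ℕ} {T T' : Pol K} (h : VV Q q d' M s T)
    (h' : VV Q q d' M s T') : VV Q q d' M s (T + T') := by
  obtain ⟨P, h1, rfl⟩ := h
  obtain ⟨P', h2, rfl⟩ := h'
  exact ⟨P + P', h1.add h2, Polynomial.eval_add⟩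

theorem VV.zero (Q : Pol K) (q d' M s : ℕ) : VV Q q d' M s 0 :=
  ⟨0, fun _ => Or.inl (Polynomial.coeff_zero _), Polynomial.eval_zero⟩

theorem VV.sum {ι : Type} {Q : Pol K} {q d' M s : ℕ} {S : Finset ι} {f : ι → Pol K}
    (h : ∀ i ∈ S, VV Q q d' M s (f i)) : VV Q q d' M s (∑ i ∈ S, f i) :=
  Finset.sum_induction f (VV Q q d' M s) (fun _ _ => VV.add) (VV.zero Q q d' M s) h

theorem VV.mul {Q : Pol K} {q d' M s M' s' : ℕ} {T T' : Pol K} (h : VV Q q d' M s T)
    (h' : VV Q q d' M' s' T') : VV Q q d' (M + M') (s + s') (T * T') := by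
  obtain ⟨P, h1, rfl⟩ := h
  obtain ⟨P', h2, rfl⟩ := h'
  exact ⟨P * P', h1.mul h2, Polynomial.eval_mul⟩

theorem VV.mono {Q : Pol K} {q d' M s M' s' : ℕ} {T : Pol K} (h : VV Q q d' M s T)
    (hM : M ≤ M') (hs : s ≤ s') : VV Q q d' M' s' T := by
  obtain ⟨P, h1, rfl⟩ := h
  exact ⟨P, h1.mono hM hs, rfl⟩

theorem VV.const {Q : Pol K} (q d' : ℕ) {s : ℕ} {a : Pol K} (h : a.totalDegree ≤ s) :
    VV Q q d' 0 s a := by
  refine ⟨Polynomial.C a, fun k => ?_, Polynomial.eval_C⟩
  rcases Nat.eq_zero_or_pos k with rfl | hk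
  · right
    rw [Polynomial.coeff_C_zero]
    exact ⟨le_rfl, by simpa using h⟩
  · left
    exact Polynomial.coeff_C_of_ne_zero hk.ne'

theorem VV.pow {Q : Pol K} {q d' M : ℕ} {T : Pol K} (h : VV Q q d' M 0 T) :
    ∀ n : ℕ, VV Q q d' (n * M) 0 (T ^ n)
  | 0 => by
    rw [pow_zero, Nat.zero_mul]
    exact VV.const q d' (by simp)
  | n + 1 => by
    have h1 := (VV.pow h n).mul h
    rw [pow_succ, Nat.add_mul, Nat.one_mul]
    exact h1

theorem VV.base {Q : Pol K} {q d' : ℕ} {u : Fin 2 → Pol K} (h : Dec Q q d' u) (i : Fin 2) :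
    VV Q q d' 1 0 (u i) := by
  obtain ⟨α, β, h1, h2, h3⟩ := h.dec i
  refine ⟨Polynomial.C β + Polynomial.C α * Polynomial.X, fun k => ?_, ?_⟩
  · rw [Polynomial.coeff_add, Polynomial.coeff_C_mul]
    match k with
    | 0 =>
      right
      rw [Polynomial.coeff_C_zero, Polynomial.coeff_X_zero, mul_zero, add_zero]
      omega
    | 1 =>
      right
      rw [Polynomial.coeff_C_of_ne_zero one_ne_zero, Polynomial.coeff_X_one, mul_one, zero_add]
      omega
    | k + 2 =>
      left
      rw [Polynomial.coeff_C_of_ne_zero (by omega), Polynomial.coeff_X_of_ne_one (by omega), mul_zero,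
        add_zero]
  · rw [Polynomial.eval_add, Polynomial.eval_mul, Polynomial.eval_C, Polynomial.eval_C,
      Polynomial.eval_X, h1]
    ring

theorem VV.aev {Q : Pol K} {q d' : ℕ} {u : Fin 2 → Pol K} (h : Dec Q q d' u) {Ψ : Pol K} {e : ℕ}
    (hΨ : Ψ.totalDegree ≤ e) : VV Q q d' e 0 (aeval u Ψ) := by
  rw [aeval_def, eval₂_eq']
  refine VV.sum fun m hm => ?_
  have h1 : (m.sum fun _ n => n) ≤ e := (le_totalDegree hm).trans hΨ
  have h2 : m 0 + m 1 ≤ e := by
    rw [Finsupp.sum_fintype _ _ (fun _ => rfl), Fin.sum_univ_two] at h1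
    exact h1
  have h3 : VV Q q d' 0 0 (algebraMap K (Pol K) (coeff m Ψ)) := by
    refine VV.const q d' ?_
    rw [algebraMap_eq, totalDegree_C]
  have h4 := h3.mul (((VV.base h 0).pow (m 0)).mul ((VV.base h 1).pow (m 1)))
  rw [Fin.prod_univ_two]
  exact h4.mono (by omega) (by omega)

theorem VV.final {Q : Pol K} {q d' M s : ℕ} (hd : 1 ≤ d') (hQ : Q.totalDegree ≤ q) {T : Pol K}
    (h : VV Q q d' M s T) (r : ℕ) : ∃ T' : Pol K,
      T'.totalDegree ≤ min (d' * M) ((d' - 1) * M + r) + s ∧ Q ^ (r + 1) ∣ T - T' := by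
  obtain ⟨P, h1, rfl⟩ := h
  refine ⟨∑ k ∈ Finset.range (r + 1), P.coeff k * Q ^ k, ?_, ?_⟩
  · refine (totalDegree_finsetSum _ _).trans (Finset.sup_le fun k hk => ?_)
    have hk' : k ≤ r := Nat.lt_succ_iff.1 (Finset.mem_range.1 hk)
    rcases h1 k with h2 | ⟨h2, h3⟩
    · rw [h2, zero_mul, totalDegree_zero]
      exact Nat.zero_le _
    · have h4 := totalDegree_mul (P.coeff k) (Q ^ k)
      have h5 := totalDegree_pow Q k
      have h6 : k * Q.totalDegree ≤ k * q := Nat.mul_le_mul_left k hQ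
      have e1 : k * q = q * k := Nat.mul_comm _ _
      have e2 : d' * M = (d' - 1) * M + M := by
        obtain ⟨c, rfl⟩ : ∃ c, d' = c + 1 := ⟨d' - 1, by omega⟩
        rw [Nat.add_sub_cancel]
        ring
      have h7 : k ≤ min M r := le_min h2 hk'
      have h8 : (d' - 1) * M + min M r ≤ min (d' * M) ((d' - 1) * M + r) := by
        rw [e2]
        exact le_min (Nat.add_le_add_left (min_le_left _ _) _)
          (Nat.add_le_add_left (min_le_right _ _) _)
      omega
  · have e : P.eval Q = ∑ k ∈ Finset.range ((r + 1) + (P.natDegree + 1)), P.coeff k * Q ^ k :=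
      Polynomial.eval_eq_sum_range' (by omega) Q
    rw [e, Finset.sum_range_add, add_sub_cancel_left]
    refine Finset.dvd_sum fun k _ => ?_
    rw [pow_add Q (r + 1) k]
    exact Dvd.dvd.mul_left (dvd_mul_right (Q ^ (r + 1)) (Q ^ k)) (P.coeff (r + 1 + k))

end AuxExp

open AuxExp in
theorem pr_Exp : S_Exp := by
  intro K _ Q q d' u hD Ψ₁ Ψ₂ e t s h₁ h₂ T hT r
  obtain ⟨a, ha, rfl⟩ := hT
  refine VV.final (M := t * e) (hD.q1.trans hD.qd) hD.hom.totalDegree_le (VV.sum fun c hc => ?_) r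
  have hc' : c ≤ t := Nat.lt_succ_iff.1 (Finset.mem_range.1 hc)
  have h1 := ((VV.const (Q := Q) q d' (ha c)).mul ((VV.aev hD h₁).pow (t - c))).mul
    ((VV.aev hD h₂).pow c)
  refine h1.mono (le_of_eq ?_) (by omega)
  rw [Nat.zero_add, ← Nat.add_mul, Nat.sub_add_cancel hc']

end Pool.Agent.Work.MP_91e6de_nt.BL

end

section

set_option autoImplicit false

/-!
# MP_91e6de_nt, block BL: sets of density zero
-/

namespace Pool.Agent.Work.MP_91e6de_nt.BL

open MvPolynomial Height Height.AdmissibleAbsValues Filter Topology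

namespace AuxGap

open Classical in
/-- elements of `V` below `N` -/
noncomputable def ft (V : Set ℕ) (N : ℕ) : Finset ℕ := (Finset.range N).filter (fun n => n ∈ V)

theorem mem_ft {V : Set ℕ} {N n : ℕ} : n ∈ ft V N ↔ n < N ∧ n ∈ V := by
  classical
  unfold ft
  exact Finset.mem_filter.trans (and_congr_left fun _ => Finset.mem_range)

/-- number of elements of `V` below `N` -/
noncomputable def ct (V : Set ℕ) (N : ℕ) : ℕ := (ft V N).card

theorem dens_iff (V : Set ℕ) : Dens0 V ↔ ∀ ε : ℝ, 0 < ε → ∀ᶠ N : ℕ in atTop,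
    (ct V N : ℝ) ≤ ε * N := Iff.rfl

theorem ct_mono {V W : Set ℕ} (h : V ⊆ W) (N : ℕ) : ct V N ≤ ct W N := by
  classical
  refine Finset.card_le_card fun n hn => ?_
  rw [mem_ft] at hn ⊢
  exact ⟨hn.1, h hn.2⟩

theorem ct_union (V W : Set ℕ) (N : ℕ) : ct (V ∪ W) N ≤ ct V N + ct W N := by
  classical
  refine le_trans (Finset.card_le_card ?_) (Finset.card_union_le _ _)
  intro n hn
  have hn' := mem_ft.1 hn
  rcases hn'.2 with h | h
  · exact Finset.mem_union_left _ (mem_ft.2 ⟨hn'.1, h⟩)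
  · exact Finset.mem_union_right _ (mem_ft.2 ⟨hn'.1, h⟩)

/-- sets with large gaps -/
theorem ct_gap (V : Set ℕ) (k₀ n₀ : ℕ) (h : ∀ n, n₀ ≤ n → n ∈ V → ∀ k, 1 ≤ k → k ≤ k₀ →
    n + k ∉ V) (N : ℕ) : ct V N ≤ n₀ + (N / (k₀ + 1) + 1) := by
  classical
  have h1 : (Finset.range N).filter (fun n => n ∈ V) ⊆
      Finset.range n₀ ∪ ((Finset.range N).filter (fun n => n ∈ V ∧ n₀ ≤ n)) := by
    intro n hn
    rw [Finset.mem_filter] at hn
    rw [Finset.mem_union, Finset.mem_range, Finset.mem_filter]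
    by_cases h2 : n < n₀
    · exact Or.inl h2
    · exact Or.inr ⟨hn.1, hn.2, not_lt.1 h2⟩
  refine (Finset.card_le_card h1).trans ((Finset.card_union_le _ _).trans ?_)
  rw [Finset.card_range]
  refine Nat.add_le_add_left ?_ _
  have h2 : ((Finset.range N).filter (fun n => n ∈ V ∧ n₀ ≤ n)).card ≤
      (Finset.range (N / (k₀ + 1) + 1)).card := by
    refine Finset.card_le_card_of_injOn (fun n => n / (k₀ + 1)) ?_ ?_
    · intro n hn
      have hn' := (Finset.mem_filter.1 (Finset.mem_coe.1 hn)).1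
      rw [Finset.mem_range] at hn'
      rw [Finset.mem_coe, Finset.mem_range]
      exact Nat.lt_succ_of_le (Nat.div_le_div_right hn'.le)
    · have key : ∀ n m : ℕ, n ∈ V → m ∈ V → n₀ ≤ n → n < m → n / (k₀ + 1) = m / (k₀ + 1) →
          False := by
        intro n m hn hm hn0 hnm he
        have e1 := Nat.div_add_mod n (k₀ + 1)
        have e2 := Nat.div_add_mod m (k₀ + 1)
        have e3 : m % (k₀ + 1) < k₀ + 1 := Nat.mod_lt m (Nat.succ_pos k₀)
        rw [he] at e1
        have e4 : m - n ≤ k₀ := by omega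
        have e5 := h n hn0 hn (m - n) (by omega) e4
        rw [Nat.add_sub_cancel' hnm.le] at e5
        exact e5 hm
      intro n hn m hm he
      have hn' := (Finset.mem_filter.1 (Finset.mem_coe.1 hn)).2
      have hm' := (Finset.mem_filter.1 (Finset.mem_coe.1 hm)).2
      by_contra hne
      rcases lt_or_gt_of_ne hne with hlt | hlt
      · exact key n m hn'.1 hm'.1 hn'.2 hlt he
      · exact key m n hm'.1 hn'.1 hm'.2 hlt he.symm
  rw [Finset.card_range] at h2
  exact h2

theorem gap (V : Set ℕ) (h : ∀ k, 1 ≤ k → {n | n ∈ V ∧ n + k ∈ V}.Finite) : Dens0 V := by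
  rw [dens_iff]
  intro ε hε
  obtain ⟨k₀, hk₀⟩ := exists_nat_gt (2 / ε)
  have hfin : (⋃ k ∈ Set.Icc 1 k₀, {n | n ∈ V ∧ n + k ∈ V}).Finite :=
    (Set.finite_Icc 1 k₀).biUnion fun k hk => h k hk.1
  obtain ⟨n₁, hn₁⟩ := hfin.bddAbove
  have hgap : ∀ n, n₁ + 1 ≤ n → n ∈ V → ∀ k, 1 ≤ k → k ≤ k₀ → n + k ∉ V := by
    intro n hn hV k hk1 hk2 hkV
    have h3 : n ∈ ⋃ k ∈ Set.Icc 1 k₀, {n | n ∈ V ∧ n + k ∈ V} :=
      Set.mem_biUnion (Set.mem_Icc.2 ⟨hk1, hk2⟩) ⟨hV, hkV⟩
    have h4 := hn₁ h3
    omega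
  obtain ⟨N₀, hN₀⟩ := exists_nat_gt (2 * ((n₁ : ℝ) + 2) / ε)
  refine eventually_atTop.2 ⟨N₀, fun N hN => ?_⟩
  have h5 := ct_gap V k₀ (n₁ + 1) hgap N
  have h6 : (ct V N : ℝ) ≤ (n₁ + 1 : ℝ) + (((N / (k₀ + 1) : ℕ) : ℝ) + 1) := by
    exact_mod_cast h5
  have h7 : (((N / (k₀ + 1) : ℕ) : ℝ)) ≤ (N : ℝ) / ((k₀ : ℝ) + 1) := by
    have := @Nat.cast_div_le ℝ _ _ _ N (k₀ + 1)
    push_cast at this
    exact this
  have hk0 : (0 : ℝ) < (k₀ : ℝ) + 1 := by positivity
  have h8 : (N : ℝ) / ((k₀ : ℝ) + 1) ≤ ε / 2 * N := by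
    rw [div_le_iff₀ hk0]
    have h9 : 2 < ε * ((k₀ : ℝ) + 1) := by
      rw [div_lt_iff₀ hε] at hk₀
      nlinarith
    have h10 : (0 : ℝ) ≤ N := Nat.cast_nonneg N
    nlinarith
  have h11 : (n₁ : ℝ) + 2 ≤ ε / 2 * N := by
    rw [div_lt_iff₀ hε] at hN₀
    have h12 : (N₀ : ℝ) ≤ N := by exact_mod_cast hN
    nlinarith
  linarith

end AuxGap

open AuxGap in
theorem pr_Gap : S_Gap := by
  refine ⟨?_, ?_, ?_, ?_⟩
  · intro V hV
    by_contra hno
    push Not at hno
    exact hV (gap V fun k hk => hno k hk)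
  · intro V W hV hW
    rw [dens_iff] at hV hW ⊢
    intro ε hε
    filter_upwards [hV (ε / 2) (half_pos hε), hW (ε / 2) (half_pos hε)] with N h1 h2
    have h3 : (ct (V ∪ W) N : ℝ) ≤ ct V N + ct W N := by exact_mod_cast ct_union V W N
    linarith
  · intro V W h hW
    rw [dens_iff] at hW ⊢
    intro ε hε
    filter_upwards [hW ε hε] with N h1
    have h3 : (ct V N : ℝ) ≤ ct W N := by exact_mod_cast ct_mono h N
    linarith
  · rw [dens_iff]
    intro ε hε
    refine Eventually.of_forall fun N => ?_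
    have h1 : ct ∅ N = 0 := by
      unfold ct
      exact Finset.card_eq_zero.2 (Finset.eq_empty_of_forall_notMem fun n h => (mem_ft.1 h).2)
    rw [h1, Nat.cast_zero]
    positivity

end Pool.Agent.Work.MP_91e6de_nt.BL

end

section

set_option autoImplicit false

/-!
# MP_91e6de_nt, block BL, item Gr: one step of the filtration by the powers of `Q`
-/

namespace Pool.Agent.Work.MP_91e6de_nt.BL

open MvPolynomial Height Height.AdmissibleAbsValues Filter Topology

namespace AuxGr

theorem num1 (q k : ℕ) (hq : 1 ≤ q) {a b : ℕ} (ha : 2 * a = (q + k + 1) * (q + k + 2))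
    (hb : 2 * b = (k + 1) * (k + 2)) : a ≤ b + q * (q + k + 1) := by
  have h1 : q ≤ q * q := Nat.le_mul_of_pos_left q hq
  nlinarith

theorem num2 (q m : ℕ) (hm : m < q) {a : ℕ} (ha : 2 * a = (m + 1) * (m + 2)) :
    a ≤ q * (m + 1) := by
  have h1 : (m + 1) * (m + 2) ≤ (m + 1) * (2 * q) := Nat.mul_le_mul_left _ (by omega)
  nlinarith

theorem deg_pow_mul {K : Type} [Field K] {Q b : Pol K} (hQ : Q ≠ 0) (hb : b ≠ 0) (r : ℕ) :
    (Q ^ r * b).totalDegree = Q.totalDegree * r + b.totalDegree := by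
  rw [totalDegree_mul_of_isDomain (pow_ne_zero r hQ) hb]
  congr 1
  induction r with
  | zero => simp
  | succ r ih =>
    rw [pow_succ, totalDegree_mul_of_isDomain (pow_ne_zero r hQ) hQ, ih]
    ring

end AuxGr

open AuxGr

theorem pr_Gr (h : S_dim) : S_Gr := by
  intro K _ Q q r B E hE hQ hdeg hq hcong
  have hQr : Q ^ r ≠ 0 := pow_ne_zero r hQ
  set M : Submodule K (Pol K) := E ⊓ II Q r with hM
  set N : Submodule K (Pol K) := E ⊓ II Q (r + 1) with hN
  have hMfin : FiniteDimensional K M := Submodule.finiteDimensional_inf_left E _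
  have hNfin : FiniteDimensional K N := Submodule.finiteDimensional_inf_left E _
  -- representatives
  have hrep : ∀ T ∈ M, ∃ b : Pol K, Q ^ (r + 1) ∣ T - Q ^ r * b ∧
      (b = 0 ∨ q * r + b.totalDegree ≤ B) := by
    intro T hT
    obtain ⟨T', hT'B, hT'⟩ := hcong T hT.1
    have h1 : Q ^ r ∣ T - T' := (pow_dvd_pow Q (Nat.le_succ r)).trans hT'
    have h2 : Q ^ r ∣ T' := by
      have h3 : T' = T - (T - T') := by ring
      rw [h3]
      exact dvd_sub hT.2 h1
    obtain ⟨b, rfl⟩ := h2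
    refine ⟨b, hT', ?_⟩
    by_cases hb : b = 0
    · exact Or.inl hb
    · right
      rw [deg_pow_mul hQ hb, hdeg] at hT'B
      exact hT'B
  by_cases hB : B < q * r
  · have hle : M ≤ N := by
      intro T hT
      obtain ⟨b, hb1, hb2⟩ := hrep T hT
      rcases hb2 with rfl | hb2
      · rw [mul_zero, sub_zero] at hb1
        exact ⟨hT.1, hb1⟩
      · omega
    exact (Submodule.finrank_mono hle).trans (Nat.le_add_right _ _)
  rw [not_lt] at hB
  obtain ⟨m, rfl⟩ := Nat.exists_eq_add_of_le hB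
  have hBm : q * r + m + 1 - q * r = m + 1 := by omega
  rw [hBm]
  obtain ⟨hAfin, hA⟩ := h K m
  set π := (II Q (r + 1)).mkQ with hπ
  set f1 : M →ₗ[K] (Pol K ⧸ II Q (r + 1)) := π ∘ₗ M.subtype with hf1
  set f2 : AA K m →ₗ[K] (Pol K ⧸ II Q (r + 1)) :=
    π ∘ₗ (LinearMap.mulLeft K (Q ^ r)) ∘ₗ (AA K m).subtype with hf2
  have hr12 : LinearMap.range f1 ≤ LinearMap.range f2 := by
    rintro _ ⟨T, rfl⟩
    obtain ⟨b, hb1, hb2⟩ := hrep T T.2
    have hbm : b ∈ AA K m := by
      rw [mem_restrictTotalDegree]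
      rcases hb2 with rfl | hb2
      · simp
      · omega
    refine ⟨⟨b, hbm⟩, ?_⟩
    simp only [hf1, hf2, LinearMap.comp_apply, Submodule.subtype_apply, LinearMap.mulLeft_apply]
    symm
    rw [← sub_eq_zero, ← map_sub, hπ, Submodule.mkQ_apply, Submodule.Quotient.mk_eq_zero]
    exact hb1
  have e1 := LinearMap.finrank_range_add_finrank_ker f1
  have e2 := LinearMap.finrank_range_add_finrank_ker f2
  have hk1 : Module.finrank K (LinearMap.ker f1) = Module.finrank K N := by
    have hNM : N ≤ M := by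
      rintro T ⟨hT1, hT2⟩
      exact ⟨hT1, (pow_dvd_pow Q (Nat.le_succ r)).trans hT2⟩
    have hker : LinearMap.ker f1 = Submodule.comap M.subtype N := by
      ext T
      simp only [hf1, LinearMap.mem_ker, LinearMap.comp_apply, Submodule.subtype_apply,
        Submodule.mem_comap]
      rw [hπ, Submodule.mkQ_apply, Submodule.Quotient.mk_eq_zero]
      exact ⟨fun hT => ⟨T.2.1, hT⟩, fun hT => hT.2⟩
    rw [hker]
    exact (Submodule.comapSubtypeEquivOfLe hNM).finrank_eq
  have hr : Module.finrank K (LinearMap.range f1) ≤ Module.finrank K (LinearMap.range f2) :=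
    Submodule.finrank_mono hr12
  by_cases hmq : m < q
  · have h3 := num2 q m hmq hA
    omega
  · rw [not_lt] at hmq
    obtain ⟨k, rfl⟩ := Nat.exists_eq_add_of_le hmq
    obtain ⟨hCfin, hC⟩ := h K k
    have hk2 : Module.finrank K (AA K k) ≤ Module.finrank K (LinearMap.ker f2) := by
      have hmem : ∀ c : AA K k, Q * (c : Pol K) ∈ AA K (q + k) := by
        intro c
        rw [mem_restrictTotalDegree]
        refine (totalDegree_mul _ _).trans ?_
        rw [hdeg]
        exact Nat.add_le_add_left ((mem_restrictTotalDegree _ _ _).1 c.2) q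
      let g : AA K k →ₗ[K] AA K (q + k) :=
        ((LinearMap.mulLeft K Q) ∘ₗ (AA K k).subtype).codRestrict _ hmem
      have hg : ∀ c : AA K k, ((g c : AA K (q + k)) : Pol K) = Q * c := fun c => rfl
      have hgk : ∀ c : AA K k, g c ∈ LinearMap.ker f2 := by
        intro c
        simp only [hf2, LinearMap.mem_ker, LinearMap.comp_apply, Submodule.subtype_apply,
          LinearMap.mulLeft_apply, hg]
        rw [hπ, Submodule.mkQ_apply, Submodule.Quotient.mk_eq_zero]
        refine ⟨c, ?_⟩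
        ring
      let g' : AA K k →ₗ[K] LinearMap.ker f2 := g.codRestrict _ hgk
      refine LinearMap.finrank_le_finrank_of_injective (f := g') ?_
      intro c c' hcc
      have h5 : g c = g c' := congrArg Subtype.val hcc
      have h4 : ((g c : AA K (q + k)) : Pol K) = g c' := congrArg Subtype.val h5
      rw [hg, hg] at h4
      exact Subtype.ext (mul_left_cancel₀ hQ h4)
    have h3 := num1 q k hq hA hC
    omega

end Pool.Agent.Work.MP_91e6de_nt.BL

end

section

set_option autoImplicit false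

/-!
# MP_91e6de, block BL, item H1: comparison of the heights of a point and of its coordinates
-/

namespace Pool.Agent.Work.MP_91e6de_nt.BL

open MvPolynomial Height Height.AdmissibleAbsValues Filter Topology

theorem pr_H1 : S_H1 := by
  intro K _ _ P
  have key1 : logHeight₁ (P 0) ≤ hP P := by
    rw [logHeight₁_eq_logHeight]
    have h := logHeight_comp_le (![0, 2] : Fin 2 → Fin 3) ![P 0, P 1, 1]
    have h1 : ![P 0, P 1, 1] ∘ (![0, 2] : Fin 2 → Fin 3) = ![P 0, 1] := by
      ext i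
      fin_cases i <;> rfl
    rw [h1] at h
    exact h
  refine ⟨?_, ?_, key1, ?_⟩
  · exact (zero_le_logHeight₁ _).trans key1
  · rw [logHeight₁_eq_logHeight, logHeight₁_eq_logHeight]
    have hx : ![P 0, 1] ≠ 0 := by
      intro h
      have := congrFun h 1
      simp at this
    have hy : ![P 1, 1] ≠ 0 := by
      intro h
      have := congrFun h 1
      simp at this
    rw [← logHeight_fun_mul_eq hx hy]
    have h := logHeight_comp_le (![(0, 1), (1, 0), (1, 1)] : Fin 3 → Fin 2 × Fin 2)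
      (fun a : Fin 2 × Fin 2 => ![P 0, 1] a.1 * ![P 1, 1] a.2)
    have h1 : (fun a : Fin 2 × Fin 2 => ![P 0, 1] a.1 * ![P 1, 1] a.2) ∘
        (![(0, 1), (1, 0), (1, 1)] : Fin 3 → Fin 2 × Fin 2) = ![P 0, P 1, 1] := by
      ext i
      fin_cases i <;> simp
    rw [h1] at h
    exact h
  · rw [logHeight₁_eq_logHeight]
    have h := logHeight_comp_le (![1, 2] : Fin 2 → Fin 3) ![P 0, P 1, 1]
    have h1 : ![P 0, P 1, 1] ∘ (![1, 2] : Fin 2 → Fin 3) = ![P 1, 1] := by
      ext i
      fin_cases i <;> rfl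
    rw [h1] at h
    exact h

end Pool.Agent.Work.MP_91e6de_nt.BL

end

section

set_option autoImplicit false

/-!
# MP_91e6de_nt, block BL, item Hom1: homogenisation of polynomials in one variable
-/

namespace Pool.Agent.Work.MP_91e6de_nt.BL

open MvPolynomial Height Height.AdmissibleAbsValues Filter Topology

namespace AuxHom1

variable {K : Type} [Field K]

theorem hom_isHom (L : ℕ) (p : Polynomial K) : (hom1 L p).IsHomogeneous L := by
  unfold hom1
  refine IsHomogeneous.sum _ _ _ fun k hk => ?_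
  have hk' : k ≤ L := by
    have := Finset.mem_range.1 hk
    omega
  have h := ((isHomogeneous_C (Fin 2) (p.coeff k)).mul (isHomogeneous_X_pow (R := K) (0 : Fin 2) k)).mul
    (isHomogeneous_X_pow (R := K) (1 : Fin 2) (L - k))
  have e : 0 + k + (L - k) = L := by omega
  rwa [e] at h

theorem deh (L : ℕ) (p : Polynomial K) (hp : p.natDegree ≤ L) :
    (aeval ![Polynomial.X, 1] (hom1 L p) : Polynomial K) = p := by
  unfold hom1
  rw [map_sum]
  have h1 : ∀ k ∈ Finset.range (L + 1),
      (aeval ![Polynomial.X, 1] (C (p.coeff k) * X 0 ^ k * X 1 ^ (L - k) : Pol K) : Polynomial K) =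
        Polynomial.monomial k (p.coeff k) := by
    intro k _
    rw [map_mul, map_mul, map_pow, map_pow, aeval_X, aeval_X]
    simp only [Matrix.cons_val_zero, Matrix.cons_val_one, one_pow, mul_one]
    rw [algHom_C, Polynomial.algebraMap_apply, Algebra.algebraMap_self, RingHom.id_apply,
      Polynomial.C_mul_X_pow_eq_monomial]
  rw [Finset.sum_congr rfl h1]
  exact (Polynomial.as_sum_range' p (L + 1) (by omega)).symm

theorem hom_add (L : ℕ) (p p' : Polynomial K) : hom1 L (p + p') = hom1 L p + hom1 L p' := by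
  unfold hom1
  rw [← Finset.sum_add_distrib]
  refine Finset.sum_congr rfl fun k _ => ?_
  rw [Polynomial.coeff_add, C_add]
  ring

theorem hom_zero (L : ℕ) : hom1 L (0 : Polynomial K) = 0 := by
  unfold hom1
  simp

theorem hom_sum {ι : Type} (L : ℕ) (S : Finset ι) (p : ι → Polynomial K) :
    hom1 L (∑ i ∈ S, p i) = ∑ i ∈ S, hom1 L (p i) := by
  classical
  induction S using Finset.induction_on with
  | empty => simp [hom_zero]
  | insert a S ha ih => rw [Finset.sum_insert ha, Finset.sum_insert ha, hom_add, ih]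

theorem hom_mono (L k : ℕ) (c : K) (hk : k ≤ L) :
    hom1 L (Polynomial.monomial k c) = C c * X 0 ^ k * X 1 ^ (L - k) := by
  unfold hom1
  rw [Finset.sum_eq_single k]
  · rw [Polynomial.coeff_monomial, if_pos rfl]
  · intro b _ hb
    rw [Polynomial.coeff_monomial, if_neg (fun h => hb h.symm)]
    simp
  · intro h
    exact absurd (Finset.mem_range.2 (by omega)) h

theorem deh_mono (s : Fin 2 →₀ ℕ) (c : K) :
    (aeval ![Polynomial.X, 1] (monomial s c : Pol K) : Polynomial K) =
      Polynomial.monomial (s 0) c := by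
  rw [aeval_monomial, Finsupp.prod_fintype _ _ (fun i => pow_zero _)]
  simp only [Fin.prod_univ_two, Matrix.cons_val_zero, Matrix.cons_val_one, one_pow, mul_one]
  rw [Polynomial.algebraMap_apply, Algebra.algebraMap_self, RingHom.id_apply,
    Polynomial.C_mul_X_pow_eq_monomial]

theorem mono_eq (s : Fin 2 →₀ ℕ) (c : K) :
    (monomial s c : Pol K) = C c * X 0 ^ (s 0) * X 1 ^ (s 1) := by
  rw [monomial_eq, Finsupp.prod_fintype _ _ (fun i => pow_zero _), Fin.prod_univ_two, mul_assoc]

theorem deg2 {L : ℕ} {G : Pol K} (hG : G.IsHomogeneous L) {s : Fin 2 →₀ ℕ}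
    (hs : s ∈ G.support) : s 0 + s 1 = L := by
  have h := hG (mem_support_iff.1 hs)
  rw [Finsupp.weight_apply, Finsupp.sum_fintype _ _ (fun i => by simp)] at h
  simpa [Fin.sum_univ_two] using h

theorem hom_deh (L : ℕ) (G : Pol K) (hG : G.IsHomogeneous L) :
    hom1 L (aeval ![Polynomial.X, 1] G : Polynomial K) = G := by
  have h1 : (aeval ![Polynomial.X, 1] G : Polynomial K) =
      ∑ s ∈ G.support, Polynomial.monomial (s 0) (coeff s G) := by
    conv_lhs => rw [G.as_sum]
    rw [map_sum]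
    exact Finset.sum_congr rfl fun s _ => deh_mono s _
  rw [h1, hom_sum]
  conv_rhs => rw [G.as_sum]
  refine Finset.sum_congr rfl fun s hs => ?_
  have h2 := deg2 hG hs
  rw [hom_mono L (s 0) _ (by omega), mono_eq]
  have : L - s 0 = s 1 := by omega
  rw [this]

theorem deg_deh (L : ℕ) (G : Pol K) (hG : G.IsHomogeneous L) :
    (aeval ![Polynomial.X, 1] G : Polynomial K).natDegree ≤ L := by
  have h1 : (aeval ![Polynomial.X, 1] G : Polynomial K) =
      ∑ s ∈ G.support, Polynomial.monomial (s 0) (coeff s G) := by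
    conv_lhs => rw [G.as_sum]
    rw [map_sum]
    exact Finset.sum_congr rfl fun s _ => deh_mono s _
  rw [h1]
  refine Polynomial.natDegree_sum_le_of_forall_le _ _ fun s hs => ?_
  have h2 := deg2 hG hs
  exact (Polynomial.natDegree_monomial_le _).trans (by omega)

end AuxHom1

open AuxHom1 in
theorem pr_Hom1 : S_Hom1 := by
  intro K _
  refine ⟨hom_isHom, ?_, hom_add, ?_, fun L G hG => ⟨deg_deh L G hG, hom_deh L G hG⟩, ?_⟩
  · intro L L' p p' hp hp'
    have h1 := hom_deh (L + L') (hom1 L p * hom1 L' p') ((hom_isHom L p).mul (hom_isHom L' p'))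
    rw [map_mul, deh L p hp, deh L' p' hp'] at h1
    exact h1
  · intro L
    have h1 := hom_deh L (X 1 ^ L : Pol K) (isHomogeneous_X_pow (R := K) (1 : Fin 2) L)
    rw [map_pow, aeval_X] at h1
    simpa using h1
  · intro L p hp h
    rw [← deh L p hp, h, map_zero]

end Pool.Agent.Work.MP_91e6de_nt.BL

end

section

set_option autoImplicit false

/-!
# MP_91e6de_nt, block BL: lower bound for the dimension of `EE`
-/

namespace Pool.Agent.Work.MP_91e6de_nt.BL

open MvPolynomial Height Height.AdmissibleAbsValues Filter Topology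

namespace AuxInd

variable {K : Type} [Field K]

lemma mem_AA {m : ℕ} {p : Pol K} : p ∈ AA K m ↔ p.totalDegree ≤ m := by
  rw [mem_restrictTotalDegree]

lemma mem_EE {G₁ G₂ : Pol K} {t s : ℕ} {T : Pol K} : T ∈ EE G₁ G₂ t s ↔
    ∃ a : ℕ → Pol K, (∀ c, (a c).totalDegree ≤ s) ∧
      T = ∑ c ∈ Finset.range (t + 1), a c * G₁ ^ (t - c) * G₂ ^ c := Iff.rfl

lemma EE_zero (G₁ G₂ : Pol K) (s : ℕ) : EE G₁ G₂ 0 s = AA K s := by
  ext T
  rw [mem_EE, mem_AA]
  constructor
  · rintro ⟨a, ha, rfl⟩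
    simpa using ha 0
  · intro h
    exact ⟨fun _ => T, fun _ => h, by simp⟩

/-- the multiples of a fixed polynomial by the elements of a subspace -/
noncomputable def mu (G : Pol K) (E : Submodule K (Pol K)) : Submodule K (Pol K) :=
  E.map (LinearMap.mulLeft K G)

lemma mem_mu {G : Pol K} {E : Submodule K (Pol K)} {x : Pol K} :
    x ∈ mu G E ↔ ∃ y ∈ E, G * y = x := by
  unfold mu
  rw [Submodule.mem_map]
  rfl

lemma EE_succ (G₁ G₂ : Pol K) (t s : ℕ) :
    EE G₁ G₂ (t + 1) s = mu (G₁ ^ (t + 1)) (AA K s) ⊔ mu G₂ (EE G₁ G₂ t s) := by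
  ext T
  rw [mem_EE, Submodule.mem_sup]
  constructor
  · rintro ⟨a, ha, rfl⟩
    refine ⟨G₁ ^ (t + 1) * a 0, mem_mu.2 ⟨a 0, mem_AA.2 (ha 0), rfl⟩,
      G₂ * ∑ c ∈ Finset.range (t + 1), a (c + 1) * G₁ ^ (t - c) * G₂ ^ c,
      mem_mu.2 ⟨_, ⟨fun c => a (c + 1), fun c => ha (c + 1), rfl⟩, rfl⟩, ?_⟩
    rw [Finset.sum_range_succ' _ (t + 1), Finset.mul_sum, add_comm]
    congr 1
    · refine Finset.sum_congr rfl fun c _ => ?_
      rw [Nat.add_sub_add_right, pow_succ]
      ring
    · rw [Nat.sub_zero, pow_zero]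
      ring
  · rintro ⟨_, hx, _, hy, rfl⟩
    obtain ⟨x, hx', rfl⟩ := mem_mu.1 hx
    obtain ⟨y, ⟨a, ha, rfl⟩, rfl⟩ := mem_mu.1 hy
    refine ⟨fun c => if c = 0 then x else a (c - 1), fun c => ?_, ?_⟩
    · by_cases hc : c = 0
      · simp only [hc, if_true]
        exact mem_AA.1 hx'
      · simp only [hc, if_false]
        exact ha _
    · rw [Finset.sum_range_succ' _ (t + 1), Finset.mul_sum, add_comm]
      congr 1
      · refine Finset.sum_congr rfl fun c _ => ?_
        show G₂ * (a c * G₁ ^ (t - c) * G₂ ^ c) =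
          (if c + 1 = 0 then x else a (c + 1 - 1)) * G₁ ^ (t + 1 - (c + 1)) * G₂ ^ (c + 1)
        rw [if_neg (Nat.succ_ne_zero c), show c + 1 - 1 = c from rfl,
          show t + 1 - (c + 1) = t - c by omega, pow_succ]
        ring
      · show G₁ ^ (t + 1) * x =
          (if (0 : ℕ) = 0 then x else a (0 - 1)) * G₁ ^ (t + 1 - 0) * G₂ ^ 0
        rw [if_pos rfl, Nat.sub_zero, pow_zero]
        ring

lemma mul_inj {G : Pol K} (hG : G ≠ 0) : Function.Injective (LinearMap.mulLeft K G) :=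
  fun x y h => mul_left_cancel₀ hG (by simpa using h)

lemma finrank_mu {G : Pol K} (hG : G ≠ 0) (E : Submodule K (Pol K)) :
    Module.finrank K (mu G E) = Module.finrank K E :=
  (LinearEquiv.finrank_eq (Submodule.equivMapOfInjective _ (mul_inj hG) E)).symm

lemma fin_mu (G : Pol K) (E : Submodule K (Pol K)) [FiniteDimensional K E] :
    FiniteDimensional K (mu G E) := by
  unfold mu
  infer_instance

lemma inf_le {G₁ G₂ : Pol K} (h : IsRelPrime G₁ G₂) (h2 : G₂ ≠ 0) (t s : ℕ) :
    mu (G₁ ^ (t + 1)) (AA K s) ⊓ mu G₂ (EE G₁ G₂ t s) ≤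
      mu (G₁ ^ (t + 1) * G₂) (AA K (s - G₂.totalDegree)) := by
  rintro x ⟨hx, hy⟩
  obtain ⟨a, ha, rfl⟩ := mem_mu.1 hx
  obtain ⟨y, -, hy⟩ := mem_mu.1 hy
  have h3 : G₂ ∣ G₁ ^ (t + 1) * a := ⟨y, hy.symm⟩
  have h4 : IsRelPrime G₂ (G₁ ^ (t + 1)) := (h.pow_left).symm
  have h5 : G₂ ∣ a := h4.dvd_of_dvd_mul_left h3
  obtain ⟨b, rfl⟩ := h5
  refine mem_mu.2 ⟨b, mem_AA.2 ?_, by ring⟩
  by_cases hb : b = 0
  · rw [hb]
    simp
  · have h6 := mem_AA.1 ha
    rw [totalDegree_mul_of_isDomain h2 hb] at h6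
    omega

lemma ne_zero {G₁ G₂ : Pol K} (h : IsRelPrime G₁ G₂) (hd : 1 ≤ G₂.totalDegree) :
    G₁ ≠ 0 ∧ G₂ ≠ 0 := by
  have h2 : G₂ ≠ 0 := by
    rintro rfl
    simp at hd
  refine ⟨?_, h2⟩
  rintro rfl
  have h3 : IsUnit G₂ := h (dvd_zero _) dvd_rfl
  rw [MvPolynomial.isUnit_iff_totalDegree_of_isReduced] at h3
  omega

end AuxInd

open AuxInd in
theorem pr_Ind (h : S_dim) : S_Ind := by
  intro K _ G₁ G₂ t s hrel hd hds
  obtain ⟨hn1, hn2⟩ := ne_zero hrel hd
  have hfs : FiniteDimensional K (AA K s) := (h K s).1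
  have hfs' : FiniteDimensional K (AA K (s - G₂.totalDegree)) := (h K (s - G₂.totalDegree)).1
  induction t with
  | zero =>
    rw [EE_zero]
    exact ⟨hfs, by simp⟩
  | succ t ih =>
    obtain ⟨ih1, ih2⟩ := ih
    have f1 : FiniteDimensional K (mu (G₁ ^ (t + 1)) (AA K s)) := fin_mu _ _
    have f2 : FiniteDimensional K (mu G₂ (EE G₁ G₂ t s)) := fin_mu _ _
    have f3 : FiniteDimensional K (mu (G₁ ^ (t + 1) * G₂) (AA K (s - G₂.totalDegree))) :=
      fin_mu _ _
    rw [EE_succ]
    refine ⟨inferInstance, ?_⟩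
    have h1 := Submodule.finrank_sup_add_finrank_inf_eq (mu (G₁ ^ (t + 1)) (AA K s))
      (mu G₂ (EE G₁ G₂ t s))
    rw [finrank_mu (pow_ne_zero _ hn1), finrank_mu hn2] at h1
    have h2 : Module.finrank K (mu (G₁ ^ (t + 1)) (AA K s) ⊓ mu G₂ (EE G₁ G₂ t s) :
        Submodule K (Pol K)) ≤ Module.finrank K (AA K (s - G₂.totalDegree)) := by
      refine (Submodule.finrank_mono (inf_le hrel hn2 t s)).trans (le_of_eq ?_)
      exact finrank_mu (mul_ne_zero (pow_ne_zero _ hn1) hn2) _
    have h3 : (t + 1 + 1) * Module.finrank K (AA K s) =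
        (t + 1) * Module.finrank K (AA K s) + Module.finrank K (AA K s) := by ring
    have h4 : (t + 1) * Module.finrank K (AA K (s - G₂.totalDegree)) =
        t * Module.finrank K (AA K (s - G₂.totalDegree)) +
          Module.finrank K (AA K (s - G₂.totalDegree)) := by ring
    rw [h3, h4]
    omega

end Pool.Agent.Work.MP_91e6de_nt.BL

end

section

set_option autoImplicit false

/-!
# MP_91e6de_nt, block BL, item Inj: dense orbits are injective
-/

namespace Pool.Agent.Work.MP_91e6de_nt.BL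

open MvPolynomial Height Height.AdmissibleAbsValues Filter Topology

namespace AuxInj

theorem X_sub_ne {K : Type} [Field K] (a : K) : (X 0 - C a : Pol K) ≠ 0 := by
  intro h
  have h1 := congrArg (eval (fun _ => a + 1)) h
  rw [map_sub, eval_X, eval_C, map_zero] at h1
  have h2 : (1 : K) = 0 := by
    rw [← h1]
    ring
  exact one_ne_zero h2

theorem step {K : Type} [Field K] (f : Fin 2 → Pol K) (P : Fin 2 → K) {m k : ℕ}
    (h : orb f P m = orb f P k) : orb f P (m + 1) = orb f P (k + 1) := by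
  show (fun i => eval (orb f P m) (f i)) = fun i => eval (orb f P k) (f i)
  rw [h]

theorem main {K : Type} [Field K] (f : Fin 2 → Pol K) (P : Fin 2 → K) (hD : Dense2 (orb f P))
    {n n' : ℕ} (hn : n < n') (h : orb f P n = orb f P n') : False := by
  have key : ∀ m, ∃ k < n', orb f P m = orb f P k := by
    intro m
    induction m with
    | zero => exact ⟨0, by omega, rfl⟩
    | succ m ih =>
      obtain ⟨k, hk, e⟩ := ih
      by_cases h1 : k + 1 < n'
      · exact ⟨k + 1, h1, step f P e⟩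
      · have h2 : k + 1 = n' := by omega
        refine ⟨n, hn, ?_⟩
        rw [step f P e, h2, h]
  have h0 : (∏ k ∈ Finset.range n', (X 0 - C (orb f P k 0) : Pol K)) = 0 := by
    apply hD
    intro m
    obtain ⟨k, hk, e⟩ := key m
    rw [map_prod]
    apply Finset.prod_eq_zero (Finset.mem_range.2 hk)
    rw [map_sub, eval_X, eval_C, e, sub_self]
  rw [Finset.prod_eq_zero_iff] at h0
  obtain ⟨k, -, hk⟩ := h0
  exact X_sub_ne _ hk

end AuxInj

theorem pr_Inj : S_Inj := by
  intro K _ f P hD n n' h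
  rcases lt_trichotomy n n' with h1 | h1 | h1
  · exact (AuxInj.main f P hD h1 h).elim
  · exact h1
  · exact (AuxInj.main f P hD h1 h.symm).elim

end Pool.Agent.Work.MP_91e6de_nt.BL

end

section

set_option autoImplicit false

/-!
# MP_91e6de_nt, block BL, item Int: orbits are integral outside a finite set of places
-/

namespace Pool.Agent.Work.MP_91e6de_nt.BL

open MvPolynomial Height Height.AdmissibleAbsValues Filter Topology

namespace AuxInt

open Classical in
theorem fin {K : Type} [Field K] [NumberField K] (x : K) : ∃ T : Finset (AbsoluteValue K ℝ),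
    ∀ v ∈ nonarchAbsVal (K := K), v ∉ T → v x ≤ 1 := by
  by_cases hx : x = 0
  · refine ⟨∅, fun v _ _ => ?_⟩
    rw [hx, map_zero]
    exact zero_le_one
  · have h : (Function.mulSupport fun v : nonarchAbsVal (K := K) => v.val x).Finite :=
      hasFiniteMulSupport (K := K) hx
    refine ⟨(Set.Finite.toFinset h).image Subtype.val, fun v hv hT => ?_⟩
    by_contra hne
    apply hT
    rw [Finset.mem_image]
    refine ⟨⟨v, hv⟩, ?_, rfl⟩
    rw [Set.Finite.mem_toFinset, Function.mem_mulSupport]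
    intro h1
    exact hne (le_of_eq h1)

theorem nn_one {K : Type} [Field K] (v : AbsoluteValue K ℝ) (P : Fin 2 → K)
    (h : ∀ i, v (P i) ≤ 1) : nn v P = 1 := by
  unfold nn
  exact max_eq_right (max_le (h 0) (h 1))

end AuxInt

theorem pr_Int (h : S_IntR) : S_Int := by
  classical
  intro K _ _ f P
  obtain ⟨T0, hT0⟩ := h K (f 0)
  obtain ⟨T1, hT1⟩ := h K (f 1)
  obtain ⟨U0, hU0⟩ := AuxInt.fin (P 0)
  obtain ⟨U1, hU1⟩ := AuxInt.fin (P 1)
  refine ⟨(archAbsVal (K := K)).toFinset ∪ (T0 ∪ T1 ∪ (U0 ∪ U1)), ?_, ?_⟩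
  · intro v hv
    exact Finset.mem_union_left _ (Multiset.mem_toFinset.2 hv)
  · intro v hv hT n
    simp only [Finset.mem_union, not_or] at hT
    obtain ⟨-, ⟨hv0, hv1⟩, hw0, hw1⟩ := hT
    induction n with
    | zero =>
      intro i
      fin_cases i
      · exact hU0 v hv hw0
      · exact hU1 v hv hw1
    | succ n ih =>
      intro i
      have h1 := AuxInt.nn_one v _ ih
      fin_cases i
      · have h2 := hT0 v hv hv0 (orb f P n)
        rw [h1, one_pow] at h2
        exact h2
      · have h2 := hT1 v hv hv1 (orb f P n)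
        rw [h1, one_pow] at h2
        exact h2

end Pool.Agent.Work.MP_91e6de_nt.BL

end

section

set_option autoImplicit false

/-!
# IntR: polynomials are integral at almost all places
-/

namespace Pool.Agent.Work.MP_91e6de_nt.BL

open MvPolynomial Height Height.AdmissibleAbsValues Filter Topology

namespace AuxIntR

variable {K : Type} [Field K]

theorem sum_le (v : AbsoluteValue K ℝ) (hv : IsNonarchimedean v) {B : ℝ} (hB : 0 ≤ B)
    {ι : Type} (s : Finset ι) (f : ι → K) (h : ∀ i ∈ s, v (f i) ≤ B) :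
    v (∑ i ∈ s, f i) ≤ B := by
  classical
  induction s using Finset.induction_on with
  | empty => simpa using hB
  | insert a s ha ih =>
    rw [Finset.sum_insert ha]
    refine (hv _ _).trans (max_le (h a (Finset.mem_insert_self _ _)) (ih fun i hi => ?_))
    exact h i (Finset.mem_insert_of_mem hi)

variable [NumberField K]

theorem one (a : K) : ∃ T : Finset (AbsoluteValue K ℝ), ∀ v ∈ nonarchAbsVal (K := K),
    v ∉ T → v a ≤ 1 := by
  classical
  by_cases h : a = 0
  · exact ⟨∅, fun v _ _ => by simp [h]⟩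
  · have hf : (Function.mulSupport (fun v : nonarchAbsVal (K := K) ↦ v.val a)).Finite :=
      hasFiniteMulSupport h
    refine ⟨hf.toFinset.image Subtype.val, fun v hv hvT => ?_⟩
    by_contra hc
    apply hvT
    rw [Finset.mem_image]
    refine ⟨⟨v, hv⟩, ?_, rfl⟩
    rw [Set.Finite.mem_toFinset, Function.mem_mulSupport]
    intro h1
    exact hc (le_of_eq h1)

theorem many (s : Finset K) : ∃ T : Finset (AbsoluteValue K ℝ), ∀ v ∈ nonarchAbsVal (K := K),
    v ∉ T → ∀ a ∈ s, v a ≤ 1 := by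
  classical
  choose T hT using fun a : K => one a
  refine ⟨s.biUnion T, fun v hv hvT a ha => hT a v hv fun h => hvT ?_⟩
  rw [Finset.mem_biUnion]
  exact ⟨a, ha, h⟩

end AuxIntR

open AuxIntR in
/-- IntR -/
theorem pr_IntR : S_IntR := by
  classical
  intro K _ _ R
  obtain ⟨T, hT⟩ := many (R.support.image fun m => coeff m R)
  refine ⟨T, fun v hv hvT P => ?_⟩
  have hna : IsNonarchimedean v := isNonarchimedean v hv
  have h1 : (1 : ℝ) ≤ nn v P := le_max_right _ _
  have h0 : (0 : ℝ) ≤ nn v P := zero_le_one.trans h1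
  have hP : ∀ i, v (P i) ≤ nn v P := by
    intro i
    fin_cases i
    · exact (le_max_left _ _).trans (le_max_left _ _)
    · exact (le_max_right _ _).trans (le_max_left _ _)
  rw [eval_eq']
  refine sum_le v hna (pow_nonneg h0 _) _ _ fun m hm => ?_
  rw [map_mul, map_prod]
  have hc : v (coeff m R) ≤ 1 := hT v hv hvT _ (Finset.mem_image_of_mem _ hm)
  have hp : ∏ i, v (P i ^ m i) ≤ nn v P ^ R.totalDegree := by
    calc ∏ i, v (P i ^ m i) ≤ ∏ i, nn v P ^ m i := by
          refine Finset.prod_le_prod (fun i _ => v.nonneg _) fun i _ => ?_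
          rw [map_pow]
          exact pow_le_pow_left₀ (v.nonneg _) (hP i) _
      _ = nn v P ^ (∑ i, m i) := by
          rw [Finset.prod_pow_eq_pow_sum]
      _ ≤ nn v P ^ R.totalDegree := by
          refine pow_le_pow_right₀ h1 ?_
          have := le_totalDegree hm
          rwa [Finsupp.sum_fintype _ _ (fun _ => rfl)] at this
  calc v (coeff m R) * ∏ i, v (P i ^ m i) ≤ 1 * nn v P ^ R.totalDegree :=
        mul_le_mul hc hp (Finset.prod_nonneg fun i _ => v.nonneg _) zero_le_one
    _ = _ := one_mul _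

end Pool.Agent.Work.MP_91e6de_nt.BL

end
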