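import Pool.Agent.Work.MP_91e6de_nt.BM.Stmts

/-! Bundle of small proof modules (one section per former module). -/

section

set_option autoImplicit false

/-!
# MP_91e6de_nt, block BM, item A1: upper bound for the height of `Q (P)`
-/

namespace Pool.Agent.Work.MP_91e6de_nt.BM

open MvPolynomial Height Height.AdmissibleAbsValues Filter Topology
open Pool.Agent.Work.MP_91e6de_nt.BL

namespace AuxA1

variable {K : Type} [Field K]

theorem one_le_nn (v : AbsoluteValue K ℝ) (P : Fin 2 → K) : 1 ≤ nn v P := le_max_right _ _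

theorem le_nn (v : AbsoluteValue K ℝ) (P : Fin 2 → K) (i : Fin 2) : v (P i) ≤ nn v P := by
  fin_cases i
  · exact (le_max_left _ _).trans (le_max_left _ _)
  · exact (le_max_right _ _).trans (le_max_left _ _)

theorem nn_eq_one (v : AbsoluteValue K ℝ) (P : Fin 2 → K) (h : ∀ i, v (P i) ≤ 1) :
    nn v P = 1 := by
  unfold nn
  exact max_eq_right (max_le (h 0) (h 1))

theorem nn_pair (v : AbsoluteValue K ℝ) (x : K) : nn v ![x, 0] = max (v x) 1 := by
  unfold nn
  simp only [Matrix.cons_val_zero, Matrix.cons_val_one, map_zero]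
  rw [max_eq_left (v.nonneg x)]

theorem sum2 (x c : K) : ∑ i : Fin (1 + 1), (![x, 1] : Fin (1 + 1) → K) i * c ^ (i : ℕ) =
    x + c := by
  rw [Fin.sum_univ_succ]
  simp

theorem it_deg_le (f : Fin 2 → Pol K) (d n : ℕ) (h : dg f n = d ^ n) (k : Fin 2) :
    (it f n k).totalDegree ≤ d ^ n := by
  rw [← h]
  unfold dg
  fin_cases k
  · exact le_max_left _ _
  · exact le_max_right _ _

theorem it_deg_ex (f : Fin 2 → Pol K) (d n : ℕ) (h : dg f n = d ^ n) :
    ∃ k : Fin 2, (it f n k).totalDegree = d ^ n := by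
  unfold dg at h
  rcases max_choice (it f n 0).totalDegree (it f n 1).totalDegree with h1 | h1
  · exact ⟨0, by rw [← h, h1]⟩
  · exact ⟨1, by rw [← h, h1]⟩

/-- the local inequality at the places of `T` -/
theorem loc (v : AbsoluteValue K ℝ) (Q R F : Pol K) (a : ℕ → Pol K) (S N : ℕ) (𝒜 : Finset K)
    (hS : S_LocD) (ha : ∀ k, (a k).totalDegree ≤ S)
    (h : (∏ c ∈ 𝒜, (Q + C c)) * R = ∑ k ∈ Finset.range (N + 1), a k * F ^ k) :
    ∃ B : ℝ, 1 ≤ B ∧ ∀ P : Fin 2 → K, (∏ c ∈ 𝒜, v (eval P Q + c)) * v (eval P R) ≤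
      B * nn v P ^ S * (max 1 (v (eval P F))) ^ N := by
  obtain ⟨B, hB, hB'⟩ := hS K v (∏ c ∈ 𝒜, (Q + C c)) R 0 F (fun _ k => a k) S 0 N
    (fun _ k => ha k) (by simpa using h)
  refine ⟨B, hB, fun P => ?_⟩
  have h1 := hB' P
  rw [pow_zero, mul_one, map_prod, map_prod] at h1
  have h2 : ∏ c ∈ 𝒜, v (eval P (Q + C c)) = ∏ c ∈ 𝒜, v (eval P Q + c) := by
    refine Finset.prod_congr rfl fun c _ => ?_
    rw [eval_add, eval_C]
  rw [h2] at h1
  exact h1

theorem low (v : AbsoluteValue K ℝ) (x κ : ℝ) (y : K) (hκ : 0 < κ) (hx : 0 ≤ x) (𝒜 : Finset K)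
    (h : ∀ c ∈ 𝒜, κ * x ≤ v (y + c)) : κ ^ 𝒜.card * x ^ 𝒜.card ≤ ∏ c ∈ 𝒜, v (y + c) := by
  rw [← mul_pow, ← Finset.prod_const]
  exact Finset.prod_le_prod (fun _ _ => mul_nonneg hκ.le hx) h

/-- final computation -/
theorem fin (h hP' ho C M J ε A e : ℝ) (s S N : ℕ) (hs : 1 ≤ s) (hJ : 0 < J) (he : 0 < e)
    (h1 : (s : ℝ) * h ≤ S * hP' + N * ho + C) (h0 : 0 ≤ hP') (h0' : 0 ≤ ho)
    (hS : (S : ℝ) ≤ (M / J + ε) * s) (hN : (N : ℝ) * (J * e) ≤ A * s) :
    h ≤ (M / J + ε) * hP' + A * ho / (J * e) + C / s := by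
  have hs' : (0 : ℝ) < s := by
    have : 0 < s := hs
    exact_mod_cast this
  have hJe : 0 < J * e := mul_pos hJ he
  have h2 : (N : ℝ) ≤ A * s / (J * e) := by
    rw [le_div_iff₀ hJe]
    exact hN
  have h3 : (s : ℝ) * h ≤ s * ((M / J + ε) * hP' + A * ho / (J * e) + C / s) := by
    have e1 : (s : ℝ) * ((M / J + ε) * hP' + A * ho / (J * e) + C / s) =
        (M / J + ε) * s * hP' + A * s / (J * e) * ho + C := by
      field_simp
    rw [e1]
    have h4 := mul_le_mul_of_nonneg_right hS h0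
    have h5 := mul_le_mul_of_nonneg_right h2 h0'
    linarith
  exact le_of_mul_le_mul_left h3 hs'

end AuxA1

open AuxA1 in
theorem pr_A1 (h1 : S_Sub) (h2 : S_SqC) (h3 : S_A1g) (h4 : S_NA1) (h5 : S_LocD) (h6 : S_PFH2) :
    S_A1 := by
  intro K _ _ f d hd hdg Q M j hE ε T hε hT
  classical
  rcases Nat.eq_zero_or_pos Q.totalDegree with hq0 | hq
  · -- constant `Q`
    rw [totalDegree_eq_zero_iff_eq_C] at hq0
    refine ⟨0, le_refl _, fun m _ => ⟨1, hP ![coeff 0 Q, 0], one_ne_zero, fun P _ _ => ?_⟩⟩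
    have e1 : eval P Q = coeff 0 Q := by
      conv_lhs => rw [hq0]
      exact eval_C _
    rw [e1]
    have h0 : 0 ≤ hP P := (pr_H1 K P).1
    have hc : 0 ≤ (M : ℝ) / (d : ℝ) ^ j + ε := by positivity
    have := mul_nonneg hc h0
    rw [zero_mul, zero_div]
    linarith
  · obtain ⟨E, hE⟩ := hE
    obtain ⟨E2, hE2⟩ := h2 K Q hq
    obtain ⟨φ⟩ : Nonempty (K →+* ℂ) := inferInstance
    have hd0 : 0 < d := by omega
    have hJ1 : 1 ≤ d ^ j := Nat.one_le_pow _ _ hd0
    obtain ⟨A, hA0, hA⟩ := h4 M (d ^ j) Q.totalDegree ε hJ1 hq hε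
    refine ⟨A, hA0, fun m hjm => ?_⟩
    have he1 : 1 ≤ d ^ (m - j) := Nat.one_le_pow _ _ hd0
    obtain ⟨N, S, s, hs, hDS, hineq, hSs, hNs⟩ := hA (d ^ (m - j)) he1
    have hDm : d ^ j * d ^ (m - j) = d ^ m := by
      rw [← pow_add, Nat.add_sub_cancel' hjm]
    obtain ⟨k, hk⟩ := it_deg_ex f d m (hdg m)
    have hΨ : (aeval (it f j) (it f (m - j) k) : Pol K) = it f m k := by
      have := (pr_It K f).1 (m - j) j k
      rw [Nat.sub_add_cancel hjm] at this
      exact this.symm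
    -- the finite set of constants
    obtain ⟨𝒜0, h𝒜0, hcard⟩ : ∃ 𝒜0 : Finset K, (↑𝒜0 ⊆ ((↑(E ∪ E2) : Set K)ᶜ)) ∧
        𝒜0.card = s + 1 * T.card :=
      ((E ∪ E2).finite_toSet.infinite_compl).exists_subset_card_eq _
    have hnot : ∀ c ∈ 𝒜0, c ∉ E ∧ c ∉ E2 := by
      intro c hc
      have := h𝒜0 (Finset.mem_coe.2 hc)
      rw [Set.mem_compl_iff, Finset.mem_coe, Finset.mem_union, not_or] at this
      exact this
    obtain ⟨κ, hκ, hsub⟩ := h1 K T 𝒜0 1 s hcard.ge
    -- the auxiliary polynomials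
    have haux : ∀ 𝒜 : Finset K, ∃ (R : Pol K) (a : ℕ → Pol K), R ≠ 0 ∧
        (𝒜 ⊆ 𝒜0 → 𝒜.card = s → (∀ k, (a k).totalDegree ≤ S) ∧
          (∏ c ∈ 𝒜, (Q + C c)) * R = ∑ l ∈ Finset.range (N + 1), a l * (it f m k) ^ l) := by
      intro 𝒜
      by_cases h : 𝒜 ⊆ 𝒜0 ∧ 𝒜.card = s
      · obtain ⟨R, a, hR, ha, heq⟩ := h3 K φ Q (it f j) M (d ^ (m - j)) (d ^ j * d ^ (m - j))
          (it f (m - j) k) 𝒜 hq (fun c hc => hE2 c (hnot c (h.1 hc)).2)
          (fun c hc => hE c (hnot c (h.1 hc)).1) (it_deg_le f d (m - j) (hdg _) k)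
          (by rw [hΨ, hk, hDm]) (Nat.mul_pos hJ1 he1) N S hDS (by rw [h.2]; exact hineq)
        rw [hΨ] at heq
        exact ⟨R, a, hR, fun _ _ => ⟨ha, heq⟩⟩
      · exact ⟨1, 0, one_ne_zero, fun h' h'' => absurd ⟨h', h''⟩ h⟩
    choose R a hR haR using haux
    -- local constants
    have hloc : ∀ (v : AbsoluteValue K ℝ) (𝒜 : Finset K), ∃ B : ℝ, 1 ≤ B ∧
        (𝒜 ⊆ 𝒜0 → 𝒜.card = s → ∀ P : Fin 2 → K,
          (∏ c ∈ 𝒜, v (eval P Q + c)) * v (eval P (R 𝒜)) ≤
            B * nn v P ^ S * (max 1 (v (eval P (it f m k)))) ^ N) := by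
      intro v 𝒜
      by_cases h : 𝒜 ⊆ 𝒜0 ∧ 𝒜.card = s
      · obtain ⟨ha, heq⟩ := haR 𝒜 h.1 h.2
        obtain ⟨B, hB, hB'⟩ := loc v Q (R 𝒜) (it f m k) (a 𝒜) S N 𝒜 h5 ha heq
        exact ⟨B, hB, fun _ _ => hB'⟩
      · exact ⟨1, le_refl _, fun h' h'' => absurd ⟨h', h''⟩ h⟩
    choose BL hBL1 hBL using hloc
    choose BR hBR1 hBR using fun (v : AbsoluteValue K ℝ) (𝒜 : Finset K) => pr_Bd K v (R 𝒜)
    choose BQ hBQ1 hBQ using fun (v : AbsoluteValue K ℝ) => pr_Bd K v Q
    choose TR hTR using fun (𝒜 : Finset K) => pr_IntR K (R 𝒜)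
    obtain ⟨TQ, hTQ⟩ := pr_IntR K Q
    set PS : Finset (Finset K) := 𝒜0.powersetCard s with hPS
    set T' : Finset (AbsoluteValue K ℝ) := T ∪ TQ ∪ PS.biUnion TR with hT'
    have hc0 : ∀ v 𝒜, 0 ≤ BL v 𝒜 / κ ^ s + BR v 𝒜 * BQ v ^ s := by
      intro v 𝒜
      have := hBL1 v 𝒜
      have := hBR1 v 𝒜
      have := hBQ1 v
      positivity
    set B : ℝ := 1 + ∑ v ∈ T', ∑ 𝒜 ∈ PS, (BL v 𝒜 / κ ^ s + BR v 𝒜 * BQ v ^ s) with hB
    have hB1 : 1 ≤ B := by
      have : 0 ≤ ∑ v ∈ T', ∑ 𝒜 ∈ PS, (BL v 𝒜 / κ ^ s + BR v 𝒜 * BQ v ^ s) :=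
        Finset.sum_nonneg fun v _ => Finset.sum_nonneg fun 𝒜 _ => hc0 v 𝒜
      linarith
    have hBle : ∀ v ∈ T', ∀ 𝒜 ∈ PS, BL v 𝒜 / κ ^ s + BR v 𝒜 * BQ v ^ s ≤ B := by
      intro v hv 𝒜 h𝒜
      have i1 : BL v 𝒜 / κ ^ s + BR v 𝒜 * BQ v ^ s ≤
          ∑ 𝒜 ∈ PS, (BL v 𝒜 / κ ^ s + BR v 𝒜 * BQ v ^ s) :=
        Finset.single_le_sum (f := fun 𝒜 => BL v 𝒜 / κ ^ s + BR v 𝒜 * BQ v ^ s)
          (fun 𝒜 _ => hc0 v 𝒜) h𝒜
      have i2 : ∑ 𝒜 ∈ PS, (BL v 𝒜 / κ ^ s + BR v 𝒜 * BQ v ^ s) ≤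
          ∑ v ∈ T', ∑ 𝒜 ∈ PS, (BL v 𝒜 / κ ^ s + BR v 𝒜 * BQ v ^ s) :=
        Finset.single_le_sum (f := fun v => ∑ 𝒜 ∈ PS, (BL v 𝒜 / κ ^ s + BR v 𝒜 * BQ v ^ s))
          (fun v _ => Finset.sum_nonneg fun 𝒜 _ => hc0 v 𝒜) hv
      linarith
    obtain ⟨C₁, hC₁⟩ := h6 K T' B s S N hB1
    refine ⟨∏ 𝒜 ∈ PS, R 𝒜, C₁ / s, Finset.prod_ne_zero_iff.2 fun 𝒜 _ => hR 𝒜,
      fun P hSI hZ => ?_⟩
    obtain ⟨𝒜, h𝒜0', h𝒜card, h𝒜⟩ := hsub ![eval P Q, 1]
    have h𝒜m : 𝒜 ∈ PS := by
      rw [hPS, Finset.mem_powersetCard]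
      exact ⟨h𝒜0', h𝒜card⟩
    have hRP : eval P (R 𝒜) ≠ 0 := by
      intro h0
      apply hZ
      rw [map_prod]
      exact Finset.prod_eq_zero h𝒜m h0
    have horb : eval P (it f m k) = orb f P m k := by
      have h7 := (pr_It K f).2 P 0 m k
      rw [Nat.zero_add] at h7
      exact h7
    have hT1 : ∀ v ∈ T, v (eval P (R 𝒜)) * nn v ![eval P Q, 0] ^ s ≤
        BL v 𝒜 / κ ^ s * nn v P ^ S * nn v (orb f P m) ^ N := by
      intro v hv
      have hlow : ∀ c ∈ 𝒜, κ * nn v ![eval P Q, 0] ≤ v (eval P Q + c) := by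
        intro c hc
        have i0 := h𝒜 c hc v hv 0
        have i1 := h𝒜 c hc v hv 1
        rw [sum2] at i0 i1
        simp only [Fin.isValue, Matrix.cons_val_zero, Matrix.cons_val_one, map_one, mul_one]
          at i0 i1
        rw [nn_pair]
        rcases max_choice (v (eval P Q)) 1 with hm | hm
        · rw [hm]
          exact i0
        · rw [hm, mul_one]
          exact i1
      have hnn0 : 0 ≤ nn v ![eval P Q, 0] := zero_le_one.trans (one_le_nn _ _)
      have j1 := low v (nn v ![eval P Q, 0]) κ (eval P Q) hκ hnn0 𝒜 hlow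
      rw [h𝒜card] at j1
      have j2 := hBL v 𝒜 h𝒜0' h𝒜card P
      have j3 : max 1 (v (eval P (it f m k))) ≤ nn v (orb f P m) := by
        rw [horb]
        exact max_le (one_le_nn _ _) (le_nn _ _ _)
      have j4 : (max 1 (v (eval P (it f m k)))) ^ N ≤ nn v (orb f P m) ^ N :=
        pow_le_pow_left₀ (zero_le_one.trans (le_max_left _ _)) j3 N
      have j5 : 0 ≤ BL v 𝒜 * nn v P ^ S := by
        have := hBL1 v 𝒜
        have := one_le_nn v P
        positivity
      have j6 := mul_le_mul_of_nonneg_left j4 j5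
      have j7 := mul_le_mul_of_nonneg_right j1 (v.nonneg (eval P (R 𝒜)))
      have j8 : κ ^ s * (v (eval P (R 𝒜)) * nn v ![eval P Q, 0] ^ s) ≤
          κ ^ s * (BL v 𝒜 / κ ^ s * nn v P ^ S * nn v (orb f P m) ^ N) := by
        have e1 : κ ^ s * (BL v 𝒜 / κ ^ s * nn v P ^ S * nn v (orb f P m) ^ N) =
            BL v 𝒜 * nn v P ^ S * nn v (orb f P m) ^ N := by
          field_simp
        rw [e1]
        calc κ ^ s * (v (eval P (R 𝒜)) * nn v ![eval P Q, 0] ^ s)
            = κ ^ s * nn v ![eval P Q, 0] ^ s * v (eval P (R 𝒜)) := by ring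
          _ ≤ _ := j7.trans (j2.trans j6)
      exact le_of_mul_le_mul_left j8 (by positivity)
    have hP1 : ∀ v ∈ nonarchAbsVal (K := K), v ∉ T → nn v P = 1 := fun v hv hvT =>
      nn_eq_one v P (hSI v hv hvT)
    have hfin := hC₁ (eval P (R 𝒜)) ![eval P Q, 0] P (orb f P m) hRP (by
      intro v hv
      have hp1 : 1 ≤ nn v P ^ S := one_le_pow₀ (one_le_nn _ _)
      have hp2 : 1 ≤ nn v (orb f P m) ^ N := one_le_pow₀ (one_le_nn _ _)
      by_cases hvT : v ∈ T
      · refine (hT1 v hvT).trans ?_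
        have hvT' : v ∈ T' := by
          rw [hT']
          exact Finset.mem_union_left _ (Finset.mem_union_left _ hvT)
        have hle : BL v 𝒜 / κ ^ s ≤ B := by
          have i1 := hBle v hvT' 𝒜 h𝒜m
          have i2 : 0 ≤ BR v 𝒜 * BQ v ^ s := by
            have := hBR1 v 𝒜
            have := hBQ1 v
            positivity
          linarith
        apply mul_le_mul_of_nonneg_right _ (by linarith)
        exact mul_le_mul_of_nonneg_right hle (by linarith)
      · have hvn : v ∈ nonarchAbsVal (K := K) := by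
          rcases hv with hv | hv
          · exact absurd (hT v hv) hvT
          · exact hv
        have hn1 := hP1 v hvn hvT
        by_cases hvT' : v ∈ T'
        · have i1 := hBR v 𝒜 P
          have i2 := hBQ v P
          rw [hn1, one_pow, mul_one] at i1 i2
          have i3 : nn v ![eval P Q, 0] ≤ BQ v := by
            rw [nn_pair]
            exact max_le i2 (hBQ1 v)
          have i4 : nn v ![eval P Q, 0] ^ s ≤ BQ v ^ s :=
            pow_le_pow_left₀ (zero_le_one.trans (one_le_nn _ _)) i3 s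
          have i5 : v (eval P (R 𝒜)) * nn v ![eval P Q, 0] ^ s ≤ BR v 𝒜 * BQ v ^ s :=
            mul_le_mul i1 i4 (by have := one_le_nn v ![eval P Q, 0]; positivity)
              (by have := hBR1 v 𝒜; linarith)
          have i6 := hBle v hvT' 𝒜 h𝒜m
          have i7 : 0 ≤ BL v 𝒜 / κ ^ s := by
            have := hBL1 v 𝒜
            positivity
          calc v (eval P (R 𝒜)) * nn v ![eval P Q, 0] ^ s ≤ B := by linarith
            _ = B * 1 * 1 := by ring
            _ ≤ B * nn v P ^ S * nn v (orb f P m) ^ N := by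
              have hB0 : 0 ≤ B := by linarith
              gcongr
        · have i1 := hTR 𝒜 v hvn (fun hc => hvT' (by
            rw [hT']
            exact Finset.mem_union_right _ (Finset.mem_biUnion.2 ⟨𝒜, h𝒜m, hc⟩))) P
          have i2 := hTQ v hvn (fun hc => hvT' (by
            rw [hT']
            exact Finset.mem_union_left _ (Finset.mem_union_right _ hc))) P
          rw [hn1, one_pow] at i1 i2
          have i3 : nn v ![eval P Q, 0] = 1 := by
            rw [nn_pair]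
            exact max_eq_right i2
          rw [i3, one_pow, mul_one]
          refine i1.trans ?_
          have i4 : 1 ≤ B * nn v P ^ S := one_le_mul_of_one_le_of_one_le hB1 hp1
          exact one_le_mul_of_one_le_of_one_le i4 hp2) (by
      intro v hvn hvT'
      have hvT : v ∉ T := fun hc => hvT' (by
        rw [hT']
        exact Finset.mem_union_left _ (Finset.mem_union_left _ hc))
      have hp1 : 1 ≤ nn v P ^ S := one_le_pow₀ (one_le_nn _ _)
      have hp2 : 1 ≤ nn v (orb f P m) ^ N := one_le_pow₀ (one_le_nn _ _)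
      have hn1 := hP1 v hvn hvT
      have i1 := hTR 𝒜 v hvn (fun hc => hvT' (by
        rw [hT']
        exact Finset.mem_union_right _ (Finset.mem_biUnion.2 ⟨𝒜, h𝒜m, hc⟩))) P
      have i2 := hTQ v hvn (fun hc => hvT' (by
        rw [hT']
        exact Finset.mem_union_left _ (Finset.mem_union_right _ hc))) P
      rw [hn1, one_pow] at i1 i2
      have i3 : nn v ![eval P Q, 0] = 1 := by
        rw [nn_pair]
        exact max_eq_right i2
      rw [i3, one_pow, mul_one]
      refine i1.trans ?_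
      exact one_le_mul_of_one_le_of_one_le hp1 hp2)
    have hJ0 : (0 : ℝ) < (d : ℝ) ^ j := by
      have : (0 : ℝ) < d := by exact_mod_cast hd0
      positivity
    have he0 : (0 : ℝ) < (d : ℝ) ^ (m - j) := by
      have : (0 : ℝ) < d := by exact_mod_cast hd0
      positivity
    have hSs' : (S : ℝ) ≤ ((M : ℝ) / (d : ℝ) ^ j + ε) * s := by
      rw [Nat.cast_pow] at hSs
      exact hSs
    have hNs' : (N : ℝ) * ((d : ℝ) ^ j * (d : ℝ) ^ (m - j)) ≤ A * s := by
      rw [Nat.cast_pow, Nat.cast_pow] at hNs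
      exact hNs
    have hres := fin _ _ _ C₁ M ((d : ℝ) ^ j) ε A ((d : ℝ) ^ (m - j)) s S N hs hJ0 he0 hfin
      (pr_H1 K P).1 (pr_H1 K (orb f P m)).1 hSs' hNs'
    have hdm : (d : ℝ) ^ j * (d : ℝ) ^ (m - j) = (d : ℝ) ^ m := by
      rw [← pow_add, Nat.add_sub_cancel' hjm]
    rw [hdm] at hres
    exact hres

end Pool.Agent.Work.MP_91e6de_nt.BM

end

section

set_option autoImplicit false

namespace Pool.Agent.Work.MP_91e6de_nt.BM

open MvPolynomial Height Height.AdmissibleAbsValues Filter Topology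
open Pool.Agent.Work.MP_91e6de_nt.BL

theorem pr_A1g (h : S_DivQ) : S_A1g := by
  intro K _ φ Q u M e D Ψ 𝒜 hQ hsq hint hΨ hD hD1 N S hDS hnum
  obtain ⟨hfd, h1⟩ := pr_Ind pr_dim K 1 (aeval u Ψ) N S isRelPrime_one_left
    (by rw [hD]; exact hD1) (by rw [hD]; exact hDS)
  rw [hD] at h1
  have h2 := (pr_dim K S).2
  have h3 := (pr_dim K (S - D)).2
  have hlt : 𝒜.card * (N * e * M + S * Q.totalDegree + Q.totalDegree) <
      Module.finrank K (EE 1 (aeval u Ψ) N S) := by
    rw [← h2, ← h3] at hnum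
    nlinarith [hnum, h1]
  obtain ⟨R, hR0, a, ha, hR⟩ := h K φ Q u M e Ψ 𝒜 hQ hsq hint hΨ N S _ hfd le_rfl hlt
  refine ⟨R, a, hR0, ha, ?_⟩
  rw [hR]
  refine Finset.sum_congr rfl fun k _ => ?_
  rw [one_pow, mul_one]

end Pool.Agent.Work.MP_91e6de_nt.BM

end

section

set_option autoImplicit false

/-!
# MP_91e6de_nt, block BM: item A2 (lower bound for the height of the image)
-/

namespace Pool.Agent.Work.MP_91e6de_nt.BM

open MvPolynomial Height Height.AdmissibleAbsValues Filter Topology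
open Pool.Agent.Work.MP_91e6de_nt.BL

namespace AuxA2

variable {K : Type} [Field K]

theorem one_le_nn (v : AbsoluteValue K ℝ) (P : Fin 2 → K) : 1 ≤ nn v P := le_max_right _ _

theorem le_nn (v : AbsoluteValue K ℝ) (P : Fin 2 → K) (i : Fin 2) : v (P i) ≤ nn v P := by
  fin_cases i
  · exact (le_max_left _ _).trans (le_max_left _ _)
  · exact (le_max_right _ _).trans (le_max_left _ _)

theorem eval_la (c : K) (u : Fin 2 → Pol K) (P : Fin 2 → K) :
    eval P (la c u) = eval P (u 0) + c * eval P (u 1) + c ^ 2 := by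
  unfold la
  simp only [map_add, map_mul, eval_C]

theorem eval_it (f : Fin 2 → Pol K) (P : Fin 2 → K) (m : ℕ) (j : Fin 2) :
    eval P (it f m j) = orb f P m j := by
  have h := (pr_It K f).2 P 0 m j
  rw [Nat.zero_add] at h
  exact h

theorem hloc (h5 : S_LocD) (v : AbsoluteValue K ℝ) (f : Fin 2 → Pol K) (i m : ℕ) (a0 b0 : K)
    (k : Fin 2) (𝒜 : Finset K) (s C₀ s' N : ℕ) (hs : C₀ ≤ s) (κ : ℝ) (hκ : 0 < κ)
    (h𝒜 : 𝒜.card = s) (R : Pol K) (a : ℕ → ℕ → Pol K) (ha : ∀ l k, (a l k).totalDegree ≤ C₀)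
    (hrep : (∏ c ∈ 𝒜, la c (fun i => (X i : Pol K))) * R =
      ∑ l ∈ Finset.range (s' + 1), ∑ j ∈ Finset.range (N + 1),
        a l j * la a0 (it f i) ^ l * la b0 ![it f m k, 0] ^ j) :
    ∃ B : ℝ, 1 ≤ B ∧ ∀ P : Fin 2 → K,
      (∀ c ∈ 𝒜, κ * nn v P ≤ v (eval P (la c (fun i => (X i : Pol K))))) →
      v (eval P R) * nn v P ^ (s - C₀) ≤
        B * nn v (orb f P i) ^ s' * nn v (orb f P m) ^ N := by
  obtain ⟨B0, hB0, hB⟩ := h5 K v _ R _ _ a C₀ s' N ha hrep
  set cu : ℝ := 1 + v a0 + v a0 ^ 2 with hcu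
  set cF : ℝ := 1 + v b0 ^ 2 with hcF
  have hva : 0 ≤ v a0 := v.nonneg _
  have hvb : 0 ≤ v b0 := v.nonneg _
  have hcu1 : 1 ≤ cu := by
    have := sq_nonneg (v a0)
    linarith
  have hcF1 : 1 ≤ cF := by
    have := sq_nonneg (v b0)
    linarith
  have hB00 : 0 < B0 := lt_of_lt_of_le one_pos hB0
  set B1 : ℝ := B0 * cu ^ s' * cF ^ N / κ ^ s with hB1
  have hB10 : 0 ≤ B1 := by
    have : 0 ≤ cu := by linarith
    have : 0 ≤ cF := by linarith
    positivity
  refine ⟨1 + B1, by linarith, ?_⟩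
  intro P hP
  have hn1 := one_le_nn v P
  have hn0 : 0 < nn v P := lt_of_lt_of_le one_pos hn1
  have hi1 := one_le_nn v (orb f P i)
  have hm1 := one_le_nn v (orb f P m)
  have hi0 : 0 < nn v (orb f P i) := lt_of_lt_of_le one_pos hi1
  have hm0 : 0 < nn v (orb f P m) := lt_of_lt_of_le one_pos hm1
  have hU : max 1 (v (eval P (la a0 (it f i)))) ≤ cu * nn v (orb f P i) := by
    apply max_le
    · nlinarith
    · rw [eval_la, eval_it, eval_it]
      have t1 := le_nn v (orb f P i) 0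
      have t2 := le_nn v (orb f P i) 1
      have t3 : v (orb f P i 0 + a0 * orb f P i 1 + a0 ^ 2) ≤
          v (orb f P i 0) + v a0 * v (orb f P i 1) + v a0 ^ 2 := by
        refine (v.add_le _ _).trans ?_
        rw [map_pow]
        have := v.add_le (orb f P i 0) (a0 * orb f P i 1)
        rw [map_mul] at this
        linarith
      refine t3.trans ?_
      rw [hcu]
      have t4 : v a0 * v (orb f P i 1) ≤ v a0 * nn v (orb f P i) :=
        mul_le_mul_of_nonneg_left t2 hva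
      have t5 : v a0 ^ 2 ≤ v a0 ^ 2 * nn v (orb f P i) := by
        have := sq_nonneg (v a0)
        nlinarith
      nlinarith
  have hG : max 1 (v (eval P (la b0 ![it f m k, 0]))) ≤ cF * nn v (orb f P m) := by
    apply max_le
    · nlinarith
    · rw [eval_la]
      simp only [Matrix.cons_val_zero, Matrix.cons_val_one, map_zero, mul_zero, add_zero]
      rw [eval_it]
      have t1 := le_nn v (orb f P m) k
      have t3 : v (orb f P m k + b0 ^ 2) ≤ v (orb f P m k) + v b0 ^ 2 := by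
        refine (v.add_le _ _).trans ?_
        rw [map_pow]
      refine t3.trans ?_
      rw [hcF]
      have t5 : v b0 ^ 2 ≤ v b0 ^ 2 * nn v (orb f P m) := by
        have := sq_nonneg (v b0)
        nlinarith
      nlinarith
  have hD : (κ * nn v P) ^ s ≤ v (eval P (∏ c ∈ 𝒜, la c (fun i => (X i : Pol K)))) := by
    rw [map_prod, map_prod, ← h𝒜, ← Finset.prod_const]
    exact Finset.prod_le_prod (fun c _ => by positivity) hP
  have h6 := hB P
  have h7 : (κ * nn v P) ^ s * v (eval P R) ≤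
      B0 * nn v P ^ C₀ * (cu * nn v (orb f P i)) ^ s' * (cF * nn v (orb f P m)) ^ N := by
    refine (mul_le_mul_of_nonneg_right hD (v.nonneg _)).trans (h6.trans ?_)
    have u1 : max 1 (v (eval P (la a0 (it f i)))) ^ s' ≤ (cu * nn v (orb f P i)) ^ s' :=
      pow_le_pow_left₀ (zero_le_one.trans (le_max_left _ _)) hU _
    have u2 : max 1 (v (eval P (la b0 ![it f m k, 0]))) ^ N ≤ (cF * nn v (orb f P m)) ^ N :=
      pow_le_pow_left₀ (zero_le_one.trans (le_max_left _ _)) hG _
    have u3 : 0 ≤ max 1 (v (eval P (la a0 (it f i)))) ^ s' :=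
      pow_nonneg (zero_le_one.trans (le_max_left _ _)) _
    have u4 : 0 ≤ max 1 (v (eval P (la b0 ![it f m k, 0]))) ^ N :=
      pow_nonneg (zero_le_one.trans (le_max_left _ _)) _
    have u5 : 0 ≤ (cu * nn v (orb f P i)) ^ s' := u3.trans u1
    exact mul_le_mul (mul_le_mul_of_nonneg_left u1 (by positivity)) u2 u4
      (mul_nonneg (by positivity) u5)
  -- cancel
  have hκs : 0 < κ ^ s := pow_pos hκ _
  have hnC : 0 < nn v P ^ C₀ := pow_pos hn0 _
  have e1 : nn v P ^ s = nn v P ^ (s - C₀) * nn v P ^ C₀ := by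
    rw [← pow_add]
    congr 1
    omega
  have e2 : (κ * nn v P) ^ s * v (eval P R) =
      (v (eval P R) * nn v P ^ (s - C₀)) * (κ ^ s * nn v P ^ C₀) := by
    rw [mul_pow, e1]
    ring
  have e3 : B0 * nn v P ^ C₀ * (cu * nn v (orb f P i)) ^ s' * (cF * nn v (orb f P m)) ^ N =
      (B1 * nn v (orb f P i) ^ s' * nn v (orb f P m) ^ N) * (κ ^ s * nn v P ^ C₀) := by
    rw [hB1, mul_pow, mul_pow]
    field_simp
  rw [e2, e3] at h7
  have h8 := le_of_mul_le_mul_right h7 (mul_pos hκs hnC)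
  refine h8.trans ?_
  have p1 : 0 ≤ nn v (orb f P i) ^ s' := by positivity
  have p2 : 0 ≤ nn v (orb f P m) ^ N := by positivity
  have p3 : B1 * nn v (orb f P i) ^ s' ≤ (1 + B1) * nn v (orb f P i) ^ s' :=
    mul_le_mul_of_nonneg_right (by linarith) p1
  exact mul_le_mul_of_nonneg_right p3 p2

theorem core [NumberField K] (h5 : S_LocD) (h6 : S_PFH2) (T : Finset (AbsoluteValue K ℝ))
    (hT : ∀ v ∈ archAbsVal (K := K), v ∈ T) (f : Fin 2 → Pol K) (i m : ℕ) (a0 b0 : K)
    (k : Fin 2) (𝒜 : Finset K) (s C₀ s' N : ℕ) (hs : C₀ ≤ s) (κ : ℝ) (hκ : 0 < κ)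
    (h𝒜 : 𝒜.card = s) (R : Pol K) (a : ℕ → ℕ → Pol K) (ha : ∀ l k, (a l k).totalDegree ≤ C₀)
    (hrep : (∏ c ∈ 𝒜, la c (fun i => (X i : Pol K))) * R =
      ∑ l ∈ Finset.range (s' + 1), ∑ j ∈ Finset.range (N + 1),
        a l j * la a0 (it f i) ^ l * la b0 ![it f m k, 0] ^ j) :
    ∃ C : ℝ, ∀ P : Fin 2 → K, SI T P →
      (∀ c ∈ 𝒜, ∀ v ∈ T, κ * nn v P ≤ v (eval P (la c (fun i => (X i : Pol K))))) →
      eval P R ≠ 0 →
      ((s : ℝ) - C₀) * hP P ≤ s' * hP (orb f P i) + N * hP (orb f P m) + C := by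
  classical
  obtain ⟨TR, hTR⟩ := pr_IntR K R
  choose B1 hB11 hB1 using fun v => hloc h5 v f i m a0 b0 k 𝒜 s C₀ s' N hs κ hκ h𝒜 R a ha hrep
  choose B2 hB21 hB2 using fun v => pr_Bd K v R
  set B : ℝ := 1 + ∑ v ∈ T, B1 v + ∑ v ∈ TR, B2 v with hB
  have s1 : 0 ≤ ∑ v ∈ T, B1 v := Finset.sum_nonneg fun v _ => zero_le_one.trans (hB11 v)
  have s2 : 0 ≤ ∑ v ∈ TR, B2 v := Finset.sum_nonneg fun v _ => zero_le_one.trans (hB21 v)
  have hBone : 1 ≤ B := by linarith
  have hBT : ∀ v ∈ T, B1 v ≤ B := by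
    intro v hv
    have := Finset.single_le_sum (f := B1) (fun v _ => zero_le_one.trans (hB11 v)) hv
    linarith
  have hBR : ∀ v ∈ TR, B2 v ≤ B := by
    intro v hv
    have := Finset.single_le_sum (f := B2) (fun v _ => zero_le_one.trans (hB21 v)) hv
    linarith
  obtain ⟨C, hC⟩ := h6 K (T ∪ TR) B (s - C₀) s' N hBone
  refine ⟨C, ?_⟩
  intro P hSI hc hR
  have hnn : ∀ v ∈ nonarchAbsVal (K := K), v ∉ T → nn v P = 1 := by
    intro v hv hvT
    exact max_eq_right (max_le (hSI v hv hvT 0) (hSI v hv hvT 1))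
  have hge : ∀ v : AbsoluteValue K ℝ, 1 ≤ nn v (orb f P i) ^ s' * nn v (orb f P m) ^ N := by
    intro v
    exact one_le_mul_of_one_le_of_one_le (one_le_pow₀ (one_le_nn v _))
      (one_le_pow₀ (one_le_nn v _))
  have hfin := hC (eval P R) P (orb f P i) (orb f P m) hR ?_ ?_
  · rw [Nat.cast_sub hs] at hfin
    exact hfin
  · intro v hv
    by_cases hvT : v ∈ T
    · refine (hB1 v P (fun c hc' => hc c hc' v hvT)).trans ?_
      have p1 : 0 ≤ nn v (orb f P i) ^ s' := pow_nonneg (zero_le_one.trans (one_le_nn v _)) _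
      have p2 : 0 ≤ nn v (orb f P m) ^ N := pow_nonneg (zero_le_one.trans (one_le_nn v _)) _
      exact mul_le_mul_of_nonneg_right (mul_le_mul_of_nonneg_right (hBT v hvT) p1) p2
    · have hvn : v ∈ nonarchAbsVal (K := K) := by
        rcases hv with hv | hv
        · exact absurd (hT v hv) hvT
        · exact hv
      rw [hnn v hvn hvT, one_pow, mul_one, mul_assoc]
      have h7 : v (eval P R) ≤ B := by
        by_cases hvR : v ∈ TR
        · have := hB2 v P
          rw [hnn v hvn hvT, one_pow, mul_one] at this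
          exact this.trans (hBR v hvR)
        · have := hTR v hvn hvR P
          rw [hnn v hvn hvT, one_pow] at this
          exact this.trans hBone
      have := hge v
      nlinarith
  · intro v hvn hvT
    rw [Finset.mem_union, not_or] at hvT
    rw [hnn v hvn hvT.1, one_pow, mul_one]
    have := hTR v hvn hvT.2 P
    rw [hnn v hvn hvT.1, one_pow] at this
    exact this.trans (hge v)

theorem deg_la (c : K) (u : Fin 2 → Pol K) (D : ℕ) (h0 : (u 0).totalDegree ≤ D)
    (h1 : (u 1).totalDegree ≤ D) : (la c u).totalDegree ≤ D := by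
  unfold la
  refine (totalDegree_add _ _).trans (max_le ((totalDegree_add _ _).trans (max_le h0 ?_)) ?_)
  · refine (totalDegree_mul _ _).trans ?_
    rw [totalDegree_C, zero_add]
    exact h1
  · rw [totalDegree_C]
    exact Nat.zero_le _

end AuxA2

theorem pr_A2 (h1 : S_Sub) (h2 : S_IndU) (h3 : S_DivL) (h4 : S_NA2) (h5 : S_LocD)
    (h6 : S_PFH2) : S_A2 := by
  classical
  intro K _ _ f d μ hd hdg hμ i ε T hε hT
  by_cases hcase : (μ i : ℝ) / (d : ℝ) ^ i - ε ≤ 0
  · refine ⟨0, le_rfl, fun m _ => ⟨1, 0, one_ne_zero, fun P _ _ => ?_⟩⟩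
    have a1 := (pr_H1 K P).1
    have a2 := (pr_H1 K (orb f P i)).1
    rw [zero_mul, zero_div, add_zero, add_zero]
    nlinarith
  push Not at hcase
  have hJ : 1 ≤ d ^ i := Nat.one_le_pow _ _ (by omega)
  have hJr : ((d ^ i : ℕ) : ℝ) = (d : ℝ) ^ i := by push_cast; rfl
  obtain ⟨A, hA, hA2⟩ := h4 (μ i) (d ^ i) ε hJ hε (by rw [hJr]; linarith)
  refine ⟨A, hA, fun m him => ?_⟩
  have he : 1 ≤ d ^ (m - i) := Nat.one_le_pow _ _ (by omega)
  have hJe : d ^ i * d ^ (m - i) = d ^ m := by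
    rw [← pow_add]
    congr 1
    omega
  obtain ⟨k, hk⟩ : ∃ k : Fin 2, (it f m k).totalDegree = d ^ m := by
    have h := hdg m
    unfold dg at h
    rcases max_choice (it f m 0).totalDegree (it f m 1).totalDegree with h' | h'
    · exact ⟨0, by rw [← h, h']⟩
    · exact ⟨1, by rw [← h, h']⟩
  obtain ⟨E, hE⟩ := hμ i m him
  have : Infinite K := inferInstance
  obtain ⟨a0, ha0⟩ := Infinite.exists_notMem_finset E
  obtain ⟨E', hE'⟩ := (hE a0 ha0).2 k hk
  obtain ⟨b0, hb0⟩ := Infinite.exists_notMem_finset E'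
  obtain ⟨hrp, hIi⟩ := hE' b0 hb0
  obtain ⟨C₀, hC₀⟩ := h2 K _ _ hrp
  obtain ⟨N, s', s, hs', hCs, hnum, hr1, hr2⟩ := hA2 (d ^ (m - i)) C₀ he
  obtain ⟨W, hWfin, hWdim, hWrep⟩ := hC₀ N s'
  rw [hIi] at hWdim
  -- degrees
  have hdu : (la a0 (it f i)).totalDegree ≤ d ^ i := by
    have h := hdg i
    unfold dg at h
    exact AuxA2.deg_la _ _ _ (by rw [← h]; exact le_max_left _ _)
      (by rw [← h]; exact le_max_right _ _)
  have hdF : (la b0 ![it f m k, 0]).totalDegree ≤ d ^ m := by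
    apply AuxA2.deg_la
    · exact hk.le
    · simp
  have hWdeg : ∀ t ∈ W, t.totalDegree ≤ C₀ + s' * d ^ i + N * d ^ m := by
    intro t ht
    obtain ⟨a, ha, rfl⟩ := hWrep t ht
    refine (totalDegree_finsetSum _ _).trans (Finset.sup_le fun l hl => ?_)
    refine (totalDegree_finsetSum _ _).trans (Finset.sup_le fun j hj => ?_)
    rw [Finset.mem_range] at hl hj
    refine (totalDegree_mul _ _).trans (add_le_add ((totalDegree_mul _ _).trans
      (add_le_add (ha l j) ?_)) ?_)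
    · refine (totalDegree_pow _ _).trans (Nat.mul_le_mul (by omega) hdu)
    · refine (totalDegree_pow _ _).trans (Nat.mul_le_mul (by omega) hdF)
  obtain ⟨𝒜0, h𝒜0⟩ := Infinite.exists_subset_card_eq K (s + 2 * T.card)
  have hR : ∀ 𝒜 : Finset K, 𝒜.card = s → ∃ R : Pol K, R ≠ 0 ∧
      (∏ c ∈ 𝒜, la c (fun i => (X i : Pol K))) * R ∈ W := by
    intro 𝒜 h𝒜
    apply h3 K W (C₀ + s' * d ^ i + N * d ^ m) 𝒜 hWfin hWdeg
    rw [h𝒜, ← hJe]
    exact hnum.trans_le hWdim
  choose! R hR0 hRW using hR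
  obtain ⟨κ, hκ, hsub⟩ := h1 K T 𝒜0 2 s h𝒜0.ge
  have hcore : ∀ 𝒜 : Finset K, 𝒜.card = s → ∃ C : ℝ, ∀ P : Fin 2 → K, SI T P →
      (∀ c ∈ 𝒜, ∀ v ∈ T, κ * nn v P ≤ v (eval P (la c (fun i => (X i : Pol K))))) →
      eval P (R 𝒜) ≠ 0 →
      ((s : ℝ) - C₀) * hP P ≤ s' * hP (orb f P i) + N * hP (orb f P m) + C := by
    intro 𝒜 h𝒜
    obtain ⟨a, ha, hrep⟩ := hWrep _ (hRW 𝒜 h𝒜)
    exact AuxA2.core h5 h6 T hT f i m a0 b0 k 𝒜 s C₀ s' N hCs κ hκ h𝒜 (R 𝒜) a ha hrep
  choose! C hC using hcore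
  refine ⟨∏ 𝒜 ∈ Finset.powersetCard s 𝒜0, R 𝒜,
    ∑ 𝒜 ∈ Finset.powersetCard s 𝒜0, |C 𝒜|, ?_, ?_⟩
  · rw [Finset.prod_ne_zero_iff]
    intro 𝒜 h𝒜
    exact hR0 𝒜 (Finset.mem_powersetCard.1 h𝒜).2
  intro P hSI hZ
  obtain ⟨𝒜, h𝒜sub, h𝒜card, hgood⟩ := hsub ![P 0, P 1, 1]
  have hmem : 𝒜 ∈ Finset.powersetCard s 𝒜0 := Finset.mem_powersetCard.2 ⟨h𝒜sub, h𝒜card⟩
  have hRP : eval P (R 𝒜) ≠ 0 := by
    rw [map_prod, Finset.prod_ne_zero_iff] at hZ
    exact hZ 𝒜 hmem
  have hgood' : ∀ c ∈ 𝒜, ∀ v ∈ T,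
      κ * nn v P ≤ v (eval P (la c (fun i => (X i : Pol K)))) := by
    intro c hc v hv
    have e : eval P (la c (fun i => (X i : Pol K))) =
        ∑ i : Fin 3, (![P 0, P 1, 1] : Fin 3 → K) i * c ^ (i : ℕ) := by
      rw [AuxA2.eval_la, eval_X, eval_X, Fin.sum_univ_three]
      simp
      ring
    rw [e]
    have g0 := hgood c hc v hv 0
    have g1 := hgood c hc v hv 1
    have g2 := hgood c hc v hv 2
    have g2' : κ * 1 ≤ v (∑ i : Fin 3, (![P 0, P 1, 1] : Fin 3 → K) i * c ^ (i : ℕ)) := by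
      have : v ((![P 0, P 1, 1] : Fin 3 → K) 2) = 1 := v.map_one
      rw [this] at g2
      exact g2
    unfold nn
    rw [mul_max_of_nonneg _ _ hκ.le, mul_max_of_nonneg _ _ hκ.le]
    exact max_le (max_le g0 g1) g2'
  have hmain := hC 𝒜 h𝒜card P hSI hgood' hRP
  have hCle : C 𝒜 ≤ ∑ 𝒜 ∈ Finset.powersetCard s 𝒜0, |C 𝒜| :=
    (le_abs_self _).trans
      (Finset.single_le_sum (f := fun 𝒜 => |C 𝒜|) (fun _ _ => abs_nonneg _) hmem)
  set Ct := ∑ 𝒜 ∈ Finset.powersetCard s 𝒜0, |C 𝒜| with hCt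
  have hCt0 : 0 ≤ Ct := Finset.sum_nonneg fun _ _ => abs_nonneg _
  have hp0 := (pr_H1 K P).1
  have hpi := (pr_H1 K (orb f P i)).1
  have hpm := (pr_H1 K (orb f P m)).1
  have hs'1 : (1 : ℝ) ≤ s' := by exact_mod_cast hs'
  have hs'0 : (0 : ℝ) < s' := by linarith
  have hdm : (0 : ℝ) < (d : ℝ) ^ m := by
    have : (0 : ℝ) < d := by
      have : 0 < d := by omega
      exact_mod_cast this
    positivity
  have hJe' : ((d ^ i : ℕ) : ℝ) * ((d ^ (m - i) : ℕ) : ℝ) = (d : ℝ) ^ m := by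
    rw [← Nat.cast_mul, hJe]
    push_cast
    rfl
  rw [hJe'] at hr2
  rw [hJr] at hr1
  -- divide by s'
  have k1 : ((μ i : ℝ) / (d : ℝ) ^ i - ε) * s' * hP P ≤ ((s : ℝ) - C₀) * hP P :=
    mul_le_mul_of_nonneg_right hr1 hp0
  have k2 : (N : ℝ) ≤ A * s' / (d : ℝ) ^ m := by
    rw [le_div_iff₀ hdm]
    exact hr2
  have k3 : (N : ℝ) * hP (orb f P m) ≤ A * s' / (d : ℝ) ^ m * hP (orb f P m) :=
    mul_le_mul_of_nonneg_right k2 hpm
  have k4 : Ct ≤ s' * Ct := by nlinarith
  have k5 : s' * (((μ i : ℝ) / (d : ℝ) ^ i - ε) * hP P) ≤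
      s' * (hP (orb f P i) + A * hP (orb f P m) / (d : ℝ) ^ m + Ct) := by
    have e1 : s' * (hP (orb f P i) + A * hP (orb f P m) / (d : ℝ) ^ m + Ct) =
        s' * hP (orb f P i) + A * s' / (d : ℝ) ^ m * hP (orb f P m) + s' * Ct := by
      field_simp
    rw [e1]
    linarith
  exact le_of_mul_le_mul_left k5 hs'0

end Pool.Agent.Work.MP_91e6de_nt.BM

end

section

set_option autoImplicit false

/-!
# MP_91e6de_nt, block BM, item Add: additivity of the intersection number.
-/

namespace Pool.Agent.Work.MP_91e6de_nt.BM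

open MvPolynomial Height Height.AdmissibleAbsValues Filter Topology
open Pool.Agent.Work.MP_91e6de_nt.BL

theorem pr_Add (h : S_Fd) : S_Add := by
  intro K _ u u' w hr
  have hu : IsRelPrime u w := IsRelPrime.of_mul_left_left hr
  have hu' : IsRelPrime u' w := IsRelPrime.of_mul_left_right hr
  have F1 := h K (u * u') w hr
  have F2 := h K u w hu
  have F3 := h K u' w hu'
  have hIJ : Ideal.span {u * u', w} ≤ Ideal.span {u, w} := by
    rw [Ideal.span_le]
    rintro x (rfl | hx)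
    · exact Ideal.mul_mem_right _ _ (Ideal.subset_span (by simp))
    · exact Ideal.subset_span (by simp at hx; simp [hx])
  let g : (Pol K ⧸ Ideal.span {u * u', w}) →ₗ[K] (Pol K ⧸ Ideal.span {u, w}) :=
    (Ideal.Quotient.factorₐ K hIJ).toLinearMap
  let ψ : Pol K →ₗ[K] (Pol K ⧸ Ideal.span {u * u', w}) :=
    (Ideal.Quotient.mkₐ K (Ideal.span {u * u', w})).toLinearMap ∘ₗ LinearMap.mulLeft K u
  let χ : Pol K →ₗ[K] (Pol K ⧸ Ideal.span {u', w}) :=
    (Ideal.Quotient.mkₐ K (Ideal.span {u', w})).toLinearMap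
  have hψ : ∀ a, ψ a = Ideal.Quotient.mk (Ideal.span {u * u', w}) (u * a) := fun a => rfl
  have hχ : ∀ a, χ a = Ideal.Quotient.mk (Ideal.span {u', w}) a := fun a => rfl
  have hgm : ∀ a, g (Ideal.Quotient.mk (Ideal.span {u * u', w}) a) =
      Ideal.Quotient.mk (Ideal.span {u, w}) a := fun a => rfl
  have hg : Function.Surjective g := by
    intro y
    obtain ⟨a, rfl⟩ := Ideal.Quotient.mk_surjective y
    exact ⟨_, hgm a⟩
  have hχs : Function.Surjective χ := Ideal.Quotient.mk_surjective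
  have hker : LinearMap.ker ψ = LinearMap.ker χ := by
    ext a
    rw [LinearMap.mem_ker, LinearMap.mem_ker, hψ, hχ, Ideal.Quotient.eq_zero_iff_mem,
      Ideal.Quotient.eq_zero_iff_mem, Ideal.mem_span_pair, Ideal.mem_span_pair]
    constructor
    · rintro ⟨b, c, hbc⟩
      have h1 : w ∣ u * (a - b * u') := ⟨c, by linear_combination -hbc⟩
      obtain ⟨e, he⟩ := hu.symm.dvd_of_dvd_mul_left h1
      exact ⟨b, e, by linear_combination -he⟩
    · rintro ⟨b, c, rfl⟩
      exact ⟨b, u * c, by ring⟩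
  have hran : LinearMap.ker g = LinearMap.range ψ := by
    ext y
    obtain ⟨a, rfl⟩ := Ideal.Quotient.mk_surjective y
    rw [LinearMap.mem_ker, hgm, Ideal.Quotient.eq_zero_iff_mem, Ideal.mem_span_pair,
      LinearMap.mem_range]
    constructor
    · rintro ⟨b, c, rfl⟩
      refine ⟨b, ?_⟩
      rw [hψ, Ideal.Quotient.mk_eq_mk_iff_sub_mem, Ideal.mem_span_pair]
      exact ⟨0, -c, by ring⟩
    · rintro ⟨b, hb⟩
      rw [hψ, Ideal.Quotient.mk_eq_mk_iff_sub_mem, Ideal.mem_span_pair] at hb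
      obtain ⟨c, d, hcd⟩ := hb
      exact ⟨b - c * u', -d, by linear_combination -hcd⟩
  have e1 : Module.finrank K (LinearMap.range ψ) =
      Module.finrank K (Pol K ⧸ Ideal.span {u', w}) := by
    rw [← (LinearMap.quotKerEquivRange ψ).finrank_eq,
      (Submodule.quotEquivOfEq _ _ hker).finrank_eq,
      (LinearMap.quotKerEquivOfSurjective χ hχs).finrank_eq]
  have e2 := LinearMap.finrank_range_add_finrank_ker g
  rw [hran, e1, LinearMap.range_eq_top.2 hg, finrank_top] at e2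
  exact e2.symm

end Pool.Agent.Work.MP_91e6de_nt.BM

end

section

set_option autoImplicit false

namespace Pool.Agent.Work.MP_91e6de_nt.BM

open MvPolynomial Height Height.AdmissibleAbsValues Filter Topology
open Pool.Agent.Work.MP_91e6de_nt.BL

namespace AuxBaseUp

theorem deg_le {K : Type} [Field K] (f : Fin 2 → Pol K) (d n : ℕ) (h : ∀ n, dg f n = d ^ n)
    (i : Fin 2) : (it f n i).totalDegree ≤ d ^ n := by
  rw [← h n, dg]
  fin_cases i
  · exact le_max_left _ _
  · exact le_max_right _ _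

end AuxBaseUp

theorem pr_BaseUp (h : S_Top) : S_BaseUp := by
  intro K _ f d v j j' hd hdg hjj hv i
  obtain ⟨k, rfl⟩ : ∃ k, j' = k + j := ⟨j' - j, by omega⟩
  rw [(pr_It K f).1 k j i]
  have h1 := h K (it f j) (it f k i) (d ^ j) (d ^ k) (Nat.one_le_pow _ _ hd)
    (fun i => AuxBaseUp.deg_le f d j hdg i) (AuxBaseUp.deg_le f d k hdg i)
  have h2 : d ^ (k + j) = d ^ j * d ^ k := by rw [pow_add, mul_comm]
  rw [h2, h1]
  have h3 : ∀ (u : Fin 2 → Pol K) (p : Pol K), eval v (aeval u p) =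
      eval (fun i => eval v (u i)) p := by
    intro u p
    induction p using MvPolynomial.induction_on with
    | C a => simp
    | add p q hp hq => simp only [map_add, hp, hq]
    | mul_X p n hp => simp only [map_mul, hp, aeval_X, eval_X]
  rw [h3]
  have h4 : (fun i => eval v (homogeneousComponent (d ^ j) (it f j i))) = (0 : Fin 2 → K) :=
    funext hv
  rw [h4, eval_zero, constantCoeff_eq, coeff_homogeneousComponent, if_neg]
  rw [map_zero]
  have : 1 ≤ d ^ k := Nat.one_le_pow _ _ hd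
  omega

end Pool.Agent.Work.MP_91e6de_nt.BM

end

section

set_option autoImplicit false

namespace Pool.Agent.Work.MP_91e6de_nt.BM

open MvPolynomial Height Height.AdmissibleAbsValues Filter Topology
open Pool.Agent.Work.MP_91e6de_nt.BL

namespace AuxBz

lemma sum_le (s : Multiset (Fin 2 → ℂ)) (g : (Fin 2 → ℂ) → ℝ) (c : ℝ)
    (h : ∀ z ∈ s, g z ≤ c) : (s.map g).sum ≤ Multiset.card s * c := by
  have h1 := Multiset.sum_le_card_nsmul (s.map g) c (by
    intro x hx
    obtain ⟨z, hz, rfl⟩ := Multiset.mem_map.mp hx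
    exact h z hz)
  rw [Multiset.card_map, nsmul_eq_mul] at h1
  exact h1

end AuxBz

theorem pr_Bz (h1 : S_Crv) (h2 : S_Up1) : S_Bz := by
  intro K _ φ G T hG hGT
  obtain ⟨Z, hZ⟩ := h1 K φ G hG
  obtain ⟨B, hB1, hB⟩ := h2 K φ T
  obtain ⟨C', hC'1, hC'⟩ := hZ.bd
  obtain ⟨C, ρ, hρ1, hpoi⟩ := hZ.poi T hGT
  set q := G.totalDegree with hq
  set D := T.totalDegree with hD
  by_contra hcon
  push Not at hcon
  have hcon' : ((q : ℝ) * D + 1) ≤ Ii G T := by exact_mod_cast hcon
  set E : ℝ := q * (Real.log B + D * Real.log C') + C with hE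
  set L : ℝ := max (E + 1) (Real.log ρ) with hL
  have hL0 : 0 ≤ L := le_trans (Real.log_nonneg hρ1) (le_max_right _ _)
  have hρpos : 0 < ρ := by linarith
  set t : ℂ := ((Real.exp L : ℝ) : ℂ) with ht
  have htn : ‖t‖ = Real.exp L := by
    rw [ht, Complex.norm_real, Real.norm_of_nonneg (Real.exp_pos L).le]
  have hρt : ρ ≤ ‖t‖ := by
    rw [htn, ← Real.log_le_iff_le_exp hρpos]
    exact le_max_right _ _
  obtain ⟨hne, habs⟩ := hpoi t hρt
  have hlogt : Real.log ‖t‖ = L := by rw [htn, Real.log_exp]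
  rw [hlogt] at habs
  have hsum : ((Z t).map (fun z => Real.log ‖eval₂ φ z T‖)).sum ≤
      Multiset.card (Z t) * (Real.log B + D * (Real.log C' + L)) := by
    apply AuxBz.sum_le
    intro z hz
    have h3 : 0 < ‖eval₂ φ z T‖ := norm_pos_iff.mpr (hne z hz)
    have h4 := hB z
    have h5 := (hC' t z hz).1
    have h6 : max ‖t‖ 1 = ‖t‖ := by
      apply max_eq_left
      linarith
    rw [h6] at h5
    have hcn : 0 < cn z := lt_of_lt_of_le one_pos (le_max_right _ _)
    have h7 : Real.log ‖eval₂ φ z T‖ ≤ Real.log (B * cn z ^ D) := Real.log_le_log h3 h4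
    have h8 : Real.log (cn z) ≤ Real.log C' + L := by
      have := Real.log_le_log hcn h5
      rwa [Real.log_mul (by linarith) (by rw [htn]; exact (Real.exp_pos L).ne'), hlogt] at this
    rw [Real.log_mul (by linarith) (pow_pos hcn _).ne', Real.log_pow] at h7
    have h9 : (D : ℝ) * Real.log (cn z) ≤ D * (Real.log C' + L) :=
      mul_le_mul_of_nonneg_left h8 (Nat.cast_nonneg D)
    linarith
  rw [hZ.card t] at hsum
  have h10 : (Ii G T : ℝ) * L ≤ q * (Real.log B + D * (Real.log C' + L)) + C := by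
    have := (abs_le.mp habs).1
    linarith
  have h11 : ((q : ℝ) * D + 1) * L ≤ (Ii G T : ℝ) * L := mul_le_mul_of_nonneg_right hcon' hL0
  have h12 : E + 1 ≤ L := le_max_left _ _
  nlinarith

end Pool.Agent.Work.MP_91e6de_nt.BM

end

section

set_option autoImplicit false

/-!
# MP_91e6de_nt, block BM: item CopU
-/

namespace Pool.Agent.Work.MP_91e6de_nt.BM

open MvPolynomial Height Height.AdmissibleAbsValues Filter Topology
open Pool.Agent.Work.MP_91e6de_nt.BL

namespace AuxCopU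

theorem isUnit_Cc {K : Type} [Field K] {a : K} (ha : a ≠ 0) : IsUnit (C a : Pol K) :=
  (isUnit_iff_ne_zero.2 ha).map C

/-- an infinite set contains three different elements -/
theorem three {α : Type} {S : Set α} (h : S.Infinite) :
    ∃ a ∈ S, ∃ b ∈ S, ∃ c ∈ S, a ≠ b ∧ a ≠ c ∧ b ≠ c := by
  obtain ⟨a, ha⟩ := h.nonempty
  have h1 : (S \ {a}).Infinite := h.sdiff (Set.finite_singleton a)
  obtain ⟨b, hb, hb1⟩ := h1.nonempty
  have h2 : ((S \ {a}) \ {b}).Infinite := h1.sdiff (Set.finite_singleton b)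
  obtain ⟨c, ⟨hc, hc1⟩, hc2⟩ := h2.nonempty
  exact ⟨a, ha, b, hb, c, hc, fun e => hb1 e.symm, fun e => hc1 e.symm, fun e => hc2 e.symm⟩

theorem fin_la {K : Type} [Field K] (u : Fin 2 → Pol K) (p : Pol K) (hp : ¬ IsUnit p) :
    {b : K | p ∣ la b u}.Finite := by
  by_contra hcon
  obtain ⟨a, ha, b, hb, c, hc, hab, hac, hbc⟩ := three hcon
  have key : ∀ a b : K, a ≠ b → p ∣ la a u → p ∣ la b u → p ∣ u 1 + C (a + b) := by
    intro a b hab ha hb
    have h1 := dvd_sub ha hb
    have h2 : la a u - la b u = C (a - b) * (u 1 + C (a + b)) := by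
      unfold la
      simp only [C_sub, C_add, C_pow]
      ring
    rw [h2] at h1
    exact ((isUnit_Cc (sub_ne_zero.2 hab)).dvd_mul_left).1 h1
  have h1 := dvd_sub (key a b hab ha hb) (key a c hac ha hc)
  have h2 : (u 1 + C (a + b)) - (u 1 + C (a + c)) = (C (b - c) : Pol K) := by
    simp only [C_sub, C_add]
    ring
  rw [h2] at h1
  exact hp (isUnit_of_dvd_unit h1 (isUnit_Cc (sub_ne_zero.2 hbc)))

theorem fin_cc {K : Type} [Field K] (Q : Pol K) (p : Pol K) (hp : ¬ IsUnit p) :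
    {c : K | p ∣ Q + C c}.Finite := by
  by_contra hcon
  obtain ⟨a, ha, b, hb, c, hc, hab, hac, hbc⟩ := three hcon
  have h1 := dvd_sub ha hb
  have h2 : (Q + C a) - (Q + C b) = (C (a - b) : Pol K) := by
    simp only [C_sub]
    ring
  rw [h2] at h1
  exact hp (isUnit_of_dvd_unit h1 (isUnit_Cc (sub_ne_zero.2 hab)))

/-- a family of polynomials such that a nonunit divides only finitely many members -/
theorem main {K : Type} [Field K] (G : Pol K) (hG : G ≠ 0) (T : K → Pol K)
    (hT : ∀ p : Pol K, ¬ IsUnit p → {b : K | p ∣ T b}.Finite) :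
    ∃ E : Finset K, ∀ b, b ∉ E → IsRelPrime G (T b) := by
  classical
  have hfin : (⋃ p ∈ {p | p ∈ UniqueFactorizationMonoid.factors G}, {b : K | p ∣ T b}).Finite := by
    refine Set.Finite.biUnion ?_ ?_
    · have h := (UniqueFactorizationMonoid.factors G).toFinset.finite_toSet
      refine h.subset ?_
      intro p hp
      simpa using hp
    · intro p hp
      exact hT p (UniqueFactorizationMonoid.irreducible_of_factor p hp).not_isUnit
  refine ⟨hfin.toFinset, ?_⟩
  intro b hb d hd1 hd2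
  by_contra hd
  have hd0 : d ≠ 0 := fun h => hG (by rw [h] at hd1; exact zero_dvd_iff.1 hd1)
  obtain ⟨i, hi, hid⟩ := WfDvdMonoid.exists_irreducible_factor hd hd0
  obtain ⟨q, hq, hiq⟩ := UniqueFactorizationMonoid.exists_mem_factors_of_dvd hG hi (hid.trans hd1)
  apply hb
  rw [Set.Finite.mem_toFinset, Set.mem_iUnion₂]
  exact ⟨q, hq, (hiq.symm.dvd.trans hid).trans hd2⟩

end AuxCopU

theorem pr_CopU : S_CopU := by
  intro K _ G hG
  refine ⟨fun u => ?_, fun Q => ?_⟩
  · exact AuxCopU.main G hG (fun b => la b u) (fun p hp => AuxCopU.fin_la u p hp)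
  · exact AuxCopU.main G hG (fun c => Q + C c) (fun p hp => AuxCopU.fin_cc Q p hp)

end Pool.Agent.Work.MP_91e6de_nt.BM

end

section

set_option autoImplicit false

namespace Pool.Agent.Work.MP_91e6de_nt.BM

open MvPolynomial Height Height.AdmissibleAbsValues Filter Topology
open Pool.Agent.Work.MP_91e6de_nt.BL

namespace AuxCrv

theorem sum_log_eq {α : Type*} (s : Multiset α) (g : α → ℂ) (h : ∀ a ∈ s, g a ≠ 0) :
    (s.map (fun a => Real.log ‖g a‖)).sum = Real.log ‖(s.map g).prod‖ := by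
  induction s using Multiset.induction_on with
  | empty => simp
  | cons a s ih =>
    have ha : g a ≠ 0 := h a (Multiset.mem_cons_self _ _)
    have hs : ∀ b ∈ s, g b ≠ 0 := fun b hb => h b (Multiset.mem_cons_of_mem hb)
    have hp : (s.map g).prod ≠ 0 := by
      apply Multiset.prod_ne_zero
      intro h0
      obtain ⟨b, hb, hb0⟩ := Multiset.mem_map.1 h0
      exact hs b hb hb0
    rw [Multiset.map_cons, Multiset.sum_cons, Multiset.map_cons, Multiset.prod_cons, norm_mul,
      Real.log_mul (norm_ne_zero_iff.2 ha) (norm_ne_zero_iff.2 hp), ih hs]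

/-- size of the values of a polynomial for large arguments -/
theorem poly_size {K : Type} [Field K] (φ : K →+* ℂ) (R : Polynomial K) (hR : R ≠ 0) :
    ∃ C ρ : ℝ, 1 ≤ ρ ∧ ∀ t : ℂ, ρ ≤ ‖t‖ → R.eval₂ φ t ≠ 0 ∧
      |Real.log ‖R.eval₂ φ t‖ - R.natDegree * Real.log ‖t‖| ≤ C := by
  set n := R.natDegree with hn
  set c : ℂ := φ R.leadingCoeff with hc
  have hc0 : c ≠ 0 := by
    rw [hc, Ne, map_eq_zero]
    exact Polynomial.leadingCoeff_ne_zero.2 hR
  have hcn : 0 < ‖c‖ := norm_pos_iff.2 hc0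
  set S : ℝ := ∑ i ∈ Finset.range n, ‖φ (R.coeff i)‖ with hS
  have hS0 : 0 ≤ S := Finset.sum_nonneg fun i _ => norm_nonneg _
  refine ⟨|Real.log ‖c‖| + Real.log 2, max 1 (2 * S / ‖c‖), le_max_left _ _, fun t ht => ?_⟩
  have ht1 : 1 ≤ ‖t‖ := (le_max_left _ _).trans ht
  have ht2 : 2 * S / ‖c‖ ≤ ‖t‖ := (le_max_right _ _).trans ht
  have ht0 : 0 < ‖t‖ := lt_of_lt_of_le one_pos ht1
  have hev : R.eval₂ φ t = (∑ i ∈ Finset.range n, φ (R.coeff i) * t ^ i) + c * t ^ n := by
    rw [Polynomial.eval₂_eq_sum_range, Finset.sum_range_succ, hc, Polynomial.leadingCoeff, hn]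
  set e : ℂ := ∑ i ∈ Finset.range n, φ (R.coeff i) * t ^ i with he
  have hpn : 0 < ‖t‖ ^ n := pow_pos ht0 n
  have he1 : ‖e‖ * ‖t‖ ≤ S * ‖t‖ ^ n := by
    have h1 : ‖e‖ ≤ ∑ i ∈ Finset.range n, ‖φ (R.coeff i)‖ * ‖t‖ ^ i := by
      refine (norm_sum_le _ _).trans (le_of_eq ?_)
      refine Finset.sum_congr rfl fun i _ => ?_
      rw [norm_mul, norm_pow]
    calc ‖e‖ * ‖t‖ ≤ (∑ i ∈ Finset.range n, ‖φ (R.coeff i)‖ * ‖t‖ ^ i) * ‖t‖ :=
          mul_le_mul_of_nonneg_right h1 ht0.le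
      _ = ∑ i ∈ Finset.range n, ‖φ (R.coeff i)‖ * ‖t‖ ^ (i + 1) := by
          rw [Finset.sum_mul]
          refine Finset.sum_congr rfl fun i _ => ?_
          ring
      _ ≤ ∑ i ∈ Finset.range n, ‖φ (R.coeff i)‖ * ‖t‖ ^ n := by
          refine Finset.sum_le_sum fun i hi => ?_
          refine mul_le_mul_of_nonneg_left ?_ (norm_nonneg _)
          exact pow_le_pow_right₀ ht1 (Finset.mem_range.1 hi)
      _ = S * ‖t‖ ^ n := by rw [← Finset.sum_mul]
  have he2 : ‖e‖ ≤ ‖c‖ / 2 * ‖t‖ ^ n := by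
    have h1 : 2 * S ≤ ‖t‖ * ‖c‖ := by rwa [div_le_iff₀ hcn] at ht2
    have h2 : ‖e‖ * ‖t‖ ≤ (‖c‖ / 2 * ‖t‖ ^ n) * ‖t‖ := by
      refine he1.trans ?_
      nlinarith
    exact le_of_mul_le_mul_right h2 ht0
  have hct : ‖c * t ^ n‖ = ‖c‖ * ‖t‖ ^ n := by rw [norm_mul, norm_pow]
  have hup : ‖R.eval₂ φ t‖ ≤ 2 * (‖c‖ * ‖t‖ ^ n) := by
    rw [hev]
    calc ‖e + c * t ^ n‖ ≤ ‖e‖ + ‖c * t ^ n‖ := norm_add_le _ _
      _ ≤ ‖c‖ / 2 * ‖t‖ ^ n + ‖c‖ * ‖t‖ ^ n := by rw [hct]; linarith
      _ ≤ 2 * (‖c‖ * ‖t‖ ^ n) := by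
          have : 0 < ‖c‖ * ‖t‖ ^ n := mul_pos hcn hpn
          linarith
  have hlo : (‖c‖ * ‖t‖ ^ n) / 2 ≤ ‖R.eval₂ φ t‖ := by
    rw [hev]
    have h1 : ‖c * t ^ n‖ ≤ ‖e + c * t ^ n‖ + ‖e‖ := by
      have : c * t ^ n = (e + c * t ^ n) - e := by ring
      calc ‖c * t ^ n‖ = ‖(e + c * t ^ n) - e‖ := by rw [← this]
        _ ≤ _ := norm_sub_le _ _
    rw [hct] at h1
    linarith
  have hpos : 0 < ‖c‖ * ‖t‖ ^ n := mul_pos hcn hpn
  have hRpos : 0 < ‖R.eval₂ φ t‖ := lt_of_lt_of_le (by positivity) hlo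
  refine ⟨norm_pos_iff.1 hRpos, ?_⟩
  have l1 : Real.log ‖R.eval₂ φ t‖ ≤ Real.log 2 + (Real.log ‖c‖ + n * Real.log ‖t‖) := by
    refine (Real.log_le_log hRpos hup).trans (le_of_eq ?_)
    rw [Real.log_mul (by norm_num) hpos.ne', Real.log_mul hcn.ne' hpn.ne', Real.log_pow]
  have l2 : Real.log ‖c‖ + n * Real.log ‖t‖ - Real.log 2 ≤ Real.log ‖R.eval₂ φ t‖ := by
    refine le_trans (le_of_eq ?_) (Real.log_le_log (by positivity) hlo)
    rw [Real.log_div hpos.ne' (by norm_num), Real.log_mul hcn.ne' hpn.ne', Real.log_pow]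
  have hl2 : 0 ≤ Real.log 2 := Real.log_nonneg (by norm_num)
  rw [abs_le]
  have a1 := neg_abs_le (Real.log ‖c‖)
  have a2 := le_abs_self (Real.log ‖c‖)
  constructor <;> linarith

theorem not_dvd {K : Type} [Field K] (G : Pol K) (q : ℕ) (h : YM G q) : ¬ (X 0 : Pol K) ∣ G := by
  rintro ⟨H, hH⟩
  apply h.2
  rw [hH, coeff_X_mul', if_neg]
  rw [Finsupp.mem_support_iff, not_not, Finsupp.single_apply, if_neg (by decide)]

end AuxCrv

open AuxCrv in
theorem pr_Crv (h1 : S_Rt) (h2 : S_Nm) (h3 : S_Inv) (h4 : S_YMs) : S_Crv := by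
  intro K _ φ G hG
  have : CharZero K := φ.charZero
  obtain ⟨E, hE⟩ := h4.2 K G hG
  obtain ⟨τ, hτ⟩ := Infinite.exists_notMem_finset E
  have hYM := hE τ hτ
  obtain ⟨i1, i2, i3, i4, i5⟩ := h3 K τ
  set G' := sh τ G with hG'
  obtain ⟨C, hC, hrt⟩ := h1 K φ G' G.totalDegree hYM
  set s : ℂ := φ τ with hs
  have hsub : ∀ (t y : ℂ) (u : Pol K),
      eval₂ φ ![t, y] (sh τ u) = eval₂ φ ![t + s * y, y] u := by
    intro t y u
    rw [i5]
    simp [hs]
  refine ⟨fun t => (rt φ G' t).map (fun y => ![t + s * y, y]), ?_, ?_, ?_, ?_, ?_, ?_⟩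
  · intro t
    rw [Multiset.card_map]
    exact (hrt t).1
  · intro t z hz
    obtain ⟨y, hy, rfl⟩ := Multiset.mem_map.1 hz
    rw [← hsub]
    exact ((hrt t).2.1 y).1 hy
  · intro z hz
    refine ⟨z 0 - s * z 1, Multiset.mem_map.2 ⟨z 1, ?_, ?_⟩⟩
    · rw [(hrt _).2.1, hG', hsub]
      have : (![z 0 - s * z 1 + s * z 1, z 1] : Fin 2 → ℂ) = z := by
        funext i
        fin_cases i <;> simp
      rw [this]
      exact hz
    · funext i
      fin_cases i <;> simp
  · refine ⟨(1 + ‖s‖) * C, ?_, ?_⟩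
    · have : 0 ≤ ‖s‖ := norm_nonneg _
      nlinarith
    · intro t z hz
      obtain ⟨y, hy, rfl⟩ := Multiset.mem_map.1 hz
      have hb := (hrt t).2.2 y hy
      have hs0 : 0 ≤ ‖s‖ := norm_nonneg _
      have hcn : ∀ a b : ℂ, cn ![a + s * b, b] ≤ (1 + ‖s‖) * cn ![a, b] := by
        intro a b
        have ha : ‖a‖ ≤ cn ![a, b] := by
          unfold cn; exact (le_max_left _ _).trans (le_max_left _ _)
        have hb : ‖b‖ ≤ cn ![a, b] := by
          unfold cn; exact (le_max_right _ _).trans (le_max_left _ _)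
        have hc : 1 ≤ cn ![a, b] := le_max_right _ _
        have hc0 : 0 ≤ cn ![a, b] := zero_le_one.trans hc
        have h0 : 0 ≤ ‖s‖ * cn ![a, b] := mul_nonneg hs0 hc0
        change max (max ‖a + s * b‖ ‖b‖) 1 ≤ _
        refine max_le (max_le ?_ ?_) ?_
        · calc ‖a + s * b‖ ≤ ‖a‖ + ‖s‖ * ‖b‖ := by
                refine (norm_add_le _ _).trans ?_
                rw [norm_mul]
            _ ≤ cn ![a, b] + ‖s‖ * cn ![a, b] := by
                have := mul_le_mul_of_nonneg_left hb hs0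
                linarith
            _ = (1 + ‖s‖) * cn ![a, b] := by ring
        · linarith
        · linarith
      constructor
      · refine (hcn t y).trans ?_
        calc (1 + ‖s‖) * cn ![t, y] ≤ (1 + ‖s‖) * (C * max ‖t‖ 1) := by
              refine mul_le_mul_of_nonneg_left hb (by linarith)
          _ = (1 + ‖s‖) * C * max ‖t‖ 1 := by ring
      · have ha : ‖t + s * y‖ ≤ cn ![t + s * y, y] := by
          unfold cn; exact (le_max_left _ _).trans (le_max_left _ _)
        have hb' : ‖y‖ ≤ cn ![t + s * y, y] := by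
          unfold cn; exact (le_max_right _ _).trans (le_max_left _ _)
        have hc : 1 ≤ cn ![t + s * y, y] := le_max_right _ _
        have h5 : ‖t‖ ≤ ‖t + s * y‖ + ‖s‖ * ‖y‖ := by
          have : t = (t + s * y) - s * y := by ring
          calc ‖t‖ = ‖(t + s * y) - s * y‖ := by rw [← this]
            _ ≤ ‖t + s * y‖ + ‖s * y‖ := norm_sub_le _ _
            _ = _ := by rw [norm_mul]
        have h6 := mul_le_mul_of_nonneg_left hb' hs0
        have h7 : (1 + ‖s‖) * cn ![t + s * y, y] ≤ (1 + ‖s‖) * C * cn ![t + s * y, y] := by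
          have : 0 ≤ (1 + ‖s‖) * cn ![t + s * y, y] := by positivity
          nlinarith
        linarith
  · refine ⟨X 0 - MvPolynomial.C τ * X 1, ?_, ?_⟩
    · rw [← i3]
      have : sh τ (X 0 - MvPolynomial.C τ * X 1 : Pol K) = X 0 := by
        unfold sh
        rw [map_sub, map_mul, aeval_X, aeval_X, aeval_C]
        simp [MvPolynomial.algebraMap_eq]
      rw [this]
      exact ((Irreducible.isRelPrime_iff_not_dvd (X_prime).irreducible).2
        (not_dvd G' _ hYM)).symm
    · intro t z hz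
      obtain ⟨y, hy, rfl⟩ := Multiset.mem_map.1 hz
      simp [hs]
  · intro T hT
    have hT' : IsRelPrime G' (sh τ T) := (i3 G T).2 hT
    obtain ⟨R, hR0, hRn, hR⟩ := h2 K φ G' G.totalDegree (sh τ T) hYM hT'
    rw [hG', i4] at hRn
    obtain ⟨C', ρ, hρ, hsz⟩ := poly_size φ R hR0
    refine ⟨C', ρ, hρ, fun t ht => ?_⟩
    obtain ⟨hne, hlog⟩ := hsz t ht
    have hprod : R.eval₂ φ t =
        (((rt φ G' t).map (fun y => (![t + s * y, y] : Fin 2 → ℂ))).map
          (fun z => eval₂ φ z T)).prod := by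
      rw [hR t, Multiset.map_map]
      congr 1
      refine Multiset.map_congr rfl fun y _ => ?_
      rw [hsub]
      rfl
    have hnz : ∀ z ∈ (rt φ G' t).map (fun y => (![t + s * y, y] : Fin 2 → ℂ)),
        eval₂ φ z T ≠ 0 := by
      intro z hz h0
      apply hne
      rw [hprod]
      apply Multiset.prod_eq_zero
      exact Multiset.mem_map.2 ⟨z, hz, h0⟩
    refine ⟨hnz, ?_⟩
    rw [sum_log_eq _ (fun z => eval₂ φ z T) hnz, ← hprod, ← hRn]
    exact hlog

end Pool.Agent.Work.MP_91e6de_nt.BM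

end

section

set_option autoImplicit false

/-!
# MP_91e6de_nt, block BM: the degree of the integral norm
-/

namespace Pool.Agent.Work.MP_91e6de_nt.BM

open MvPolynomial Height Height.AdmissibleAbsValues Filter Topology
open Pool.Agent.Work.MP_91e6de_nt.BL

namespace AuxDeg

open scoped nonZeroDivisors

attribute [local instance] FractionRing.liftAlgebra FractionRing.isScalarTower_liftAlgebra

/-- the degree of the integral norm is the rank of the quotient -/
theorem natDegree_intNorm {R B : Type} [CommRing R] [IsDomain R]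
    [IsIntegrallyClosed (Polynomial R)] [CommRing B] [IsDomain B] [IsIntegrallyClosed B]
    [Algebra (Polynomial R) B] [Algebra R B] [IsScalarTower R (Polynomial R) B]
    [Module.Finite (Polynomial R) B] [Module.IsTorsionFree (Polynomial R) B] (u : B)
    (hu : u ≠ 0) :
    (Algebra.intNorm (Polynomial R) B u).natDegree = Module.finrank R (B ⧸ Ideal.span {u}) := by
  classical
  let F := FractionRing R
  let M : Submonoid (Polynomial R) := (R⁰).map (Polynomial.C : R →+* Polynomial R)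
  let iA : Algebra (Polynomial R) (Polynomial F) := Polynomial.algebra R F
  have hA : IsLocalization M (Polynomial F) := Polynomial.isLocalization _ _
  have hM : M ≤ (Polynomial R)⁰ := by
    rintro _ ⟨r, hr, rfl⟩
    exact mem_nonZeroDivisors_of_ne_zero
      (Polynomial.C_ne_zero.mpr (nonZeroDivisors.ne_zero hr))
  let S := Localization (Algebra.algebraMapSubmonoid B M)
  let iS : Algebra (Polynomial F) S := localizationAlgebra M B
  have hS : IsScalarTower (Polynomial R) (Polynomial F) S :=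
    isScalarTower_localizationAlgebra M B
  have hMB : Algebra.algebraMapSubmonoid B M ≤ B⁰ :=
    Submonoid.map_le_of_le_comap _ <| hM.trans
      (nonZeroDivisors_le_comap_nonZeroDivisors_of_injective _
        (FaithfulSMul.algebraMap_injective _ _))
  have : IsDomain S := IsLocalization.isDomain_of_le_nonZeroDivisors _ hMB
  have : IsIntegrallyClosed S :=
    isIntegrallyClosed_of_isLocalization (R := B) S (Algebra.algebraMapSubmonoid B M) hMB
  have : Module.IsTorsionFree (Polynomial F) S :=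
    Module.IsTorsionFree.of_isLocalization (R := Polynomial R) (S := B) hM
  have : Module.Finite (Polynomial F) S := Module.Finite.of_isLocalization (Polynomial R) B M
  have : Module.Free (Polynomial F) S := inferInstance
  have : FiniteDimensional (FractionRing (Polynomial R)) (FractionRing B) :=
    .of_isLocalization (Polynomial R) B (Polynomial R)⁰
  have h1 := Algebra.intNorm_eq_of_isLocalization (Aₘ := Polynomial F) (Bₘ := S) M u
  rw [Algebra.intNorm_eq_norm (Polynomial F) S] at h1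
  have h2 : (Algebra.intNorm (Polynomial R) B u).natDegree =
      (Algebra.norm (Polynomial F) (algebraMap B S u)).natDegree := by
    rw [← h1]
    exact (Polynomial.natDegree_map_eq_of_injective (IsFractionRing.injective R F) _).symm
  have hu' : algebraMap B S u ≠ 0 := by
    intro h
    exact hu ((IsLocalization.injective S hMB) (by rw [h, map_zero]))
  let iF : Algebra F S := ((algebraMap (Polynomial F) S).comp (Polynomial.C)).toAlgebra
  have tF : IsScalarTower F (Polynomial F) S := IsScalarTower.of_algebraMap_eq' rfl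
  have h3 := finrank_quotient_span_eq_natDegree_norm (F := F)
    (Module.Free.chooseBasis (Polynomial F) S) hu'
  rw [h2, ← h3]
  have hC : ∀ r : R, algebraMap R B r = algebraMap (Polynomial R) B (Polynomial.C r) := by
    intro r
    rw [IsScalarTower.algebraMap_apply R (Polynomial R) B, Polynomial.algebraMap_apply,
      Algebra.algebraMap_self, RingHom.id_apply]
  have tR : IsScalarTower R F S := by
    refine IsScalarTower.of_algebraMap_eq (fun r => ?_)
    have e1 : algebraMap F S (algebraMap R F r) = algebraMap (Polynomial F) S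
        (algebraMap (Polynomial R) (Polynomial F) (Polynomial.C r)) := by
      change algebraMap (Polynomial F) S (Polynomial.C (algebraMap R F r)) =
        algebraMap (Polynomial F) S (Polynomial.mapRingHom (algebraMap R F) (Polynomial.C r))
      rw [Polynomial.coe_mapRingHom, Polynomial.map_C]
    rw [e1, ← IsScalarTower.algebraMap_apply (Polynomial R) (Polynomial F) S,
      IsScalarTower.algebraMap_apply (Polynomial R) B S, ← hC,
      ← IsScalarTower.algebraMap_apply R B S]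
  have hJ : Ideal.span {algebraMap B S u} = (Ideal.span {u}).map (algebraMap B S) := by
    rw [Ideal.map_span, Set.image_singleton]
  rw [IsFractionRing.finrank_right_eq (R := R) (S := F), hJ]
  have hl : IsLocalization (Algebra.algebraMapSubmonoid (B ⧸ Ideal.span {u}) R⁰)
      (S ⧸ (Ideal.span {u}).map (algebraMap B S)) := by
    have h5 : IsLocalization (Algebra.algebraMapSubmonoid (B ⧸ Ideal.span {u})
        (Algebra.algebraMapSubmonoid B M)) (S ⧸ (Ideal.span {u}).map (algebraMap B S)) :=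
      inferInstance
    have h6 : Algebra.algebraMapSubmonoid (B ⧸ Ideal.span {u}) R⁰ =
        Algebra.algebraMapSubmonoid (B ⧸ Ideal.span {u}) (Algebra.algebraMapSubmonoid B M) := by
      ext x
      constructor
      · rintro ⟨r, hr, rfl⟩
        refine ⟨algebraMap (Polynomial R) B (Polynomial.C r), ⟨_, ⟨r, hr, rfl⟩, rfl⟩, ?_⟩
        rw [← hC]
        exact (IsScalarTower.algebraMap_apply R B (B ⧸ Ideal.span {u}) r).symm
      · rintro ⟨_, ⟨_, ⟨r, hr, rfl⟩, rfl⟩, rfl⟩
        refine ⟨r, hr, ?_⟩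
        rw [← hC]
        exact IsScalarTower.algebraMap_apply R B (B ⧸ Ideal.span {u}) r
    rw [h6]
    exact h5
  have tQ : IsScalarTower R (B ⧸ Ideal.span {u}) (S ⧸ (Ideal.span {u}).map (algebraMap B S)) := by
    refine IsScalarTower.of_algebraMap_eq (fun r => ?_)
    change Ideal.Quotient.mk _ (algebraMap R S r) =
      Ideal.Quotient.mk _ (algebraMap B S (algebraMap R B r))
    rw [← IsScalarTower.algebraMap_apply R B S]
  have hm := (isLocalizedModule_iff_isLocalization (R := R) (S := R⁰)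
    (A := B ⧸ Ideal.span {u}) (Aₛ := S ⧸ (Ideal.span {u}).map (algebraMap B S))).mpr hl
  exact IsLocalizedModule.finrank_eq R⁰ (IsScalarTower.toAlgHom R (B ⧸ Ideal.span {u})
    (S ⧸ (Ideal.span {u}).map (algebraMap B S))).toLinearMap le_rfl

/-- the rank of the polynomial ring over the subring generated by `p` -/
theorem finrank_comp {K N : Type} [Field K] [CommRing N] [Algebra (Polynomial K) N]
    (p : Polynomial K) (e : N ≃+* Polynomial K)
    (he : ∀ r : Polynomial K, e (algebraMap (Polynomial K) N r) = r.comp p) :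
    Module.finrank (Polynomial K) N = p.natDegree := by
  classical
  have he' : ∀ (r : Polynomial K) (x : N), e (r • x) = r.comp p * e x := by
    intro r x
    rw [Algebra.smul_def, map_mul, he]
  rcases Nat.eq_zero_or_pos p.natDegree with h0 | hn
  · rw [h0]
    apply Module.finrank_eq_zero_of_rank_eq_zero
    rw [rank_eq_zero_iff]
    intro x
    refine ⟨Polynomial.X - Polynomial.C (p.coeff 0), Polynomial.X_sub_C_ne_zero _, ?_⟩
    apply e.injective
    rw [he', map_zero, Polynomial.sub_comp, Polynomial.X_comp, Polynomial.C_comp]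
    conv_lhs => rw [Polynomial.eq_C_of_natDegree_eq_zero h0]
    simp
  · let b : Fin p.natDegree → N := fun i => e.symm (Polynomial.X ^ (i : ℕ))
    have hb : ∀ i, e (b i) = Polynomial.X ^ (i : ℕ) := fun i => e.apply_symm_apply _
    have hli : LinearIndependent (Polynomial K) b := by
      rw [Fintype.linearIndependent_iff]
      intro g hg i
      by_contra hi
      let f : Fin p.natDegree → Polynomial K := fun i => (g i).comp p * Polynomial.X ^ (i : ℕ)
      have hf0 : ∑ i, f i = 0 := by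
        have := congrArg e hg
        rw [map_sum, map_zero] at this
        rw [← this]
        exact Finset.sum_congr rfl fun i _ => by rw [he', hb]
      have hc : ∀ r : Polynomial K, r ≠ 0 → r.comp p ≠ 0 := by
        intro r hr h
        rw [Polynomial.comp_eq_zero_iff] at h
        rcases h with h | ⟨_, h⟩
        · exact hr h
        · rw [h, Polynomial.natDegree_C] at hn
          exact lt_irrefl _ hn
      have hd : ∀ i, f i ≠ 0 → g i ≠ 0 ∧
          (f i).natDegree = (g i).natDegree * p.natDegree + (i : ℕ) := by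
        intro i hi
        have hgi : g i ≠ 0 := by
          rintro h
          apply hi
          simp only [f, h, Polynomial.zero_comp, zero_mul]
        refine ⟨hgi, ?_⟩
        simp only [f]
        rw [Polynomial.natDegree_mul_X_pow _ (hc _ hgi), Polynomial.natDegree_comp]
      have hfi : f i ≠ 0 := mul_ne_zero (hc _ hi) (pow_ne_zero _ Polynomial.X_ne_zero)
      have hs := Polynomial.degree_sum_eq_of_disjoint f Finset.univ (by
        rintro i ⟨_, hi⟩ j ⟨_, hj⟩ hij h
        have h' : (f i).natDegree = (f j).natDegree := Polynomial.natDegree_eq_of_degree_eq h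
        rw [(hd i hi).2, (hd j hj).2] at h'
        apply hij
        have h1 : ((g i).natDegree * p.natDegree + (i : ℕ)) % p.natDegree = i := by
          rw [Nat.mul_add_mod_self_right, Nat.mod_eq_of_lt i.2]
        have h2 : ((g j).natDegree * p.natDegree + (j : ℕ)) % p.natDegree = j := by
          rw [Nat.mul_add_mod_self_right, Nat.mod_eq_of_lt j.2]
        exact Fin.ext (by rw [← h1, ← h2, h']))
      rw [hf0, Polynomial.degree_zero] at hs
      have := Finset.le_sup (f := fun i => (f i).degree) (Finset.mem_univ i)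
      rw [← hs, le_bot_iff, Polynomial.degree_eq_bot] at this
      exact hfi this
    have hC : ∀ (i : ℕ) (a : K), Polynomial.C a • e.symm (Polynomial.X ^ i) =
        e.symm (Polynomial.monomial i a) := by
      intro i a
      apply e.injective
      rw [he', e.apply_symm_apply, e.apply_symm_apply, Polynomial.C_comp,
        Polynomial.C_mul_X_pow_eq_monomial]
    have hsp : ∀ (m : ℕ) (q : Polynomial K), q.natDegree < m →
        e.symm q ∈ Submodule.span (Polynomial K) (Set.range b) := by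
      intro m
      induction m with
      | zero => intro q hq; exact absurd hq (Nat.not_lt_zero _)
      | succ m ih =>
        intro q hq
        have h1 : e.symm q = (Polynomial.X : Polynomial K) • e.symm (q / p) +
            e.symm (q % p) := by
          apply e.injective
          rw [map_add, he', e.apply_symm_apply, e.apply_symm_apply, e.apply_symm_apply,
            Polynomial.X_comp]
          exact (EuclideanDomain.div_add_mod q p).symm
        rw [h1]
        apply Submodule.add_mem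
        · apply Submodule.smul_mem
          by_cases hq0 : q / p = 0
          · rw [hq0, map_zero]
            exact Submodule.zero_mem _
          · apply ih
            have hq1 : q ≠ 0 := by
              rintro rfl
              exact hq0 (by simp)
            have := Polynomial.natDegree_lt_natDegree hq0
              (Polynomial.degree_div_lt hq1 (Polynomial.natDegree_pos_iff_degree_pos.mp hn))
            omega
        · have hm := Polynomial.natDegree_mod_lt q hn.ne'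
          rw [Polynomial.as_sum_range' (q % p) p.natDegree hm, map_sum]
          apply Submodule.sum_mem
          intro i hi
          rw [← hC]
          exact Submodule.smul_mem _ _
            (Submodule.subset_span ⟨⟨i, Finset.mem_range.mp hi⟩, rfl⟩)
    have hsp' : ⊤ ≤ Submodule.span (Polynomial K) (Set.range b) := by
      intro x _
      have := hsp _ (e x) (Nat.lt_succ_self _)
      rwa [e.symm_apply_apply] at this
    rw [Module.finrank_eq_card_basis (Module.Basis.mk hli hsp'), Fintype.card_fin]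

end AuxDeg

/-- the degree of the integral norm of the equation of a curve with polynomial
parametrisation -/
theorem pr_Deg : S_Deg := by
  intro K B _ _ _ _ _ _ _ u p e hu he
  let iR : Algebra (Polynomial K) B :=
    ((algebraMap (Polynomial (Polynomial K)) B).comp Polynomial.C).toAlgebra
  have tR : IsScalarTower (Polynomial K) (Polynomial (Polynomial K)) B :=
    IsScalarTower.of_algebraMap_eq' rfl
  rw [AuxDeg.natDegree_intNorm u hu]
  exact AuxDeg.finrank_comp p e he

end Pool.Agent.Work.MP_91e6de_nt.BM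

end

section

set_option autoImplicit false

namespace Pool.Agent.Work.MP_91e6de_nt.BM

open MvPolynomial Height Height.AdmissibleAbsValues Filter Topology
open Pool.Agent.Work.MP_91e6de_nt.BL

namespace AuxFnIt

theorem comp_eq {K : Type} [Field K] (f : Fin 2 → Pol K) (j : ℕ) :
    (aeval (it f (j + 1)) : Pol K →ₐ[K] Pol K) = (aeval (it f j)).comp (aeval f) := by
  apply MvPolynomial.algHom_ext
  intro i
  rw [aeval_X, AlgHom.comp_apply, aeval_X]
  rfl

theorem int_all {K : Type} [Field K] (g : Fin 2 → Pol K) (h : Fn g) :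
    (aeval g : Pol K →ₐ[K] Pol K).toRingHom.IsIntegral := by
  intro x
  induction x using MvPolynomial.induction_on with
  | C a =>
    have : (C a : Pol K) = (aeval g : Pol K →ₐ[K] Pol K).toRingHom (C a) := by
      change (C a : Pol K) = aeval g (C a)
      rw [← MvPolynomial.algebraMap_eq, AlgHom.commutes]
    rw [this]
    exact RingHom.isIntegralElem_map _
  | add p q hp hq => exact RingHom.IsIntegralElem.add _ hp hq
  | mul_X p i hp => exact RingHom.IsIntegralElem.mul _ hp (h i)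

end AuxFnIt

open AuxFnIt in
theorem pr_FnIt : S_FnIt := by
  intro K _ f hF hinj j
  have key : (aeval (it f j) : Pol K →ₐ[K] Pol K).toRingHom.IsIntegral ∧
      ∀ Φ : Pol K, (aeval (it f j) Φ : Pol K) = 0 → Φ = 0 := by
    induction j with
    | zero =>
      have h0 : (aeval (it f 0) : Pol K →ₐ[K] Pol K) = AlgHom.id K _ := by
        apply MvPolynomial.algHom_ext
        intro i
        rw [aeval_X]
        rfl
      rw [h0]
      refine ⟨fun x => ?_, fun Φ h => h⟩
      exact RingHom.isIntegralElem_map (f := (AlgHom.id K (Pol K)).toRingHom) (x := x)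
    | succ j ih =>
      rw [comp_eq]
      refine ⟨?_, fun Φ h => ?_⟩
      · have h1 : ((aeval (it f j)).comp (aeval f) : Pol K →ₐ[K] Pol K).toRingHom =
            ((aeval (it f j) : Pol K →ₐ[K] Pol K).toRingHom).comp
              ((aeval f : Pol K →ₐ[K] Pol K).toRingHom) := rfl
        rw [h1]
        exact RingHom.IsIntegral.trans _ _ (int_all f hF) ih.1
      · exact hinj _ (ih.2 _ h)
  exact ⟨fun i => key.1 _, key.2⟩

end Pool.Agent.Work.MP_91e6de_nt.BM

end

section

set_option autoImplicit false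

namespace Pool.Agent.Work.MP_91e6de_nt.BM

open MvPolynomial Height Height.AdmissibleAbsValues Filter Topology
open Pool.Agent.Work.MP_91e6de_nt.BL

namespace AuxGen

lemma deg_la {K : Type} [Field K] (b : K) (u : Fin 2 → Pol K) :
    (la b u).totalDegree ≤ max (u 0).totalDegree (u 1).totalDegree := by
  unfold la
  refine (totalDegree_add _ _).trans
    (max_le ((totalDegree_add _ _).trans (max_le (le_max_left _ _) ?_)) ?_)
  · refine (totalDegree_mul _ _).trans ?_
    rw [totalDegree_C, zero_add]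
    exact le_max_right _ _
  · rw [totalDegree_C]
    exact Nat.zero_le _

lemma one_le_cn (z : Fin 2 → ℂ) : 1 ≤ cn z := le_max_right _ _

lemma ev_la {K : Type} [Field K] (φ : K →+* ℂ) (b : K) (u : Fin 2 → Pol K) (z : Fin 2 → ℂ) :
    ‖eval₂ φ z (la b u)‖ ≤ (1 + ‖φ b‖ + ‖φ b‖ ^ 2) * cn (ce φ u z) := by
  have h0 : ‖eval₂ φ z (u 0)‖ ≤ cn (ce φ u z) := (le_max_left _ _).trans (le_max_left _ _)
  have h1 : ‖eval₂ φ z (u 1)‖ ≤ cn (ce φ u z) := (le_max_right _ _).trans (le_max_left _ _)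
  have h2 : 1 ≤ cn (ce φ u z) := one_le_cn _
  have e : eval₂ φ z (la b u) = eval₂ φ z (u 0) + φ b * eval₂ φ z (u 1) + φ b ^ 2 := by
    simp [la, eval₂_add, eval₂_mul]
  rw [e]
  calc ‖eval₂ φ z (u 0) + φ b * eval₂ φ z (u 1) + φ b ^ 2‖
      ≤ ‖eval₂ φ z (u 0)‖ + ‖φ b * eval₂ φ z (u 1)‖ + ‖φ b ^ 2‖ := norm_add₃_le
    _ = ‖eval₂ φ z (u 0)‖ + ‖φ b‖ * ‖eval₂ φ z (u 1)‖ + ‖φ b‖ ^ 2 := by
        rw [norm_mul, norm_pow]
    _ ≤ cn (ce φ u z) + ‖φ b‖ * cn (ce φ u z) + ‖φ b‖ ^ 2 * cn (ce φ u z) := by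
        have := norm_nonneg (φ b)
        have h3 : ‖φ b‖ * ‖eval₂ φ z (u 1)‖ ≤ ‖φ b‖ * cn (ce φ u z) :=
          mul_le_mul_of_nonneg_left h1 this
        have h4 : ‖φ b‖ ^ 2 * 1 ≤ ‖φ b‖ ^ 2 * cn (ce φ u z) :=
          mul_le_mul_of_nonneg_left h2 (by positivity)
        linarith
    _ = (1 + ‖φ b‖ + ‖φ b‖ ^ 2) * cn (ce φ u z) := by ring

end AuxGen

open AuxGen in
theorem pr_Gen (h1 : S_Crv) (h2 : S_Jn) (h3 : S_Bz) (h4 : S_CopU) : S_Gen := by
  classical
  intro K _ φ G u hG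
  have : CharZero K := φ.charZero
  have : Infinite K := CharZero.infinite K
  obtain ⟨E0, hE0⟩ := (h4 K G hG).1 u
  set D := max (u 0).totalDegree (u 1).totalDegree with hD
  have hbd : ∀ b, IsRelPrime G (la b u) → Ii G (la b u) ≤ G.totalDegree * D := fun b hb =>
    (h3 K φ G (la b u) hG hb).trans (Nat.mul_le_mul_left _ (deg_la b u))
  -- the maximum
  obtain ⟨b1, hb1⟩ := Infinite.exists_notMem_finset E0
  have hex : ∃ r, ∃ b, IsRelPrime G (la b u) ∧ Ii G (la b u) = r :=
    ⟨_, b1, hE0 b1 hb1, rfl⟩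
  have hbd' : ∀ r, (∃ b, IsRelPrime G (la b u) ∧ Ii G (la b u) = r) → r ≤ G.totalDegree * D := by
    rintro r ⟨b, hb, rfl⟩
    exact hbd b hb
  obtain ⟨ρ, hρ1, hρ2⟩ : ∃ ρ, (∃ b, IsRelPrime G (la b u) ∧ Ii G (la b u) = ρ) ∧
      ∀ r, (∃ b, IsRelPrime G (la b u) ∧ Ii G (la b u) = r) → r ≤ ρ := by
    refine ⟨Nat.findGreatest (fun r => ∃ b, IsRelPrime G (la b u) ∧ Ii G (la b u) = r)
      (G.totalDegree * D), ?_, ?_⟩
    · obtain ⟨r, hr⟩ := hex
      exact Nat.findGreatest_spec (P := fun r => ∃ b, IsRelPrime G (la b u) ∧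
        Ii G (la b u) = r) (hbd' r hr) hr
    · intro r hr
      exact Nat.le_findGreatest (hbd' r hr) hr
  obtain ⟨b0, hb0, hb0'⟩ := hρ1
  have hle : ∀ b, IsRelPrime G (la b u) → Ii G (la b u) ≤ ρ := fun b hb => hρ2 _ ⟨b, hb, rfl⟩
  refine ⟨ρ, hle, ?_⟩
  by_cases hfin : {b : K | IsRelPrime G (la b u) ∧ Ii G (la b u) < ρ}.Finite
  · refine ⟨E0 ∪ hfin.toFinset, fun b hb => ?_⟩
    rw [Finset.mem_union, not_or] at hb
    have hb2 := hE0 b hb.1
    refine ⟨hb2, le_antisymm (hle b hb2) ?_⟩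
    by_contra hlt
    exact hb.2 (hfin.mem_toFinset.2 ⟨hb2, not_le.1 hlt⟩)
  · exfalso
    obtain ⟨𝒜, h𝒜, hcard⟩ := Set.Infinite.exists_subset_card_eq hfin (2 * G.totalDegree + 1)
    have hρpos : 1 ≤ ρ := by
      have : 𝒜.Nonempty := by
        rw [← Finset.card_pos, hcard]
        omega
      obtain ⟨a, ha⟩ := this
      have := (h𝒜 ha).2
      omega
    obtain ⟨Z, hZ⟩ := h1 K φ G hG
    obtain ⟨C, r1, hr1, hC⟩ := h2 K φ G Z (ρ - 1) u 𝒜 hZ (by omega)
      (fun a ha => ⟨(h𝒜 ha).1, by have := (h𝒜 ha).2; omega⟩)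
    obtain ⟨C', r2, hr2, hC'⟩ := hZ.poi (la b0 u) hb0
    set c0 : ℝ := 1 + ‖φ b0‖ + ‖φ b0‖ ^ 2 with hc0
    have hc0pos : 0 < c0 := by positivity
    -- choose t large
    set B : ℝ := (G.totalDegree : ℝ) * Real.log c0 + C + C' + 1 with hB
    set x : ℝ := max (max r1 r2) (Real.exp B) with hx
    have hx1 : r1 ≤ x := (le_max_left _ _).trans (le_max_left _ _)
    have hx2 : r2 ≤ x := (le_max_right _ _).trans (le_max_left _ _)
    have hx3 : Real.exp B ≤ x := le_max_right _ _
    have hx0 : 0 < x := lt_of_lt_of_le (Real.exp_pos _) hx3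
    have hnx : ‖(x : ℂ)‖ = x := by
      rw [Complex.norm_real, Real.norm_of_nonneg hx0.le]
    have k1 := hC (x : ℂ) (by rw [hnx]; exact hx1)
    obtain ⟨k2, k3⟩ := hC' (x : ℂ) (by rw [hnx]; exact hx2)
    rw [hnx] at k1 k3
    rw [hb0'] at k3
    have k4 := (abs_le.1 k3).1
    -- compare the sums
    have k5 : ((Z (x : ℂ)).map (fun z => Real.log ‖eval₂ φ z (la b0 u)‖)).sum ≤
        ((Z (x : ℂ)).map (fun z => Real.log c0 + Real.log (cn (ce φ u z)))).sum := by
      refine Multiset.sum_map_le_sum_map _ _ fun z hz => ?_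
      rw [← Real.log_mul hc0pos.ne' (by have := one_le_cn (ce φ u z); positivity)]
      exact Real.log_le_log (norm_pos_iff.2 (k2 z hz)) (ev_la φ b0 u z)
    rw [Multiset.sum_map_add, Multiset.map_const', Multiset.sum_replicate, hZ.card,
      nsmul_eq_mul] at k5
    have k6 : B ≤ Real.log x := by
      rw [← Real.log_exp B]
      exact Real.log_le_log (Real.exp_pos _) hx3
    have k7 : ((ρ - 1 : ℕ) : ℝ) = (ρ : ℝ) - 1 := by
      rw [Nat.cast_sub hρpos, Nat.cast_one]
    rw [k7] at k1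
    rw [hB] at k6
    nlinarith [k1, k4, k5, k6]

end Pool.Agent.Work.MP_91e6de_nt.BM

end

section

set_option autoImplicit false

namespace Pool.Agent.Work.MP_91e6de_nt.BM

open MvPolynomial Height Height.AdmissibleAbsValues Filter Topology
open Pool.Agent.Work.MP_91e6de_nt.BL

namespace AuxItIt

variable {K : Type} [Field K]

theorem it_it (f : Fin 2 → Pol K) (j : ℕ) : ∀ n, it (it f j) n = it f (j * n)
  | 0 => by
    rw [Nat.mul_zero]
    rfl
  | n + 1 => by
    funext i
    show aeval (it (it f j) n) (it f j i) = it f (j * (n + 1)) i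
    rw [it_it f j n, Nat.mul_succ, Nat.add_comm, (pr_It K f).1]

theorem orb_it (f : Fin 2 → Pol K) (j : ℕ) (P : Fin 2 → K) :
    ∀ n, orb (it f j) P n = orb f P (j * n)
  | 0 => by
    rw [Nat.mul_zero]
    rfl
  | n + 1 => by
    funext i
    show eval (orb (it f j) P n) (it f j i) = orb f P (j * (n + 1)) i
    rw [orb_it f j P n, Nat.mul_succ, (pr_It K f).2]

end AuxItIt

theorem pr_ItIt : S_ItIt := fun _ _ f j n =>
  ⟨AuxItIt.it_it f j n, fun P => AuxItIt.orb_it f j P n⟩

end Pool.Agent.Work.MP_91e6de_nt.BM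

end
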